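import Pool.Agent.Lib_MP_94fe03_pr.Defs

set_option autoImplicit false

namespace Pool.Agent.BP

open MeasureTheory ProbabilityTheory

variable {ι S : Type}

/-! ### local events -/

theorem Loc.mono {A : Set (ι → S)} {s t : Set ι} (h : Loc A s) (hst : s ⊆ t) : Loc A t :=
  fun σ τ e hσ => h σ τ (fun x hx => e x (hst hx)) hσ

theorem Loc.iff {A : Set (ι → S)} {s : Set ι} (h : Loc A s) {σ τ : ι → S}
    (e : ∀ x ∈ s, σ x = τ x) : σ ∈ A ↔ τ ∈ A :=
  ⟨h σ τ e, h τ σ (fun x hx => (e x hx).symm)⟩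

theorem Loc.compl {A : Set (ι → S)} {s : Set ι} (h : Loc A s) : Loc Aᶜ s :=
  fun _ _ e hσ hτ => hσ ((h.iff e).2 hτ)

theorem Loc.univ (s : Set ι) : Loc (Set.univ : Set (ι → S)) s := fun _ _ _ _ => trivial

theorem Loc.inter {A B : Set (ι → S)} {s t : Set ι} (hA : Loc A s) (hB : Loc B t) :
    Loc (A ∩ B) (s ∪ t) :=
  fun σ τ e hσ => ⟨hA σ τ (fun x hx => e x (Or.inl hx)) hσ.1,
    hB σ τ (fun x hx => e x (Or.inr hx)) hσ.2⟩

theorem Loc.union {A B : Set (ι → S)} {s t : Set ι} (hA : Loc A s) (hB : Loc B t) :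
    Loc (A ∪ B) (s ∪ t) :=
  fun σ τ e hσ => hσ.imp (hA σ τ fun x hx => e x (Or.inl hx))
    (hB σ τ fun x hx => e x (Or.inr hx))

theorem Loc.iInter {κ : Sort*} {A : κ → Set (ι → S)} {s : κ → Set ι} (h : ∀ i, Loc (A i) (s i)) :
    Loc (⋂ i, A i) (⋃ i, s i) := by
  intro σ τ e hσ
  rw [Set.mem_iInter] at hσ ⊢
  exact fun i => h i σ τ (fun x hx => e x (Set.mem_iUnion.2 ⟨i, hx⟩)) (hσ i)

theorem Loc.iUnion {κ : Sort*} {A : κ → Set (ι → S)} {s : κ → Set ι} (h : ∀ i, Loc (A i) (s i)) :
    Loc (⋃ i, A i) (⋃ i, s i) := by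
  intro σ τ e hσ
  rw [Set.mem_iUnion] at hσ ⊢
  obtain ⟨i, hi⟩ := hσ
  exact ⟨i, h i σ τ (fun x hx => e x (Set.mem_iUnion.2 ⟨i, hx⟩)) hi⟩

theorem Loc.biInter {κ : Type*} {I : Set κ} {A : κ → Set (ι → S)} {s : κ → Set ι}
    (h : ∀ i ∈ I, Loc (A i) (s i)) : Loc (⋂ i ∈ I, A i) (⋃ i ∈ I, s i) :=
  Loc.iInter fun i => Loc.iInter fun hi => h i hi

theorem Loc.biUnion {κ : Type*} {I : Set κ} {A : κ → Set (ι → S)} {s : κ → Set ι}
    (h : ∀ i ∈ I, Loc (A i) (s i)) : Loc (⋃ i ∈ I, A i) (⋃ i ∈ I, s i) :=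
  Loc.iUnion fun i => Loc.iUnion fun hi => h i hi

theorem Loc.coord (x : ι) (B : Set S) : Loc {σ : ι → S | σ x ∈ B} {x} := by
  intro σ τ e hσ
  have : σ x = τ x := e x rfl
  simpa [this] using hσ

/-- a local event as the preimage of an event on finitely many coordinates -/
theorem Loc.eq_preimage {A : Set (ι → S)} {s : Finset ι} (h : Loc A (s : Set ι)) :
    A = (s.restrict : (ι → S) → (s → S)) ⁻¹' ((s.restrict : (ι → S) → (s → S)) '' A) := by
  ext σ
  constructor
  · intro hσ; exact ⟨σ, hσ, rfl⟩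
  · rintro ⟨τ, hτ, e⟩
    refine h τ σ (fun x hx => ?_) hτ
    have := congrFun e ⟨x, hx⟩
    simpa using this

variable [MeasurableSpace S]

theorem Loc.measurableSet [Finite S] [DiscreteMeasurableSpace S] {A : Set (ι → S)} {s : Set ι}
    (hs : s.Finite) (h : Loc A s) : MeasurableSet A := by
  lift s to Finset ι using hs
  rw [h.eq_preimage]
  have : Measurable (s.restrict : (ι → S) → (s → S)) := by fun_prop
  exact this (MeasurableSet.of_discrete)

variable (ν : Measure S) [IsProbabilityMeasure ν]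

instance : IsProbabilityMeasure (PM (ι := ι) ν) := by unfold PM; infer_instance

theorem PM_coord [DiscreteMeasurableSpace S] (x : ι) (B : Set S) :
    (PM ν).real {σ : ι → S | σ x ∈ B} = ν.real B := by
  have h := (measurePreserving_eval_infinitePi (fun _ : ι => ν) x).measure_preimage
    (MeasurableSet.of_discrete (s := B)).nullMeasurableSet
  unfold PM
  rw [measureReal_def, measureReal_def, ← h]
  rfl

theorem PM_indep [Finite S] [DiscreteMeasurableSpace S] {A B : Set (ι → S)} {s t : Set ι}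
    (hs : s.Finite) (ht : t.Finite) (hA : Loc A s) (hB : Loc B t) (hd : Disjoint s t) :
    (PM ν).real (A ∩ B) = (PM ν).real A * (PM ν).real B := by
  classical
  lift s to Finset ι using hs
  lift t to Finset ι using ht
  have hd' : Disjoint s t := by exact_mod_cast hd
  have hind : iIndepFun (fun (i : ι) (σ : ι → S) => σ i) (PM (ι := ι) ν) := by
    have := iIndepFun_infinitePi (P := fun _ : ι => ν) (X := fun _ : ι => (id : S → S))
      (fun i => measurable_id)
    exact this
  have h2 := hind.indepFun_finset s t hd' (fun i => measurable_pi_apply i)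
  have h3 := h2.measure_inter_preimage_eq_mul
    ((s.restrict : (ι → S) → (s → S)) '' A) ((t.restrict : (ι → S) → (t → S)) '' B)
    MeasurableSet.of_discrete MeasurableSet.of_discrete
  have eA : A = (fun (a : ι → S) (i : s) => a i) ⁻¹' ((s.restrict : (ι → S) → (s → S)) '' A) :=
    hA.eq_preimage
  have eB : B = (fun (a : ι → S) (i : t) => a i) ⁻¹' ((t.restrict : (ι → S) → (t → S)) '' B) :=
    hB.eq_preimage
  rw [← eA, ← eB] at h3
  rw [measureReal_def, measureReal_def, measureReal_def, h3, ENNReal.toReal_mul]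

theorem PM_prod [Finite S] [DiscreteMeasurableSpace S] {κ : Type*} (I : Finset κ)
    (A : κ → Set (ι → S)) (s : κ → Set ι) (hs : ∀ i ∈ I, (s i).Finite)
    (h : ∀ i ∈ I, Loc (A i) (s i)) (hd : ∀ i ∈ I, ∀ j ∈ I, i ≠ j → Disjoint (s i) (s j)) :
    (PM ν).real (⋂ i ∈ I, A i) = ∏ i ∈ I, (PM ν).real (A i) := by
  classical
  induction I using Finset.induction_on with
  | empty => simp
  | insert i I hi ih =>
    rw [Finset.prod_insert hi, ← ih (fun j hj => hs j (Finset.mem_insert_of_mem hj))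
      (fun j hj => h j (Finset.mem_insert_of_mem hj))
      (fun j hj k hk => hd j (Finset.mem_insert_of_mem hj) k (Finset.mem_insert_of_mem hk)),
      Finset.set_biInter_insert]
    refine PM_indep ν (t := ⋃ j ∈ (I : Set κ), s j) (hs i (Finset.mem_insert_self _ _)) ?_
      (h i (Finset.mem_insert_self _ _)) ?_ ?_
    · exact Set.Finite.biUnion I.finite_toSet fun j hj =>
        hs j (Finset.mem_insert_of_mem (Finset.mem_coe.1 hj))
    · exact Loc.biInter (I := (I : Set κ)) fun j hj =>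
        h j (Finset.mem_insert_of_mem (Finset.mem_coe.1 hj))
    · rw [Set.disjoint_iUnion₂_right]
      intro j hj
      refine hd i (Finset.mem_insert_self _ _) j
        (Finset.mem_insert_of_mem (Finset.mem_coe.1 hj)) ?_
      rintro rfl
      exact hi (Finset.mem_coe.1 hj)

/-- change of index -/
theorem PM_reindex (g : ι ≃ ι) (A : Set (ι → S)) :
    (PM ν).real {σ : ι → S | (fun x => σ (g x)) ∈ A} = (PM ν).real A := by
  have h := Measure.infinitePi_map_piCongrLeft (fun _ : ι => ν) g.symm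
  have h2 : (MeasurableEquiv.piCongrLeft (fun _ : ι => S) g.symm) ⁻¹' A
      = {σ : ι → S | (fun x => σ (g x)) ∈ A} := by
    ext σ
    simp only [Set.mem_preimage, Set.mem_ofPred_eq]
    have : (MeasurableEquiv.piCongrLeft (fun _ : ι => S) g.symm) σ = fun x => σ (g x) := by
      ext x
      simp [MeasurableEquiv.piCongrLeft, Equiv.piCongrLeft]
    rw [this]
  unfold PM
  rw [measureReal_def, measureReal_def, ← h2, ← MeasurableEquiv.map_apply]
  congr 2

/-- image under a labelling of the states: outer measure inequality -/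
theorem PM_map_le {S' : Type} [MeasurableSpace S'] (f : S → S') (hf : Measurable f)
    [IsProbabilityMeasure (ν.map f)] (A : Set (ι → S')) :
    (PM ν).real {σ : ι → S | (fun x => f (σ x)) ∈ A} ≤ (PM (ν.map f)).real A := by
  have h := Measure.infinitePi_map_pi (μ := fun _ : ι => ν) (f := fun _ : ι => f) (fun _ => hf)
  have hm : Measurable (fun (σ : ι → S) (x : ι) => f (σ x)) := by fun_prop
  have h3 := Measure.le_map_apply hm.aemeasurable A (μ := PM (ι := ι) ν)
  have h4 : (PM (ι := ι) ν).map (fun (σ : ι → S) (x : ι) => f (σ x)) = PM (ν.map f) := by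
    unfold PM
    exact h
  rw [h4] at h3
  rw [measureReal_def, measureReal_def]
  exact ENNReal.toReal_mono (measure_ne_top _ _) h3

/-- union bound over a finite set -/
theorem real_biUnion_le {Ω κ : Type*} [MeasurableSpace Ω] (P : Measure Ω) [IsFiniteMeasure P]
    (I : Finset κ) (A : κ → Set Ω) : P.real (⋃ i ∈ I, A i) ≤ ∑ i ∈ I, P.real (A i) := by
  exact measureReal_biUnion_finset_le I A

theorem one_sub_le_real {Ω : Type*} [MeasurableSpace Ω] (P : Measure Ω) [IsProbabilityMeasure P]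
    (A : Set Ω) : 1 - P.real Aᶜ ≤ P.real A := by
  have h1 : P.real (A ∪ Aᶜ) ≤ P.real A + P.real Aᶜ := measureReal_union_le _ _
  rw [Set.union_compl_self] at h1
  have : P.real Set.univ = 1 := by simp
  linarith

end Pool.Agent.BP
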