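import Pool.Agent.Lib_MP_94fe03_pr.Base

set_option autoImplicit false

namespace Pool.Agent.BP

open MeasureTheory ProbabilityTheory

/-! Bernoulli fields: elementary probabilities. -/

theorem toNNReal_add_symm (p : unitInterval) :
    unitInterval.toNNReal p + unitInterval.toNNReal (unitInterval.symm p) = 1 := by
  ext
  change (p : ℝ) + (1 - (p : ℝ)) = 1
  ring

instance bern_prob (p : unitInterval) : IsProbabilityMeasure (bern p) := by
  constructor
  unfold bern
  rw [Measure.add_apply, Measure.smul_apply, Measure.smul_apply]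
  simp only [measure_univ]
  rw [ENNReal.smul_def, ENNReal.smul_def, smul_eq_mul, smul_eq_mul, mul_one, mul_one,
    ← ENNReal.coe_add, toNNReal_add_symm]
  rfl

theorem bern_true (p : unitInterval) : (bern p).real {true} = p := by
  unfold bern
  rw [measureReal_def, Measure.add_apply, Measure.smul_apply, Measure.smul_apply]
  simp [ENNReal.smul_def]

theorem bern_false (p : unitInterval) : (bern p).real {false} = 1 - p := by
  unfold bern
  rw [measureReal_def, Measure.add_apply, Measure.smul_apply, Measure.smul_apply]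
  simp [ENNReal.smul_def]

variable {ι : Type} (p : unitInterval)

/-- prescribed values on a finite set -/
theorem PM_pattern [DecidableEq ι] (s t : Finset ι) (h : t ⊆ s) :
    (PM (bern p)).real {c : ι → Bool | ∀ i ∈ s, (c i = true ↔ i ∈ t)} =
      (p : ℝ) ^ t.card * (1 - (p : ℝ)) ^ (s.card - t.card) := by
  classical
  have h1 := PM_prod (bern p) s (fun i => {c : ι → Bool | c i ∈ ({b | b = true ↔ i ∈ t} : Set Bool)})
    (fun i => {i}) (fun i _ => Set.finite_singleton i) (fun i _ => Loc.coord i _)
    (fun i _ j _ hij => by simpa using hij)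
  have e : {c : ι → Bool | ∀ i ∈ s, (c i = true ↔ i ∈ t)} =
      ⋂ i ∈ s, {c : ι → Bool | c i ∈ ({b | b = true ↔ i ∈ t} : Set Bool)} := by
    ext c; simp
  rw [e, h1]
  have h2 : ∀ i ∈ s, (PM (bern p)).real {c : ι → Bool | c i ∈ ({b | b = true ↔ i ∈ t} : Set Bool)}
      = if i ∈ t then (p : ℝ) else 1 - (p : ℝ) := by
    intro i _
    rw [PM_coord]
    by_cases hi : i ∈ t
    · have : ({b | b = true ↔ i ∈ t} : Set Bool) = {true} := by ext b; simp [hi]
      rw [this, bern_true]; simp [hi]
    · have : ({b | b = true ↔ i ∈ t} : Set Bool) = {false} := by ext b; simp [hi]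
      rw [this, bern_false]; simp [hi]
  rw [Finset.prod_congr rfl h2, Finset.prod_ite, Finset.prod_const, Finset.prod_const]
  congr 2
  · congr 1
    ext i; simp only [Finset.mem_filter]; exact ⟨fun h => h.2, fun h' => ⟨h h', h'⟩⟩
  · have : (s.filter fun i => i ∉ t) = s \ t := by ext i; simp
    rw [this, Finset.card_sdiff_of_subset h]

theorem PM_all_true (s : Finset ι) :
    (PM (bern p)).real {c : ι → Bool | ∀ i ∈ s, c i = true} = (p : ℝ) ^ s.card := by
  classical
  have h := PM_pattern p s s (Finset.Subset.refl _)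
  simp only [Nat.sub_self, pow_zero, mul_one] at h
  rw [← h]
  congr 1
  ext c
  simp +contextual

theorem PM_all_false (s : Finset ι) :
    (PM (bern p)).real {c : ι → Bool | ∀ i ∈ s, c i = false} = (1 - (p : ℝ)) ^ s.card := by
  classical
  have h := PM_pattern p s ∅ (Finset.empty_subset _)
  simp only [Finset.card_empty, Nat.sub_zero, pow_zero, one_mul] at h
  rw [← h]
  congr 1
  ext c
  simp

/-- upper bound for the probability of at least `k` occupied sites in `s` -/
theorem PM_tail (s : Finset ι) (k : ℕ) :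
    (PM (bern p)).real {c : ι → Bool | k ≤ (s.filter fun i => c i = true).card} ≤
      (s.card.choose k : ℝ) * (p : ℝ) ^ k := by
  classical
  have hsub : {c : ι → Bool | k ≤ (s.filter fun i => c i = true).card} ⊆
      ⋃ t ∈ s.powersetCard k, {c : ι → Bool | ∀ i ∈ t, c i = true} := by
    intro c hc
    obtain ⟨t, ht, hk⟩ := Finset.exists_subset_card_eq hc
    simp only [Set.mem_iUnion]
    refine ⟨t, Finset.mem_powersetCard.2 ⟨ht.trans (Finset.filter_subset _ _), hk⟩, fun i hi => ?_⟩
    exact (Finset.mem_filter.1 (ht hi)).2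
  calc (PM (bern p)).real {c : ι → Bool | k ≤ (s.filter fun i => c i = true).card}
      ≤ (PM (bern p)).real (⋃ t ∈ s.powersetCard k, {c : ι → Bool | ∀ i ∈ t, c i = true}) :=
        measureReal_mono hsub (measure_ne_top _ _)
    _ ≤ ∑ t ∈ s.powersetCard k, (PM (bern p)).real {c : ι → Bool | ∀ i ∈ t, c i = true} :=
        real_biUnion_le _ _ _
    _ = ∑ t ∈ s.powersetCard k, (p : ℝ) ^ k := by
        refine Finset.sum_congr rfl fun t ht => ?_
        rw [PM_all_true, (Finset.mem_powersetCard.1 ht).2]
    _ = (s.card.choose k : ℝ) * (p : ℝ) ^ k := by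
        rw [Finset.sum_const, Finset.card_powersetCard, nsmul_eq_mul]

/-- probability of exactly `k` occupied sites in `s` -/
theorem PM_count (s : Finset ι) (k : ℕ) :
    (PM (bern p)).real {c : ι → Bool | (s.filter fun i => c i = true).card = k} =
      (s.card.choose k : ℝ) * (p : ℝ) ^ k * (1 - (p : ℝ)) ^ (s.card - k) := by
  classical
  have e : {c : ι → Bool | (s.filter fun i => c i = true).card = k} =
      ⋃ t ∈ s.powersetCard k, {c : ι → Bool | ∀ i ∈ s, (c i = true ↔ i ∈ t)} := by
    ext c
    simp only [Set.mem_ofPred_eq, Set.mem_iUnion, Finset.mem_powersetCard, exists_prop]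
    constructor
    · intro h
      refine ⟨s.filter fun i => c i = true, ⟨Finset.filter_subset _ _, h⟩, fun i hi => ?_⟩
      simp [hi]
    · rintro ⟨t, ⟨ht, hk⟩, h⟩
      rw [← hk]
      congr 1
      ext i
      simp only [Finset.mem_filter]
      exact ⟨fun h' => (h i h'.1).1 h'.2, fun h' => ⟨ht h', (h i (ht h')).2 h'⟩⟩
  rw [e, measureReal_biUnion_finset]
  · calc ∑ t ∈ s.powersetCard k, (PM (bern p)).real {c : ι → Bool | ∀ i ∈ s, (c i = true ↔ i ∈ t)}
        = ∑ t ∈ s.powersetCard k, (p : ℝ) ^ k * (1 - (p : ℝ)) ^ (s.card - k) := by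
          refine Finset.sum_congr rfl fun t ht => ?_
          obtain ⟨h1, h2⟩ := Finset.mem_powersetCard.1 ht
          rw [PM_pattern p s t h1, h2]
      _ = _ := by rw [Finset.sum_const, Finset.card_powersetCard, nsmul_eq_mul, mul_assoc]
  · intro t ht t' ht' hne
    rw [Function.onFun, Set.disjoint_left]
    intro c hc hc'
    apply hne
    obtain ⟨h1, _⟩ := Finset.mem_powersetCard.1 (Finset.mem_coe.1 ht)
    obtain ⟨h2, _⟩ := Finset.mem_powersetCard.1 (Finset.mem_coe.1 ht')
    ext i
    constructor
    · intro hi; exact (hc' i (h1 hi)).1 ((hc i (h1 hi)).2 hi)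
    · intro hi; exact (hc i (h2 hi)).1 ((hc' i (h2 hi)).2 hi)
  · intro t _
    refine Loc.measurableSet (s := (s : Set ι)) s.finite_toSet ?_
    intro c c' e hc i hi
    rw [← e i (Finset.mem_coe.2 hi)]
    exact hc i hi

/-- counting events are local -/
theorem Loc.count (s : Finset ι) (P : ℕ → Prop) :
    Loc {c : ι → Bool | P (s.filter fun i => c i = true).card} (s : Set ι) := by
  intro c c' e hc
  have : (s.filter fun i => c i = true) = s.filter fun i => c' i = true := by
    apply Finset.filter_congr
    intro i hi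
    rw [e i (Finset.mem_coe.2 hi)]
  simpa [this] using hc

end Pool.Agent.BP
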