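import Pool.Agent.Lib_MP_94fe03_pr.Base

set_option autoImplicit false

namespace Pool.Agent.BP

open MeasureTheory ProbabilityTheory

/-- the loss event only depends on the sites of a strip -/
theorem lossPath_mono {pol pol' opn opn' : Set Z2} (h1 : pol ⊆ pol') (h2 : opn' ⊆ opn)
    {x0 u0 x u : ℤ} (h : LossPath pol opn x0 u0 x u) : LossPath pol' opn' x0 u0 x u := by
  induction h with
  | start => exact LossPath.start
  | skip _ ih => exact LossPath.skip ih
  | jump t _ hp ho ih =>
    refine LossPath.jump t ih (h1 hp) ?_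
    rcases ho with ho | ho
    · exact Or.inl fun y hy hy' h => ho y hy hy' (h2 h)
    · exact Or.inr fun y hy hy' h => ho y hy hy' (h2 h)

theorem lossPath_ge {pol opn : Set Z2} {x0 u0 x u : ℤ} (h : LossPath pol opn x0 u0 x u) :
    x0 ≤ x ∧ u0 ≤ u := by
  induction h with
  | start => exact ⟨le_rfl, le_rfl⟩
  | skip _ ih => exact ⟨by omega, ih.2⟩
  | jump t _ _ _ ih => exact ⟨by omega, by omega⟩

theorem lossPath_congr_aux {pol pol' opn opn' : Set Z2} {x0 u0 x1 : ℤ} {u : ℤ}
    (h : LossPath pol opn x0 u0 x1 u) :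
    ∀ k : ℤ, (∀ z : Z2, x0 < z.1 → z.1 ≤ x1 → u0 ≤ z.2 → z.2 ≤ k → (z ∈ pol ↔ z ∈ pol')) →
      (∀ z : Z2, x0 < z.1 → z.1 ≤ x1 + 1 → u0 ≤ z.2 → z.2 ≤ k → (z ∈ opn ↔ z ∈ opn')) →
      u ≤ k + 1 → LossPath pol' opn' x0 u0 x1 u := by
  induction h with
  | start => exact fun _ _ _ _ => LossPath.start
  | skip _ ih =>
    intro k hp ho hu
    exact LossPath.skip (ih k (fun z h1 h2 h3 h4 => hp z h1 (by omega) h3 h4)
      (fun z h1 h2 h3 h4 => ho z h1 (by omega) h3 h4) hu)
  | @jump x u t hl hpol hopn ih =>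
    intro k hp ho hu
    have hge := lossPath_ge hl
    refine LossPath.jump t (ih k (fun z h1 h2 h3 h4 => hp z h1 (by omega) h3 h4)
      (fun z h1 h2 h3 h4 => ho z h1 (by omega) h3 h4) (by omega)) ?_ ?_
    · exact (hp _ (by simp only; omega) (by simp only; omega) (by simp only; omega)
        (by simp only; omega)).1 hpol
    · rcases hopn with h | h
      · left
        intro y hy hy' hc
        exact h y hy hy' ((ho _ (by simp only; omega) (by simp only; omega) (by simp only; omega)
          (by simp only; omega)).2 hc)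
      · right
        intro y hy hy' hc
        exact h y hy hy' ((ho _ (by simp only; omega) (by simp only; omega) (by simp only; omega)
          (by simp only; omega)).2 hc)

theorem lossPath_congr {pol pol' opn opn' : Set Z2} {x0 u0 x1 : ℤ} {k : ℤ}
    (hp : ∀ z : Z2, x0 < z.1 → z.1 ≤ x1 → u0 ≤ z.2 → z.2 ≤ k → (z ∈ pol ↔ z ∈ pol'))
    (ho : ∀ z : Z2, x0 < z.1 → z.1 ≤ x1 + 1 → u0 ≤ z.2 → z.2 ≤ k → (z ∈ opn ↔ z ∈ opn'))
    {u : ℤ} (hu : u ≤ k + 1) (h : LossPath pol opn x0 u0 x1 u) :
    LossPath pol' opn' x0 u0 x1 u :=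
  lossPath_congr_aux h k hp ho hu

/-- the path event -/
def lossE (x0 u0 : ℤ) (j k : ℕ) : Set (Z2 → Lab) :=
  {σ | LossPath (isPol σ) (isOpn σ) x0 u0 (x0 + j) (u0 + k)}

theorem lossE_loc (x0 u0 : ℤ) (j k : ℕ) : Loc (lossE x0 u0 j k)
    (Set.Ioc x0 (x0 + j + 1) ×ˢ Set.Ico u0 (u0 + k)) := by
  intro σ τ e h
  refine lossPath_congr (k := u0 + k - 1) ?_ ?_ (by omega) h
  · intro z h1 h2 h3 h4
    have := e z ⟨⟨h1, by omega⟩, ⟨h3, by omega⟩⟩
    simp only [isPol, Set.mem_ofPred_eq, this]
  · intro z h1 h2 h3 h4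
    have := e z ⟨⟨h1, by omega⟩, ⟨h3, by omega⟩⟩
    simp only [isOpn, Set.mem_ofPred_eq, this]

/-- no open site in a piece of a column, and a polluted site in the next row -/
def lossD (x c u : ℤ) (t : ℕ) : Set (Z2 → Lab) :=
  {σ | ((x, u + t) : Z2) ∈ isPol σ ∧ ∀ y : ℤ, u ≤ y → y < u + t → ((c, y) : Z2) ∉ isOpn σ}

theorem lossD_loc (x c u : ℤ) (t : ℕ) : Loc (lossD x c u t)
    (({x, c} : Set ℤ) ×ˢ Set.Icc u (u + t)) := by
  rintro σ τ e ⟨h1, h2⟩
  refine ⟨?_, ?_⟩
  · have := e (x, u + t) ⟨by simp, ⟨by simp, le_rfl⟩⟩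
    simpa only [isPol, Set.mem_ofPred_eq, this] using h1
  · intro y hy hy'
    have := e (c, y) ⟨by simp, ⟨hy, hy'.le⟩⟩
    have h3 := h2 y hy hy'
    simpa only [isOpn, Set.mem_ofPred_eq, this] using h3

theorem lossD_prob (ν : Measure Lab) [IsProbabilityMeasure ν] {p q : ℝ}
    (hp1 : p ≤ 1) (hq : ν.real {Lab.P} ≤ q) (ho : p ≤ ν.real {Lab.O, Lab.S})
    (x c u : ℤ) (t : ℕ) : (PM ν).real (lossD x c u t) ≤ q * (1 - p) ^ t := by
  have hset : lossD x c u t = ⋂ i ∈ Finset.range (t + 1),
      (if i < t then {σ : Z2 → Lab | σ (c, u + i) ∈ ({Lab.O, Lab.S}ᶜ : Set Lab)}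
        else {σ : Z2 → Lab | σ (x, u + t) ∈ ({Lab.P} : Set Lab)}) := by
    ext σ
    simp only [lossD, isPol, isOpn, Set.mem_ofPred_eq, Set.mem_iInter, Finset.mem_range]
    constructor
    · rintro ⟨h1, h2⟩ i hi
      by_cases hit : i < t
      · rw [if_pos hit]
        have := h2 (u + i) (by omega) (by omega)
        simpa using this
      · rw [if_neg hit]
        simpa using h1
    · intro h
      constructor
      · have := h t (by omega)
        rw [if_neg (lt_irrefl t)] at this
        simpa using this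
      · intro y hy hy'
        have := h (y - u).toNat (by omega)
        rw [if_pos (by omega)] at this
        have e : u + ((y - u).toNat : ℤ) = y := by omega
        rw [e] at this
        simpa using this
  rw [hset, PM_prod ν (Finset.range (t + 1)) _
    (fun i => if i < t then {((c, u + i) : Z2)} else {((x, u + t) : Z2)})]
  · rw [Finset.prod_range_succ, if_neg (lt_irrefl t), PM_coord]
    have hc : ν.real ({Lab.O, Lab.S}ᶜ : Set Lab) ≤ 1 - p := by
      rw [measureReal_compl MeasurableSet.of_discrete]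
      simp only [probReal_univ]
      linarith
    have hprod : ∏ i ∈ Finset.range t, (PM ν).real
        (if i < t then {σ : Z2 → Lab | σ (c, u + i) ∈ ({Lab.O, Lab.S}ᶜ : Set Lab)}
          else {σ : Z2 → Lab | σ (x, u + t) ∈ ({Lab.P} : Set Lab)}) ≤ (1 - p) ^ t := by
      calc _ ≤ ∏ i ∈ Finset.range t, (1 - p) := by
            refine Finset.prod_le_prod (fun _ _ => measureReal_nonneg) fun i hi => ?_
            rw [if_pos (Finset.mem_range.1 hi), PM_coord]
            exact hc
        _ = (1 - p) ^ t := by simp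
    rw [mul_comm]
    exact mul_le_mul hq hprod (Finset.prod_nonneg fun _ _ => measureReal_nonneg)
      (measureReal_nonneg.trans hq)
  · intro i _
    split_ifs <;> exact Set.finite_singleton _
  · intro i _
    split_ifs
    · exact Loc.coord _ _
    · exact Loc.coord _ _
  · intro i hi j hj hij
    rw [Finset.mem_range] at hi hj
    rw [Set.disjoint_left]
    intro z h1 h2
    split_ifs at h1 h2 with h3 h4 h4
    · rw [Set.mem_singleton_iff] at h1 h2
      rw [h1] at h2
      have := (Prod.mk.inj h2).2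
      omega
    · rw [Set.mem_singleton_iff] at h1 h2
      rw [h1] at h2
      have := (Prod.mk.inj h2).2
      omega
    · rw [Set.mem_singleton_iff] at h1 h2
      rw [h1] at h2
      have := (Prod.mk.inj h2).2
      omega
    · omega

theorem lossE_succ (x0 u0 : ℤ) (j k : ℕ) : lossE x0 u0 (j + 1) k ⊆ lossE x0 u0 j k ∪
    ⋃ t ∈ Finset.range k, ((lossE x0 u0 j (k - t - 1) ∩
      lossD (x0 + j + 1) (x0 + j + 1) (u0 + (k - t - 1 : ℕ)) t) ∪ (lossE x0 u0 j (k - t - 1) ∩
      lossD (x0 + j + 1) (x0 + j + 2) (u0 + (k - t - 1 : ℕ)) t)) := by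
  intro σ hσ
  have hσ' : LossPath (isPol σ) (isOpn σ) x0 u0 (x0 + ((j + 1 : ℕ) : ℤ)) (u0 + k) := hσ
  generalize hX : x0 + ((j + 1 : ℕ) : ℤ) = X at hσ'
  generalize hU : u0 + (k : ℤ) = U at hσ'
  cases hσ' with
  | start => push_cast at hX; omega
  | @skip x u hl =>
    left
    have e : x = x0 + j := by push_cast at hX; omega
    subst e
    show LossPath (isPol σ) (isOpn σ) x0 u0 (x0 + j) (u0 + k)
    rw [hU]
    exact hl
  | @jump x u t hl hpol hopn =>
    right
    have hge := lossPath_ge hl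
    have e : x = x0 + j := by push_cast at hX; omega
    subst e
    have ht : t < k := by omega
    have eu : u = u0 + ((k - t - 1 : ℕ) : ℤ) := by omega
    subst eu
    rw [Set.mem_iUnion₂]
    refine ⟨t, Finset.mem_range.2 ht, ?_⟩
    rcases hopn with h | h
    · left
      exact ⟨hl, hpol, h⟩
    · right
      exact ⟨hl, hpol, h⟩

theorem lossE_prob (ν : Measure Lab) [IsProbabilityMeasure ν] (p q : ℝ) (hp0 : 0 < p)
    (hp1 : p ≤ 1) (hq : ν.real {Lab.P} ≤ q) (ho : p ≤ ν.real {Lab.O, Lab.S})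
    (x0 u0 : ℤ) (j k : ℕ) :
    (PM ν).real (lossE x0 u0 j k) ≤ (1 - p / 2) ^ k * Real.exp (8 * q / p * j) := by
  have hq0 : 0 ≤ q := measureReal_nonneg.trans hq
  have hβ : 1 / 2 ≤ 1 - p / 2 := by linarith
  have hβ0 : 0 < 1 - p / 2 := by linarith
  induction j generalizing k with
  | zero =>
    rcases Nat.eq_zero_or_pos k with rfl | hk
    · simp only [pow_zero, Nat.cast_zero, mul_zero, Real.exp_zero, mul_one]
      exact measureReal_le_one
    · have : lossE x0 u0 0 k = ∅ := by
        ext σ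
        simp only [Set.mem_empty_iff_false, iff_false]
        intro hσ
        have hσ' : LossPath (isPol σ) (isOpn σ) x0 u0 (x0 + ((0 : ℕ) : ℤ)) (u0 + k) := hσ
        generalize hX : x0 + ((0 : ℕ) : ℤ) = X at hσ'
        generalize hU : u0 + (k : ℤ) = U at hσ'
        cases hσ' with
        | start => omega
        | skip hl => have := lossPath_ge hl; push_cast at hX; omega
        | jump t hl _ _ => have := lossPath_ge hl; push_cast at hX; omega
      rw [this, measureReal_empty]
      positivity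
  | succ j ih =>
    have hstep : (PM ν).real (lossE x0 u0 (j + 1) k) ≤ (PM ν).real (lossE x0 u0 j k) +
        ∑ t ∈ Finset.range k, 2 * q * (1 - p) ^ t * (PM ν).real (lossE x0 u0 j (k - t - 1)) := by
      refine (measureReal_mono (lossE_succ x0 u0 j k) (measure_ne_top _ _)).trans ?_
      refine (measureReal_union_le _ _).trans ?_
      refine add_le_add le_rfl ?_
      refine (real_biUnion_le _ _ _).trans ?_
      refine Finset.sum_le_sum fun t _ => ?_
      refine (measureReal_union_le _ _).trans ?_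
      have hone : ∀ c : ℤ, (c = x0 + j + 1 ∨ c = x0 + j + 2) →
          (PM ν).real (lossE x0 u0 j (k - t - 1) ∩
            lossD (x0 + j + 1) c (u0 + (k - t - 1 : ℕ)) t) ≤
          q * (1 - p) ^ t * (PM ν).real (lossE x0 u0 j (k - t - 1)) := by
        intro c _
        rw [PM_indep ν ?_ ?_ (lossE_loc x0 u0 j (k - t - 1))
          (lossD_loc (x0 + j + 1) c (u0 + (k - t - 1 : ℕ)) t) ?_]
        · rw [mul_comm]
          exact mul_le_mul_of_nonneg_right (lossD_prob ν hp1 hq ho _ _ _ _) measureReal_nonneg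
        · exact (Set.finite_Ioc _ _).prod (Set.finite_Ico _ _)
        · exact (Set.toFinite _).prod (Set.finite_Icc _ _)
        · rw [Set.disjoint_left]
          rintro z ⟨_, h2⟩ ⟨_, h4⟩
          have := h2.2
          have := h4.1
          omega
      have h1 := hone _ (Or.inl rfl)
      have h2 := hone _ (Or.inr rfl)
      linarith
    have hgeo : ∀ k : ℕ, ∑ t ∈ Finset.range k, 2 * q * (1 - p) ^ t * (1 - p / 2) ^ (k - t - 1) ≤
        (8 * q / p) * (1 - p / 2) ^ k := by
      intro k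
      have hterm : ∀ t ∈ Finset.range k, 2 * q * (1 - p) ^ t * (1 - p / 2) ^ (k - t - 1) ≤
          4 * q * (1 - p / 2) ^ k * (1 - p / 2) ^ t := by
        intro t ht
        rw [Finset.mem_range] at ht
        have h1 : (1 - p) ^ t ≤ (1 - p / 2) ^ (2 * t) := by
          rw [pow_mul]
          exact pow_le_pow_left₀ (by linarith) (by nlinarith) t
        have h2 : (1 - p / 2) ^ (k - t - 1) ≤ 2 * ((1 - p / 2) ^ (k - t)) := by
          have e : k - t = (k - t - 1) + 1 := by omega
          rw [e, pow_succ, Nat.add_sub_cancel]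
          have : 0 ≤ (1 - p / 2) ^ (k - t - 1) := by positivity
          nlinarith
        have e2 : (1 - p / 2) ^ (2 * t) * (1 - p / 2) ^ (k - t) =
            (1 - p / 2) ^ k * (1 - p / 2) ^ t := by
          rw [← pow_add, ← pow_add]
          congr 1
          omega
        calc 2 * q * (1 - p) ^ t * (1 - p / 2) ^ (k - t - 1)
            ≤ 2 * q * (1 - p / 2) ^ (2 * t) * (2 * (1 - p / 2) ^ (k - t)) := by
              apply mul_le_mul _ h2 (by positivity) (by positivity)
              exact mul_le_mul_of_nonneg_left h1 (by positivity)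
          _ = 4 * q * ((1 - p / 2) ^ (2 * t) * (1 - p / 2) ^ (k - t)) := by ring
          _ = 4 * q * (1 - p / 2) ^ k * (1 - p / 2) ^ t := by rw [e2]; ring
      refine (Finset.sum_le_sum hterm).trans ?_
      rw [← Finset.mul_sum]
      have hg : ∑ t ∈ Finset.range k, (1 - p / 2) ^ t ≤ 2 / p := by
        rw [geom_sum_eq (by linarith)]
        have e : ((1 - p / 2) ^ k - 1) / ((1 - p / 2) - 1) = (1 - (1 - p / 2) ^ k) * (2 / p) := by
          rw [show (1 - p / 2) - 1 = -(p / 2) by ring]
          field_simp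
          ring
        rw [e]
        have h0 : 0 ≤ (1 - p / 2) ^ k := by positivity
        exact mul_le_of_le_one_left (by positivity) (by linarith)
      calc 4 * q * (1 - p / 2) ^ k * ∑ t ∈ Finset.range k, (1 - p / 2) ^ t
          ≤ 4 * q * (1 - p / 2) ^ k * (2 / p) := mul_le_mul_of_nonneg_left hg (by positivity)
        _ = (8 * q / p) * (1 - p / 2) ^ k := by ring
    calc (PM ν).real (lossE x0 u0 (j + 1) k) ≤ (PM ν).real (lossE x0 u0 j k) +
        ∑ t ∈ Finset.range k, 2 * q * (1 - p) ^ t * (PM ν).real (lossE x0 u0 j (k - t - 1)) := hstep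
      _ ≤ (1 - p / 2) ^ k * Real.exp (8 * q / p * j) +
        ∑ t ∈ Finset.range k, 2 * q * (1 - p) ^ t *
          ((1 - p / 2) ^ (k - t - 1) * Real.exp (8 * q / p * j)) := by
          refine add_le_add (ih k) (Finset.sum_le_sum fun t _ => ?_)
          refine mul_le_mul_of_nonneg_left (ih _) ?_
          have : 0 ≤ 1 - p := by linarith
          positivity
      _ = ((1 - p / 2) ^ k + ∑ t ∈ Finset.range k, 2 * q * (1 - p) ^ t *
          (1 - p / 2) ^ (k - t - 1)) * Real.exp (8 * q / p * j) := by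
          rw [add_mul, Finset.sum_mul]
          congr 1
          refine Finset.sum_congr rfl fun t _ => ?_
          ring
      _ ≤ ((1 - p / 2) ^ k + (8 * q / p) * (1 - p / 2) ^ k) * Real.exp (8 * q / p * j) := by
          refine mul_le_mul_of_nonneg_right (add_le_add le_rfl (hgeo k)) (Real.exp_pos _).le
      _ = (1 - p / 2) ^ k * ((8 * q / p + 1) * Real.exp (8 * q / p * j)) := by ring
      _ ≤ (1 - p / 2) ^ k * (Real.exp (8 * q / p) * Real.exp (8 * q / p * j)) := by
          refine mul_le_mul_of_nonneg_left ?_ (by positivity)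
          exact mul_le_mul_of_nonneg_right (Real.add_one_le_exp _) (Real.exp_pos _).le
      _ = (1 - p / 2) ^ k * Real.exp (8 * q / p * ((j + 1 : ℕ) : ℝ)) := by
          rw [← Real.exp_add]
          congr 2
          push_cast
          ring

/-- large total losses are unlikely -/
theorem lossPath_prob (ν : Measure Lab) [IsProbabilityMeasure ν] (p q : ℝ) (hp0 : 0 < p)
    (hp1 : p ≤ 1) (hq : ν.real {Lab.P} ≤ q) (ho : p ≤ ν.real {Lab.O, Lab.S})
    (x0 u0 : ℤ) (W T : ℕ) :
    (PM ν).real {σ : Z2 → Lab | ∃ u, u0 + T ≤ u ∧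
      LossPath (isPol σ) (isOpn σ) x0 u0 (x0 + W) u} ≤
      (2 / p) * Real.exp (8 * q / p * W) * (1 - p / 2) ^ T := by
  have hq0 : 0 ≤ q := measureReal_nonneg.trans hq
  have hβ0 : 0 < 1 - p / 2 := by linarith
  have hβ1 : 1 - p / 2 < 1 := by linarith
  have hsub : {σ : Z2 → Lab | ∃ u, u0 + T ≤ u ∧
      LossPath (isPol σ) (isOpn σ) x0 u0 (x0 + W) u} ⊆ ⋃ i : ℕ, lossE x0 u0 W (T + i) := by
    rintro σ ⟨u, hu, h⟩
    rw [Set.mem_iUnion]
    refine ⟨(u - u0 - T).toNat, ?_⟩
    have e : u0 + ((T + (u - u0 - T).toNat : ℕ) : ℤ) = u := by push_cast; omega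
    show LossPath (isPol σ) (isOpn σ) x0 u0 (x0 + W) (u0 + ((T + (u - u0 - T).toNat : ℕ) : ℤ))
    rw [e]
    exact h
  have hb : ∀ i : ℕ, (PM ν).real (lossE x0 u0 W (T + i)) ≤
      ((1 - p / 2) ^ T * Real.exp (8 * q / p * W)) * (1 - p / 2) ^ i := by
    intro i
    refine (lossE_prob ν p q hp0 hp1 hq ho x0 u0 W (T + i)).trans (le_of_eq ?_)
    rw [pow_add]
    ring
  have hs : HasSum (fun i : ℕ => ((1 - p / 2) ^ T * Real.exp (8 * q / p * W)) * (1 - p / 2) ^ i)
      (((1 - p / 2) ^ T * Real.exp (8 * q / p * W)) * (1 - (1 - p / 2))⁻¹) :=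
    (hasSum_geometric_of_lt_one hβ0.le hβ1).mul_left _
  have hle : (PM ν) (⋃ i : ℕ, lossE x0 u0 W (T + i)) ≤
      ENNReal.ofReal (((1 - p / 2) ^ T * Real.exp (8 * q / p * W)) * (1 - (1 - p / 2))⁻¹) := by
    refine (measure_iUnion_le _).trans ?_
    rw [← hs.tsum_eq, ENNReal.ofReal_tsum_of_nonneg (fun i => by positivity) hs.summable]
    refine ENNReal.tsum_le_tsum fun i => ?_
    rw [← ofReal_measureReal (measure_ne_top _ _)]
    exact ENNReal.ofReal_le_ofReal (hb i)
  refine (measureReal_mono hsub (measure_ne_top _ _)).trans ?_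
  rw [measureReal_def]
  refine (ENNReal.toReal_mono ENNReal.ofReal_ne_top hle).trans ?_
  rw [ENNReal.toReal_ofReal (by
    have : 0 ≤ (1 - (1 - p / 2))⁻¹ := inv_nonneg.2 (by linarith)
    positivity)]
  refine le_of_eq ?_
  have : (1 - (1 - p / 2))⁻¹ = 2 / p := by
    rw [show 1 - (1 - p / 2) = p / 2 by ring, inv_div]
  rw [this]
  ring

end Pool.Agent.BP
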