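import Pool.Agent.Lib_MP_94fe03_pr.GrowR
import Pool.Agent.Lib_MP_94fe03_pr.LossProb

set_option autoImplicit false

namespace Pool.Agent.BP

open MeasureTheory ProbabilityTheory

/-- core of the block `b` of side `16m` -/
def core (m : ℕ) (b : Z2) : Set Z2 :=
  {y | b.1 * (16 * m) + 2 * m ≤ y.1 ∧ y.1 < b.1 * (16 * m) + 14 * m ∧
    b.2 * (16 * m) + 2 * m ≤ y.2 ∧ y.2 < b.2 * (16 * m) + 14 * m}

/-- all sites of the core that are not polluted get filled -/
def Full (m : ℕ) (σ : Z2 → Lab) (b : Z2) : Prop := ∀ y ∈ core m b, σ y ≠ Lab.P → FilL σ y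

namespace Block

/-! ### frames -/

theorem nb_symm' {x y : Z2} (h : Nb x y) : Nb y x := by
  rcases h with h | h
  · exact Or.inl ⟨h.1.symm, by rw [abs_sub_comm]; exact h.2⟩
  · exact Or.inr ⟨h.1.symm, by rw [abs_sub_comm]; exact h.2⟩

theorem fil_frame {g : Z2 → Z2} (hi : Function.Injective g) (hg : ∀ x y, Nb x y → Nb (g x) (g y))
    {σ : Z2 → Lab} {z : Z2} (h : FilL (fun x => σ (g x)) z) : FilL σ (g z) := by
  unfold FilL at h ⊢
  induction h with
  | seed h => exact Fil.seed h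
  | one h1 h2 _ ih => exact Fil.one h1 (hg _ _ h2) ih
  | two h1 hne h2 h3 _ _ ih1 ih2 =>
    exact Fil.two h1 (fun h => hne (hi h)) (hg _ _ h2) (hg _ _ h3) ih1 ih2

theorem fil_frame' (g : Z2 ≃ Z2) (hg : ∀ x y, Nb (g x) (g y) → Nb x y)
    {σ : Z2 → Lab} {z : Z2} (h : FilL σ (g z)) : FilL (fun x => σ (g x)) z := by
  have h1 : FilL (fun x => (fun y => σ (g y)) (g.symm x)) (g z) := by
    have : (fun x => (fun y => σ (g y)) (g.symm x)) = σ := by
      funext x; simp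
    rw [this]; exact h
  have h2 := fil_frame (g := g.symm) (σ := fun y => σ (g y)) g.symm.injective
    (fun x y hxy => hg _ _ (by simpa using hxy)) h1
  simpa using h2

/-- reflection -/
def rf : Z2 ≃ Z2 where
  toFun z := (z.1, -z.2)
  invFun z := (z.1, -z.2)
  left_inv z := by simp
  right_inv z := by simp

/-- swap -/
def sw : Z2 ≃ Z2 where
  toFun z := (z.2, z.1)
  invFun z := (z.2, z.1)
  left_inv z := by simp
  right_inv z := by simp

/-- downwards -/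
def dn : Z2 ≃ Z2 where
  toFun z := (z.2, -z.1)
  invFun z := (-z.2, z.1)
  left_inv z := by simp
  right_inv z := by simp

/-- bounded version of the absence of large losses -/
def NL (m : ℕ) (σ : Z2 → Lab) (x0 u0 : ℤ) (W : ℕ) : Prop :=
  ∀ u, u ≤ u0 + 2 * m → LossPath (isPol σ) (isOpn σ) x0 u0 (x0 + W) u → u ≤ u0 + m

theorem loss_ge {pol opn : Set Z2} {x0 u0 x u : ℤ} (h : LossPath pol opn x0 u0 x u) :
    x0 ≤ x ∧ u0 ≤ u := by
  induction h with
  | start => exact ⟨le_refl _, le_refl _⟩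
  | skip _ ih => exact ⟨by omega, ih.2⟩
  | jump t _ _ _ ih => exact ⟨by omega, by omega⟩

theorem loss_skip {pol opn : Set Z2} {x0 u0 x u : ℤ} (h : LossPath pol opn x0 u0 x u) (k : ℕ) :
    LossPath pol opn x0 u0 (x + k) u := by
  induction k with
  | zero => simpa using h
  | succ k ih =>
    have := LossPath.skip ih
    rw [show x + ((k + 1 : ℕ) : ℤ) = x + k + 1 by push_cast; ring]
    exact this

theorem loss_unbd {m W : ℕ} {σ : Z2 → Lab} {x0 u0 : ℤ} (hNL : NL m σ x0 u0 W)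
    (hseg : ∀ x y : ℤ, x0 < x → x ≤ x0 + W + 1 → u0 ≤ y → y ≤ u0 + m →
      ∃ k : ℕ, k < m ∧ ((x, y + k) : Z2) ∈ isOpn σ) {x u : ℤ}
    (h : LossPath (isPol σ) (isOpn σ) x0 u0 x u) : x ≤ x0 + W → u ≤ u0 + m := by
  induction h with
  | start => intro _; omega
  | skip _ ih => intro h; exact ih (by omega)
  | @jump x u t hp hpol hno ih =>
    intro hx
    have hu := ih (by omega)
    obtain ⟨hx0, hu0⟩ := loss_ge hp
    have ht : t < m := by
      by_contra hcon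
      rw [not_lt] at hcon
      rcases hno with hno | hno
      · obtain ⟨k, hk, hko⟩ := hseg (x + 1) u (by omega) (by omega) hu0 hu
        exact hno (u + k) (by omega) (by omega) hko
      · obtain ⟨k, hk, hko⟩ := hseg (x + 2) u (by omega) (by omega) hu0 hu
        exact hno (u + k) (by omega) (by omega) hko
    have h2 := LossPath.jump t hp hpol hno
    obtain ⟨k, hk⟩ := Int.eq_ofNat_of_zero_le (show 0 ≤ x0 + W - (x + 1) by omega)
    have h3 := loss_skip h2 k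
    rw [show x + 1 + (k : ℤ) = x0 + W by omega] at h3
    exact hNL _ (by omega) h3

/-- growth in a frame -/
theorem grow_frame {m W : ℕ} (hm : 0 < m) {σ : Z2 → Lab} {x0 u0 v0 : ℤ}
    (hlen : u0 + 5 * m ≤ v0)
    (hsep : ∀ x y x' y' : ℤ, x0 ≤ x → x ≤ x0 + W + 2 → u0 ≤ y → y ≤ v0 →
      x0 ≤ x' → x' ≤ x0 + W + 2 → u0 ≤ y' → y' ≤ v0 → σ (x, y) = Lab.P →
      σ (x', y') = Lab.P → |x - x'| ≤ 2 → x = x' ∧ y = y')
    (hseg : ∀ x y : ℤ, x0 ≤ x → x ≤ x0 + W + 2 → u0 ≤ y → y + m ≤ v0 + 1 →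
      ∃ k : ℕ, k < m ∧ ((x, y + k) : Z2) ∈ isOpn σ)
    (h1 : NL m σ x0 u0 W) (h2 : NL m (fun z => σ (rf z)) x0 (-v0) W)
    (hstart : ∀ y : ℤ, u0 ≤ y → y ≤ v0 → σ (x0 + 1, y) ≠ Lab.P → FilL σ (x0 + 1, y)) :
    ∀ x y : ℤ, x0 + 1 ≤ x → x ≤ x0 + W → u0 + m ≤ y → y ≤ v0 - m → σ (x, y) ≠ Lab.P →
      FilL σ (x, y) := by
  refine grow_right (pol := isPol σ) (opn := isOpn σ) (seed := isSd σ) ?_ hm (by omega) hsep hseg
    ?_ ?_ hstart
  · intro z hz hz'
    change σ z = Lab.P at hz'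
    rcases hz with h | h
    · rw [hz'] at h; cases h
    · rw [hz'] at h; cases h
  · intro u hu
    exact loss_unbd h1 (fun x y hx hx' hy hy' => hseg x y (by omega) (by omega) hy (by omega)) hu
      (le_refl _)
  · intro u hu
    refine loss_unbd (σ := fun z => σ (rf z)) h2 (fun x y hx hx' hy hy' => ?_) hu (le_refl _)
    obtain ⟨k, hk, hko⟩ := hseg x (-y - m + 1) (by omega) (by omega) (by omega) (by omega)
    refine ⟨m - 1 - k, by omega, ?_⟩
    have : ((x, y + ((m - 1 - k : ℕ) : ℤ)) : Z2) ∈ isOpn (fun z => σ (rf z)) ↔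
        ((x, -(y + ((m - 1 - k : ℕ) : ℤ))) : Z2) ∈ isOpn σ := Iff.rfl
    rw [this, show -(y + ((m - 1 - k : ℕ) : ℤ)) = -y - m + 1 + k by omega]
    exact hko

/-- the box -/
def InB (m : ℕ) (x y : ℤ) : Prop := 0 ≤ x ∧ x ≤ 34 * m ∧ 0 ≤ y ∧ y < 16 * m

/-- separation of the polluted sites -/
def Sep (m : ℕ) (σ : Z2 → Lab) : Prop := ∀ x y x' y' : ℤ, InB m x y → InB m x' y' →
  σ (x, y) = Lab.P → σ (x', y') = Lab.P → (|x - x'| ≤ 2 ∨ |y - y'| ≤ 2) → x = x' ∧ y = y'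

/-- open sites on all vertical segments -/
def SegV (m : ℕ) (σ : Z2 → Lab) : Prop := ∀ x y : ℤ, InB m x y → InB m x (y + m - 1) →
  ∃ k : ℕ, k < m ∧ ((x, y + k) : Z2) ∈ isOpn σ

/-- open sites on all horizontal segments -/
def SegH (m : ℕ) (σ : Z2 → Lab) : Prop := ∀ x y : ℤ, InB m x y → InB m (x + m - 1) y →
  ∃ k : ℕ, k < m ∧ ((x + k, y) : Z2) ∈ isOpn σ

/-- good configurations -/
structure Good0 (m : ℕ) (σ : Z2 → Lab) : Prop where
  sep : Sep m σ
  segv : SegV m σ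
  segh : SegH m σ
  l1 : NL m σ (14 * m - 2) (2 * m) (18 * m + 2)
  l2 : NL m (fun z => σ (rf z)) (14 * m - 2) (-(14 * m - 1)) (18 * m + 2)
  l3 : NL m (fun z => σ (sw z)) (13 * m - 2) (2 * m) (m + 1)
  l4 : NL m (fun z => σ (sw (rf z))) (13 * m - 2) (-(32 * m)) (m + 1)
  l5 : NL m (fun z => σ (dn z)) (-(3 * m) - 1) (2 * m) (m + 1)
  l6 : NL m (fun z => σ (dn (rf z))) (-(3 * m) - 1) (-(32 * m)) (m + 1)

theorem nb_sw (x y : Z2) : Nb (sw x) (sw y) ↔ Nb x y := by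
  unfold Nb sw
  simp only [Equiv.coe_fn_mk]
  tauto

theorem nb_dn (x y : Z2) : Nb (dn x) (dn y) ↔ Nb x y := by
  unfold Nb dn
  simp only [Equiv.coe_fn_mk]
  rw [show -x.1 - -y.1 = -(x.1 - y.1) by ring, abs_neg, neg_inj]
  tauto

theorem good0_step {m : ℕ} (hm : 0 < m) {σ : Z2 → Lab} (hG : Good0 m σ) (hF : Full m σ (0, 0)) :
    Full m σ (1, 0) := by
  have hcore : ∀ x y : ℤ, 2 * m ≤ x → x < 14 * m → 2 * m ≤ y → y < 14 * m → σ (x, y) ≠ Lab.P →
      FilL σ (x, y) := by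
    intro x y h1 h2 h3 h4 hne
    refine hF (x, y) ?_ hne
    simp only [core, Set.mem_ofPred_eq]
    omega
  -- growth to the right
  have hA : ∀ x y : ℤ, 14 * m - 1 ≤ x → x ≤ 32 * m → 3 * m ≤ y → y ≤ 13 * m - 1 →
      σ (x, y) ≠ Lab.P → FilL σ (x, y) := by
    intro x y h1 h2 h3 h4 hne
    refine grow_frame (W := 18 * m + 2) hm (σ := σ) (x0 := 14 * m - 2) (u0 := 2 * m)
      (v0 := 14 * m - 1) (by omega) ?_ ?_ hG.l1 hG.l2 ?_ x y (by omega) (by push_cast; omega)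
      (by omega) (by omega) hne
    · intro x y x' y' a1 a2 a3 a4 a5 a6 a7 a8 p1 p2 hd
      push_cast at a2 a6
      exact hG.sep x y x' y' ⟨by omega, by omega, by omega, by omega⟩
        ⟨by omega, by omega, by omega, by omega⟩ p1 p2 (Or.inl hd)
    · intro x y a1 a2 a3 a4
      push_cast at a2
      exact hG.segv x y ⟨by omega, by omega, by omega, by omega⟩
        ⟨by omega, by omega, by omega, by omega⟩
    · intro y a1 a2 hne
      rw [show (14 : ℤ) * m - 2 + 1 = 14 * m - 1 by ring] at hne ⊢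
      exact hcore _ _ (by omega) (by omega) (by omega) (by omega) hne
  -- growth upwards
  have hB : ∀ x y : ℤ, 13 * m - 1 ≤ y → y ≤ 14 * m - 1 → 3 * m ≤ x → x ≤ 31 * m →
      σ (x, y) ≠ Lab.P → FilL σ (x, y) := by
    intro x y h1 h2 h3 h4 hne
    have key := grow_frame (W := m + 1) hm (σ := fun z => σ (sw z)) (x0 := 13 * m - 2)
      (u0 := 2 * m) (v0 := 32 * m) (by omega) ?_ ?_ hG.l3 hG.l4 ?_ y x (by omega)
      (by push_cast; omega) (by omega) (by omega) hne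
    · exact fil_frame (g := sw) sw.injective (fun x y h => (nb_sw x y).2 h) key
    · intro x y x' y' a1 a2 a3 a4 a5 a6 a7 a8 p1 p2 hd
      push_cast at a2 a6
      have := hG.sep y x y' x' ⟨by omega, by omega, by omega, by omega⟩
        ⟨by omega, by omega, by omega, by omega⟩ p1 p2 (Or.inr hd)
      exact ⟨this.2, this.1⟩
    · intro x y a1 a2 a3 a4
      push_cast at a2
      exact hG.segh y x ⟨by omega, by omega, by omega, by omega⟩
        ⟨by omega, by omega, by omega, by omega⟩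
    · intro y a1 a2 hne
      apply fil_frame' sw (fun x y h => (nb_sw x y).1 h)
      change σ (y, 13 * m - 2 + 1) ≠ Lab.P at hne
      change FilL σ (y, 13 * m - 2 + 1)
      rw [show (13 : ℤ) * m - 2 + 1 = 13 * m - 1 by ring] at hne ⊢
      rcases lt_or_ge y (14 * m - 1) with h | h
      · exact hcore _ _ (by omega) (by omega) (by omega) (by omega) hne
      · exact hA _ _ (by omega) (by omega) (by omega) (by omega) hne
  -- growth downwards
  have hC : ∀ x y : ℤ, 2 * m ≤ y → y ≤ 3 * m → 3 * m ≤ x → x ≤ 31 * m →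
      σ (x, y) ≠ Lab.P → FilL σ (x, y) := by
    intro x y h1 h2 h3 h4 hne
    have hd1 : dn (-y, x) = (x, y) := by simp [dn]
    have key := grow_frame (W := m + 1) hm (σ := fun z => σ (dn z)) (x0 := -(3 * m) - 1)
      (u0 := 2 * m) (v0 := 32 * m) (by omega) ?_ ?_ hG.l5 hG.l6 ?_ (-y) x (by omega)
      (by push_cast; omega) (by omega) (by omega) (by rw [hd1]; exact hne)
    · have := fil_frame (g := dn) dn.injective (fun x y h => (nb_dn x y).2 h) key
      rwa [hd1] at this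
    · intro x y x' y' a1 a2 a3 a4 a5 a6 a7 a8 p1 p2 hd
      push_cast at a2 a6
      have := hG.sep y (-x) y' (-x') ⟨by omega, by omega, by omega, by omega⟩
        ⟨by omega, by omega, by omega, by omega⟩ p1 p2
        (Or.inr (by rw [show -x - -x' = -(x - x') by ring, abs_neg]; exact hd))
      exact ⟨by omega, this.1⟩
    · intro x y a1 a2 a3 a4
      push_cast at a2
      exact hG.segh y (-x) ⟨by omega, by omega, by omega, by omega⟩
        ⟨by omega, by omega, by omega, by omega⟩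
    · intro y a1 a2 hne
      apply fil_frame' dn (fun x y h => (nb_dn x y).1 h)
      change σ (y, -(-(3 * m) - 1 + 1)) ≠ Lab.P at hne
      change FilL σ (y, -(-(3 * m) - 1 + 1))
      rw [show -(-(3 * (m : ℤ)) - 1 + 1) = 3 * m by ring] at hne ⊢
      rcases lt_or_ge y (14 * m - 1) with h | h
      · exact hcore _ _ (by omega) (by omega) (by omega) (by omega) hne
      · exact hA _ _ (by omega) (by omega) (by omega) (by omega) hne
  rintro ⟨x, y⟩ hy hne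
  simp only [core, Set.mem_ofPred_eq] at hy
  obtain ⟨h1, h2, h3, h4⟩ := hy
  rcases le_or_gt y (3 * m) with h | h
  · exact hC _ _ (by omega) (by omega) (by omega) (by omega) hne
  · rcases le_or_gt y (13 * m - 1) with h' | h'
    · exact hA _ _ (by omega) (by omega) (by omega) (by omega) hne
    · exact hB _ _ (by omega) (by omega) (by omega) (by omega) hne

/-! ### monotonicity and locality -/

theorem NL.mono {m W : ℕ} {σ σ' : Z2 → Lab} {x0 u0 : ℤ} (h : ∀ y, σ' y = σ y ∨ σ' y = Lab.S)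
    (hN : NL m σ x0 u0 W) : NL m σ' x0 u0 W := by
  intro u hu hp
  refine hN u hu (lossPath_mono ?_ ?_ hp)
  · intro z hz
    change σ' z = Lab.P at hz
    change σ z = Lab.P
    rcases h z with h | h
    · rw [← h]; exact hz
    · rw [h] at hz; cases hz
  · intro z hz
    change σ z = Lab.O ∨ σ z = Lab.S at hz
    change σ' z = Lab.O ∨ σ' z = Lab.S
    rcases h z with h | h
    · rw [h]; exact hz
    · exact Or.inr h

theorem opn_mono {σ σ' : Z2 → Lab} (h : ∀ y, σ' y = σ y ∨ σ' y = Lab.S) {z : Z2}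
    (hz : z ∈ isOpn σ) : z ∈ isOpn σ' := by
  change σ z = Lab.O ∨ σ z = Lab.S at hz
  change σ' z = Lab.O ∨ σ' z = Lab.S
  rcases h z with h | h
  · rw [h]; exact hz
  · exact Or.inr h

theorem pol_mono {σ σ' : Z2 → Lab} (h : ∀ y, σ' y = σ y ∨ σ' y = Lab.S) {z : Z2}
    (hz : σ' z = Lab.P) : σ z = Lab.P := by
  rcases h z with h | h
  · rw [← h]; exact hz
  · rw [h] at hz; cases hz

theorem Good0.mono {m : ℕ} {σ σ' : Z2 → Lab} (h : ∀ y, σ' y = σ y ∨ σ' y = Lab.S)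
    (hG : Good0 m σ) : Good0 m σ' where
  sep := fun x y x' y' a b p1 p2 hd => hG.sep x y x' y' a b (pol_mono h p1) (pol_mono h p2) hd
  segv := fun x y a b => by
    obtain ⟨k, hk, hk'⟩ := hG.segv x y a b
    exact ⟨k, hk, opn_mono h hk'⟩
  segh := fun x y a b => by
    obtain ⟨k, hk, hk'⟩ := hG.segh x y a b
    exact ⟨k, hk, opn_mono h hk'⟩
  l1 := hG.l1.mono h
  l2 := hG.l2.mono fun y => h _
  l3 := hG.l3.mono fun y => h _
  l4 := hG.l4.mono fun y => h _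
  l5 := hG.l5.mono fun y => h _
  l6 := hG.l6.mono fun y => h _

theorem NL.congr {m W : ℕ} {σ σ' : Z2 → Lab} {x0 u0 : ℤ}
    (h : ∀ z : Z2, x0 < z.1 → z.1 ≤ x0 + W + 1 → u0 ≤ z.2 → z.2 < u0 + 2 * m → σ z = σ' z)
    (hN : NL m σ x0 u0 W) : NL m σ' x0 u0 W := by
  intro u hu hp
  refine hN u hu (lossPath_congr (k := u0 + 2 * m - 1) ?_ ?_ (by omega) hp)
  · intro z h1 h2 h3 h4
    change σ' z = Lab.P ↔ σ z = Lab.P
    rw [h z h1 (by omega) h3 (by omega)]
  · intro z h1 h2 h3 h4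
    change (σ' z = Lab.O ∨ σ' z = Lab.S) ↔ (σ z = Lab.O ∨ σ z = Lab.S)
    rw [h z h1 (by omega) h3 (by omega)]

theorem Good0.congr {m : ℕ} (hm : 0 < m) {σ σ' : Z2 → Lab}
    (h : ∀ x y : ℤ, InB m x y → σ (x, y) = σ' (x, y)) (hG : Good0 m σ) : Good0 m σ' where
  sep := fun x y x' y' a b p1 p2 hd =>
    hG.sep x y x' y' a b (by rw [h x y a]; exact p1) (by rw [h x' y' b]; exact p2) hd
  segv := fun x y a b => by
    obtain ⟨k, hk, hk'⟩ := hG.segv x y a b
    refine ⟨k, hk, ?_⟩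
    change σ' (x, y + k) = Lab.O ∨ σ' (x, y + k) = Lab.S
    unfold InB at a b
    rw [← h x (y + k) ⟨by omega, by omega, by omega, by omega⟩]
    exact hk'
  segh := fun x y a b => by
    obtain ⟨k, hk, hk'⟩ := hG.segh x y a b
    refine ⟨k, hk, ?_⟩
    change σ' (x + k, y) = Lab.O ∨ σ' (x + k, y) = Lab.S
    unfold InB at a b
    rw [← h (x + k) y ⟨by omega, by omega, by omega, by omega⟩]
    exact hk'
  l1 := hG.l1.congr fun z h1 h2 h3 h4 => by
    push_cast at h2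
    exact h z.1 z.2 ⟨by omega, by omega, by omega, by omega⟩
  l2 := hG.l2.congr fun z h1 h2 h3 h4 => by
    push_cast at h2
    exact h z.1 (-z.2) ⟨by omega, by omega, by omega, by omega⟩
  l3 := hG.l3.congr fun z h1 h2 h3 h4 => by
    push_cast at h2
    exact h z.2 z.1 ⟨by omega, by omega, by omega, by omega⟩
  l4 := hG.l4.congr fun z h1 h2 h3 h4 => by
    push_cast at h2
    exact h (-z.2) z.1 ⟨by omega, by omega, by omega, by omega⟩
  l5 := hG.l5.congr fun z h1 h2 h3 h4 => by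
    push_cast at h2
    exact h z.2 (-z.1) ⟨by omega, by omega, by omega, by omega⟩
  l6 := hG.l6.congr fun z h1 h2 h3 h4 => by
    push_cast at h2
    exact h (-z.2) (-z.1) ⟨by omega, by omega, by omega, by omega⟩

/-! ### frames of a block -/

def f0 (A B : ℤ) : Z2 ≃ Z2 where
  toFun z := (A + z.1, B + z.2)
  invFun z := (z.1 - A, z.2 - B)
  left_inv z := by simp
  right_inv z := by simp

def f1 (A B r : ℤ) : Z2 ≃ Z2 where
  toFun z := (A + (r - 1 - z.2), B + z.1)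
  invFun z := (z.2 - B, r - 1 - (z.1 - A))
  left_inv z := by simp
  right_inv z := by simp

def f2 (A B r : ℤ) : Z2 ≃ Z2 where
  toFun z := (A + (r - 1 - z.1), B + (r - 1 - z.2))
  invFun z := (r - 1 - (z.1 - A), r - 1 - (z.2 - B))
  left_inv z := by simp
  right_inv z := by simp

def f3 (A B r : ℤ) : Z2 ≃ Z2 where
  toFun z := (A + z.2, B + (r - 1 - z.1))
  invFun z := (r - 1 - (z.2 - B), z.1 - A)
  left_inv z := by simp
  right_inv z := by simp

theorem nb_f0 (A B : ℤ) (x y : Z2) : Nb (f0 A B x) (f0 A B y) ↔ Nb x y := by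
  unfold Nb f0
  simp only [Equiv.coe_fn_mk]
  rw [show A + x.1 - (A + y.1) = x.1 - y.1 by ring, show B + x.2 - (B + y.2) = x.2 - y.2 by ring,
    add_right_inj, add_right_inj]

theorem nb_f1 (A B r : ℤ) (x y : Z2) : Nb (f1 A B r x) (f1 A B r y) ↔ Nb x y := by
  unfold Nb f1
  simp only [Equiv.coe_fn_mk]
  rw [show A + (r - 1 - x.2) - (A + (r - 1 - y.2)) = -(x.2 - y.2) by ring, abs_neg,
    show B + x.1 - (B + y.1) = x.1 - y.1 by ring, add_right_inj, add_right_inj, sub_right_inj]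
  tauto

theorem nb_f2 (A B r : ℤ) (x y : Z2) : Nb (f2 A B r x) (f2 A B r y) ↔ Nb x y := by
  unfold Nb f2
  simp only [Equiv.coe_fn_mk]
  rw [show A + (r - 1 - x.1) - (A + (r - 1 - y.1)) = -(x.1 - y.1) by ring, abs_neg,
    show B + (r - 1 - x.2) - (B + (r - 1 - y.2)) = -(x.2 - y.2) by ring, abs_neg,
    add_right_inj, add_right_inj, sub_right_inj, sub_right_inj]

theorem nb_f3 (A B r : ℤ) (x y : Z2) : Nb (f3 A B r x) (f3 A B r y) ↔ Nb x y := by
  unfold Nb f3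
  simp only [Equiv.coe_fn_mk]
  rw [show B + (r - 1 - x.1) - (B + (r - 1 - y.1)) = -(x.1 - y.1) by ring, abs_neg,
    show A + x.2 - (A + y.2) = x.2 - y.2 by ring, add_right_inj, add_right_inj, sub_right_inj]
  tauto

theorem step_frame {m : ℕ} (hm : 0 < m) {σ : Z2 → Lab} {b b' : Z2} (f : Z2 ≃ Z2)
    (hf : ∀ x y, Nb (f x) (f y) ↔ Nb x y) (h0 : ∀ z ∈ core m (0, 0), f z ∈ core m b)
    (h1 : ∀ y ∈ core m b', f.symm y ∈ core m (1, 0)) (hG : Good0 m (fun z => σ (f z)))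
    (hF : Full m σ b) : Full m σ b' := by
  have h2 : Full m (fun z => σ (f z)) (0, 0) := fun z hz hne =>
    fil_frame' f (fun x y h => (hf x y).1 h) (hF _ (h0 z hz) hne)
  have h3 := good0_step hm hG h2
  intro y hy hne
  have h4 := h3 _ (h1 y hy) (by simpa using hne)
  have h5 := fil_frame (g := f) f.injective (fun x y h => (hf x y).2 h) h4
  simpa using h5

/-- the good event of a block -/
def GE (m : ℕ) (b : Z2) : Set (Z2 → Lab) :=
  {σ | Good0 m (fun z => σ (f0 (b.1 * (16 * m)) (b.2 * (16 * m)) z)) ∧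
    Good0 m (fun z => σ (f1 (b.1 * (16 * m)) (b.2 * (16 * m)) (16 * m) z)) ∧
    Good0 m (fun z => σ (f2 (b.1 * (16 * m)) (b.2 * (16 * m)) (16 * m) z)) ∧
    Good0 m (fun z => σ (f3 (b.1 * (16 * m)) (b.2 * (16 * m)) (16 * m) z))}

theorem ge_full {m : ℕ} (hm : 0 < m) {σ : Z2 → Lab} {b b' : Z2} (hb : Nb b b') (hG : σ ∈ GE m b)
    (hF : Full m σ b) : Full m σ b' := by
  obtain ⟨g0, g1, g2, g3⟩ := hG
  obtain ⟨b1, b2⟩ := b
  obtain ⟨c1, c2⟩ := b'
  simp only at g0 g1 g2 g3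
  rcases hb with ⟨h1, h2⟩ | ⟨h1, h2⟩
  · simp only at h1 h2
    rcases (abs_eq (by norm_num : (0 : ℤ) ≤ 1)).1 h2 with h | h
    · -- `c2 = b2 - 1`
      have hc : c2 * (16 * (m : ℤ)) = b2 * (16 * m) - 16 * m := by
        rw [show c2 = b2 - 1 by omega]; ring
      refine step_frame hm _ (nb_f3 _ _ _) ?_ ?_ g3 hF
      · rintro ⟨x, y⟩ hz
        simp only [core, Set.mem_ofPred_eq, f3, Equiv.coe_fn_mk] at hz ⊢
        omega
      · rintro ⟨x, y⟩ hz
        simp only [core, Set.mem_ofPred_eq, f3, Equiv.coe_fn_symm_mk] at hz ⊢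
        rw [hc, ← h1] at hz
        omega
    · have hc : c2 * (16 * (m : ℤ)) = b2 * (16 * m) + 16 * m := by
        rw [show c2 = b2 + 1 by omega]; ring
      refine step_frame hm _ (nb_f1 _ _ _) ?_ ?_ g1 hF
      · rintro ⟨x, y⟩ hz
        simp only [core, Set.mem_ofPred_eq, f1, Equiv.coe_fn_mk] at hz ⊢
        omega
      · rintro ⟨x, y⟩ hz
        simp only [core, Set.mem_ofPred_eq, f1, Equiv.coe_fn_symm_mk] at hz ⊢
        rw [hc, ← h1] at hz
        omega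
  · simp only at h1 h2
    rcases (abs_eq (by norm_num : (0 : ℤ) ≤ 1)).1 h2 with h | h
    · have hc : c1 * (16 * (m : ℤ)) = b1 * (16 * m) - 16 * m := by
        rw [show c1 = b1 - 1 by omega]; ring
      refine step_frame hm _ (nb_f2 _ _ _) ?_ ?_ g2 hF
      · rintro ⟨x, y⟩ hz
        simp only [core, Set.mem_ofPred_eq, f2, Equiv.coe_fn_mk] at hz ⊢
        omega
      · rintro ⟨x, y⟩ hz
        simp only [core, Set.mem_ofPred_eq, f2, Equiv.coe_fn_symm_mk] at hz ⊢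
        rw [hc, ← h1] at hz
        omega
    · have hc : c1 * (16 * (m : ℤ)) = b1 * (16 * m) + 16 * m := by
        rw [show c1 = b1 + 1 by omega]; ring
      refine step_frame hm _ (nb_f0 _ _) ?_ ?_ g0 hF
      · rintro ⟨x, y⟩ hz
        simp only [core, Set.mem_ofPred_eq, f0, Equiv.coe_fn_mk] at hz ⊢
        omega
      · rintro ⟨x, y⟩ hz
        simp only [core, Set.mem_ofPred_eq, f0, Equiv.coe_fn_symm_mk] at hz ⊢
        rw [hc, ← h1] at hz
        omega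

theorem ge_mono {m : ℕ} {b : Z2} {σ σ' : Z2 → Lab} (h : ∀ y, σ' y = σ y ∨ σ' y = Lab.S)
    (hG : σ ∈ GE m b) : σ' ∈ GE m b :=
  ⟨hG.1.mono fun _ => h _, hG.2.1.mono fun _ => h _, hG.2.2.1.mono fun _ => h _,
    hG.2.2.2.mono fun _ => h _⟩

theorem ge_loc {m : ℕ} (hm : 0 < m) (b : Z2) :
    Loc (GE m b) {y | Near (48 * m) (b.1 * (16 * m), b.2 * (16 * m)) y} := by
  intro σ τ e hG
  obtain ⟨g0, g1, g2, g3⟩ := hG
  refine ⟨g0.congr hm fun x y h => e _ ?_, g1.congr hm fun x y h => e _ ?_,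
    g2.congr hm fun x y h => e _ ?_, g3.congr hm fun x y h => e _ ?_⟩
  · simp only [Set.mem_ofPred_eq, Near, f0, Equiv.coe_fn_mk, abs_le]
    unfold InB at h
    omega
  · simp only [Set.mem_ofPred_eq, Near, f1, Equiv.coe_fn_mk, abs_le]
    unfold InB at h
    omega
  · simp only [Set.mem_ofPred_eq, Near, f2, Equiv.coe_fn_mk, abs_le]
    unfold InB at h
    omega
  · simp only [Set.mem_ofPred_eq, Near, f3, Equiv.coe_fn_mk, abs_le]
    unfold InB at h
    omega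

/-! ### probabilities -/

theorem union_card {Ω κ : Type*} [MeasurableSpace Ω] (P : Measure Ω) [IsFiniteMeasure P]
    (I : Finset κ) (A : κ → Set Ω) (c : ℝ) (h : ∀ i ∈ I, P.real (A i) ≤ c) :
    P.real (⋃ i ∈ I, A i) ≤ I.card * c := by
  refine (real_biUnion_le P I A).trans ?_
  refine (Finset.sum_le_card_nsmul _ _ c h).trans ?_
  rw [nsmul_eq_mul]

variable (ν : Measure Lab) [IsProbabilityMeasure ν]

theorem pair_prob {q : ℝ} (hq : ν.real {Lab.P} ≤ q) (z z' : Z2) :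
    (PM ν).real {σ : Z2 → Lab | z ≠ z' ∧ σ z = Lab.P ∧ σ z' = Lab.P} ≤ q ^ 2 := by
  have hq0 : 0 ≤ ν.real {Lab.P} := measureReal_nonneg
  by_cases h : z = z'
  · have : {σ : Z2 → Lab | z ≠ z' ∧ σ z = Lab.P ∧ σ z' = Lab.P} = ∅ := by
      ext σ; simp [h]
    rw [this, measureReal_empty]
    positivity
  · have e : {σ : Z2 → Lab | z ≠ z' ∧ σ z = Lab.P ∧ σ z' = Lab.P} =
        {σ : Z2 → Lab | σ z ∈ ({Lab.P} : Set Lab)} ∩ {σ : Z2 → Lab | σ z' ∈ ({Lab.P} : Set Lab)} := by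
      ext σ; simp [h]
    rw [e, PM_indep ν (Set.finite_singleton z) (Set.finite_singleton z') (Loc.coord z _)
      (Loc.coord z' _) (by simpa using h), PM_coord, PM_coord, sq]
    exact mul_le_mul hq hq hq0 (hq0.trans hq)

/-- the sites of the box -/
noncomputable def BX (m : ℕ) : Finset Z2 := Finset.Icc 0 (34 * (m : ℤ)) ×ˢ Finset.Ico 0 (16 * (m : ℤ))

theorem mem_BX {m : ℕ} {x y : ℤ} : (x, y) ∈ BX m ↔ InB m x y := by
  unfold BX InB
  rw [Finset.mem_product, Finset.mem_Icc, Finset.mem_Ico]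
  tauto

theorem card_BX (m : ℕ) (hm : 0 < m) : ((BX m).card : ℝ) ≤ 560 * (m : ℝ) ^ 2 := by
  have h : (BX m).card = (34 * m + 1) * (16 * m) := by
    unfold BX
    rw [Finset.card_product, Int.card_Icc, Int.card_Ico]
    congr 1
  rw [h]
  have hm1 : (1 : ℝ) ≤ m := by exact_mod_cast hm
  push_cast
  nlinarith

theorem sep_prob {q : ℝ} (hq : ν.real {Lab.P} ≤ q) (m : ℕ) (hm : 0 < m) :
    (PM ν).real {σ : Z2 → Lab | ¬ Sep m σ} ≤ 142800 * (m : ℝ) ^ 3 * q ^ 2 := by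
  have hq0 : 0 ≤ ν.real {Lab.P} := measureReal_nonneg
  have hsub : {σ : Z2 → Lab | ¬ Sep m σ} ⊆
      (⋃ z ∈ BX m, ⋃ d ∈ Finset.Icc (-2 : ℤ) 2, ⋃ y ∈ Finset.Ico 0 (16 * (m : ℤ)),
        {σ : Z2 → Lab | z ≠ (z.1 + d, y) ∧ σ z = Lab.P ∧ σ (z.1 + d, y) = Lab.P}) ∪
      (⋃ z ∈ BX m, ⋃ d ∈ Finset.Icc (-2 : ℤ) 2, ⋃ x ∈ Finset.Icc 0 (34 * (m : ℤ)),
        {σ : Z2 → Lab | z ≠ (x, z.2 + d) ∧ σ z = Lab.P ∧ σ (x, z.2 + d) = Lab.P}) := by
    intro σ hσ
    simp only [Set.mem_ofPred_eq, Sep] at hσ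
    push Not at hσ
    obtain ⟨x, y, x', y', hB, hB', p1, p2, hd, hne⟩ := hσ
    have hne' : ((x, y) : Z2) ≠ (x', y') := by
      intro h
      rw [Prod.mk.injEq] at h
      exact hne h.1 h.2
    simp only [Set.mem_union, Set.mem_iUnion, exists_prop, Finset.mem_Icc, Finset.mem_Ico]
    rcases hd with hd | hd
    · left
      rw [abs_le] at hd
      refine ⟨(x, y), mem_BX.2 hB, x' - x, ⟨by omega, by omega⟩, y', ⟨hB'.2.2.1, hB'.2.2.2⟩, ?_⟩
      simp only [Set.mem_ofPred_eq]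
      rw [show x + (x' - x) = x' by ring]
      exact ⟨hne', p1, p2⟩
    · right
      rw [abs_le] at hd
      refine ⟨(x, y), mem_BX.2 hB, y' - y, ⟨by omega, by omega⟩, x', ⟨hB'.1, hB'.2.1⟩, ?_⟩
      simp only [Set.mem_ofPred_eq]
      rw [show y + (y' - y) = y' by ring]
      exact ⟨hne', p1, p2⟩
  refine (measureReal_mono hsub (measure_ne_top _ _)).trans ?_
  refine (measureReal_union_le _ _).trans ?_
  have c1 : ((Finset.Icc (-2 : ℤ) 2).card : ℝ) = 5 := by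
    rw [Int.card_Icc, show ((2 : ℤ) + 1 - -2).toNat = 5 by rfl]; norm_num
  have c2 : ((Finset.Ico 0 (16 * (m : ℤ))).card : ℝ) = 16 * m := by
    rw [Int.card_Ico, show (16 * (m : ℤ) - 0).toNat = 16 * m by omega]; push_cast; ring
  have c3 : ((Finset.Icc 0 (34 * (m : ℤ))).card : ℝ) = 34 * m + 1 := by
    rw [Int.card_Icc, show (34 * (m : ℤ) + 1 - 0).toNat = 34 * m + 1 by omega]; push_cast; ring
  have hm1 : (1 : ℝ) ≤ m := by exact_mod_cast hm
  have u1 := union_card (PM ν) (BX m) (fun z => ⋃ d ∈ Finset.Icc (-2 : ℤ) 2,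
    ⋃ y ∈ Finset.Ico 0 (16 * (m : ℤ)),
      {σ : Z2 → Lab | z ≠ (z.1 + d, y) ∧ σ z = Lab.P ∧ σ (z.1 + d, y) = Lab.P})
    (5 * ((16 * m) * q ^ 2)) (fun z _ => by
      rw [← c1, ← c2]
      exact union_card _ _ _ _ fun d _ => union_card _ _ _ _ fun y _ => pair_prob ν hq _ _)
  have u2 := union_card (PM ν) (BX m) (fun z => ⋃ d ∈ Finset.Icc (-2 : ℤ) 2,
    ⋃ x ∈ Finset.Icc 0 (34 * (m : ℤ)),
      {σ : Z2 → Lab | z ≠ (x, z.2 + d) ∧ σ z = Lab.P ∧ σ (x, z.2 + d) = Lab.P})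
    (5 * ((34 * m + 1) * q ^ 2)) (fun z _ => by
      rw [← c1, ← c3]
      exact union_card _ _ _ _ fun d _ => union_card _ _ _ _ fun y _ => pair_prob ν hq _ _)
  have hc := card_BX m hm
  calc _ ≤ ((BX m).card : ℝ) * (5 * ((16 * m) * q ^ 2)) +
        ((BX m).card : ℝ) * (5 * ((34 * m + 1) * q ^ 2)) := add_le_add u1 u2
    _ ≤ 560 * (m : ℝ) ^ 2 * (5 * ((16 * m) * q ^ 2)) +
        560 * (m : ℝ) ^ 2 * (5 * ((35 * m) * q ^ 2)) := by
        gcongr
        linarith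
    _ = 142800 * (m : ℝ) ^ 3 * q ^ 2 := by ring

theorem compl_prob {p : ℝ} (ho : p ≤ ν.real {Lab.O, Lab.S}) :
    ν.real ({Lab.O, Lab.S}ᶜ : Set Lab) ≤ 1 - p := by
  rw [probReal_compl_eq_one_sub (MeasurableSet.of_discrete)]
  linarith

theorem seg_prob {p : ℝ} (ho : p ≤ ν.real {Lab.O, Lab.S}) (m : ℕ)
    (g : ℕ → Z2) (hg : Function.Injective g) :
    (PM ν).real (⋂ k ∈ Finset.range m, {σ : Z2 → Lab | σ (g k) ∈ ({Lab.O, Lab.S}ᶜ : Set Lab)}) ≤
      (1 - p) ^ m := by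
  rw [PM_prod ν (Finset.range m) _ (fun k => {g k}) (fun _ _ => Set.finite_singleton _)
    (fun k _ => Loc.coord (g k) _) (fun i _ j _ hij => by
      simpa using fun h => hij (hg h))]
  simp only [PM_coord]
  rw [Finset.prod_const, Finset.card_range]
  exact pow_le_pow_left₀ measureReal_nonneg (compl_prob ν ho) m

theorem segv_prob {p : ℝ} (hp1 : p ≤ 1) (ho : p ≤ ν.real {Lab.O, Lab.S}) (m : ℕ)
    (hm : 0 < m) : (PM ν).real {σ : Z2 → Lab | ¬ SegV m σ} ≤ 560 * (m : ℝ) ^ 2 * (1 - p) ^ m := by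
  have hsub : {σ : Z2 → Lab | ¬ SegV m σ} ⊆ ⋃ z ∈ BX m, ⋂ k ∈ Finset.range m,
      {σ : Z2 → Lab | σ ((fun k : ℕ => ((z.1, z.2 + k) : Z2)) k) ∈ ({Lab.O, Lab.S}ᶜ : Set Lab)} := by
    intro σ hσ
    simp only [Set.mem_ofPred_eq, SegV] at hσ
    push Not at hσ
    obtain ⟨x, y, hB, _, hno⟩ := hσ
    simp only [Set.mem_iUnion, Set.mem_iInter, exists_prop, Finset.mem_range]
    exact ⟨(x, y), mem_BX.2 hB, fun k hk => hno k hk⟩
  refine (measureReal_mono hsub (measure_ne_top _ _)).trans ?_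
  refine (union_card _ _ _ ((1 - p) ^ m) fun z _ => seg_prob ν ho m _ ?_).trans ?_
  · intro a b hab
    simp only [Prod.mk.injEq, true_and] at hab
    omega
  · have := card_BX m hm
    have h1 : 0 ≤ (1 - p) ^ m := pow_nonneg (by linarith) m
    gcongr

theorem segh_prob {p : ℝ} (hp1 : p ≤ 1) (ho : p ≤ ν.real {Lab.O, Lab.S}) (m : ℕ)
    (hm : 0 < m) : (PM ν).real {σ : Z2 → Lab | ¬ SegH m σ} ≤ 560 * (m : ℝ) ^ 2 * (1 - p) ^ m := by
  have hsub : {σ : Z2 → Lab | ¬ SegH m σ} ⊆ ⋃ z ∈ BX m, ⋂ k ∈ Finset.range m,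
      {σ : Z2 → Lab | σ ((fun k : ℕ => ((z.1 + k, z.2) : Z2)) k) ∈ ({Lab.O, Lab.S}ᶜ : Set Lab)} := by
    intro σ hσ
    simp only [Set.mem_ofPred_eq, SegH] at hσ
    push Not at hσ
    obtain ⟨x, y, hB, _, hno⟩ := hσ
    simp only [Set.mem_iUnion, Set.mem_iInter, exists_prop, Finset.mem_range]
    exact ⟨(x, y), mem_BX.2 hB, fun k hk => hno k hk⟩
  refine (measureReal_mono hsub (measure_ne_top _ _)).trans ?_
  refine (union_card _ _ _ ((1 - p) ^ m) fun z _ => seg_prob ν ho m _ ?_).trans ?_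
  · intro a b hab
    simp only [Prod.mk.injEq, and_true] at hab
    omega
  · have := card_BX m hm
    have h1 : 0 ≤ (1 - p) ^ m := pow_nonneg (by linarith) m
    gcongr

theorem nl_prob {p q : ℝ} (hp0 : 0 < p) (hp1 : p ≤ 1) (hq : ν.real {Lab.P} ≤ q)
    (ho : p ≤ ν.real {Lab.O, Lab.S}) (m W : ℕ) (hW : W ≤ 20 * m) (g : Z2 ≃ Z2) (x0 u0 : ℤ) :
    (PM ν).real {σ : Z2 → Lab | ¬ NL m (fun z => σ (g z)) x0 u0 W} ≤
      (2 / p) * Real.exp (160 * q / p * m) * (1 - p / 2) ^ m := by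
  have hq0 : 0 ≤ q := (measureReal_nonneg).trans hq
  have e := PM_reindex ν g {σ : Z2 → Lab | ¬ NL m σ x0 u0 W}
  have e2 : {σ : Z2 → Lab | ¬ NL m (fun z => σ (g z)) x0 u0 W} =
    {σ : Z2 → Lab | (fun x => σ (g x)) ∈ {σ : Z2 → Lab | ¬ NL m σ x0 u0 W}} := rfl
  rw [e2, e]
  have hsub : {σ : Z2 → Lab | ¬ NL m σ x0 u0 W} ⊆ {σ : Z2 → Lab | ∃ u, u0 + m ≤ u ∧
      LossPath (isPol σ) (isOpn σ) x0 u0 (x0 + W) u} := by
    intro σ hσ
    simp only [Set.mem_ofPred_eq, NL] at hσ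
    push Not at hσ
    obtain ⟨u, _, h1, h2⟩ := hσ
    exact ⟨u, h2.le, h1⟩
  refine (measureReal_mono hsub (measure_ne_top _ _)).trans ?_
  refine (lossPath_prob ν p q hp0 hp1 hq ho x0 u0 W m).trans ?_
  have h1 : 0 ≤ (1 - p / 2) ^ m := pow_nonneg (by linarith) m
  have h2 : 8 * q / p * (W : ℝ) ≤ 160 * q / p * m := by
    have h3 : (W : ℝ) ≤ 20 * m := by exact_mod_cast hW
    calc 8 * q / p * (W : ℝ) ≤ 8 * q / p * (20 * m) := by gcongr
      _ = 160 * q / p * m := by ring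
  gcongr

theorem good0_prob {p q : ℝ} (hp0 : 0 < p) (hp1 : p ≤ 1) (hq : ν.real {Lab.P} ≤ q)
    (ho : p ≤ ν.real {Lab.O, Lab.S}) (m : ℕ) (hm : 0 < m) :
    (PM ν).real {σ : Z2 → Lab | ¬ Good0 m σ} ≤ 142800 * (m : ℝ) ^ 3 * q ^ 2 +
      1120 * (m : ℝ) ^ 2 * (1 - p) ^ m +
      6 * ((2 / p) * Real.exp (160 * q / p * m) * (1 - p / 2) ^ m) := by
  have hsub : {σ : Z2 → Lab | ¬ Good0 m σ} ⊆
      {σ : Z2 → Lab | ¬ Sep m σ} ∪ ({σ : Z2 → Lab | ¬ SegV m σ} ∪ ({σ : Z2 → Lab | ¬ SegH m σ} ∪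
      ({σ : Z2 → Lab | ¬ NL m (fun z => σ ((Equiv.refl Z2) z)) (14 * m - 2) (2 * m) (18 * m + 2)} ∪
      ({σ : Z2 → Lab | ¬ NL m (fun z => σ (rf z)) (14 * m - 2) (-(14 * m - 1)) (18 * m + 2)} ∪
      ({σ : Z2 → Lab | ¬ NL m (fun z => σ (sw z)) (13 * m - 2) (2 * m) (m + 1)} ∪
      ({σ : Z2 → Lab | ¬ NL m (fun z => σ ((rf.trans sw) z)) (13 * m - 2) (-(32 * m)) (m + 1)} ∪
      ({σ : Z2 → Lab | ¬ NL m (fun z => σ (dn z)) (-(3 * m) - 1) (2 * m) (m + 1)} ∪
      {σ : Z2 → Lab | ¬ NL m (fun z => σ ((rf.trans dn) z)) (-(3 * m) - 1) (-(32 * m)) (m + 1)}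
        ))))))) := by
    intro σ hσ
    by_contra hcon
    simp only [Set.mem_union, Set.mem_ofPred_eq, not_or, not_not] at hcon
    obtain ⟨a1, a2, a3, a4, a5, a6, a7, a8, a9⟩ := hcon
    exact hσ ⟨a1, a2, a3, a4, a5, a6, a7, a8, a9⟩
  refine (measureReal_mono hsub (measure_ne_top _ _)).trans ?_
  have b1 := sep_prob ν hq m hm
  have b2 := segv_prob ν hp1 ho m hm
  have b3 := segh_prob ν hp1 ho m hm
  have b4 := nl_prob ν hp0 hp1 hq ho m (18 * m + 2) (by omega) (Equiv.refl Z2) (14 * m - 2) (2 * m)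
  have b5 := nl_prob ν hp0 hp1 hq ho m (18 * m + 2) (by omega) rf (14 * m - 2) (-(14 * m - 1))
  have b6 := nl_prob ν hp0 hp1 hq ho m (m + 1) (by omega) sw (13 * m - 2) (2 * m)
  have b7 := nl_prob ν hp0 hp1 hq ho m (m + 1) (by omega) (rf.trans sw) (13 * m - 2) (-(32 * m))
  have b8 := nl_prob ν hp0 hp1 hq ho m (m + 1) (by omega) dn (-(3 * m) - 1) (2 * m)
  have b9 := nl_prob ν hp0 hp1 hq ho m (m + 1) (by omega) (rf.trans dn) (-(3 * m) - 1) (-(32 * m))
  set P := (PM (ι := Z2) ν).real with hP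
  set T := (2 / p) * Real.exp (160 * q / p * m) * (1 - p / 2) ^ m with hT
  refine (measureReal_union_le _ _).trans ?_
  refine (add_le_add b1 (measureReal_union_le _ _)).trans ?_
  refine (add_le_add le_rfl (add_le_add b2 (measureReal_union_le _ _))).trans ?_
  refine (add_le_add le_rfl (add_le_add le_rfl (add_le_add b3 (measureReal_union_le _ _)))).trans ?_
  refine (add_le_add le_rfl (add_le_add le_rfl (add_le_add le_rfl (add_le_add b4
    (measureReal_union_le _ _))))).trans ?_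
  refine (add_le_add le_rfl (add_le_add le_rfl (add_le_add le_rfl (add_le_add le_rfl
    (add_le_add b5 (measureReal_union_le _ _)))))).trans ?_
  refine (add_le_add le_rfl (add_le_add le_rfl (add_le_add le_rfl (add_le_add le_rfl
    (add_le_add le_rfl (add_le_add b6 (measureReal_union_le _ _))))))).trans ?_
  refine (add_le_add le_rfl (add_le_add le_rfl (add_le_add le_rfl (add_le_add le_rfl
    (add_le_add le_rfl (add_le_add le_rfl (add_le_add b7 (measureReal_union_le _ _)))))))).trans ?_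
  refine (add_le_add le_rfl (add_le_add le_rfl (add_le_add le_rfl (add_le_add le_rfl
    (add_le_add le_rfl (add_le_add le_rfl (add_le_add le_rfl (add_le_add b8 b9)))))))).trans ?_
  apply le_of_eq
  ring

theorem ge_prob {p q : ℝ} (hp0 : 0 < p) (hp1 : p ≤ 1) (hq : ν.real {Lab.P} ≤ q)
    (ho : p ≤ ν.real {Lab.O, Lab.S}) (m : ℕ) (hm : 0 < m) (b : Z2) :
    (PM ν).real (GE m b)ᶜ ≤ 4 * (142800 * (m : ℝ) ^ 3 * q ^ 2 +
      1120 * (m : ℝ) ^ 2 * (1 - p) ^ m +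
      6 * ((2 / p) * Real.exp (160 * q / p * m) * (1 - p / 2) ^ m)) := by
  have key : ∀ g : Z2 ≃ Z2, (PM ν).real {σ : Z2 → Lab | ¬ Good0 m (fun z => σ (g z))} ≤
      142800 * (m : ℝ) ^ 3 * q ^ 2 + 1120 * (m : ℝ) ^ 2 * (1 - p) ^ m +
      6 * ((2 / p) * Real.exp (160 * q / p * m) * (1 - p / 2) ^ m) := by
    intro g
    have e := PM_reindex ν g {σ : Z2 → Lab | ¬ Good0 m σ}
    have e2 : {σ : Z2 → Lab | ¬ Good0 m (fun z => σ (g z))} =
      {σ : Z2 → Lab | (fun x => σ (g x)) ∈ {σ : Z2 → Lab | ¬ Good0 m σ}} := rfl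
    rw [e2, e]
    exact good0_prob ν hp0 hp1 hq ho m hm
  have hsub : (GE m b)ᶜ ⊆
      {σ : Z2 → Lab | ¬ Good0 m (fun z => σ (f0 (b.1 * (16 * m)) (b.2 * (16 * m)) z))} ∪
      ({σ : Z2 → Lab | ¬ Good0 m (fun z => σ (f1 (b.1 * (16 * m)) (b.2 * (16 * m)) (16 * m) z))} ∪
      ({σ : Z2 → Lab | ¬ Good0 m (fun z => σ (f2 (b.1 * (16 * m)) (b.2 * (16 * m)) (16 * m) z))} ∪
      {σ : Z2 → Lab | ¬ Good0 m (fun z => σ (f3 (b.1 * (16 * m)) (b.2 * (16 * m)) (16 * m) z))})) := by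
    intro σ hσ
    by_contra hcon
    simp only [Set.mem_union, Set.mem_ofPred_eq, not_or, not_not] at hcon
    exact hσ hcon
  refine (measureReal_mono hsub (measure_ne_top _ _)).trans ?_
  refine (measureReal_union_le _ _).trans ?_
  refine (add_le_add (key _) (measureReal_union_le _ _)).trans ?_
  refine (add_le_add le_rfl (add_le_add (key _) (measureReal_union_le _ _))).trans ?_
  refine (add_le_add le_rfl (add_le_add le_rfl (add_le_add (key _) (key _)))).trans ?_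
  apply le_of_eq
  ring

/-! ### choice of the parameters -/

open Filter Topology in
theorem tendsto_bound : Tendsto (fun y : ℝ => 4 * (142800 * 8 * (1 / 640) ^ 2 * y⁻¹ +
    4480 * (y ^ 10 * Real.exp (-y)) + 12 * 256 * ((y / 4) ^ 4 * Real.exp (-(y / 4)))))
    atTop (𝓝 0) := by
  have h1 : Tendsto (fun y : ℝ => y⁻¹) atTop (𝓝 0) := tendsto_inv_atTop_zero
  have h2 := Real.tendsto_pow_mul_exp_neg_atTop_nhds_zero 10
  have h3 := (Real.tendsto_pow_mul_exp_neg_atTop_nhds_zero 4).comp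
    (tendsto_id.atTop_div_const (show (0 : ℝ) < 4 by norm_num))
  have h4 := (((h1.const_mul (142800 * 8 * (1 / 640) ^ 2)).add (h2.const_mul 4480)).add
    (h3.const_mul (12 * 256))).const_mul 4
  simpa using h4

end Block

open Filter Topology in
/-- good blocks -/
theorem block_pkg (ρ : ℝ) (hρ : 0 < ρ) : ∃ δ > 0, ∃ p0 > 0, ∀ (ν : Measure Lab)
    [IsProbabilityMeasure ν] (p : ℝ), 0 < p → p ≤ p0 → ν.real {Lab.P} ≤ δ * p ^ 2 →
    p ≤ ν.real {Lab.O, Lab.S} → ∃ (m : ℕ) (G : Z2 → Set (Z2 → Lab)), 0 < m ∧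
      (∀ b, Loc (G b) {y | Near (48 * m) (b.1 * (16 * m), b.2 * (16 * m)) y}) ∧
      (∀ b, (PM ν).real (G b)ᶜ ≤ ρ) ∧
      (∀ b σ σ', (∀ y, σ' y = σ y ∨ σ' y = Lab.S) → σ ∈ G b → σ' ∈ G b) ∧
      (∀ σ b b', Nb b b' → σ ∈ G b → Full m σ b → Full m σ b') := by
  obtain ⟨Y, hY⟩ := (eventually_atTop.1 (Block.tendsto_bound.eventually_le_const hρ))
  set Y' := max Y 1 with hY'
  have hY1 : 1 ≤ Y' := le_max_right _ _
  refine ⟨1 / 640, by norm_num, (Y' ^ 4)⁻¹, by positivity, ?_⟩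
  intro ν _ p hp hp0 hq ho
  -- `y = p ^ (-1/4)`
  set y : ℝ := (p⁻¹) ^ ((1 : ℝ) / 4) with hy
  have hy4 : y ^ 4 = p⁻¹ := by
    rw [hy, ← Real.rpow_natCast, ← Real.rpow_mul (by positivity)]
    norm_num
  have hy0 : 0 < y := by positivity
  have hyY : Y' ≤ y := by
    have h1 : Y' ^ 4 ≤ y ^ 4 := by
      rw [hy4]
      have := inv_anti₀ hp hp0
      rwa [inv_inv] at this
    exact le_of_pow_le_pow_left₀ (by norm_num) hy0.le h1
  have hy1 : 1 ≤ y := hY1.trans hyY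
  have hpy : p = (y ^ 4)⁻¹ := by rw [hy4, inv_inv]
  have hp1 : p ≤ 1 := by
    rw [hpy]
    exact inv_le_one_of_one_le₀ (one_le_pow₀ hy1)
  set m := ⌈y ^ 5⌉₊ with hm
  have hm0 : 0 < m := Nat.ceil_pos.2 (by positivity)
  have hmle : (m : ℝ) ≤ 2 * y ^ 5 := by
    have h1 := (Nat.ceil_lt_add_one (show 0 ≤ y ^ 5 by positivity)).le
    have h2 : 1 ≤ y ^ 5 := one_le_pow₀ hy1
    rw [← hm] at h1
    linarith
  have hmge : y ^ 5 ≤ m := Nat.le_ceil _
  have hpm : y ≤ p * m := by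
    rw [hpy]
    calc y = (y ^ 4)⁻¹ * y ^ 5 := by field_simp
      _ ≤ (y ^ 4)⁻¹ * m := by gcongr
  refine ⟨m, Block.GE m, hm0, Block.ge_loc hm0, fun b => ?_, fun b σ σ' h hG => Block.ge_mono h hG,
    fun σ b b' hb hG hF => Block.ge_full hm0 hb hG hF⟩
  refine (Block.ge_prob ν hp hp1 hq ho m hm0 b).trans ?_
  refine le_trans ?_ (hY y ((le_max_left _ _).trans hyY))
  have t1 : 142800 * (m : ℝ) ^ 3 * (1 / 640 * p ^ 2) ^ 2 ≤
      142800 * 8 * (1 / 640) ^ 2 * y⁻¹ := by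
    calc 142800 * (m : ℝ) ^ 3 * (1 / 640 * p ^ 2) ^ 2
        ≤ 142800 * (2 * y ^ 5) ^ 3 * (1 / 640 * p ^ 2) ^ 2 := by gcongr
      _ = 142800 * 8 * (1 / 640) ^ 2 * y⁻¹ := by
        rw [hpy]
        field_simp
        ring
  have t2 : 1120 * (m : ℝ) ^ 2 * (1 - p) ^ m ≤ 4480 * (y ^ 10 * Real.exp (-y)) := by
    have h1 : (1 - p) ^ m ≤ Real.exp (-y) := by
      calc (1 - p) ^ m ≤ (Real.exp (-p)) ^ m := by
            refine pow_le_pow_left₀ (by linarith) ?_ m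
            have := Real.add_one_le_exp (-p)
            linarith
        _ = Real.exp (-(p * m)) := by rw [← Real.exp_nat_mul]; congr 1; ring
        _ ≤ Real.exp (-y) := Real.exp_le_exp.2 (by linarith)
    calc 1120 * (m : ℝ) ^ 2 * (1 - p) ^ m ≤ 1120 * (2 * y ^ 5) ^ 2 * Real.exp (-y) := by gcongr
      _ = 4480 * (y ^ 10 * Real.exp (-y)) := by ring
  have t3 : 6 * ((2 / p) * Real.exp (160 * (1 / 640 * p ^ 2) / p * m) * (1 - p / 2) ^ m) ≤
      12 * 256 * ((y / 4) ^ 4 * Real.exp (-(y / 4))) := by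
    have h1 : (1 - p / 2) ^ m ≤ Real.exp (-(p * m) / 2) := by
      calc (1 - p / 2) ^ m ≤ (Real.exp (-(p / 2))) ^ m := by
            refine pow_le_pow_left₀ (by linarith) ?_ m
            have := Real.add_one_le_exp (-(p / 2))
            linarith
        _ = Real.exp (-(p * m) / 2) := by rw [← Real.exp_nat_mul]; congr 1; ring
    have h2 : Real.exp (160 * (1 / 640 * p ^ 2) / p * m) * (1 - p / 2) ^ m ≤
        Real.exp (-(y / 4)) := by
      calc Real.exp (160 * (1 / 640 * p ^ 2) / p * m) * (1 - p / 2) ^ m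
          ≤ Real.exp (160 * (1 / 640 * p ^ 2) / p * m) * Real.exp (-(p * m) / 2) := by gcongr
        _ = Real.exp (-(p * m / 4)) := by
          rw [← Real.exp_add]
          congr 1
          field_simp
          ring
        _ ≤ Real.exp (-(y / 4)) := Real.exp_le_exp.2 (by linarith)
    calc 6 * ((2 / p) * Real.exp (160 * (1 / 640 * p ^ 2) / p * m) * (1 - p / 2) ^ m)
        = 12 * p⁻¹ * (Real.exp (160 * (1 / 640 * p ^ 2) / p * m) * (1 - p / 2) ^ m) := by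
          field_simp
          ring
      _ ≤ 12 * p⁻¹ * Real.exp (-(y / 4)) := by gcongr
      _ = 12 * 256 * ((y / 4) ^ 4 * Real.exp (-(y / 4))) := by
          rw [← hy4]
          ring
  linarith

end Pool.Agent.BP
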