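import Pool.Agent.Lib_MP_94fe03_pr.Base

set_option autoImplicit false

namespace Pool.Agent.BP

open MeasureTheory ProbabilityTheory

/-- the event that box `b` is not open -/
def closedB {S : Type} (m : ℕ) (a0 a1 pol : Z2 → Set (Z2 → S)) (b : Z2) : Set (Z2 → S) :=
  {σ | ¬ OpenB m (at_ a0 σ) (at_ a1 σ) (at_ pol σ) b}

theorem boxProb_subs_near {m : ℕ} (b : Z2) {u v : ℕ} (hu : u < m) (hv : v < m) :
    Near (21 * m) (b.1 * (3 * m), b.2 * (3 * m)) (subs m b u v) := by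
  simp only [Near, subs, abs_le]
  refine ⟨⟨?_, ?_⟩, ⟨?_, ?_⟩⟩ <;> omega

theorem boxProb_congr {m : ℕ} (b : Z2) {A0 A1 P A0' A1' P' : Set Z2}
    (h : ∀ z, Near (21 * m) (b.1 * (3 * m), b.2 * (3 * m)) z →
      (z ∈ A0 ↔ z ∈ A0') ∧ (z ∈ A1 ↔ z ∈ A1') ∧ (z ∈ P ↔ z ∈ P'))
    (ho : OpenB m A0 A1 P b) : OpenB m A0' A1' P' b := by
  obtain ⟨x, ⟨u, hu, v, hv, rfl, hP, hlast⟩, h1, h2, h3⟩ := ho
  refine ⟨_, ⟨u, hu, v, hv, rfl, ((h _ (boxProb_subs_near b hu hv)).2.2).1 hP,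
    fun u' hu' v' hv' hl hc =>
      hlast u' hu' v' hv' hl (((h _ (boxProb_subs_near b hu' hv')).2.2).2 hc)⟩, ?_, ?_, ?_⟩
  · intro k hk1 hk2 hc
    refine h1 k hk1 hk2 (((h _ ?_).2.1).2 hc)
    simp only [Near, subs, abs_le]
    refine ⟨⟨?_, ?_⟩, ⟨?_, ?_⟩⟩ <;> omega
  · intro k hk1 hk2 hc
    refine h2 k hk1 hk2 (((h _ ?_).2.1).2 hc)
    simp only [Near, subs, abs_le]
    refine ⟨⟨?_, ?_⟩, ⟨?_, ?_⟩⟩ <;> omega
  · intro y hy hc
    exact h3 y hy (((h _ hy).1).2 hc)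

theorem closedB_loc {S : Type} [MeasurableSpace S] {ν : Measure S} [IsProbabilityMeasure ν]
    {a0 a1 pol : Z2 → Set (Z2 → S)} {C p q : ℝ} (hL : LabHyp ν a0 a1 pol C p q) {m : ℕ}
    (hm : 0 < m) (b : Z2) :
    Loc (closedB m a0 a1 pol b) {y | Near (22 * m) (b.1 * (3 * m), b.2 * (3 * m)) y} := by
  intro σ τ e hσ ho
  refine hσ (boxProb_congr b (fun z hz => ?_) ho)
  have key : ∀ y, Near 1 z y → τ y = σ y := by
    intro y hy
    refine (e y ?_).symm
    simp only [Near, abs_le, Set.mem_setOf_eq] at hz hy ⊢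
    refine ⟨⟨?_, ?_⟩, ⟨?_, ?_⟩⟩ <;> omega
  exact ⟨(hL.loc0 z).iff key, (hL.loc1 z).iff key, (hL.locp z).iff key⟩

/-- the later sites of a box in the scanning order -/
def boxProbLater (m : ℕ) (u v : ℕ) : Finset (ℕ × ℕ) :=
  (Finset.range m ×ˢ Finset.range m).filter fun w => v < w.2 ∨ (w.2 = v ∧ u < w.1)

theorem boxProb_near_finite (k : ℤ) (x : Z2) : {y | Near k x y}.Finite := by
  refine ((Set.finite_Icc (x.1 - k) (x.1 + k)).prod (Set.finite_Icc (x.2 - k) (x.2 + k))).subset ?_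
  rintro ⟨y1, y2⟩ hy
  simp only [Near, abs_le, Set.mem_setOf_eq] at hy
  simp only [Set.mem_prod, Set.mem_Icc]
  omega

/-- the event that the site `(u,v)` is chosen -/
def boxProbC {S : Type} (m : ℕ) (pol : Z2 → Set (Z2 → S)) (b : Z2) (w : ℕ × ℕ) : Set (Z2 → S) :=
  (⋂ w' ∈ boxProbLater m w.1 w.2, (pol (subs m b w'.1 w'.2))ᶜ) ∩ pol (subs m b w.1 w.2)

/-- the sites to the left and below of a chosen site -/
def boxProbW (m : ℕ) (x : Z2) : Finset Z2 :=
  (Finset.Icc 1 (12 * m)).image (fun k : ℕ => ((x.1 - k, x.2) : Z2)) ∪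
    (Finset.Icc 1 (15 * m)).image (fun k : ℕ => ((x.1, x.2 - k) : Z2))

theorem boxProbW_card (m : ℕ) (x : Z2) : (boxProbW m x).card ≤ 27 * m := by
  refine (Finset.card_union_le _ _).trans ?_
  have h1 := Finset.card_image_le (s := Finset.Icc 1 (12 * m))
    (f := fun k : ℕ => ((x.1 - k, x.2) : Z2))
  have h2 := Finset.card_image_le (s := Finset.Icc 1 (15 * m))
    (f := fun k : ℕ => ((x.1, x.2 - k) : Z2))
  rw [Nat.card_Icc] at h1 h2
  omega

/-- closed boxes are covered by three kinds of bad events -/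
theorem boxProb_cover {S : Type} (m : ℕ) (a0 a1 pol : Z2 → Set (Z2 → S)) (b : Z2) :
    closedB m a0 a1 pol b ⊆
      (⋂ w ∈ Finset.range m ×ˢ Finset.range m, (pol (subs m b w.1 w.2))ᶜ) ∪
      ((⋃ w ∈ Finset.range m ×ˢ Finset.range m, ⋃ z ∈ boxProbW m (subs m b w.1 w.2),
        boxProbC m pol b w ∩ a1 z) ∪
      (⋃ y ∈ (boxProb_near_finite (21 * m) (b.1 * (3 * m), b.2 * (3 * m))).toFinset, a0 y)) := by
  classical
  intro σ hσ
  by_contra hcon
  rw [Set.mem_union, Set.mem_union, not_or, not_or] at hcon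
  obtain ⟨h1, h2, h3⟩ := hcon
  -- a chosen site exists
  have h4 : ((Finset.range m ×ˢ Finset.range m).filter
      (fun w : ℕ × ℕ => σ ∈ pol (subs m b w.1 w.2))).Nonempty := by
    by_contra hne
    rw [Finset.not_nonempty_iff_eq_empty, Finset.filter_eq_empty_iff] at hne
    apply h1
    simp only [Set.mem_iInter, Set.mem_compl_iff]
    exact fun w hw => hne hw
  -- the last one in the scanning order: maximise m * v + u
  obtain ⟨w, hw, hmax⟩ := Finset.exists_max_image _ (fun w : ℕ × ℕ => m * w.2 + w.1) h4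
  rw [Finset.mem_filter, Finset.mem_product, Finset.mem_range, Finset.mem_range] at hw
  obtain ⟨⟨hu, hv⟩, hp⟩ := hw
  have hlast : ∀ u' < m, ∀ v' < m, (w.2 < v' ∨ (v' = w.2 ∧ w.1 < u')) →
      σ ∉ pol (subs m b u' v') := by
    intro u' hu' v' hv' hl hc
    have h5 := hmax (u', v') (by
      rw [Finset.mem_filter, Finset.mem_product, Finset.mem_range, Finset.mem_range]
      exact ⟨⟨hu', hv'⟩, hc⟩)
    simp only at h5
    rcases hl with hl | ⟨rfl, hl⟩
    · have : m * w.2 + m ≤ m * v' := by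
        calc m * w.2 + m = m * (w.2 + 1) := by ring
          _ ≤ m * v' := Nat.mul_le_mul_left _ hl
      omega
    · omega
  have hC : σ ∈ boxProbC m pol b w := by
    refine ⟨?_, hp⟩
    simp only [Set.mem_iInter, Set.mem_compl_iff]
    intro w' hw'
    rw [boxProbLater, Finset.mem_filter, Finset.mem_product, Finset.mem_range,
      Finset.mem_range] at hw'
    exact hlast _ hw'.1.1 _ hw'.1.2 hw'.2
  have ha1 : ∀ z ∈ boxProbW m (subs m b w.1 w.2), σ ∉ a1 z := by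
    intro z hz hc
    apply h2
    simp only [Set.mem_iUnion]
    exact ⟨w, by
      rw [Finset.mem_product, Finset.mem_range, Finset.mem_range]
      exact ⟨hu, hv⟩, z, hz, hC, hc⟩
  refine hσ ⟨_, ⟨w.1, hu, w.2, hv, rfl, hp, fun u' hu' v' hv' hl => hlast u' hu' v' hv' hl⟩,
    ?_, ?_, ?_⟩
  · intro k hk1 hk2
    refine ha1 _ ?_
    rw [boxProbW, Finset.mem_union]
    left
    exact Finset.mem_image.mpr ⟨k, Finset.mem_Icc.mpr ⟨hk1, hk2⟩, rfl⟩
  · intro k hk1 hk2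
    refine ha1 _ ?_
    rw [boxProbW, Finset.mem_union]
    right
    exact Finset.mem_image.mpr ⟨k, Finset.mem_Icc.mpr ⟨hk1, hk2⟩, rfl⟩
  · intro y hy hc
    apply h3
    simp only [Set.mem_iUnion]
    exact ⟨y, by rw [Set.Finite.mem_toFinset]; exact hy, hc⟩

theorem boxProb_near_card (m : ℕ) (hm : 0 < m) (x : Z2) :
    (boxProb_near_finite (21 * m) x).toFinset.card ≤ (43 * m) ^ 2 := by
  have h1 : (boxProb_near_finite (21 * m) x).toFinset ⊆
      Finset.Icc (x.1 - 21 * m) (x.1 + 21 * m) ×ˢ Finset.Icc (x.2 - 21 * m) (x.2 + 21 * m) := by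
    intro y hy
    rw [Set.Finite.mem_toFinset] at hy
    simp only [Near, abs_le, Set.mem_setOf_eq] at hy
    simp only [Finset.mem_product, Finset.mem_Icc]
    omega
  refine (Finset.card_le_card h1).trans ?_
  rw [Finset.card_product, Int.card_Icc, Int.card_Icc, pow_two]
  refine Nat.mul_le_mul ?_ ?_ <;> omega

section prob

variable {S : Type} [Finite S] [MeasurableSpace S] [DiscreteMeasurableSpace S]
    {ν : Measure S} [IsProbabilityMeasure ν] {a0 a1 pol : Z2 → Set (Z2 → S)} {C p q : ℝ}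

/-- the support of the sites of a set -/
def boxProbSup (A : Finset Z2) : Set Z2 := ⋃ x ∈ (A : Set Z2), {y | Near 1 x y}

theorem boxProbSup_finite (A : Finset Z2) : (boxProbSup A).Finite :=
  Set.Finite.biUnion A.finite_toSet fun x _ => boxProb_near_finite 1 x

omit [Finite S] [DiscreteMeasurableSpace S] in
theorem boxProb_loc_pol (hL : LabHyp ν a0 a1 pol C p q) (A : Finset Z2) :
    Loc (⋂ x ∈ A, pol x) (boxProbSup A) :=
  Loc.biInter (I := (A : Set Z2)) fun x _ => hL.locp x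

omit [Finite S] [DiscreteMeasurableSpace S] in
theorem boxProb_loc_npol (hL : LabHyp ν a0 a1 pol C p q) {κ : Type*} (I : Finset κ)
    (f : κ → Z2) : Loc (⋂ w ∈ I, (pol (f w))ᶜ) (⋃ w ∈ (I : Set κ), {y | Near 1 (f w) y}) :=
  Loc.biInter (I := (I : Set κ)) fun w _ => (hL.locp (f w)).compl

theorem boxProb_npol (hL : LabHyp ν a0 a1 pol C p q) (x : Z2) :
    0 ≤ (PM ν).real (pol x)ᶜ ∧ (PM ν).real (pol x)ᶜ ≤ 1 - q := by
  refine ⟨measureReal_nonneg, ?_⟩
  rw [probReal_compl_eq_one_sub ((hL.locp x).measurableSet (boxProb_near_finite 1 x))]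
  linarith [hL.hq x]

theorem boxProb_subs_box {m : ℕ} (b : Z2) {u v : ℕ} (hu : u < m) (hv : v < m) {y : Z2}
    (hy : Near 1 (subs m b u v) y) : b.1 * (3 * m) ≤ y.1 ∧ y.1 < (b.1 + 1) * (3 * m) ∧
      b.2 * (3 * m) ≤ y.2 ∧ y.2 < (b.2 + 1) * (3 * m) := by
  simp only [Near, subs, abs_le] at hy
  rw [add_mul, add_mul, one_mul]
  omega

/-- term (1) -/
theorem boxProb_one (hL : LabHyp ν a0 a1 pol C p q) {m : ℕ} (b : Z2) (A : Finset Z2)
    (hA : ∀ x ∈ A, ∀ y, Near 1 x y → ¬ (b.1 * (3 * m) ≤ y.1 ∧ y.1 < (b.1 + 1) * (3 * m) ∧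
      b.2 * (3 * m) ≤ y.2 ∧ y.2 < (b.2 + 1) * (3 * m))) :
    (PM ν).real ((⋂ x ∈ A, pol x) ∩
      ⋂ w ∈ Finset.range m ×ˢ Finset.range m, (pol (subs m b w.1 w.2))ᶜ) ≤
      (1 - q) ^ (m ^ 2) * (PM ν).real (⋂ x ∈ A, pol x) := by
  have hfin : (⋃ w ∈ ((Finset.range m ×ˢ Finset.range m : Finset (ℕ × ℕ)) : Set (ℕ × ℕ)),
      {y | Near 1 (subs m b w.1 w.2) y}).Finite :=
    Set.Finite.biUnion (Finset.finite_toSet _) fun w _ => boxProb_near_finite 1 _
  rw [PM_indep ν (boxProbSup_finite A) hfin (boxProb_loc_pol hL A)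
    (boxProb_loc_npol hL _ (fun w : ℕ × ℕ => subs m b w.1 w.2))]
  · rw [mul_comm]
    refine mul_le_mul_of_nonneg_right ?_ measureReal_nonneg
    have hd : ∀ w ∈ Finset.range m ×ˢ Finset.range m, ∀ w' ∈ Finset.range m ×ˢ Finset.range m,
        w ≠ w' → Disjoint {y | Near 1 (subs m b w.1 w.2) y} {y | Near 1 (subs m b w'.1 w'.2) y} := by
      intro w _ w' _ hne
      rw [Set.disjoint_left]
      intro y hy hy'
      apply hne
      simp only [Near, subs, abs_le, Set.mem_setOf_eq] at hy hy'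
      refine Prod.ext ?_ ?_ <;> omega
    have h := PM_prod ν (Finset.range m ×ˢ Finset.range m)
      (fun w : ℕ × ℕ => (pol (subs m b w.1 w.2))ᶜ)
      (fun w : ℕ × ℕ => {y | Near 1 (subs m b w.1 w.2) y})
      (fun w _ => boxProb_near_finite 1 _) (fun w _ => (hL.locp (subs m b w.1 w.2)).compl) hd
    rw [h]
    calc ∏ w ∈ Finset.range m ×ˢ Finset.range m, (PM ν).real (pol (subs m b w.1 w.2))ᶜ
        ≤ ∏ _w ∈ Finset.range m ×ˢ Finset.range m, (1 - q) :=
          Finset.prod_le_prod (fun w _ => (boxProb_npol hL _).1) (fun w _ => (boxProb_npol hL _).2)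
      _ = (1 - q) ^ (m ^ 2) := by
          rw [Finset.prod_const, Finset.card_product, Finset.card_range, pow_two]
  · rw [Set.disjoint_left]
    intro y hy hy'
    simp only [boxProbSup, Set.mem_iUnion] at hy hy'
    obtain ⟨x, hx, hxy⟩ := hy
    obtain ⟨w, hw, hwy⟩ := hy'
    rw [Finset.mem_coe, Finset.mem_product, Finset.mem_range, Finset.mem_range] at hw
    exact hA x (Finset.mem_coe.mp hx) y hxy (boxProb_subs_box b hw.1 hw.2 hwy)

/-- term (2), one site -/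
theorem boxProb_two (hL : LabHyp ν a0 a1 pol C p q) {m : ℕ} (b : Z2)
    (A : Finset Z2)
    (hA : ∀ x ∈ A, ∀ y, Near 1 x y → ¬ (b.1 * (3 * m) ≤ y.1 ∧ y.1 < (b.1 + 1) * (3 * m) ∧
      b.2 * (3 * m) ≤ y.2 ∧ y.2 < (b.2 + 1) * (3 * m)))
    (w : ℕ × ℕ) (hw : w ∈ Finset.range m ×ˢ Finset.range m) (z : Z2)
    (hz : z ∈ boxProbW m (subs m b w.1 w.2)) :
    (PM ν).real ((⋂ x ∈ A, pol x) ∩ (boxProbC m pol b w ∩ a1 z)) ≤
      C * p * (PM ν).real (⋂ x ∈ A, pol x) * (PM ν).real (boxProbC m pol b w) := by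
  rw [Finset.mem_product, Finset.mem_range, Finset.mem_range] at hw
  obtain ⟨hu, hv⟩ := hw
  set x := subs m b w.1 w.2 with hx
  set Sc : Set (Z2 → S) := ⋂ w' ∈ boxProbLater m w.1 w.2, (pol (subs m b w'.1 w'.2))ᶜ with hSc
  set s : Set Z2 := ⋃ w' ∈ ((boxProbLater m w.1 w.2 : Finset (ℕ × ℕ)) : Set (ℕ × ℕ)),
      {y | Near 1 (subs m b w'.1 w'.2) y} with hs
  have hsfin : s.Finite :=
    Set.Finite.biUnion (Finset.finite_toSet _) fun w _ => boxProb_near_finite 1 _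
  have hSloc : Loc Sc s := boxProb_loc_npol hL _ (fun w : ℕ × ℕ => subs m b w.1 w.2)
  have hsmem : ∀ y ∈ s, ∃ w' : ℕ × ℕ, (w'.1 < m ∧ w'.2 < m) ∧
      (w.2 < w'.2 ∨ (w'.2 = w.2 ∧ w.1 < w'.1)) ∧ Near 1 (subs m b w'.1 w'.2) y := by
    intro y hy
    simp only [hs, Set.mem_iUnion] at hy
    obtain ⟨w', hw', hy⟩ := hy
    rw [Finset.mem_coe, boxProbLater, Finset.mem_filter, Finset.mem_product, Finset.mem_range,
      Finset.mem_range] at hw'
    exact ⟨w', hw'.1, hw'.2, hy⟩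
  have hsbox : ∀ y ∈ s, (b.1 * (3 * m) ≤ y.1 ∧ y.1 < (b.1 + 1) * (3 * m) ∧
      b.2 * (3 * m) ≤ y.2 ∧ y.2 < (b.2 + 1) * (3 * m)) := by
    intro y hy
    obtain ⟨w', hw', _, hn⟩ := hsmem y hy
    exact boxProb_subs_box b hw'.1 hw'.2 hn
  -- the supports
  have hd1 : Disjoint s (boxProbSup A) := by
    rw [Set.disjoint_left]
    intro y hy hy'
    simp only [boxProbSup, Set.mem_iUnion] at hy'
    obtain ⟨x', hx', hxy⟩ := hy'
    exact hA x' (Finset.mem_coe.mp hx') y hxy (hsbox y hy)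
  have hd2 : Disjoint s {y | Near 1 x y} := by
    rw [Set.disjoint_left]
    intro y hy hy'
    obtain ⟨w', hw', hl, hn⟩ := hsmem y hy
    simp only [Near, subs, abs_le, Set.mem_setOf_eq, hx] at hn hy'
    omega
  have hd3 : Disjoint s {y | Near 1 z y} := by
    rw [Set.disjoint_left]
    intro y hy hy'
    obtain ⟨w', hw', hl, hn⟩ := hsmem y hy
    rw [boxProbW, Finset.mem_union, Finset.mem_image, Finset.mem_image] at hz
    rcases hz with ⟨k, hk, rfl⟩ | ⟨k, hk, rfl⟩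
    · rw [Finset.mem_Icc] at hk
      simp only [Near, subs, abs_le, Set.mem_setOf_eq, hx] at hn hy'
      omega
    · rw [Finset.mem_Icc] at hk
      simp only [Near, subs, abs_le, Set.mem_setOf_eq, hx] at hn hy'
      omega
  have hd4 : Disjoint (boxProbSup A) {y | Near 1 x y} := by
    rw [Set.disjoint_left]
    intro y hy hy'
    simp only [boxProbSup, Set.mem_iUnion] at hy
    obtain ⟨x', hx', hxy⟩ := hy
    exact hA x' (Finset.mem_coe.mp hx') y hxy (boxProb_subs_box b hu hv hy')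
  have e1 : (⋂ x ∈ A, pol x) ∩ (boxProbC m pol b w ∩ a1 z) =
      Sc ∩ (((⋂ x ∈ A, pol x) ∩ pol x) ∩ a1 z) := by
    ext σ
    simp only [boxProbC, Set.mem_inter_iff, ← hx, ← hSc]
    tauto
  have e2 : (⋂ x ∈ A, pol x) ∩ pol x = ⋂ x' ∈ insert x A, pol x' := by
    rw [Finset.set_biInter_insert, Set.inter_comm]
  have hlA := boxProb_loc_pol hL A
  have i1 : (PM ν).real (Sc ∩ (((⋂ x ∈ A, pol x) ∩ pol x) ∩ a1 z)) =
      (PM ν).real Sc * (PM ν).real (((⋂ x ∈ A, pol x) ∩ pol x) ∩ a1 z) := by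
    refine PM_indep ν hsfin ?_ hSloc ((hlA.inter (hL.locp x)).inter (hL.loc1 z)) ?_
    · exact ((boxProbSup_finite A).union (boxProb_near_finite 1 x)).union (boxProb_near_finite 1 z)
    · rw [Set.disjoint_union_right, Set.disjoint_union_right]
      exact ⟨⟨hd1, hd2⟩, hd3⟩
  have i2 : (PM ν).real ((⋂ x ∈ A, pol x) ∩ pol x) =
      (PM ν).real (⋂ x ∈ A, pol x) * (PM ν).real (pol x) :=
    PM_indep ν (boxProbSup_finite A) (boxProb_near_finite 1 x) hlA (hL.locp x) hd4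
  have i3 : (PM ν).real (boxProbC m pol b w) = (PM ν).real Sc * (PM ν).real (pol x) :=
    PM_indep ν hsfin (boxProb_near_finite 1 x) hSloc (hL.locp x) hd2
  have i4 : (PM ν).real (((⋂ x ∈ A, pol x) ∩ pol x) ∩ a1 z) ≤
      C * p * (PM ν).real ((⋂ x ∈ A, pol x) ∩ pol x) := by
    rw [e2]
    exact hL.h1 (insert x A) z
  rw [e1, i1, i3]
  calc (PM ν).real Sc * (PM ν).real (((⋂ x ∈ A, pol x) ∩ pol x) ∩ a1 z)
      ≤ (PM ν).real Sc * (C * p * (PM ν).real ((⋂ x ∈ A, pol x) ∩ pol x)) :=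
        mul_le_mul_of_nonneg_left i4 measureReal_nonneg
    _ = _ := by rw [i2]; ring

theorem boxProb_sum_C (hL : LabHyp ν a0 a1 pol C p q) {m : ℕ} (b : Z2) :
    ∑ w ∈ Finset.range m ×ˢ Finset.range m, (PM ν).real (boxProbC m pol b w) ≤ 1 := by
  rw [← measureReal_biUnion_finset]
  · exact measureReal_le_one
  · intro w hw w' hw' hne
    rw [Function.onFun, Set.disjoint_left]
    rintro σ ⟨h1, h2⟩ ⟨h3, h4⟩
    simp only [Set.mem_iInter, Set.mem_compl_iff, boxProbLater, Finset.mem_filter,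
      Finset.mem_product, Finset.mem_range] at h1 h3
    simp only [Finset.coe_product, Finset.coe_range, Set.mem_prod, Set.mem_Iio] at hw hw'
    rcases lt_trichotomy w.2 w'.2 with h | h | h
    · exact h1 w' ⟨⟨hw'.1, hw'.2⟩, Or.inl h⟩ h4
    · rcases lt_trichotomy w.1 w'.1 with h' | h' | h'
      · exact h1 w' ⟨⟨hw'.1, hw'.2⟩, Or.inr ⟨h.symm, h'⟩⟩ h4
      · exact hne (Prod.ext h' h)
      · exact h3 w ⟨⟨hw.1, hw.2⟩, Or.inr ⟨h, h'⟩⟩ h2
    · exact h3 w ⟨⟨hw.1, hw.2⟩, Or.inl h⟩ h2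
  · intro w _
    refine Loc.measurableSet ?_ (Loc.inter
      (boxProb_loc_npol hL _ (fun w : ℕ × ℕ => subs m b w.1 w.2)) (hL.locp _))
    exact (Set.Finite.biUnion (Finset.finite_toSet _) fun w _ => boxProb_near_finite 1 _).union
      (boxProb_near_finite 1 _)

end prob

/-- closed boxes are unlikely, also given that some sites outside are polluted -/
theorem closedB_prob {S : Type} [Finite S] [MeasurableSpace S] [DiscreteMeasurableSpace S]
    {ν : Measure S} [IsProbabilityMeasure ν] {a0 a1 pol : Z2 → Set (Z2 → S)} {C p q : ℝ}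
    (hC : 0 ≤ C) (hp : 0 ≤ p) (hq0 : 0 ≤ q) (hL : LabHyp ν a0 a1 pol C p q) {m : ℕ}
    (hm : 0 < m) (b : Z2) (A : Finset Z2)
    (hA : ∀ x ∈ A, ∀ y, Near 1 x y → ¬ (b.1 * (3 * m) ≤ y.1 ∧ y.1 < (b.1 + 1) * (3 * m) ∧
      b.2 * (3 * m) ≤ y.2 ∧ y.2 < (b.2 + 1) * (3 * m))) :
    (PM ν).real ((⋂ x ∈ A, pol x) ∩ closedB m a0 a1 pol b) ≤
      ((1 - q) ^ (m ^ 2) + 27 * m * (C * p) + (43 * m) ^ 2 * (C * p ^ 2)) *
        (PM ν).real (⋂ x ∈ A, pol x) := by
  set E : Set (Z2 → S) := ⋂ x ∈ A, pol x with hE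
  have hsub : E ∩ closedB m a0 a1 pol b ⊆
      (E ∩ ⋂ w ∈ Finset.range m ×ˢ Finset.range m, (pol (subs m b w.1 w.2))ᶜ) ∪
      ((⋃ w ∈ Finset.range m ×ˢ Finset.range m, ⋃ z ∈ boxProbW m (subs m b w.1 w.2),
        E ∩ (boxProbC m pol b w ∩ a1 z)) ∪
      (⋃ y ∈ (boxProb_near_finite (21 * m) (b.1 * (3 * m), b.2 * (3 * m))).toFinset,
        E ∩ a0 y)) := by
    rintro σ ⟨h1, h2⟩
    rcases boxProb_cover m a0 a1 pol b h2 with h | h | h
    · exact Or.inl ⟨h1, h⟩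
    · right; left
      simp only [Set.mem_iUnion] at h ⊢
      obtain ⟨w, hw, z, hz, h⟩ := h
      exact ⟨w, hw, z, hz, h1, h⟩
    · right; right
      simp only [Set.mem_iUnion] at h ⊢
      obtain ⟨y, hy, h⟩ := h
      exact ⟨y, hy, h1, h⟩
  have hc : 0 ≤ (PM ν).real E := measureReal_nonneg
  have t1 := boxProb_one hL b A hA
  rw [← hE] at t1
  have t2 : (PM ν).real (⋃ w ∈ Finset.range m ×ˢ Finset.range m,
      ⋃ z ∈ boxProbW m (subs m b w.1 w.2), E ∩ (boxProbC m pol b w ∩ a1 z)) ≤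
      27 * m * (C * p) * (PM ν).real E := by
    refine (real_biUnion_le _ _ _).trans ?_
    have h1 : ∀ w ∈ Finset.range m ×ˢ Finset.range m,
        (PM ν).real (⋃ z ∈ boxProbW m (subs m b w.1 w.2), E ∩ (boxProbC m pol b w ∩ a1 z)) ≤
        27 * m * (C * p) * (PM ν).real E * (PM ν).real (boxProbC m pol b w) := by
      intro w hw
      refine (real_biUnion_le _ _ _).trans ?_
      refine (Finset.sum_le_card_nsmul _ _
        (C * p * (PM ν).real E * (PM ν).real (boxProbC m pol b w))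
        (fun z hz => boxProb_two hL b A hA w hw z hz)).trans ?_
      rw [nsmul_eq_mul]
      have h2 : ((boxProbW m (subs m b w.1 w.2)).card : ℝ) ≤ 27 * m := by
        exact_mod_cast boxProbW_card m _
      have h3 : 0 ≤ C * p * (PM ν).real E * (PM ν).real (boxProbC m pol b w) := by
        have : 0 ≤ (PM ν).real (boxProbC m pol b w) := measureReal_nonneg
        positivity
      calc _ ≤ 27 * (m : ℝ) * (C * p * (PM ν).real E * (PM ν).real (boxProbC m pol b w)) :=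
            mul_le_mul_of_nonneg_right h2 h3
        _ = _ := by ring
    refine (Finset.sum_le_sum h1).trans ?_
    rw [← Finset.mul_sum]
    have h2 := boxProb_sum_C (m := m) hL b
    have h3 : 0 ≤ 27 * (m : ℝ) * (C * p) * (PM ν).real E := by positivity
    calc _ ≤ 27 * (m : ℝ) * (C * p) * (PM ν).real E * 1 := mul_le_mul_of_nonneg_left h2 h3
      _ = _ := by ring
  have t3 : (PM ν).real (⋃ y ∈ (boxProb_near_finite (21 * m)
      (b.1 * (3 * m), b.2 * (3 * m))).toFinset, E ∩ a0 y) ≤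
      (43 * m) ^ 2 * (C * p ^ 2) * (PM ν).real E := by
    refine (real_biUnion_le _ _ _).trans ?_
    refine (Finset.sum_le_card_nsmul _ _ (C * p ^ 2 * (PM ν).real E)
        (fun y _ => hL.h0 A y)).trans ?_
    rw [nsmul_eq_mul]
    have h2 : ((boxProb_near_finite (21 * m) (b.1 * (3 * m), b.2 * (3 * m))).toFinset.card : ℝ) ≤
        (43 * m) ^ 2 := by
      exact_mod_cast boxProb_near_card m hm _
    calc _ ≤ (43 * (m : ℝ)) ^ 2 * (C * p ^ 2 * (PM ν).real E) :=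
          mul_le_mul_of_nonneg_right h2 (by positivity)
      _ = _ := by ring
  have hle := (measureReal_mono hsub (measure_ne_top (PM ν) _)).trans
    ((measureReal_union_le _ _).trans (add_le_add (le_refl _) (measureReal_union_le _ _)))
  refine hle.trans ?_
  linarith

end Pool.Agent.BP
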