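import Pool.Agent.Lib_MP_94fe03_pr.Bern

set_option autoImplicit false

namespace Pool.Agent.BP

open MeasureTheory ProbabilityTheory Filter

/-- the four lattice neighbours -/
def hlNb (x : Z2) : Finset Z2 := {(x.1 + 1, x.2), (x.1 - 1, x.2), (x.1, x.2 + 1), (x.1, x.2 - 1)}

theorem hl_mem_nb {x y : Z2} : Nb x y ↔ y ∈ hlNb x := by
  obtain ⟨x1, x2⟩ := x
  obtain ⟨y1, y2⟩ := y
  simp only [hlNb, Nb, Finset.mem_insert, Finset.mem_singleton, Prod.mk.injEq]
  constructor
  · rintro (⟨h1, h2⟩ | ⟨h1, h2⟩)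
    · rcases (abs_eq (by norm_num)).1 h2 with h | h
      · right; right; right; constructor <;> omega
      · right; right; left; constructor <;> omega
    · rcases (abs_eq (by norm_num)).1 h2 with h | h
      · right; left; constructor <;> omega
      · left; constructor <;> omega
  · rintro (⟨h1, h2⟩ | ⟨h1, h2⟩ | ⟨h1, h2⟩ | ⟨h1, h2⟩)
    · right; refine ⟨h2.symm, ?_⟩; rw [h1]; simp
    · right; refine ⟨h2.symm, ?_⟩; rw [h1]; simp
    · left; refine ⟨h1.symm, ?_⟩; rw [h2]; simp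
    · left; refine ⟨h1.symm, ?_⟩; rw [h2]; simp

theorem hl_nb_card (x : Z2) : (hlNb x).card ≤ 4 := by
  unfold hlNb
  refine (Finset.card_insert_le _ _).trans ?_
  refine Nat.succ_le_succ ((Finset.card_insert_le _ _).trans ?_)
  refine Nat.succ_le_succ ((Finset.card_insert_le _ _).trans ?_)
  simp

theorem hl_nb_ne {x y : Z2} (h : y ∈ hlNb x) : y ≠ x := by
  rintro rfl
  rw [← hl_mem_nb] at h
  rcases h with h | h <;> simp at h

/-- row of a square -/
def hlRow {n : ℕ} (x : Z2) (i : Fin n) : Finset (V n) :=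
  Finset.univ.image fun j : Fin n => ((x, (i, j)) : V n)

/-- column of a square -/
def hlCol {n : ℕ} (x : Z2) (j : Fin n) : Finset (V n) :=
  Finset.univ.image fun i : Fin n => ((x, (i, j)) : V n)

/-- lattice neighbours of a vertex -/
def hlLat {n : ℕ} (x : Z2) (v : Fin n × Fin n) : Finset (V n) :=
  (hlNb x).image fun y => ((y, v) : V n)

theorem hl_mem_row {n : ℕ} {x : Z2} {i : Fin n} {w : V n} :
    w ∈ hlRow x i ↔ w.1 = x ∧ w.2.1 = i := by
  obtain ⟨w1, w2, w3⟩ := w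
  simp [hlRow, eq_comm]

theorem hl_mem_col {n : ℕ} {x : Z2} {j : Fin n} {w : V n} :
    w ∈ hlCol x j ↔ w.1 = x ∧ w.2.2 = j := by
  obtain ⟨w1, w2, w3⟩ := w
  simp [hlCol, eq_comm]

theorem hl_mem_lat {n : ℕ} {x : Z2} {v : Fin n × Fin n} {w : V n} :
    w ∈ hlLat x v ↔ w.1 ∈ hlNb x ∧ w.2 = v := by
  obtain ⟨w1, w2⟩ := w
  simp only [hlLat, Finset.mem_image, Prod.mk.injEq]
  constructor
  · rintro ⟨a, h, rfl, rfl⟩; exact ⟨h, rfl⟩
  · rintro ⟨h, rfl⟩; exact ⟨w1, h, rfl, rfl⟩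

theorem hl_row_card {n : ℕ} (x : Z2) (i : Fin n) : (hlRow x i).card ≤ n := by
  refine Finset.card_image_le.trans ?_
  simp

theorem hl_col_card {n : ℕ} (x : Z2) (j : Fin n) : (hlCol x j).card ≤ n := by
  refine Finset.card_image_le.trans ?_
  simp

theorem hl_lat_card {n : ℕ} (x : Z2) (v : Fin n × Fin n) : (hlLat x v).card ≤ 4 :=
  Finset.card_image_le.trans (hl_nb_card x)

/-- number of occupied vertices in `s` -/
def hlN {ι : Type} (c : ι → Bool) (s : Finset ι) : ℕ := (s.filter fun i => c i = true).card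

theorem hlN_mono {ι : Type} {c c' : ι → Bool} (h : ∀ w, c w = true → c' w = true) (s : Finset ι) :
    hlN c s ≤ hlN c' s := by
  refine Finset.card_le_card ?_
  intro w hw
  rw [Finset.mem_filter] at hw ⊢
  exact ⟨hw.1, h w hw.2⟩

theorem hlN_sub {ι : Type} (c : ι → Bool) {s t : Finset ι} (h : s ⊆ t) : hlN c s ≤ hlN c t :=
  Finset.card_le_card (Finset.filter_subset_filter _ h)

theorem hlN_union {ι : Type} [DecidableEq ι] (c : ι → Bool) {s t : Finset ι} (h : Disjoint s t) :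
    hlN c (s ∪ t) = hlN c s + hlN c t := by
  unfold hlN
  rw [Finset.filter_union, Finset.card_union_of_disjoint]
  exact Finset.disjoint_filter_filter h

theorem hl_cnt_le {n : ℕ} (c : V n → Bool) (x : Z2) (v : Fin n × Fin n) :
    cnt c x v ≤ hlN c ((hlRow x v.1).erase (x, v)) + hlN c ((hlCol x v.2).erase (x, v)) +
      hlN c (hlLat x v) := by
  classical
  unfold cnt
  refine Nat.add_le_add ?_ ?_
  · have himg : ((fun w => ((x, w) : V n)) '' {w | HAdj v w ∧ c (x, w) = true}) ⊆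
        ↑((((hlRow x v.1).erase (x, v)).filter fun i => c i = true) ∪
          (((hlCol x v.2).erase (x, v)).filter fun i => c i = true)) := by
      rintro _ ⟨w, ⟨⟨hne, hw⟩, hc⟩, rfl⟩
      rw [Finset.mem_coe, Finset.mem_union, Finset.mem_filter, Finset.mem_filter, Finset.mem_erase,
        Finset.mem_erase, hl_mem_row, hl_mem_col]
      have hne' : ((x, w) : V n) ≠ (x, v) := by
        intro h
        exact hne (Prod.mk.inj h).2.symm
      rcases hw with hw | hw
      · left; exact ⟨⟨hne', rfl, hw.symm⟩, hc⟩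
      · right; exact ⟨⟨hne', rfl, hw.symm⟩, hc⟩
    have hinj : Function.Injective (fun w : Fin n × Fin n => ((x, w) : V n)) :=
      fun a b h => (Prod.mk.inj h).2
    rw [← Set.ncard_image_of_injective _ hinj]
    refine (Set.ncard_le_ncard himg (Finset.finite_toSet _)).trans ?_
    rw [Set.ncard_coe_finset]
    exact Finset.card_union_le _ _
  · have himg : ((fun y => ((y, v) : V n)) '' {y | Nb x y ∧ c (y, v) = true}) ⊆
        ↑((hlLat x v).filter fun i => c i = true) := by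
      rintro _ ⟨y, ⟨h1, hc⟩, rfl⟩
      rw [Finset.mem_coe, Finset.mem_filter, hl_mem_lat]
      exact ⟨⟨hl_mem_nb.1 h1, rfl⟩, hc⟩
    have hinj : Function.Injective (fun y : Z2 => ((y, v) : V n)) :=
      fun a b h => (Prod.mk.inj h).1
    rw [← Set.ncard_image_of_injective _ hinj]
    refine (Set.ncard_le_ncard himg (Finset.finite_toSet _)).trans ?_
    rw [Set.ncard_coe_finset]
    exact le_refl _

theorem hl_near_nb {x y : Z2} (h : Nb x y) : Near 1 x y := by
  unfold Near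
  rcases h with h | h
  · refine ⟨?_, h.2.le⟩
    rw [h.1]; simp
  · refine ⟨h.2.le, ?_⟩
    rw [h.1]; simp

theorem hl_near_self (x : Z2) : Near 1 x x := by
  unfold Near; simp

theorem hl_cnt_congr {n : ℕ} (x : Z2) (v : Fin n × Fin n) (c c' : V n → Bool)
    (e : ∀ w : V n, w ∈ {w : V n | Near 1 x w.1} → c w = c' w) : cnt c x v = cnt c' x v := by
  unfold cnt
  have h1 : {w | HAdj v w ∧ c (x, w) = true} = {w | HAdj v w ∧ c' (x, w) = true} := by
    ext w
    simp only [Set.mem_ofPred_eq]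
    rw [e (x, w) (hl_near_self x)]
  have h2 : {y | Nb x y ∧ c (y, v) = true} = {y | Nb x y ∧ c' (y, v) = true} := by
    ext y
    simp only [Set.mem_ofPred_eq]
    constructor
    · rintro ⟨h, h'⟩
      exact ⟨h, by rw [← e (y, v) (hl_near_nb h)]; exact h'⟩
    · rintro ⟨h, h'⟩
      exact ⟨h, by rw [e (y, v) (hl_near_nb h)]; exact h'⟩
  rw [h1, h2]

theorem hl_cnt_mono {n : ℕ} (x : Z2) (v : Fin n × Fin n) (c c' : V n → Bool)
    (h : ∀ w, c w = true → c' w = true) : cnt c x v ≤ cnt c' x v := by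
  unfold cnt
  refine Nat.add_le_add ?_ ?_
  · refine Set.ncard_le_ncard ?_ (Set.toFinite _)
    rintro w ⟨h1, h2⟩
    exact ⟨h1, h _ h2⟩
  · refine Set.ncard_le_ncard ?_ ((hlNb x).finite_toSet.subset ?_)
    · rintro w ⟨h1, h2⟩
      exact ⟨h1, h _ h2⟩
    · rintro w ⟨h1, h2⟩
      exact hl_mem_nb.1 h1

theorem evA_loc (l j : ℕ) {n : ℕ} (x : Z2) :
    Loc (evA l j x : Set (V n → Bool)) {w : V n | Near 1 x w.1} := by
  rintro c c' e ⟨v, hv⟩
  exact ⟨v, by rwa [← hl_cnt_congr x v c c' e]⟩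

theorem evP_loc (l : ℕ) {n : ℕ} (x : Z2) :
    Loc (evP l x : Set (V n → Bool)) {w : V n | Near 1 x w.1} := by
  intro c c' e hc v
  have := hc v
  rwa [← hl_cnt_congr x v c c' e]

theorem evA_incr (l j : ℕ) {n : ℕ} (x : Z2) (c c' : V n → Bool) (h : ∀ w, c w = true → c' w = true)
    (hc : c ∈ (evA l j x : Set (V n → Bool))) : c' ∈ (evA l j x : Set (V n → Bool)) := by
  obtain ⟨v, hv⟩ := hc
  exact ⟨v, hv.trans (Nat.add_le_add_right (hl_cnt_mono x v c c' h) _)⟩

theorem evP_decr (l : ℕ) {n : ℕ} (x : Z2) (c c' : V n → Bool) (h : ∀ w, c' w = true → c w = true)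
    (hc : c ∈ (evP l x : Set (V n → Bool))) : c' ∈ (evP l x : Set (V n → Bool)) := by
  intro v
  exact (Nat.add_le_add_right (hl_cnt_mono x v c' c h) _).trans (hc v)

/-! ### probability bounds -/

theorem hl_tail {ι : Type} (p : unitInterval) (s : Finset ι) {m : ℕ} (hs : s.card ≤ m) (k : ℕ) :
    (PM (bern p)).real {c : ι → Bool | k ≤ hlN c s} ≤ ((m : ℝ) * p) ^ k := by
  refine (PM_tail p s k).trans ?_
  rw [mul_pow]
  refine mul_le_mul_of_nonneg_right ?_ (pow_nonneg p.2.1 _)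
  have h1 : (s.card.choose k : ℝ) ≤ (s.card : ℝ) ^ k := by exact_mod_cast Nat.choose_le_pow s.card k
  refine h1.trans ?_
  exact pow_le_pow_left₀ (Nat.cast_nonneg _) (by exact_mod_cast hs) _

/-- all sites that count for `v` -/
def hlAll {n : ℕ} (x : Z2) (v : Fin n × Fin n) : Finset (V n) :=
  ((hlRow x v.1).erase (x, v) ∪ (hlCol x v.2).erase (x, v)) ∪ hlLat x v

theorem hl_disj1 {n : ℕ} (x : Z2) (v : Fin n × Fin n) :
    Disjoint ((hlRow x v.1).erase (x, v)) ((hlCol x v.2).erase (x, v)) := by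
  rw [Finset.disjoint_left]
  intro w h1 h2
  rw [Finset.mem_erase, hl_mem_row] at h1
  rw [Finset.mem_erase, hl_mem_col] at h2
  apply h1.1
  obtain ⟨w1, w2, w3⟩ := w
  obtain ⟨v1, v2⟩ := v
  simp only at h1 h2 ⊢
  rw [h1.2.1, h1.2.2, h2.2.2]

theorem hl_disj2 {n : ℕ} (x : Z2) (v : Fin n × Fin n) :
    Disjoint ((hlRow x v.1).erase (x, v) ∪ (hlCol x v.2).erase (x, v)) (hlLat x v) := by
  rw [Finset.disjoint_left]
  intro w h1 h2
  rw [hl_mem_lat] at h2
  have h3 : w.1 = x := by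
    rcases Finset.mem_union.1 h1 with h | h
    · rw [Finset.mem_erase, hl_mem_row] at h; exact h.2.1
    · rw [Finset.mem_erase, hl_mem_col] at h; exact h.2.1
  exact hl_nb_ne h2.1 h3

theorem hl_all_card {n : ℕ} (x : Z2) (v : Fin n × Fin n) : (hlAll x v).card ≤ 2 * n + 2 := by
  unfold hlAll
  have h1 : ((hlRow x v.1).erase (x, v)).card ≤ n - 1 := by
    have hm : ((x, v) : V n) ∈ hlRow x v.1 := hl_mem_row.2 ⟨rfl, rfl⟩
    rw [Finset.card_erase_of_mem hm]
    exact Nat.sub_le_sub_right (hl_row_card x v.1) 1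
  have h2 : ((hlCol x v.2).erase (x, v)).card ≤ n - 1 := by
    have hm : ((x, v) : V n) ∈ hlCol x v.2 := hl_mem_col.2 ⟨rfl, rfl⟩
    rw [Finset.card_erase_of_mem hm]
    exact Nat.sub_le_sub_right (hl_col_card x v.2) 1
  have h3 := hl_lat_card x v
  have h4 : 0 < n := v.1.pos
  refine (Finset.card_union_le _ _).trans ?_
  have h5 := Finset.card_union_le ((hlRow x v.1).erase (x, v)) ((hlCol x v.2).erase (x, v))
  omega

theorem hl_all_N {n : ℕ} (c : V n → Bool) (x : Z2) (v : Fin n × Fin n) :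
    hlN c (hlAll x v) = hlN c ((hlRow x v.1).erase (x, v)) + hlN c ((hlCol x v.2).erase (x, v)) +
      hlN c (hlLat x v) := by
  unfold hlAll
  rw [hlN_union c (hl_disj2 x v), hlN_union c (hl_disj1 x v)]

/-- probability that an occupied lattice neighbour exists and `k` further sites are occupied -/
theorem hl_lat_prob {n : ℕ} (p : unitInterval) (x : Z2) (k : ℕ) :
    (PM (bern p)).real {c : V n → Bool | ∃ v, 1 ≤ hlN c (hlLat x v) ∧ k + 1 ≤ hlN c (hlAll x v)} ≤
      (n : ℝ) ^ 2 * (4 * p * (((2 * n + 2 : ℕ) : ℝ) * p) ^ k) := by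
  classical
  have hp : (0 : ℝ) ≤ p := p.2.1
  have hsub : {c : V n → Bool | ∃ v, 1 ≤ hlN c (hlLat x v) ∧ k + 1 ≤ hlN c (hlAll x v)} ⊆
      ⋃ v ∈ (Finset.univ : Finset (Fin n × Fin n)), ⋃ y ∈ hlNb x,
        ⋃ t ∈ ((hlAll x v).erase (y, v)).powersetCard k,
        {c : V n → Bool | ∀ i ∈ insert ((y, v) : V n) t, c i = true} := by
    rintro c ⟨v, h1, h2⟩
    obtain ⟨w, hw⟩ := Finset.card_pos.1 (lt_of_lt_of_le Nat.zero_lt_one h1)
    rw [Finset.mem_filter, hl_mem_lat] at hw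
    obtain ⟨⟨hw1, hw2⟩, hw3⟩ := hw
    obtain ⟨y, v'⟩ := w
    simp only at hw1 hw2
    subst hw2
    have hmem : ((y, v') : V n) ∈ (hlAll x v').filter fun i => c i = true := by
      rw [Finset.mem_filter]
      refine ⟨?_, hw3⟩
      unfold hlAll
      exact Finset.mem_union_right _ (hl_mem_lat.2 ⟨hw1, rfl⟩)
    have h3 : k ≤ (((hlAll x v').filter fun i => c i = true).erase (y, v')).card := by
      rw [Finset.card_erase_of_mem hmem]
      exact Nat.le_sub_of_add_le h2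
    obtain ⟨t, ht, hk⟩ := Finset.exists_subset_card_eq h3
    simp only [Set.mem_iUnion]
    refine ⟨v', Finset.mem_univ _, y, hw1, t, ?_, ?_⟩
    · rw [Finset.mem_powersetCard]
      refine ⟨fun i hi => ?_, hk⟩
      have := ht hi
      rw [Finset.mem_erase, Finset.mem_filter] at this
      rw [Finset.mem_erase]
      exact ⟨this.1, this.2.1⟩
    · intro i hi
      rcases Finset.mem_insert.1 hi with rfl | hi
      · exact hw3
      · have := ht hi
        rw [Finset.mem_erase, Finset.mem_filter] at this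
        exact this.2.2
  refine (measureReal_mono hsub (measure_ne_top _ _)).trans ?_
  refine (real_biUnion_le _ _ _).trans ?_
  have hone : ∀ v : Fin n × Fin n, ∀ y ∈ hlNb x, (PM (bern p)).real
      (⋃ t ∈ ((hlAll x v).erase (y, v)).powersetCard k,
        {c : V n → Bool | ∀ i ∈ insert ((y, v) : V n) t, c i = true}) ≤
      p * (((2 * n + 2 : ℕ) : ℝ) * p) ^ k := by
    intro v y _
    refine (real_biUnion_le _ _ _).trans ?_
    have : ∀ t ∈ ((hlAll x v).erase (y, v)).powersetCard k, (PM (bern p)).real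
        {c : V n → Bool | ∀ i ∈ insert ((y, v) : V n) t, c i = true} = (p : ℝ) ^ (k + 1) := by
      intro t ht
      obtain ⟨h1, h2⟩ := Finset.mem_powersetCard.1 ht
      rw [PM_all_true, Finset.card_insert_of_notMem, h2]
      intro hmem
      exact (Finset.mem_erase.1 (h1 hmem)).1 rfl
    rw [Finset.sum_congr rfl this, Finset.sum_const, Finset.card_powersetCard, nsmul_eq_mul, pow_succ,
      mul_pow, ← mul_assoc, mul_comm ((p : ℝ))]
    refine mul_le_mul_of_nonneg_right ?_ hp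
    refine mul_le_mul_of_nonneg_right ?_ (pow_nonneg hp _)
    have h1 : ((((hlAll x v).erase (y, v)).card.choose k : ℕ) : ℝ) ≤
        (((hlAll x v).erase (y, v)).card : ℝ) ^ k := by
      exact_mod_cast Nat.choose_le_pow _ k
    refine h1.trans ?_
    refine pow_le_pow_left₀ (Nat.cast_nonneg _) ?_ _
    exact_mod_cast (Finset.card_erase_le).trans (hl_all_card x v)
  have htwo : ∀ v ∈ (Finset.univ : Finset (Fin n × Fin n)), (PM (bern p)).real
      (⋃ y ∈ hlNb x, ⋃ t ∈ ((hlAll x v).erase (y, v)).powersetCard k,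
        {c : V n → Bool | ∀ i ∈ insert ((y, v) : V n) t, c i = true}) ≤
      4 * p * (((2 * n + 2 : ℕ) : ℝ) * p) ^ k := by
    intro v _
    refine (real_biUnion_le _ _ _).trans ?_
    refine (Finset.sum_le_sum (hone v)).trans ?_
    rw [Finset.sum_const, nsmul_eq_mul, mul_assoc]
    refine mul_le_mul_of_nonneg_right ?_ (by positivity)
    exact_mod_cast hl_nb_card x
  refine (Finset.sum_le_sum htwo).trans ?_
  rw [Finset.sum_const, nsmul_eq_mul, Finset.card_univ, Fintype.card_prod, Fintype.card_fin]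
  refine le_of_eq ?_
  push_cast
  ring

/-- a row with at least `k` occupied sites -/
theorem hl_row_prob {n : ℕ} (p : unitInterval) (x : Z2) (k : ℕ) :
    (PM (bern p)).real {c : V n → Bool | ∃ i : Fin n, k ≤ hlN c (hlRow x i)} ≤
      (n : ℝ) * ((n : ℝ) * p) ^ k := by
  have e : {c : V n → Bool | ∃ i : Fin n, k ≤ hlN c (hlRow x i)} =
      ⋃ i ∈ (Finset.univ : Finset (Fin n)), {c : V n → Bool | k ≤ hlN c (hlRow x i)} := by
    ext c; simp
  rw [e]
  refine (real_biUnion_le _ _ _).trans ?_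
  refine (Finset.sum_le_sum fun i _ => hl_tail p (hlRow x i) (hl_row_card x i) k).trans ?_
  rw [Finset.sum_const, nsmul_eq_mul, Finset.card_univ, Fintype.card_fin]

theorem hl_col_prob {n : ℕ} (p : unitInterval) (x : Z2) (k : ℕ) :
    (PM (bern p)).real {c : V n → Bool | ∃ i : Fin n, k ≤ hlN c (hlCol x i)} ≤
      (n : ℝ) * ((n : ℝ) * p) ^ k := by
  have e : {c : V n → Bool | ∃ i : Fin n, k ≤ hlN c (hlCol x i)} =
      ⋃ i ∈ (Finset.univ : Finset (Fin n)), {c : V n → Bool | k ≤ hlN c (hlCol x i)} := by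
    ext c; simp
  rw [e]
  refine (real_biUnion_le _ _ _).trans ?_
  refine (Finset.sum_le_sum fun i _ => hl_tail p (hlCol x i) (hl_col_card x i) k).trans ?_
  rw [Finset.sum_const, nsmul_eq_mul, Finset.card_univ, Fintype.card_fin]

/-- a vertex whose row and column both have `k` further occupied sites -/
theorem hl_cross_prob {n : ℕ} (p : unitInterval) (x : Z2) (k : ℕ) :
    (PM (bern p)).real {c : V n → Bool | ∃ v : Fin n × Fin n,
        k ≤ hlN c ((hlRow x v.1).erase (x, v)) ∧ k ≤ hlN c ((hlCol x v.2).erase (x, v))} ≤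
      ((n : ℝ) * ((n : ℝ) * p) ^ k) ^ 2 := by
  have hp : (0 : ℝ) ≤ p := p.2.1
  have e : {c : V n → Bool | ∃ v : Fin n × Fin n,
        k ≤ hlN c ((hlRow x v.1).erase (x, v)) ∧ k ≤ hlN c ((hlCol x v.2).erase (x, v))} =
      ⋃ v ∈ (Finset.univ : Finset (Fin n × Fin n)),
        ({c : V n → Bool | k ≤ hlN c ((hlRow x v.1).erase (x, v))} ∩
          {c : V n → Bool | k ≤ hlN c ((hlCol x v.2).erase (x, v))}) := by
    ext c; simp
  rw [e]
  refine (real_biUnion_le _ _ _).trans ?_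
  have hone : ∀ v ∈ (Finset.univ : Finset (Fin n × Fin n)), (PM (bern p)).real
      ({c : V n → Bool | k ≤ hlN c ((hlRow x v.1).erase (x, v))} ∩
          {c : V n → Bool | k ≤ hlN c ((hlCol x v.2).erase (x, v))}) ≤
      (((n : ℝ) * p) ^ k) ^ 2 := by
    intro v _
    have hind := PM_indep (bern p) (Finset.finite_toSet _) (Finset.finite_toSet _)
      (Loc.count ((hlRow x v.1).erase (x, v)) (fun m => k ≤ m))
      (Loc.count ((hlCol x v.2).erase (x, v)) (fun m => k ≤ m))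
      (by exact_mod_cast hl_disj1 x v)
    change (PM (bern p)).real ({c : V n → Bool | k ≤ hlN c ((hlRow x v.1).erase (x, v))} ∩
      {c : V n → Bool | k ≤ hlN c ((hlCol x v.2).erase (x, v))}) =
      (PM (bern p)).real {c : V n → Bool | k ≤ hlN c ((hlRow x v.1).erase (x, v))} *
      (PM (bern p)).real {c : V n → Bool | k ≤ hlN c ((hlCol x v.2).erase (x, v))} at hind
    rw [hind, sq]
    refine mul_le_mul ?_ ?_ measureReal_nonneg (by positivity)
    · exact hl_tail p _ (Finset.card_erase_le.trans (hl_row_card x v.1)) k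
    · exact hl_tail p _ (Finset.card_erase_le.trans (hl_col_card x v.2)) k
  refine (Finset.sum_le_sum hone).trans ?_
  rw [Finset.sum_const, nsmul_eq_mul, Finset.card_univ, Fintype.card_prod, Fintype.card_fin]
  refine le_of_eq ?_
  push_cast
  ring

/-- asymptotic bookkeeping: `z ^ l = log n / n`, `ph = z log n`, `n pc = K z` -/
theorem hl_z (l : ℕ) (hl : 1 ≤ l) : ∃ K : ℝ, 0 < K ∧ ∀ n : ℕ, 3 ≤ n →
    ∃ z : ℝ, 0 < z ∧ z ^ l = Real.log n / n ∧ ph l n = z * Real.log n ∧ (n : ℝ) * pc l n = K * z := by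
  refine ⟨(2 * ((l - 1).factorial : ℝ)) ^ ((1 : ℝ) / l), ?_, ?_⟩
  · refine Real.rpow_pos_of_pos ?_ _
    positivity
  intro n hn
  have hn0 : (0 : ℝ) < n := by exact_mod_cast (by omega : 0 < n)
  have hL : 0 < Real.log n := Real.log_pos (by exact_mod_cast (by omega : 1 < n))
  have hl0 : (l : ℝ) ≠ 0 := by exact_mod_cast (by omega : l ≠ 0)
  refine ⟨(Real.log n) ^ ((1 : ℝ) / l) / (n : ℝ) ^ ((1 : ℝ) / l), ?_, ?_, ?_, ?_⟩
  · exact div_pos (Real.rpow_pos_of_pos hL _) (Real.rpow_pos_of_pos hn0 _)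
  · rw [div_pow, ← Real.rpow_natCast, ← Real.rpow_natCast, ← Real.rpow_mul hL.le,
      ← Real.rpow_mul hn0.le, one_div_mul_cancel hl0, Real.rpow_one, Real.rpow_one]
  · unfold ph
    rw [Real.rpow_add hL, Real.rpow_one, neg_div, Real.rpow_neg hn0.le]
    field_simp
  · unfold pc
    rw [Real.rpow_add hn0, Real.rpow_one]
    field_simp

/-- upper bounds for the probabilities that a square is helped by at most one infected neighbour -/
theorem evA_prob (l : ℕ) (hl : 1 ≤ l) : ∃ C : ℝ, 0 < C ∧ ∀ᶠ n : ℕ in atTop,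
    ∀ p : unitInterval, pc l n / 2 ≤ (p : ℝ) → (p : ℝ) ≤ 2 * pc l n → ∀ x : Z2,
    (PM (bern p)).real (evA l 1 x : Set (V n → Bool)) ≤ C * ph l n ∧
    (PM (bern p)).real (evA l 0 x : Set (V n → Bool)) ≤ C * ph l n ^ 2 := by
  obtain ⟨K, hK, hz⟩ := hl_z l hl
  set M : ℝ := (1 + 2 * K) ^ (2 * l + 2) with hM
  have hK1 : (1 : ℝ) ≤ 1 + 2 * K := by linarith
  have hM1 : 1 ≤ M := one_le_pow₀ hK1
  set C : ℝ := 2 * M + M ^ 2 + 4 * 4 ^ (2 * l + 1) * M with hC
  refine ⟨C, by positivity, ?_⟩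
  filter_upwards [eventually_ge_atTop 3] with n hn p _ hp x
  obtain ⟨z, hz0, hzl, hph, hpc⟩ := hz n hn
  have hn0 : (0 : ℝ) < n := by exact_mod_cast (by omega : 0 < n)
  have hn1 : (1 : ℝ) ≤ n := by exact_mod_cast (by omega : 1 ≤ n)
  have hp0 : (0 : ℝ) ≤ p := p.2.1
  have hL1 : 1 ≤ Real.log n := by
    rw [Real.le_log_iff_exp_le hn0]
    have h1 := Real.exp_one_lt_d9
    have h2 : (3 : ℝ) ≤ n := by exact_mod_cast hn
    linarith
  have hLn : Real.log n ≤ n := (Real.log_le_sub_one_of_pos hn0).trans (by linarith)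
  set L := Real.log n with hLdef
  set u : ℝ := (n : ℝ) * p with hu
  have hu0 : 0 ≤ u := by positivity
  have huz : u ≤ (1 + 2 * K) * z := by
    have h1 : (n : ℝ) * p ≤ n * (2 * pc l n) := mul_le_mul_of_nonneg_left hp hn0.le
    have h2 : (n : ℝ) * (2 * pc l n) = 2 * (K * z) := by rw [← hpc]; ring
    rw [h2] at h1
    have : 0 ≤ z := hz0.le
    nlinarith
  have hpow : ∀ k : ℕ, k ≤ 2 * l + 2 → u ^ k ≤ M * z ^ k := by
    intro k hk
    refine (pow_le_pow_left₀ hu0 huz k).trans ?_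
    rw [mul_pow]
    exact mul_le_mul_of_nonneg_right (pow_le_pow_right₀ hK1 hk) (by positivity)
  have hnz : (n : ℝ) * z ^ l = L := by rw [hzl]; field_simp
  -- the four basic estimates
  have b1 : (n : ℝ) * u ^ (l + 1) ≤ M * ph l n := by
    have h := mul_le_mul_of_nonneg_left (hpow (l + 1) (by omega)) hn0.le
    refine h.trans (le_of_eq ?_)
    rw [hph, pow_succ, ← hnz]; ring
  have b2 : (n : ℝ) * u ^ (l + 2) ≤ M * ph l n ^ 2 := by
    have h := mul_le_mul_of_nonneg_left (hpow (l + 2) (by omega)) hn0.le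
    refine h.trans ?_
    have e1 : (n : ℝ) * (M * z ^ (l + 2)) = M * (L * z ^ 2) := by
      rw [← hnz, pow_add]; ring
    rw [e1, hph, mul_pow]
    refine mul_le_mul_of_nonneg_left ?_ (by positivity)
    rw [mul_comm]
    refine mul_le_mul_of_nonneg_left ?_ (by positivity)
    nlinarith
  have b3 : (n : ℝ) * u ^ (2 * l + 1) ≤ M * ph l n := by
    have h := mul_le_mul_of_nonneg_left (hpow (2 * l + 1) (by omega)) hn0.le
    refine h.trans ?_
    have e1 : (n : ℝ) * (M * z ^ (2 * l + 1)) = M * ((z * L) * z ^ l) := by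
      rw [← hnz, two_mul, pow_add, pow_add]; ring
    rw [e1, hph]
    refine mul_le_mul_of_nonneg_left ?_ (by positivity)
    have : z ^ l ≤ 1 := by
      rw [hzl, div_le_one hn0]; exact hLn
    have h0 : 0 ≤ z * L := by positivity
    nlinarith
  have b4 : (n : ℝ) * u ^ (2 * l + 2) ≤ M * ph l n ^ 2 := by
    have h := mul_le_mul_of_nonneg_left (hpow (2 * l + 2) (by omega)) hn0.le
    refine h.trans ?_
    have e1 : (n : ℝ) * (M * z ^ (2 * l + 2)) = M * (z ^ 2 * L * z ^ l) := by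
      rw [← hnz, two_mul, pow_add, pow_add]; ring
    rw [e1, hph, mul_pow]
    refine mul_le_mul_of_nonneg_left ?_ (by positivity)
    have h1 : z ^ l ≤ L := by
      have : z ^ l ≤ 1 := by
        rw [hzl, div_le_one hn0]; exact hLn
      linarith
    have h0 : 0 ≤ z ^ 2 * L := by positivity
    calc z ^ 2 * L * z ^ l ≤ z ^ 2 * L * L := mul_le_mul_of_nonneg_left h1 h0
      _ = z ^ 2 * L ^ 2 := by ring
  have b5 : ((n : ℝ) * u ^ (l + 1)) ^ 2 ≤ M ^ 2 * ph l n ^ 2 := by
    rw [← mul_pow]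
    exact pow_le_pow_left₀ (by positivity) b1 2
  -- the lattice term
  have hlat : ∀ k : ℕ, k ≤ 2 * l + 1 →
      (n : ℝ) ^ 2 * (4 * p * (((2 * n + 2 : ℕ) : ℝ) * p) ^ k) ≤
        4 * 4 ^ (2 * l + 1) * ((n : ℝ) * u ^ (k + 1)) := by
    intro k hk
    have h1 : (((2 * n + 2 : ℕ) : ℝ) * p) ^ k ≤ (4 * u) ^ k := by
      refine pow_le_pow_left₀ (by positivity) ?_ k
      rw [hu]
      push_cast
      nlinarith
    have h2 : (n : ℝ) ^ 2 * (4 * p * (((2 * n + 2 : ℕ) : ℝ) * p) ^ k) ≤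
        (n : ℝ) ^ 2 * (4 * p * (4 * u) ^ k) := by
      refine mul_le_mul_of_nonneg_left ?_ (by positivity)
      exact mul_le_mul_of_nonneg_left h1 (by positivity)
    refine h2.trans ?_
    have e1 : (n : ℝ) ^ 2 * (4 * p * (4 * u) ^ k) = 4 ^ k * (4 * ((n : ℝ) * u ^ (k + 1))) := by
      rw [mul_pow, pow_succ, hu]; ring
    rw [e1]
    have h3 : (4 : ℝ) ^ k ≤ 4 ^ (2 * l + 1) := pow_le_pow_right₀ (by norm_num) hk
    have h4 : 0 ≤ 4 * ((n : ℝ) * u ^ (k + 1)) := by positivity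
    calc (4 : ℝ) ^ k * (4 * ((n : ℝ) * u ^ (k + 1))) ≤ 4 ^ (2 * l + 1) * (4 * ((n : ℝ) * u ^ (k + 1))) :=
          mul_le_mul_of_nonneg_right h3 h4
      _ = _ := by ring
  have hphpos : 0 < ph l n := by rw [hph]; positivity
  constructor
  · have hsub : (evA l 1 x : Set (V n → Bool)) ⊆
        ({c : V n → Bool | ∃ i : Fin n, l + 1 ≤ hlN c (hlRow x i)} ∪
          {c : V n → Bool | ∃ i : Fin n, l + 1 ≤ hlN c (hlCol x i)}) ∪
        {c : V n → Bool | ∃ v, 1 ≤ hlN c (hlLat x v) ∧ 2 * l + 1 ≤ hlN c (hlAll x v)} := by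
      rintro c ⟨v, hv⟩
      have h1 := hl_cnt_le c x v
      have h2 := hl_all_N c x v
      have h3 := hlN_sub c (Finset.erase_subset ((x, v) : V n) (hlRow x v.1))
      have h4 := hlN_sub c (Finset.erase_subset ((x, v) : V n) (hlCol x v.2))
      by_cases hr : l + 1 ≤ hlN c (hlRow x v.1)
      · exact Or.inl (Or.inl ⟨v.1, hr⟩)
      by_cases hc : l + 1 ≤ hlN c (hlCol x v.2)
      · exact Or.inl (Or.inr ⟨v.2, hc⟩)
      · right
        refine ⟨v, ?_, ?_⟩ <;> omega
    refine (measureReal_mono hsub (measure_ne_top _ _)).trans ?_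
    refine (measureReal_union_le _ _).trans ?_
    have h1 := measureReal_union_le (μ := PM (bern p))
      {c : V n → Bool | ∃ i : Fin n, l + 1 ≤ hlN c (hlRow x i)}
      {c : V n → Bool | ∃ i : Fin n, l + 1 ≤ hlN c (hlCol x i)}
    have h2 := hl_row_prob (n := n) p x (l + 1)
    have h3 := hl_col_prob (n := n) p x (l + 1)
    have h4 := (hl_lat_prob (n := n) p x (2 * l)).trans (hlat (2 * l) (by omega))
    have h5 : 4 * 4 ^ (2 * l + 1) * ((n : ℝ) * u ^ (2 * l + 1)) ≤
        4 * 4 ^ (2 * l + 1) * (M * ph l n) := mul_le_mul_of_nonneg_left b3 (by positivity)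
    have h6 : C * ph l n = 2 * (M * ph l n) + M ^ 2 * ph l n +
        4 * 4 ^ (2 * l + 1) * (M * ph l n) := by rw [hC]; ring
    have h7 : 0 ≤ M ^ 2 * ph l n := by positivity
    rw [h6]
    linarith
  · have hsub : (evA l 0 x : Set (V n → Bool)) ⊆
        (({c : V n → Bool | ∃ i : Fin n, l + 2 ≤ hlN c (hlRow x i)} ∪
          {c : V n → Bool | ∃ i : Fin n, l + 2 ≤ hlN c (hlCol x i)}) ∪
        {c : V n → Bool | ∃ v : Fin n × Fin n,
          l + 1 ≤ hlN c ((hlRow x v.1).erase (x, v)) ∧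
          l + 1 ≤ hlN c ((hlCol x v.2).erase (x, v))}) ∪
        {c : V n → Bool | ∃ v, 1 ≤ hlN c (hlLat x v) ∧ 2 * l + 1 + 1 ≤ hlN c (hlAll x v)} := by
      rintro c ⟨v, hv⟩
      have h1 := hl_cnt_le c x v
      have h2 := hl_all_N c x v
      have h3 := hlN_sub c (Finset.erase_subset ((x, v) : V n) (hlRow x v.1))
      have h4 := hlN_sub c (Finset.erase_subset ((x, v) : V n) (hlCol x v.2))
      by_cases hr : l + 2 ≤ hlN c (hlRow x v.1)
      · exact Or.inl (Or.inl (Or.inl ⟨v.1, hr⟩))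
      by_cases hc : l + 2 ≤ hlN c (hlCol x v.2)
      · exact Or.inl (Or.inl (Or.inr ⟨v.2, hc⟩))
      by_cases hb : l + 1 ≤ hlN c ((hlRow x v.1).erase (x, v)) ∧
          l + 1 ≤ hlN c ((hlCol x v.2).erase (x, v))
      · exact Or.inl (Or.inr ⟨v, hb⟩)
      · right
        refine ⟨v, ?_, ?_⟩ <;> omega
    refine (measureReal_mono hsub (measure_ne_top _ _)).trans ?_
    refine (measureReal_union_le _ _).trans ?_
    have h0 := measureReal_union_le (μ := PM (bern p))
      ({c : V n → Bool | ∃ i : Fin n, l + 2 ≤ hlN c (hlRow x i)} ∪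
          {c : V n → Bool | ∃ i : Fin n, l + 2 ≤ hlN c (hlCol x i)})
      {c : V n → Bool | ∃ v : Fin n × Fin n,
          l + 1 ≤ hlN c ((hlRow x v.1).erase (x, v)) ∧
          l + 1 ≤ hlN c ((hlCol x v.2).erase (x, v))}
    have h1 := measureReal_union_le (μ := PM (bern p))
      {c : V n → Bool | ∃ i : Fin n, l + 2 ≤ hlN c (hlRow x i)}
      {c : V n → Bool | ∃ i : Fin n, l + 2 ≤ hlN c (hlCol x i)}
    have h2 := hl_row_prob (n := n) p x (l + 2)
    have h3 := hl_col_prob (n := n) p x (l + 2)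
    have h3' := hl_cross_prob (n := n) p x (l + 1)
    have h4 := (hl_lat_prob (n := n) p x (2 * l + 1)).trans (hlat (2 * l + 1) le_rfl)
    have h5 : 4 * 4 ^ (2 * l + 1) * ((n : ℝ) * u ^ (2 * l + 1 + 1)) ≤
        4 * 4 ^ (2 * l + 1) * (M * ph l n ^ 2) := mul_le_mul_of_nonneg_left b4 (by positivity)
    have h6 : C * ph l n ^ 2 = 2 * (M * ph l n ^ 2) + M ^ 2 * ph l n ^ 2 +
        4 * 4 ^ (2 * l + 1) * (M * ph l n ^ 2) := by rw [hC]; ring
    rw [h6]
    linarith

end Pool.Agent.BP
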