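import Pool.Agent.Lib_MP_94fe03_pr.Bern

set_option autoImplicit false

namespace Pool.Agent.BP

open MeasureTheory ProbabilityTheory

/-- section of an event: the coordinate `x` is set to `b` -/
def hrSec {ι : Type} [DecidableEq ι] (A : Set (ι → Bool)) (x : ι) (b : Bool) : Set (ι → Bool) :=
  {c | Function.update c x b ∈ A}

theorem hrSec_loc {ι : Type} [DecidableEq ι] {A : Set (ι → Bool)} {x : ι} {u : Set ι}
    (hA : Loc A (insert x u)) (b : Bool) : Loc (hrSec A x b) u := by
  intro σ τ e hσ
  refine hA _ _ ?_ hσ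
  intro y hy
  by_cases hyx : y = x
  · subst hyx; simp
  · rw [Function.update_of_ne hyx, Function.update_of_ne hyx]
    rcases hy with hy | hy
    · exact absurd hy hyx
    · exact e y hy

theorem hrSec_real {ι : Type} [DecidableEq ι] (p : unitInterval) {A : Set (ι → Bool)} {x : ι}
    {u : Set ι} (hu : u.Finite) (hx : x ∉ u) (hA : Loc A (insert x u)) :
    (PM (bern p)).real A = p * (PM (bern p)).real (hrSec A x true) +
      (1 - p) * (PM (bern p)).real (hrSec A x false) := by
  have hC : ∀ b : Bool, (PM (bern p)).real (hrSec A x b ∩ {c : ι → Bool | c x ∈ ({b} : Set Bool)}) =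
      (PM (bern p)).real (hrSec A x b) * (bern p).real {b} := by
    intro b
    rw [PM_indep (bern p) hu (Set.finite_singleton x) (hrSec_loc hA b) (Loc.coord x {b})
      (by rw [Set.disjoint_singleton_right]; exact hx), PM_coord]
  have hsplit : A = (hrSec A x true ∩ {c : ι → Bool | c x ∈ ({true} : Set Bool)}) ∪
      (hrSec A x false ∩ {c : ι → Bool | c x ∈ ({false} : Set Bool)}) := by
    ext c
    have hself : ∀ b, c x = b → Function.update c x b = c := by
      intro b hb
      rw [← hb]
      exact Function.update_eq_self x c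
    simp only [Set.mem_union, Set.mem_inter_iff, hrSec, Set.mem_ofPred_eq, Set.mem_singleton_iff]
    constructor
    · intro hc
      rcases hb : c x with _ | _
      · right; exact ⟨by rw [hself _ hb]; exact hc, rfl⟩
      · left; exact ⟨by rw [hself _ hb]; exact hc, rfl⟩
    · rintro (⟨h, hb⟩ | ⟨h, hb⟩)
      · rwa [hself _ hb] at h
      · rwa [hself _ hb] at h
  have hdisj : Disjoint (hrSec A x true ∩ {c : ι → Bool | c x ∈ ({true} : Set Bool)})
      (hrSec A x false ∩ {c : ι → Bool | c x ∈ ({false} : Set Bool)}) := by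
    rw [Set.disjoint_left]
    rintro c ⟨_, h1⟩ ⟨_, h2⟩
    simp only [Set.mem_ofPred_eq, Set.mem_singleton_iff] at h1 h2
    rw [h1] at h2
    exact absurd h2 (by simp)
  have hmeas : MeasurableSet (hrSec A x false ∩ {c : ι → Bool | c x ∈ ({false} : Set Bool)}) :=
    Loc.measurableSet (hu.union (Set.finite_singleton x))
      ((hrSec_loc hA false).inter (Loc.coord x {false}))
  conv_lhs => rw [hsplit]
  rw [measureReal_union hdisj hmeas, hC, hC, bern_true, bern_false]
  ring

theorem hr_empty {ι : Type} {A : Set (ι → Bool)} (hA : Loc A ∅) : A = ∅ ∨ A = Set.univ := by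
  rcases Set.eq_empty_or_nonempty A with h | ⟨σ, hσ⟩
  · exact Or.inl h
  · right
    ext τ
    exact ⟨fun _ => trivial, fun _ => hA σ τ (fun x hx => absurd hx (Set.notMem_empty x)) hσ⟩

theorem hr_dd {ι : Type} (p : unitInterval) (u : Finset ι) : ∀ A B : Set (ι → Bool),
    Loc A (u : Set ι) → Loc B (u : Set ι) →
    (∀ c c' : ι → Bool, (∀ i, c' i = true → c i = true) → c ∈ A → c' ∈ A) →
    (∀ c c' : ι → Bool, (∀ i, c' i = true → c i = true) → c ∈ B → c' ∈ B) →
    (PM (bern p)).real A * (PM (bern p)).real B ≤ (PM (bern p)).real (A ∩ B) := by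
  classical
  induction u using Finset.induction_on with
  | empty =>
    intro A B hA hB _ _
    rw [Finset.coe_empty] at hA hB
    rcases hr_empty hA with rfl | rfl
    · simp
    · simp
  | insert x u hx ih =>
    intro A B hA hB hAd hBd
    rw [Finset.coe_insert] at hA hB
    have hx' : x ∉ (u : Set ι) := by simpa using hx
    have hupd : ∀ (c c' : ι → Bool) (b : Bool), (∀ i, c' i = true → c i = true) →
        ∀ i, Function.update c' x b i = true → Function.update c x b i = true := by
      intro c c' b h i hi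
      by_cases hix : i = x
      · subst hix; simpa using hi
      · rw [Function.update_of_ne hix] at hi ⊢
        exact h i hi
    have hdec : ∀ D : Set (ι → Bool),
        (∀ c c' : ι → Bool, (∀ i, c' i = true → c i = true) → c ∈ D → c' ∈ D) → ∀ b,
        (∀ c c' : ι → Bool, (∀ i, c' i = true → c i = true) → c ∈ hrSec D x b →
          c' ∈ hrSec D x b) := by
      intro D hD b c c' h hc
      exact hD _ _ (hupd c c' b h) hc
    have hle : ∀ D : Set (ι → Bool),
        (∀ c c' : ι → Bool, (∀ i, c' i = true → c i = true) → c ∈ D → c' ∈ D) →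
        (PM (bern p)).real (hrSec D x true) ≤ (PM (bern p)).real (hrSec D x false) := by
      intro D hD
      refine measureReal_mono ?_ (measure_ne_top _ _)
      intro c hc
      refine hD _ _ ?_ hc
      intro i hi
      by_cases hix : i = x
      · subst hix; simp
      · rw [Function.update_of_ne hix] at hi ⊢
        exact hi
    have i1 := ih _ _ (hrSec_loc hA true) (hrSec_loc hB true) (hdec A hAd true) (hdec B hBd true)
    have i0 := ih _ _ (hrSec_loc hA false) (hrSec_loc hB false) (hdec A hAd false)
      (hdec B hBd false)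
    have hAB : Loc (A ∩ B) (insert x (u : Set ι)) := by
      have := hA.inter hB
      rwa [Set.union_self] at this
    rw [hrSec_real p u.finite_toSet hx' hA, hrSec_real p u.finite_toSet hx' hB,
      hrSec_real p u.finite_toSet hx' hAB]
    have e : ∀ b, hrSec (A ∩ B) x b = hrSec A x b ∩ hrSec B x b := fun b => rfl
    rw [e, e]
    have hA01 := hle A hAd
    have hB01 := hle B hBd
    set a1 := (PM (bern p)).real (hrSec A x true)
    set a0 := (PM (bern p)).real (hrSec A x false)
    set b1 := (PM (bern p)).real (hrSec B x true)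
    set b0 := (PM (bern p)).real (hrSec B x false)
    set d1 := (PM (bern p)).real (hrSec A x true ∩ hrSec B x true)
    set d0 := (PM (bern p)).real (hrSec A x false ∩ hrSec B x false)
    have hp0 : (0 : ℝ) ≤ p := p.2.1
    have hp1 : (p : ℝ) ≤ 1 := p.2.2
    have hq0 : (0 : ℝ) ≤ 1 - p := by linarith
    have h1 : (p : ℝ) * (a1 * b1) ≤ p * d1 := mul_le_mul_of_nonneg_left i1 hp0
    have h0 : (1 - (p : ℝ)) * (a0 * b0) ≤ (1 - p) * d0 := mul_le_mul_of_nonneg_left i0 hq0
    have h2 : 0 ≤ ((p : ℝ) * (1 - p)) * ((a0 - a1) * (b0 - b1)) :=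
      mul_nonneg (mul_nonneg hp0 hq0) (mul_nonneg (by linarith) (by linarith))
    have h3 : (p : ℝ) * (a1 * b1) + (1 - p) * (a0 * b0) -
        ((p : ℝ) * a1 + (1 - p) * a0) * (p * b1 + (1 - p) * b0) =
        ((p : ℝ) * (1 - p)) * ((a0 - a1) * (b0 - b1)) := by ring
    linarith

/-- two decreasing local events are positively correlated -/
theorem harris_dd {ι : Type} (p : unitInterval) {A B : Set (ι → Bool)} {s t : Set ι}
    (hs : s.Finite) (ht : t.Finite) (hA : Loc A s) (hB : Loc B t)
    (hAd : ∀ c c' : ι → Bool, (∀ i, c' i = true → c i = true) → c ∈ A → c' ∈ A)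
    (hBd : ∀ c c' : ι → Bool, (∀ i, c' i = true → c i = true) → c ∈ B → c' ∈ B) :
    (PM (bern p)).real A * (PM (bern p)).real B ≤ (PM (bern p)).real (A ∩ B) := by
  have hu := hs.union ht
  have e : ((hu.toFinset : Finset ι) : Set ι) = s ∪ t := hu.coe_toFinset
  refine hr_dd p hu.toFinset A B ?_ ?_ hAd hBd
  · rw [e]; exact hA.mono Set.subset_union_left
  · rw [e]; exact hB.mono Set.subset_union_right

/-- Harris: a decreasing and an increasing local event are negatively correlated -/
theorem harris {ι : Type} (p : unitInterval) {A B : Set (ι → Bool)} {s t : Set ι}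
    (hs : s.Finite) (ht : t.Finite) (hA : Loc A s) (hB : Loc B t)
    (hAd : ∀ c c' : ι → Bool, (∀ i, c' i = true → c i = true) → c ∈ A → c' ∈ A)
    (hBi : ∀ c c' : ι → Bool, (∀ i, c i = true → c' i = true) → c ∈ B → c' ∈ B) :
    (PM (bern p)).real (A ∩ B) ≤ (PM (bern p)).real A * (PM (bern p)).real B := by
  have hBm : MeasurableSet B := Loc.measurableSet ht hB
  have h1 := harris_dd p hs ht hA hB.compl hAd (fun c c' h hc hc' => hc (hBi c' c h hc'))
  have h2 : (PM (bern p)).real (A ∩ B) + (PM (bern p)).real (A \ B) = (PM (bern p)).real A :=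
    measureReal_inter_add_sdiff hBm
  have h3 : (PM (bern p)).real Bᶜ = 1 - (PM (bern p)).real B := by
    rw [measureReal_compl hBm]
    simp
  rw [h3] at h1
  have h4 : A ∩ Bᶜ = A \ B := rfl
  rw [h4] at h1
  linarith

end Pool.Agent.BP
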