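import Pool.Agent.Lib_MP_94fe03_pr.HamDet
import Pool.Agent.Lib_MP_94fe03_pr.HamLow
import Pool.Agent.Lib_MP_94fe03_pr.Harris

set_option autoImplicit false

namespace Pool.Agent.BP

open MeasureTheory ProbabilityTheory

/-! ### closure properties of the final set -/

theorem couple_mono {W : Type} (G : SimpleGraph W) (θ : ℕ) (A : Set W) {s t : ℕ} (h : s ≤ t) :
    (bstep G θ)^[s] A ⊆ (bstep G θ)^[t] A := by
  induction h with
  | refl => exact fun _ hx => hx
  | step _ ih =>
    refine ih.trans ?_
    rw [Function.iterate_succ_apply']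
    exact fun _ hx => Or.inl hx

theorem couple_base {W : Type} (G : SimpleGraph W) (θ : ℕ) (A : Set W) {v : W} (h : v ∈ A) :
    v ∈ bfinal G θ A := Set.mem_iUnion.2 ⟨0, h⟩

theorem couple_closed {W : Type} (G : SimpleGraph W) (θ : ℕ) (A : Set W) {v : W} (s : Finset W)
    (hs : ∀ w ∈ s, G.Adj v w) (hc : θ ≤ s.card) (hb : ∀ w ∈ s, w ∈ bfinal G θ A) :
    v ∈ bfinal G θ A := by
  have h1 : ∀ w ∈ s, ∃ t, w ∈ (bstep G θ)^[t] A := fun w hw => Set.mem_iUnion.1 (hb w hw)
  have h2 : ∃ T, ∀ w ∈ s, w ∈ (bstep G θ)^[T] A := by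
    choose! t ht using h1
    exact ⟨s.sup t, fun w hw => couple_mono G θ A (Finset.le_sup hw) (ht w hw)⟩
  obtain ⟨T, hT⟩ := h2
  refine Set.mem_iUnion.2 ⟨T + 1, ?_⟩
  rw [Function.iterate_succ_apply']
  right
  change (θ : ℕ∞) ≤ (G.neighborSet v ∩ (bstep G θ)^[T] A).encard
  have h3 : (s : Set W) ⊆ G.neighborSet v ∩ (bstep G θ)^[T] A :=
    fun w hw => ⟨hs w hw, hT w hw⟩
  calc (θ : ℕ∞) ≤ (s.card : ℕ∞) := by exact_mod_cast hc
    _ = (s : Set W).encard := (Set.encard_coe_eq_coe_finsetCard s).symm
    _ ≤ _ := Set.encard_le_encard h3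

theorem couple_span_init {n r : ℕ} {ω : Sq n} (h : ∀ v, ω v = true) : Span r ω :=
  fun v => Cl.init (h v)

theorem couple_lab_S {l n : ℕ} {ω : Sq n} (h : lab l ω = Lab.S) : ∀ v, ω v = true := by
  unfold lab at h
  split_ifs at h with h1 h2 h3
  exact h1

theorem couple_lab_O {l n : ℕ} {ω : Sq n} (h : lab l ω = Lab.O ∨ lab l ω = Lab.S) :
    Span (2 * l + 1) ω := by
  unfold lab at h
  split_ifs at h with h1 h2 h3
  · exact couple_span_init h1
  · exact h2
  · simp at h
  · simp at h

theorem couple_lab_P {l n : ℕ} {ω : Sq n} (h : lab l ω ≠ Lab.P) : Span (2 * l) ω := by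
  unfold lab at h
  split_ifs at h with h1 h2 h3
  · exact couple_span_init h1
  · exact fun v => Cl.mono_thr (by omega) (h2 v)
  · exact h3
  · simp at h

/-- a square with `j` filled lattice neighbours is filled if it is spanned with threshold `r`,
`2l+2 <= r+j` -/
theorem couple_fill {l n : ℕ} (A : Set (V n)) (ω : Sq n) (x : Z2) (hA : ∀ v, ω v = true → (x, v) ∈ A)
    (r : ℕ) (N : Finset Z2) (hN : ∀ y ∈ N, Nb x y)
    (hf : ∀ y ∈ N, ∀ v, ((y, v) : V n) ∈ bfinal (Gn n) (2 * l + 2) A)
    (hr : 2 * l + 2 ≤ r + N.card) {v : Fin n × Fin n} (h : Cl r ω v) :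
    ((x, v) : V n) ∈ bfinal (Gn n) (2 * l + 2) A := by
  classical
  induction h with
  | init hv => exact couple_base _ _ _ (hA _ hv)
  | @add v s hs hc _ ih =>
    refine couple_closed _ _ _ (s.image (fun w => (x, w)) ∪ N.image (fun y => (y, v))) ?_ ?_ ?_
    · intro w hw
      rcases Finset.mem_union.1 hw with hw | hw
      · obtain ⟨u, hu, rfl⟩ := Finset.mem_image.1 hw
        exact Or.inr ⟨rfl, hs u hu⟩
      · obtain ⟨y, hy, rfl⟩ := Finset.mem_image.1 hw
        exact Or.inl ⟨hN y hy, rfl⟩
    · rw [Finset.card_union_of_disjoint, Finset.card_image_of_injective, Finset.card_image_of_injective]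
      · omega
      · intro a b hab; exact (Prod.ext_iff.1 hab).1
      · intro a b hab; exact (Prod.ext_iff.1 hab).2
      · rw [Finset.disjoint_left]
        intro w hw hw'
        obtain ⟨u, hu, rfl⟩ := Finset.mem_image.1 hw
        obtain ⟨y, hy, e⟩ := Finset.mem_image.1 hw'
        have h1 := hs u hu
        have h2 : v = u := (Prod.ext_iff.1 e).2
        exact h1.1 h2
    · intro w hw
      rcases Finset.mem_union.1 hw with hw | hw
      · obtain ⟨u, hu, rfl⟩ := Finset.mem_image.1 hw
        exact ih u hu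
      · obtain ⟨y, hy, rfl⟩ := Finset.mem_image.1 hw
        exact hf y hy v

/-- a filled site is a completely occupied square -/
theorem fil_final {l n : ℕ} (σ : Z2 → Sq n) {x : Z2} (h : FilL (fun y => lab l (σ y)) x)
    (v : Fin n × Fin n) :
    ((x, v) : V n) ∈ bfinal (Gn n) (2 * l + 2) {w : V n | σ w.1 w.2 = true} := by
  classical
  unfold FilL at h
  induction h generalizing v with
  | seed hx => exact couple_base _ _ _ (couple_lab_S hx v)
  | @one x y hx hxy _ ih =>
    refine couple_fill _ (σ x) x (fun v hv => hv) (2 * l + 1) {y} ?_ ?_ ?_ (couple_lab_O hx v)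
    · intro z hz; rw [Finset.mem_singleton.1 hz]; exact hxy
    · intro z hz w; rw [Finset.mem_singleton.1 hz]; exact ih w
    · simp
  | @two x y z hx hyz hxy hxz _ _ ihy ihz =>
    refine couple_fill _ (σ x) x (fun v hv => hv) (2 * l) {y, z} ?_ ?_ ?_ (couple_lab_P hx v)
    · intro w hw
      rcases Finset.mem_insert.1 hw with rfl | hw
      · exact hxy
      · rw [Finset.mem_singleton.1 hw]; exact hxz
    · intro w hw u
      rcases Finset.mem_insert.1 hw with rfl | hw
      · exact ihy u
      · rw [Finset.mem_singleton.1 hw]; exact ihz u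
    · rw [Finset.card_pair hyz]

theorem couple_nb_finite (x : Z2) : {y : Z2 | Nb x y}.Finite := by
  have : {y : Z2 | Nb x y} ⊆ ({(x.1 + 1, x.2), (x.1 - 1, x.2), (x.1, x.2 + 1), (x.1, x.2 - 1)} : Set Z2) := by
    rintro ⟨a, b⟩ h
    rcases h with ⟨h1, h2⟩ | ⟨h1, h2⟩
    · simp only at h1 h2
      rcases (abs_eq (by norm_num : (0 : ℤ) ≤ 1)).1 h2 with h | h
      · right; right; right
        simp only [Set.mem_singleton_iff, Prod.mk.injEq]
        omega
      · right; right; left
        simp only [Prod.mk.injEq]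
        omega
    · simp only at h1 h2
      rcases (abs_eq (by norm_num : (0 : ℤ) ≤ 1)).1 h2 with h | h
      · right; left
        simp only [Prod.mk.injEq]
        omega
      · left
        simp only [Prod.mk.injEq]
        omega
  exact Set.Finite.subset (Set.toFinite _) this

/-- squares that are not infected do not change -/
theorem final_inf {l n : ℕ} (hl : 1 ≤ l) (c : V n → Bool) {x : Z2} {v : Fin n × Fin n}
    (h : ((x, v) : V n) ∈ bfinal (Gn n) (2 * l + 2) {w : V n | c w = true}) :
    c (x, v) = true ∨ Inf {y | c ∈ (evA l 0 y : Set (V n → Bool))}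
      {y | c ∈ (evA l 1 y : Set (V n → Bool))} {y | c ∈ (evP l y : Set (V n → Bool))} x := by
  classical
  set I := Inf {y | c ∈ (evA l 0 y : Set (V n → Bool))}
      {y | c ∈ (evA l 1 y : Set (V n → Bool))} {y | c ∈ (evP l y : Set (V n → Bool))} with hI
  have key : ∀ t : ℕ, ∀ x : Z2, ∀ v : Fin n × Fin n,
      ((x, v) : V n) ∈ (bstep (Gn n) (2 * l + 2))^[t] {w : V n | c w = true} →
      c (x, v) = true ∨ I x := by
    intro t
    induction t with
    | zero => intro x v h; exact Or.inl h
    | succ t ih =>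
      intro x v h
      rw [Function.iterate_succ_apply'] at h
      rcases h with h | h
      · exact ih x v h
      by_contra hcon
      rw [not_or] at hcon
      obtain ⟨_, hnI⟩ := hcon
      set B := (bstep (Gn n) (2 * l + 2))^[t] {w : V n | c w = true} with hB
      change ((2 * l + 2 : ℕ) : ℕ∞) ≤ ((Gn n).neighborSet (x, v) ∩ B).encard at h
      set S1 : Set (Fin n × Fin n) := {w | HAdj v w ∧ c (x, w) = true} with hS1
      set S2 : Set Z2 := {y | Nb x y ∧ c (y, v) = true} with hS2
      set S3 : Set Z2 := {y | Nb x y ∧ I y} with hS3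
      have f1 : S1.Finite := Set.toFinite _
      have f2 : S2.Finite := (couple_nb_finite x).subset fun y hy => hy.1
      have f3 : S3.Finite := (couple_nb_finite x).subset fun y hy => hy.1
      have hsub : (Gn n).neighborSet (x, v) ∩ B ⊆
          (fun w => ((x, w) : V n)) '' S1 ∪ ((fun y => ((y, v) : V n)) '' S2 ∪
            (fun y => ((y, v) : V n)) '' S3) := by
        rintro ⟨y, w⟩ ⟨hadj, hyB⟩
        rcases hadj with ⟨hn, he⟩ | ⟨he, hh⟩
        · simp only at hn he
          subst he
          rcases ih y v hyB with h1 | h1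
          · exact Or.inr (Or.inl ⟨y, ⟨hn, h1⟩, rfl⟩)
          · exact Or.inr (Or.inr ⟨y, ⟨hn, h1⟩, rfl⟩)
        · simp only at he hh
          subst he
          rcases ih x w hyB with h1 | h1
          · exact Or.inl ⟨w, ⟨hh, h1⟩, rfl⟩
          · exact absurd h1 hnI
      have hcard : 2 * l + 2 ≤ cnt c x v + S3.ncard := by
        have h1 := h.trans (Set.encard_le_encard hsub)
        have h2 := h1.trans (Set.encard_union_le _ _)
        have h3 : (2 * l + 2 : ℕ) ≤ (S1.ncard + (S2.ncard + S3.ncard)) := by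
          have e1 : ((fun w => ((x, w) : V n)) '' S1).encard = (S1.ncard : ℕ∞) := by
            rw [Function.Injective.encard_image (fun a b hab => (Prod.ext_iff.1 hab).2),
              f1.cast_ncard_eq]
          have e2 : ((fun y => ((y, v) : V n)) '' S2).encard = (S2.ncard : ℕ∞) := by
            rw [Function.Injective.encard_image (fun a b hab => (Prod.ext_iff.1 hab).1),
              f2.cast_ncard_eq]
          have e3 : ((fun y => ((y, v) : V n)) '' S3).encard = (S3.ncard : ℕ∞) := by
            rw [Function.Injective.encard_image (fun a b hab => (Prod.ext_iff.1 hab).1),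
              f3.cast_ncard_eq]
          have h4 := h2.trans (add_le_add le_rfl (Set.encard_union_le _ _))
          rw [e1, e2, e3] at h4
          exact_mod_cast h4
        have h5 : cnt c x v = S1.ncard + S2.ncard := rfl
        omega
      -- case analysis on the number of infected neighbours
      rcases Nat.lt_or_ge S3.ncard 1 with h0 | h0
      · refine hnI (Inf.zero ?_)
        exact ⟨v, by omega⟩
      rcases Nat.lt_or_ge S3.ncard 2 with h1 | h1
      · have h2 : S3.Nonempty := by
          rw [← Set.ncard_pos f3]; omega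
        obtain ⟨y, hy1, hy2⟩ := h2
        refine hnI (Inf.one (y := y) ?_ hy1 hy2)
        exact ⟨v, by omega⟩
      rcases Nat.lt_or_ge S3.ncard 3 with h2 | h2
      · obtain ⟨y, hy, z, hz, hyz⟩ := (Set.one_lt_ncard f3).1 (by omega : 1 < S3.ncard)
        refine hnI (Inf.two (y := y) (z := z) ?_ hyz hy.1 hz.1 hy.2 hz.2)
        intro hp
        have := hp v
        omega
      · obtain ⟨y, z, w, hy, hz, hw, hyz, hyw, hzw⟩ := (Set.two_lt_ncard_iff f3).1 (by omega)
        exact hnI (Inf.three hyz hyw hzw hy.1 hz.1 hw.1 hy.2 hz.2 hw.2)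
  obtain ⟨t, ht⟩ := Set.mem_iUnion.1 h
  exact key t x v ht

/-- the law of the initial set, first as a Bernoulli field on the vertices -/
theorem setBernoulli_eq_PM {ι : Type} [Countable ι] (p : unitInterval) (A : Set (Set ι)) :
    (setBernoulli (Set.univ : Set ι) p).real A = (PM (bern p)).real
      {c : ι → Bool | {i | c i = true} ∈ A} := by
  let e : Bool ≃ᵐ Prop :=
    { toEquiv := Equiv.propEquivBool.symm
      measurable_toFun := measurable_from_top
      measurable_invFun := measurable_from_top }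
  have he : ∀ b : Bool, e b = (b = true) := fun b => rfl
  have hem : Measurable (fun b : Bool => (e b : Prop)) := e.measurable
  have h1 : (bern p).map (fun b : Bool => (e b : Prop)) =
      unitInterval.toNNReal p • Measure.dirac True +
        unitInterval.toNNReal (unitInterval.symm p) • Measure.dirac False := by
    unfold bern
    rw [Measure.map_add _ _ hem, Measure.map_smul, Measure.map_smul, Measure.map_dirac' hem,
      Measure.map_dirac' hem]
    simp [he]
  have h2 := Measure.infinitePi_map_pi (μ := fun _ : ι => bern p)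
    (f := fun _ : ι => fun b : Bool => (e b : Prop)) (fun _ => hem)
  have h3 : (PM (ι := ι) (bern p)).map (MeasurableEquiv.piCongrRight fun _ : ι => e) =
      Measure.infinitePi fun i : ι => (unitInterval.toNNReal p • Measure.dirac (i ∈ (Set.univ : Set ι)) +
        unitInterval.toNNReal (unitInterval.symm p) • Measure.dirac False : Measure Prop) := by
    have h4 : (fun i : ι => (unitInterval.toNNReal p • Measure.dirac (i ∈ (Set.univ : Set ι)) +
        unitInterval.toNNReal (unitInterval.symm p) • Measure.dirac False : Measure Prop)) =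
        fun _ : ι => (bern p).map (fun b : Bool => (e b : Prop)) := by
      funext i
      rw [h1]
      simp
    rw [h4, ← h2]
    rfl
  rw [measureReal_def, measureReal_def, setBernoulli_apply', ← h3, MeasurableEquiv.map_apply]
  rfl

/-- then as a field of squares -/
theorem PM_curry {n : ℕ} (p : unitInterval) (A : Set (Z2 → Sq n)) :
    (PM (bern p)).real {c : V n → Bool | (fun x v => c (x, v)) ∈ A} =
      (PM (PM (bern p) : Measure (Sq n))).real A := by
  have h := Measure.infinitePi_map_curry (ι := Z2) (κ := Fin n × Fin n) (X := Bool)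
    (fun _ _ => bern p)
  have h2 : (PM (ι := V n) (bern p)).map (MeasurableEquiv.curry Z2 (Fin n × Fin n) Bool) =
      PM (PM (bern p) : Measure (Sq n)) := h
  rw [measureReal_def, measureReal_def, ← h2, MeasurableEquiv.map_apply]
  rfl

theorem couple_curry_ev {n : ℕ} (p : unitInterval) (E : Set (V n → Bool)) :
    (PM (PM (bern p) : Measure (Sq n))).real {σ : Z2 → Sq n | (fun w : V n => σ w.1 w.2) ∈ E} =
      (PM (bern p)).real E := by
  rw [← PM_curry]
  rfl

theorem couple_near_finite (n : ℕ) (x : Z2) : {w : V n | Near 1 x w.1}.Finite := by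
  have h1 : {y : Z2 | Near 1 x y}.Finite := by
    refine Set.Finite.subset (Set.toFinite
      ((Finset.Icc (x.1 - 1) (x.1 + 1) ×ˢ Finset.Icc (x.2 - 1) (x.2 + 1) : Finset Z2) : Set Z2)) ?_
    intro y hy
    obtain ⟨h1, h2⟩ := hy
    rw [abs_le] at h1 h2
    simp only [Finset.coe_product, Finset.coe_Icc, Set.mem_prod, Set.mem_Icc]
    omega
  have h2 : {w : V n | Near 1 x w.1} = {y : Z2 | Near 1 x y} ×ˢ (Set.univ : Set (Fin n × Fin n)) := by
    ext w; simp
  rw [h2]
  exact h1.prod Set.finite_univ

theorem couple_loc {n : ℕ} {E : Set (V n → Bool)} {x : Z2} (h : Loc E {w : V n | Near 1 x w.1}) :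
    Loc {σ : Z2 → Sq n | (fun w : V n => σ w.1 w.2) ∈ E} {y | Near 1 x y} := by
  intro σ τ e hσ
  refine h _ _ (fun w hw => ?_) hσ
  have := e w.1 hw
  simp only [this]

theorem couple_harris {n l j : ℕ} (p : unitInterval) (A : Finset Z2) (y : Z2) :
    (PM (bern p)).real ((⋂ x ∈ A, (evP l x : Set (V n → Bool))) ∩ evA l j y) ≤
      (PM (bern p)).real (⋂ x ∈ A, (evP l x : Set (V n → Bool))) *
        (PM (bern p)).real (evA l j y : Set (V n → Bool)) := by
  refine harris p (s := ⋃ x ∈ (A : Set Z2), {w : V n | Near 1 x w.1}) (t := {w : V n | Near 1 y w.1})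
    ?_ (couple_near_finite n y) ?_ (evA_loc l j y) ?_ (evA_incr l j y)
  · exact Set.Finite.biUnion A.finite_toSet fun x _ => couple_near_finite n x
  · exact Loc.biInter (I := (A : Set Z2)) fun x _ => evP_loc l x
  · intro c c' h hc
    simp only [Set.mem_iInter] at hc ⊢
    exact fun x hx => evP_decr l x c c' h (hc x hx)

theorem couple_bound {n l j : ℕ} (p : unitInterval) {b : ℝ}
    (A : Finset Z2) (y : Z2) (h1 : (PM (bern p)).real (evA l j y : Set (V n → Bool)) ≤ b) :
    (PM (PM (bern p) : Measure (Sq n))).real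
      ((⋂ x ∈ A, {σ : Z2 → Sq n | (fun w : V n => σ w.1 w.2) ∈ evP l x}) ∩
        {σ : Z2 → Sq n | (fun w : V n => σ w.1 w.2) ∈ evA l j y}) ≤
      b * (PM (PM (bern p) : Measure (Sq n))).real
        (⋂ x ∈ A, {σ : Z2 → Sq n | (fun w : V n => σ w.1 w.2) ∈ evP l x}) := by
  have e1 : (⋂ x ∈ A, {σ : Z2 → Sq n | (fun w : V n => σ w.1 w.2) ∈ evP l x}) =
      {σ : Z2 → Sq n | (fun w : V n => σ w.1 w.2) ∈ ⋂ x ∈ A, (evP l x : Set (V n → Bool))} := by
    ext σ; simp
  have e2 : (⋂ x ∈ A, {σ : Z2 → Sq n | (fun w : V n => σ w.1 w.2) ∈ evP l x}) ∩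
        {σ : Z2 → Sq n | (fun w : V n => σ w.1 w.2) ∈ evA l j y} =
      {σ : Z2 → Sq n | (fun w : V n => σ w.1 w.2) ∈
        (⋂ x ∈ A, (evP l x : Set (V n → Bool))) ∩ evA l j y} := by
    rw [e1]; rfl
  rw [e2, e1, couple_curry_ev, couple_curry_ev]
  refine (couple_harris p A y).trans ?_
  rw [mul_comm]
  exact mul_le_mul_of_nonneg_right h1 measureReal_nonneg

/-- the label hypotheses hold for Hamming squares -/
theorem labHyp_ham {l n : ℕ} (p : unitInterval) {C ph q : ℝ} (hC : 0 ≤ C)
    (h1 : ∀ x : Z2, (PM (bern p)).real (evA l 1 x : Set (V n → Bool)) ≤ C * ph)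
    (h0 : ∀ x : Z2, (PM (bern p)).real (evA l 0 x : Set (V n → Bool)) ≤ C * ph ^ 2)
    (hq : ∀ x : Z2, q ≤ (PM (bern p)).real (evP l x : Set (V n → Bool))) :
    LabHyp (PM (bern p) : Measure (Sq n))
      (fun x => {σ : Z2 → Sq n | (fun w : V n => σ w.1 w.2) ∈ evA l 0 x})
      (fun x => {σ : Z2 → Sq n | (fun w : V n => σ w.1 w.2) ∈ evA l 1 x})
      (fun x => {σ : Z2 → Sq n | (fun w : V n => σ w.1 w.2) ∈ evP l x}) C ph q where
  loc0 x := couple_loc (evA_loc l 0 x)
  loc1 x := couple_loc (evA_loc l 1 x)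
  locp x := couple_loc (evP_loc l x)
  sub x := by
    rintro σ ⟨v, hv⟩
    exact ⟨v, by omega⟩
  disj x := by
    rw [Set.disjoint_left]
    rintro σ hσ ⟨v, hv⟩
    have := hσ v
    omega
  h0 A y := couple_bound p A y (h0 y)
  h1 A y := couple_bound p A y (h1 y)
  hq x := by
    rw [couple_curry_ev]
    exact hq x

end Pool.Agent.BP
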