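import Pool.Agent.Lib_MP_94fe03_pr.HamLow
import Pool.Agent.Lib_MP_94fe03_pr.Harris

set_option autoImplicit false

namespace Pool.Agent.BP

open MeasureTheory ProbabilityTheory Filter

/-- decreasing event -/
def HpDec {ι : Type} (A : Set (ι → Bool)) : Prop :=
  ∀ c c' : ι → Bool, (∀ i, c' i = true → c i = true) → c ∈ A → c' ∈ A

theorem hp_near_finite {n : ℕ} (x : Z2) : {w : V n | Near 1 x w.1}.Finite := by
  refine Set.Finite.subset (s := ↑((Finset.Icc (x.1 - 1) (x.1 + 1) ×ˢ Finset.Icc (x.2 - 1) (x.2 + 1)) ×ˢ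
    (Finset.univ : Finset (Fin n × Fin n)))) (Finset.finite_toSet _) ?_
  intro w hw
  obtain ⟨h1, h2⟩ := hw
  rw [abs_le] at h1 h2
  rw [Finset.mem_coe, Finset.mem_product, Finset.mem_product, Finset.mem_Icc, Finset.mem_Icc]
  refine ⟨⟨⟨?_, ?_⟩, ⟨?_, ?_⟩⟩, Finset.mem_univ _⟩ <;> omega

theorem hpN_congr {ι : Type} {c c' : ι → Bool} {s : Finset ι} {t : Set ι} (hs : ∀ i ∈ s, i ∈ t)
    (e : ∀ w ∈ t, c w = c' w) : hlN c s = hlN c' s := by
  unfold hlN
  congr 1
  apply Finset.filter_congr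
  intro i hi
  rw [e i (hs i hi)]

theorem hp_row_near {n : ℕ} (x : Z2) (i : Fin n) : ∀ w ∈ hlRow x i, w ∈ {w : V n | Near 1 x w.1} := by
  intro w hw
  rw [hl_mem_row] at hw
  rw [Set.mem_ofPred_eq, hw.1]
  exact hl_near_self x

theorem hp_col_near {n : ℕ} (x : Z2) (i : Fin n) : ∀ w ∈ hlCol x i, w ∈ {w : V n | Near 1 x w.1} := by
  intro w hw
  rw [hl_mem_col] at hw
  rw [Set.mem_ofPred_eq, hw.1]
  exact hl_near_self x

theorem hp_lat_near {n : ℕ} (x : Z2) (v : Fin n × Fin n) :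
    ∀ w ∈ hlLat x v, w ∈ {w : V n | Near 1 x w.1} := by
  intro w hw
  rw [hl_mem_lat] at hw
  exact hl_near_nb (hl_mem_nb.2 hw.1)

theorem hp_all_near {n : ℕ} (x : Z2) (v : Fin n × Fin n) :
    ∀ w ∈ hlAll x v, w ∈ {w : V n | Near 1 x w.1} := by
  intro w hw
  unfold hlAll at hw
  rcases Finset.mem_union.1 hw with hw | hw
  · rcases Finset.mem_union.1 hw with hw | hw
    · exact hp_row_near x v.1 w (Finset.mem_of_mem_erase hw)
    · exact hp_col_near x v.2 w (Finset.mem_of_mem_erase hw)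
  · exact hp_lat_near x v w hw

/-- no column with `k` occupied sites -/
def hpC {n : ℕ} (x : Z2) (k : ℕ) : Set (V n → Bool) := {c | ¬ ∃ i : Fin n, k ≤ hlN c (hlCol x i)}

/-- no row with `k` occupied sites -/
def hpR {n : ℕ} (x : Z2) (k : ℕ) : Set (V n → Bool) := {c | ∀ i : Fin n, hlN c (hlRow x i) < k}

/-- no vertex with an occupied lattice neighbour and `k` occupied sites in all -/
def hpL {n : ℕ} (x : Z2) (k : ℕ) : Set (V n → Bool) :=
  {c | ¬ ∃ v, 1 ≤ hlN c (hlLat x v) ∧ k ≤ hlN c (hlAll x v)}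

theorem hpC_loc {n : ℕ} (x : Z2) (k : ℕ) : Loc (hpC x k) {w : V n | Near 1 x w.1} := by
  intro c c' e hc
  rintro ⟨i, hi⟩
  exact hc ⟨i, by rwa [hpN_congr (hp_col_near x i) e]⟩

theorem hpR_loc {n : ℕ} (x : Z2) (k : ℕ) : Loc (hpR x k) {w : V n | Near 1 x w.1} := by
  intro c c' e hc i
  have := hc i
  rwa [hpN_congr (hp_row_near x i) e] at this

theorem hpL_loc {n : ℕ} (x : Z2) (k : ℕ) : Loc (hpL x k) {w : V n | Near 1 x w.1} := by
  intro c c' e hc
  rintro ⟨v, h1, h2⟩
  exact hc ⟨v, by rwa [hpN_congr (hp_lat_near x v) e], by rwa [hpN_congr (hp_all_near x v) e]⟩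

theorem hpC_dec {n : ℕ} (x : Z2) (k : ℕ) : HpDec (hpC x k : Set (V n → Bool)) := by
  intro c c' h hc
  rintro ⟨i, hi⟩
  exact hc ⟨i, hi.trans (hlN_mono h _)⟩

theorem hpR_dec {n : ℕ} (x : Z2) (k : ℕ) : HpDec (hpR x k : Set (V n → Bool)) := by
  intro c c' h hc i
  exact lt_of_le_of_lt (hlN_mono h _) (hc i)

theorem hpL_dec {n : ℕ} (x : Z2) (k : ℕ) : HpDec (hpL x k : Set (V n → Bool)) := by
  intro c c' h hc
  rintro ⟨v, h1, h2⟩
  exact hc ⟨v, h1.trans (hlN_mono h _), h2.trans (hlN_mono h _)⟩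

theorem hp_exp {y : ℝ} (h0 : 0 ≤ y) (h1 : y ≤ 1 / 2) : Real.exp (-y - 2 * y ^ 2) ≤ 1 - y := by
  have hy : 0 < 1 - y := by linarith
  rw [← Real.le_log_iff_exp_le hy]
  have h2 := Real.one_sub_inv_le_log_of_pos hy
  refine le_trans ?_ h2
  have h3 : (1 - y)⁻¹ ≤ 1 + y + 2 * y ^ 2 := by
    rw [inv_le_iff_one_le_mul₀ hy]
    nlinarith [mul_nonneg h0 h0, mul_nonneg (mul_nonneg h0 h0) (by linarith : 0 ≤ 1 / 2 - y)]
  linarith

theorem hp_exp_pow {y : ℝ} (h0 : 0 ≤ y) (h1 : y ≤ 1 / 2) (m : ℕ) :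
    Real.exp (-(m * y)) * Real.exp (-(2 * (m * y ^ 2))) ≤ (1 - y) ^ m := by
  rw [← Real.exp_add]
  have h := pow_le_pow_left₀ (Real.exp_pos _).le (hp_exp h0 h1) m
  rw [← Real.exp_nat_mul] at h
  refine le_trans (le_of_eq ?_) h
  congr 1
  ring

/-- no row with `l` occupied sites -/
theorem hp_row_lower {n : ℕ} (p : unitInterval) (x : Z2) (l : ℕ)
    (hy : ((n : ℝ) * p) ^ l / l.factorial ≤ 1) :
    (1 - ((n : ℝ) * p) ^ l / l.factorial) ^ n ≤ (PM (bern p)).real (hpR x l : Set (V n → Bool)) := by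
  classical
  have hp : (0 : ℝ) ≤ p := p.2.1
  have e : (hpR x l : Set (V n → Bool)) =
      ⋂ i ∈ (Finset.univ : Finset (Fin n)), {c : V n → Bool | hlN c (hlRow x i) < l} := by
    ext c; simp [hpR]
  have hprod : (PM (bern p)).real
      (⋂ i ∈ (Finset.univ : Finset (Fin n)), {c : V n → Bool | hlN c (hlRow x i) < l}) =
      ∏ i ∈ (Finset.univ : Finset (Fin n)),
        (PM (bern p)).real {c : V n → Bool | hlN c (hlRow x i) < l} := by
    refine PM_prod (bern p) Finset.univ (fun i => {c : V n → Bool | hlN c (hlRow x i) < l})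
      (fun i => ((hlRow x i : Finset (V n)) : Set (V n)))
      (fun i _ => Finset.finite_toSet _) (fun i _ => Loc.count (hlRow x i) (fun m => m < l)) ?_
    intro i _ j _ hij
    rw [Finset.disjoint_coe, Finset.disjoint_left]
    intro w h1 h2
    rw [hl_mem_row] at h1 h2
    exact hij (h1.2.symm.trans h2.2)
  rw [e, hprod]
  · have h1 : ∀ i ∈ (Finset.univ : Finset (Fin n)), 1 - ((n : ℝ) * p) ^ l / l.factorial ≤
        (PM (bern p)).real {c : V n → Bool | hlN c (hlRow x i) < l} := by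
      intro i _
      refine le_trans ?_ (one_sub_le_real _ _)
      have hc : {c : V n → Bool | hlN c (hlRow x i) < l}ᶜ =
          {c : V n → Bool | l ≤ ((hlRow x i).filter fun j => c j = true).card} := by
        ext c
        simp [hlN]
      rw [hc]
      refine sub_le_sub_left ((PM_tail p (hlRow x i) l).trans ?_) 1
      have h2 : (((hlRow x i).card.choose l : ℕ) : ℝ) ≤ ((n : ℝ) ^ l) / l.factorial := by
        refine (Nat.choose_le_pow_div l (hlRow x i).card).trans ?_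
        refine div_le_div_of_nonneg_right ?_ (by positivity)
        exact pow_le_pow_left₀ (Nat.cast_nonneg _) (by exact_mod_cast hl_row_card x i) _
      refine (mul_le_mul_of_nonneg_right h2 (pow_nonneg hp _)).trans (le_of_eq ?_)
      rw [mul_pow]; ring
    have h2 := Finset.prod_le_prod (s := (Finset.univ : Finset (Fin n)))
      (f := fun _ => 1 - ((n : ℝ) * p) ^ l / l.factorial) (fun i _ => by linarith) h1
    rw [Finset.prod_const, Finset.card_univ, Fintype.card_fin] at h2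
    exact h2

/-- the whole square -/
def hpSq {n : ℕ} (x : Z2) : Finset (V n) := Finset.univ.image fun v : Fin n × Fin n => ((x, v) : V n)

theorem hp_mem_sq {n : ℕ} {x : Z2} {w : V n} : w ∈ hpSq x ↔ w.1 = x := by
  obtain ⟨w1, w2⟩ := w
  simp [hpSq, eq_comm]

theorem hp_sq_card {n : ℕ} (x : Z2) : (hpSq x : Finset (V n)).card = n * n := by
  unfold hpSq
  rw [Finset.card_image_of_injective _ (fun a b h => (Prod.mk.inj h).2)]
  simp

/-- at most one occupied site in the square -/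
theorem hp_one_lower {n : ℕ} (p : unitInterval) (x : Z2) :
    (1 + (n : ℝ) * (n * p)) * (1 - (p : ℝ)) ^ (n * n) ≤
      (PM (bern p)).real {c : V n → Bool | hlN c (hpSq x) ≤ 1} := by
  classical
  have hp : (0 : ℝ) ≤ p := p.2.1
  have hp1 : (p : ℝ) ≤ 1 := p.2.2
  have h0 := PM_count p (hpSq x : Finset (V n)) 0
  have h1 := PM_count p (hpSq x : Finset (V n)) 1
  have hd : Disjoint {c : V n → Bool | ((hpSq x).filter fun i => c i = true).card = 0}
      {c : V n → Bool | ((hpSq x).filter fun i => c i = true).card = 1} := by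
    rw [Set.disjoint_left]
    intro c h2 h3
    rw [Set.mem_ofPred_eq] at h2 h3
    omega
  have hm : MeasurableSet {c : V n → Bool | ((hpSq x).filter fun i => c i = true).card = 1} :=
    Loc.measurableSet (Finset.finite_toSet _) (Loc.count (hpSq x) (fun m => m = 1))
  have hu := measureReal_union (μ := PM (bern p)) hd hm
  have hsub : {c : V n → Bool | ((hpSq x).filter fun i => c i = true).card = 0} ∪
      {c : V n → Bool | ((hpSq x).filter fun i => c i = true).card = 1} ⊆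
      {c : V n → Bool | hlN c (hpSq x) ≤ 1} := by
    rintro c (h | h)
    · rw [Set.mem_ofPred_eq] at h
      change ((hpSq x).filter fun i => c i = true).card ≤ 1
      omega
    · rw [Set.mem_ofPred_eq] at h
      change ((hpSq x).filter fun i => c i = true).card ≤ 1
      omega
  have h2 := measureReal_mono (μ := PM (bern p)) hsub (measure_ne_top _ _)
  rw [hu, h0, h1, hp_sq_card] at h2
  refine le_trans ?_ h2
  rw [Nat.choose_zero_right, Nat.choose_one_right, pow_zero, pow_one, Nat.sub_zero, add_mul]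
  refine add_le_add ?_ ?_
  · simp
  · have h3 : (1 - (p : ℝ)) ^ (n * n) ≤ (1 - (p : ℝ)) ^ (n * n - 1) :=
      pow_le_pow_of_le_one (by linarith) (by linarith) (Nat.sub_le _ _)
    have h4 : (0 : ℝ) ≤ (n : ℝ) * (n * p) := by positivity
    refine (mul_le_mul_of_nonneg_left h3 h4).trans (le_of_eq ?_)
    push_cast
    ring

theorem hp_log_sq {n : ℕ} (hn : 1 ≤ n) : Real.log n ^ 2 ≤ 4 * n := by
  have hn0 : (0 : ℝ) < n := by exact_mod_cast hn
  have h1 : Real.log n = 2 * Real.log (Real.sqrt n) := by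
    rw [Real.log_sqrt hn0.le]; ring
  have h2 : Real.log (Real.sqrt n) ≤ Real.sqrt n := by
    have := Real.log_le_sub_one_of_pos (Real.sqrt_pos.2 hn0)
    linarith
  have h3 : 0 ≤ Real.log (n : ℝ) := Real.log_nonneg (by exact_mod_cast hn)
  have h4 : Real.log n ≤ 2 * Real.sqrt n := by rw [h1]; linarith
  calc Real.log n ^ 2 ≤ (2 * Real.sqrt n) ^ 2 := pow_le_pow_left₀ h3 h4 2
    _ = 4 * n := by rw [mul_pow, Real.sq_sqrt hn0.le]; norm_num

theorem hp_small (k : ℕ) {ε : ℝ} (hε : 0 < ε) :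
    ∀ᶠ n : ℕ in atTop, Real.log n ^ k / n ≤ ε := by
  have h1 : (fun x : ℝ => Real.log x ^ k) =o[atTop] (id : ℝ → ℝ) := Real.isLittleO_pow_log_id_atTop
  have h2 := (h1.comp_tendsto tendsto_natCast_atTop_atTop).def hε
  filter_upwards [h2, eventually_ge_atTop 1] with n hn hn1
  have hn0 : (0 : ℝ) < n := by exact_mod_cast hn1
  simp only [Function.comp_apply, id, Real.norm_eq_abs] at hn
  rw [abs_of_pos hn0] at hn
  rw [div_le_iff₀ hn0]
  exact (le_abs_self _).trans hn

/-- lower bound for the probability that a square is not helped by two infected neighbours -/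
theorem evP_prob (l : ℕ) (hl : 1 ≤ l) : ∃ c : ℝ, 0 < c ∧ ∀ᶠ n : ℕ in atTop,
    ∀ p : unitInterval, pc l n / 2 ≤ (p : ℝ) → (p : ℝ) ≤ 2 * pc l n → ∀ x : Z2,
    c * qh l n p ≤ (PM (bern p)).real (evP l x : Set (V n → Bool)) := by
  obtain ⟨K, hK, hz⟩ := hl_z l hl
  set M : ℝ := (1 + 2 * K) ^ (2 * l + 2) with hM
  have hK1 : (1 : ℝ) ≤ 1 + 2 * K := by linarith
  have hM1 : 1 ≤ M := one_le_pow₀ hK1
  have hM0 : 0 < M := by linarith
  refine ⟨Real.exp (-(8 * M ^ 2)) / 4, by positivity, ?_⟩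
  have hδ1 : (0 : ℝ) < 1 / (2 * (4 * 4 ^ (2 * l + 1) * M)) := by positivity
  have hδ2 : (0 : ℝ) < (1 / (2 * M)) ^ l := by positivity
  have hδ3 : (0 : ℝ) < 1 / (2 * M) := by positivity
  filter_upwards [eventually_ge_atTop 3, hp_small 2 hδ1, hp_small (l + 1) hδ2, hp_small 1 hδ3]
    with n hn hs2 hsl hs1 p _ hp x
  obtain ⟨z, hz0, hzl, hph, hpc⟩ := hz n hn
  have hn0 : (0 : ℝ) < n := by exact_mod_cast (by omega : 0 < n)
  have hn1 : (1 : ℝ) ≤ n := by exact_mod_cast (by omega : 1 ≤ n)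
  have hp0 : (0 : ℝ) ≤ p := p.2.1
  have hL1 : 1 ≤ Real.log n := by
    rw [Real.le_log_iff_exp_le hn0]
    have h1 := Real.exp_one_lt_d9
    have h2 : (3 : ℝ) ≤ n := by exact_mod_cast hn
    linarith
  have hLn : Real.log n ≤ n := (Real.log_le_sub_one_of_pos hn0).trans (by linarith)
  have hLsq : Real.log n ^ 2 ≤ 4 * n := hp_log_sq (by omega)
  set L := Real.log n with hLdef
  have hL0 : 0 ≤ L := by linarith
  set u : ℝ := (n : ℝ) * p with hu
  have hu0 : 0 ≤ u := by positivity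
  have huz : u ≤ (1 + 2 * K) * z := by
    have h1 : (n : ℝ) * p ≤ n * (2 * pc l n) := mul_le_mul_of_nonneg_left hp hn0.le
    have h2 : (n : ℝ) * (2 * pc l n) = 2 * (K * z) := by rw [← hpc]; ring
    rw [h2] at h1
    have : 0 ≤ z := hz0.le
    nlinarith
  have hpow : ∀ k : ℕ, k ≤ 2 * l + 2 → u ^ k ≤ M * z ^ k := by
    intro k hk
    refine (pow_le_pow_left₀ hu0 huz k).trans ?_
    rw [mul_pow]
    exact mul_le_mul_of_nonneg_right (pow_le_pow_right₀ hK1 hk) (by positivity)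
  have hnz : (n : ℝ) * z ^ l = L := by rw [hzl]; field_simp
  -- the column event
  have hcol : 1 / 2 ≤ (PM (bern p)).real (hpC x (l + 1) : Set (V n → Bool)) := by
    refine le_trans ?_ (one_sub_le_real _ _)
    have hc : (hpC x (l + 1) : Set (V n → Bool))ᶜ =
        {c : V n → Bool | ∃ i : Fin n, l + 1 ≤ hlN c (hlCol x i)} := by
      ext c; simp [hpC]
    rw [hc]
    have h1 := hl_col_prob (n := n) p x (l + 1)
    have h2 : (n : ℝ) * u ^ (l + 1) ≤ M * (z * L) := by
      have h := mul_le_mul_of_nonneg_left (hpow (l + 1) (by omega)) hn0.le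
      refine h.trans (le_of_eq ?_)
      rw [pow_succ, ← hnz]; ring
    have h3 : z * L ≤ 1 / (2 * M) := by
      refine le_of_pow_le_pow_left₀ (n := l) (by omega) hδ3.le ?_
      rw [mul_pow, hzl]
      calc L / n * L ^ l = L ^ (l + 1) / n := by rw [pow_succ]; ring
        _ ≤ _ := hsl
    have h4 : M * (z * L) ≤ 1 / 2 := by
      calc M * (z * L) ≤ M * (1 / (2 * M)) := mul_le_mul_of_nonneg_left h3 hM0.le
        _ = 1 / 2 := by field_simp
    linarith
  -- the lattice event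
  have hlat : 1 / 2 ≤ (PM (bern p)).real (hpL x (2 * l) : Set (V n → Bool)) := by
    refine le_trans ?_ (one_sub_le_real _ _)
    have hc : (hpL x (2 * l) : Set (V n → Bool))ᶜ =
        {c : V n → Bool | ∃ v, 1 ≤ hlN c (hlLat x v) ∧ (2 * l - 1) + 1 ≤ hlN c (hlAll x v)} := by
      have : 2 * l - 1 + 1 = 2 * l := by omega
      rw [this]
      ext c; simp [hpL]
    rw [hc]
    have h1 := hl_lat_prob (n := n) p x (2 * l - 1)
    have h2 : (((2 * n + 2 : ℕ) : ℝ) * p) ^ (2 * l - 1) ≤ (4 * u) ^ (2 * l - 1) := by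
      refine pow_le_pow_left₀ (by positivity) ?_ _
      rw [hu]
      push_cast
      nlinarith
    have h3 : (n : ℝ) ^ 2 * (4 * p * (((2 * n + 2 : ℕ) : ℝ) * p) ^ (2 * l - 1)) ≤
        (n : ℝ) ^ 2 * (4 * p * (4 * u) ^ (2 * l - 1)) := by
      refine mul_le_mul_of_nonneg_left ?_ (by positivity)
      exact mul_le_mul_of_nonneg_left h2 (by positivity)
    have e1 : (n : ℝ) ^ 2 * (4 * p * (4 * u) ^ (2 * l - 1)) =
        4 ^ (2 * l - 1) * (4 * ((n : ℝ) * u ^ (2 * l - 1 + 1))) := by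
      rw [mul_pow, pow_succ, hu]; ring
    have e2 : 2 * l - 1 + 1 = 2 * l := by omega
    rw [e1, e2] at h3
    have h4 : (4 : ℝ) ^ (2 * l - 1) ≤ 4 ^ (2 * l + 1) := pow_le_pow_right₀ (by norm_num) (by omega)
    have h5 : (n : ℝ) * u ^ (2 * l) ≤ M * (L ^ 2 / n) := by
      have h := mul_le_mul_of_nonneg_left (hpow (2 * l) (by omega)) hn0.le
      refine h.trans (le_of_eq ?_)
      have : z ^ (2 * l) = (L / n) ^ 2 := by rw [← hzl, ← pow_mul, mul_comm]
      rw [this]
      field_simp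
    have h6 : 4 ^ (2 * l - 1) * (4 * ((n : ℝ) * u ^ (2 * l))) ≤ 4 ^ (2 * l + 1) * (4 * (M * (L ^ 2 / n))) := by
      refine mul_le_mul h4 ?_ (by positivity) (by positivity)
      exact mul_le_mul_of_nonneg_left h5 (by norm_num)
    have h7 : (4 : ℝ) ^ (2 * l + 1) * (4 * (M * (L ^ 2 / n))) ≤ 1 / 2 := by
      have h8 : (4 : ℝ) ^ (2 * l + 1) * (4 * (M * (L ^ 2 / n))) =
          (4 * 4 ^ (2 * l + 1) * M) * (L ^ 2 / n) := by ring
      rw [h8]
      calc (4 * 4 ^ (2 * l + 1) * M) * (L ^ 2 / n) ≤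
          (4 * 4 ^ (2 * l + 1) * M) * (1 / (2 * (4 * 4 ^ (2 * l + 1) * M))) :=
            mul_le_mul_of_nonneg_left hs2 (by positivity)
        _ = 1 / 2 := by field_simp
    linarith
  have hfin := hp_near_finite (n := n) x
  rcases Nat.lt_or_ge 1 l with hl2 | hl1
  · -- l ≥ 2
    have hq : qh l n p = Real.exp (-lam l n p) := by
      unfold qh
      rw [if_neg (by omega)]
      ring
    have hy0 : 0 ≤ u ^ l / l.factorial := by positivity
    have hyle : u ^ l / l.factorial ≤ M * (L / n) := by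
      rw [← hzl]
      refine le_trans ?_ (hpow l (by omega))
      refine div_le_self (by positivity) ?_
      exact_mod_cast Nat.one_le_iff_ne_zero.2 (Nat.factorial_ne_zero l)
    have hy1 : u ^ l / l.factorial ≤ 1 / 2 := by
      refine hyle.trans ?_
      rw [pow_one] at hs1
      calc M * (L / n) ≤ M * (1 / (2 * M)) := mul_le_mul_of_nonneg_left hs1 hM0.le
        _ = 1 / 2 := by field_simp
    have hrow := hp_row_lower (n := n) p x l (by rw [← hu]; linarith)
    rw [← hu] at hrow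
    have h1 := (hp_exp_pow hy0 hy1 n).trans hrow
    have h2 : (n : ℝ) * (u ^ l / l.factorial) = lam l n p := by
      unfold lam; rw [hu]; ring
    have h3 : Real.exp (-(8 * M ^ 2)) ≤ Real.exp (-(2 * ((n : ℝ) * (u ^ l / l.factorial) ^ 2))) := by
      rw [Real.exp_le_exp, neg_le_neg_iff]
      have h4 : (u ^ l / l.factorial) ^ 2 ≤ (M * (L / n)) ^ 2 := pow_le_pow_left₀ hy0 hyle 2
      have h5 : (n : ℝ) * (M * (L / n)) ^ 2 = M ^ 2 * (L ^ 2 / n) := by field_simp
      have h6 : L ^ 2 / n ≤ 4 := by rw [div_le_iff₀ hn0]; exact hLsq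
      have h7 : (n : ℝ) * (u ^ l / l.factorial) ^ 2 ≤ M ^ 2 * 4 := by
        refine (mul_le_mul_of_nonneg_left h4 hn0.le).trans ?_
        rw [h5]
        exact mul_le_mul_of_nonneg_left h6 (by positivity)
      linarith
    rw [h2] at h1
    have hR : Real.exp (-(8 * M ^ 2)) * Real.exp (-lam l n p) ≤
        (PM (bern p)).real (hpR x l : Set (V n → Bool)) := by
      refine le_trans ?_ h1
      rw [mul_comm]
      exact mul_le_mul_of_nonneg_left h3 (Real.exp_pos _).le
    have hH1 := harris_dd p hfin hfin (hpC_loc x (l + 1)) (hpL_loc x (2 * l))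
      (hpC_dec x (l + 1)) (hpL_dec x (2 * l))
    have hCL : Loc (hpC x (l + 1) ∩ hpL x (2 * l)) {w : V n | Near 1 x w.1} := by
      have := (hpC_loc (n := n) x (l + 1)).inter (hpL_loc x (2 * l))
      rwa [Set.union_self] at this
    have hH2 := harris_dd p hfin hfin (hpR_loc x l) hCL (hpR_dec x l)
      (fun c c' h hc => ⟨hpC_dec x (l + 1) c c' h hc.1, hpL_dec x (2 * l) c c' h hc.2⟩)
    have hsub : (hpR x l ∩ (hpC x (l + 1) ∩ hpL x (2 * l)) : Set (V n → Bool)) ⊆ evP l x := by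
      rintro c ⟨hc1, hc2, hc3⟩ v
      have g1 := hl_cnt_le c x v
      have g2 := hl_all_N c x v
      have g3 := hlN_sub c (Finset.erase_subset ((x, v) : V n) (hlRow x v.1))
      have g4 := hlN_sub c (Finset.erase_subset ((x, v) : V n) (hlCol x v.2))
      have g5 := hc1 v.1
      have g6 : ¬ l + 1 ≤ hlN c (hlCol x v.2) := fun h => hc2 ⟨v.2, h⟩
      by_cases hla : 1 ≤ hlN c (hlLat x v)
      · have g7 : ¬ 2 * l ≤ hlN c (hlAll x v) := fun h => hc3 ⟨v, hla, h⟩
        omega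
      · omega
    have hfinal := measureReal_mono (μ := PM (bern p)) hsub (measure_ne_top _ _)
    refine le_trans ?_ (hH2.trans hfinal)
    rw [hq]
    have h8 : (1 : ℝ) / 4 ≤ (PM (bern p)).real (hpC x (l + 1) ∩ hpL x (2 * l) : Set (V n → Bool)) := by
      refine le_trans ?_ hH1
      have := mul_le_mul hcol hlat (by norm_num) (by linarith)
      linarith
    calc Real.exp (-(8 * M ^ 2)) / 4 * Real.exp (-lam l n p) =
        (Real.exp (-(8 * M ^ 2)) * Real.exp (-lam l n p)) * (1 / 4) := by ring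
      _ ≤ _ := mul_le_mul hR h8 (by norm_num) measureReal_nonneg
  · -- l = 1
    have hl1' : l = 1 := by omega
    subst hl1'
    have hq : qh 1 n p = (1 + (n : ℝ) * (n * p)) * Real.exp (-((n : ℝ) * (n * p))) := by
      unfold qh lam
      rw [if_pos rfl]
      simp
    have hpu : (p : ℝ) ≤ u := by rw [hu]; nlinarith
    have hule : u ≤ M * (L / n) := by
      have := hpow 1 (by omega)
      rwa [hzl, pow_one] at this
    have hp2 : (p : ℝ) ≤ 1 / 2 := by
      refine (hpu.trans hule).trans ?_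
      rw [pow_one] at hs1
      calc M * (L / n) ≤ M * (1 / (2 * M)) := mul_le_mul_of_nonneg_left hs1 hM0.le
        _ = 1 / 2 := by field_simp
    have h1 := hp_exp_pow hp0 hp2 (n * n)
    have h2 : (((n * n : ℕ) : ℝ)) * p = (n : ℝ) * (n * p) := by push_cast; ring
    rw [h2] at h1
    have h3 : Real.exp (-(8 * M ^ 2)) ≤ Real.exp (-(2 * (((n * n : ℕ) : ℝ) * (p : ℝ) ^ 2))) := by
      rw [Real.exp_le_exp, neg_le_neg_iff]
      have h4 : ((n * n : ℕ) : ℝ) * (p : ℝ) ^ 2 = u ^ 2 := by rw [hu]; push_cast; ring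
      rw [h4]
      have h5 : u ^ 2 ≤ (M * (L / n)) ^ 2 := pow_le_pow_left₀ hu0 hule 2
      have h6 : L / n ≤ 1 := by rw [div_le_one hn0]; exact hLn
      have h7 : (M * (L / n)) ^ 2 ≤ M ^ 2 := by
        rw [mul_pow]
        have : (L / n) ^ 2 ≤ 1 := pow_le_one₀ (by positivity) h6
        nlinarith [sq_nonneg M]
      nlinarith [sq_nonneg M]
    have hloc : Loc {c : V n → Bool | hlN c (hpSq x) ≤ 1} {w : V n | Near 1 x w.1} := by
      intro c c' e hc
      rw [Set.mem_ofPred_eq] at hc ⊢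
      rwa [← hpN_congr (s := hpSq x) (t := {w : V n | Near 1 x w.1}) ?_ e]
      intro w hw
      rw [hp_mem_sq] at hw
      rw [Set.mem_ofPred_eq, hw]
      exact hl_near_self x
    have hdec : HpDec {c : V n → Bool | hlN c (hpSq x) ≤ 1} :=
      fun c c' h hc => (hlN_mono h _).trans hc
    have hH := harris_dd p hfin hfin hloc (hpL_loc x (2 * 1)) hdec (hpL_dec x (2 * 1))
    have hsub : ({c : V n → Bool | hlN c (hpSq x) ≤ 1} ∩ hpL x (2 * 1)) ⊆ evP 1 x := by
      rintro c ⟨hc1, hc3⟩ v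
      have g1 := hl_cnt_le c x v
      have g2 := hl_all_N c x v
      have g0 : hlN c ((hlRow x v.1).erase (x, v)) + hlN c ((hlCol x v.2).erase (x, v)) ≤
          hlN c (hpSq x) := by
        rw [← hlN_union c (hl_disj1 x v)]
        refine hlN_sub c ?_
        intro w hw
        rw [hp_mem_sq]
        rcases Finset.mem_union.1 hw with h | h
        · exact (hl_mem_row.1 (Finset.mem_of_mem_erase h)).1
        · exact (hl_mem_col.1 (Finset.mem_of_mem_erase h)).1
      rw [Set.mem_ofPred_eq] at hc1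
      by_cases hla : 1 ≤ hlN c (hlLat x v)
      · have g7 : ¬ 2 * 1 ≤ hlN c (hlAll x v) := fun h => hc3 ⟨v, hla, h⟩
        omega
      · omega
    have hfinal := measureReal_mono (μ := PM (bern p)) hsub (measure_ne_top _ _)
    refine le_trans ?_ (hH.trans hfinal)
    rw [hq]
    have hS : (1 + (n : ℝ) * (n * p)) * (Real.exp (-((n : ℝ) * (n * p))) * Real.exp (-(8 * M ^ 2))) ≤
        (PM (bern p)).real {c : V n → Bool | hlN c (hpSq x) ≤ 1} := by
      refine le_trans ?_ (hp_one_lower (n := n) p x)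
      refine mul_le_mul_of_nonneg_left ?_ (by positivity)
      refine le_trans ?_ h1
      exact mul_le_mul_of_nonneg_left h3 (Real.exp_pos _).le
    have h9 : Real.exp (-(8 * M ^ 2)) / 4 * ((1 + (n : ℝ) * (n * p)) * Real.exp (-((n : ℝ) * (n * p)))) ≤
        ((1 + (n : ℝ) * (n * p)) * (Real.exp (-((n : ℝ) * (n * p))) * Real.exp (-(8 * M ^ 2)))) * (1 / 2) := by
      have h10 : 0 ≤ (1 + (n : ℝ) * (n * p)) * (Real.exp (-((n : ℝ) * (n * p))) * Real.exp (-(8 * M ^ 2))) := by
        positivity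
      nlinarith
    refine h9.trans ?_
    exact mul_le_mul hS hlat (by norm_num) measureReal_nonneg

end Pool.Agent.BP
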