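import Pool.Agent.Lib_MP_94fe03_pr.HamDet
import Pool.Agent.Lib_MP_94fe03_pr.Bern

set_option autoImplicit false

namespace Pool.Agent.BP

open MeasureTheory ProbabilityTheory Filter

/-! ### auxiliary lemmas for `span_even_prob` -/

theorem hp1_compl {ι : Type} (p : unitInterval) {A : Set (ι → Bool)} {s : Set ι} (hs : s.Finite)
    (h : Loc A s) : (PM (bern p)).real Aᶜ = 1 - (PM (bern p)).real A :=
  probReal_compl_eq_one_sub (Loc.measurableSet hs h)

theorem hp1_none {ι κ : Type} (p : unitInterval) (I : Finset κ) (G : κ → Set (ι → Bool))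
    (s : κ → Set ι) (hs : ∀ i ∈ I, (s i).Finite) (h : ∀ i ∈ I, Loc (G i) (s i))
    (hd : ∀ i ∈ I, ∀ j ∈ I, i ≠ j → Disjoint (s i) (s j)) (g : ℝ)
    (hg : ∀ i ∈ I, g ≤ (PM (bern p)).real (G i)) :
    (PM (bern p)).real (⋂ i ∈ I, (G i)ᶜ) ≤ Real.exp (-(I.card * g)) := by
  rw [PM_prod (bern p) I (fun i => (G i)ᶜ) s hs (fun i hi => (h i hi).compl) hd]
  have h1 : ∀ i ∈ I, (PM (bern p)).real (G i)ᶜ ≤ Real.exp (-g) := by
    intro i hi
    rw [hp1_compl p (hs i hi) (h i hi)]
    have h2 := Real.add_one_le_exp (-g)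
    have h3 := hg i hi
    linarith
  calc ∏ i ∈ I, (PM (bern p)).real (G i)ᶜ ≤ ∏ _i ∈ I, Real.exp (-g) :=
        Finset.prod_le_prod (fun i _ => measureReal_nonneg) h1
    _ = Real.exp (-(I.card * g)) := by
        rw [Finset.prod_const, ← Real.exp_nat_mul]
        congr 1
        ring

/-- number of occupied sites of row `i` in the columns `J` -/
def hp1_rw {n : ℕ} (J : Finset (Fin n)) (i : Fin n) (ω : Sq n) : ℕ :=
  ((({i} : Finset (Fin n)) ×ˢ J).filter fun v => ω v = true).card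

theorem hp1_rw_eq {n : ℕ} (J : Finset (Fin n)) (i : Fin n) (ω : Sq n) :
    hp1_rw J i ω = (J.filter fun j => ω (i, j) = true).card := by
  unfold hp1_rw
  symm
  refine Finset.card_bij (fun j _ => (i, j)) ?_ ?_ ?_
  · intro j hj
    rw [Finset.mem_filter] at hj ⊢
    exact ⟨by simp [hj.1], hj.2⟩
  · intro j _ j' _ e
    simpa using e
  · rintro ⟨i', j⟩ hv
    rw [Finset.mem_filter, Finset.mem_product, Finset.mem_singleton] at hv
    obtain ⟨⟨h1, h2⟩, h3⟩ := hv
    simp only at h1 h2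
    subst h1
    exact ⟨j, by rw [Finset.mem_filter]; exact ⟨h2, h3⟩, rfl⟩

theorem hp1_rw_univ {n : ℕ} (i : Fin n) (ω : Sq n) :
    hp1_rw Finset.univ i ω = {j | ω (i, j) = true}.ncard := by
  rw [hp1_rw_eq, ← Set.ncard_coe_finset]
  congr 1
  ext j
  simp

theorem hp1_rw_mono {n : ℕ} {J J' : Finset (Fin n)} (h : J ⊆ J') (i : Fin n) (ω : Sq n) :
    hp1_rw J i ω ≤ hp1_rw J' i ω := by
  rw [hp1_rw_eq, hp1_rw_eq]
  exact Finset.card_le_card (Finset.filter_subset_filter _ h)

theorem hp1_row_finite {n : ℕ} (J : Finset (Fin n)) (i : Fin n) :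
    (((({i} : Finset (Fin n)) ×ˢ J : Finset (Fin n × Fin n)) : Set (Fin n × Fin n))).Finite :=
  Finset.finite_toSet _

theorem hp1_row_disj {n : ℕ} (J J' : Finset (Fin n)) {i i' : Fin n} (h : i ≠ i') :
    Disjoint ((({i} : Finset (Fin n)) ×ˢ J : Finset (Fin n × Fin n)) : Set (Fin n × Fin n))
      ((({i'} : Finset (Fin n)) ×ˢ J' : Finset (Fin n × Fin n)) : Set (Fin n × Fin n)) := by
  rw [Set.disjoint_left]
  rintro ⟨a, b⟩ h1 h2
  simp only [Finset.coe_product, Finset.coe_singleton, Set.mem_prod, Set.mem_singleton_iff] at h1 h2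
  exact h (h1.1.symm.trans h2.1)

/-- lower bound for the probability that a row has `k` occupied sites in `J` -/
theorem hp1_row_count {n : ℕ} (p : unitInterval) (J : Finset (Fin n)) (i : Fin n) (k : ℕ) :
    (PM (bern p)).real {ω : Sq n | hp1_rw J i ω = k} =
      (J.card.choose k : ℝ) * (p : ℝ) ^ k * (1 - (p : ℝ)) ^ (J.card - k) := by
  have h := PM_count p ((({i} : Finset (Fin n)) ×ˢ J)) k
  have hc : ((({i} : Finset (Fin n)) ×ˢ J)).card = J.card := by simp
  rw [hc] at h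
  exact h

theorem hp1_rw_loc {n : ℕ} (J : Finset (Fin n)) (i : Fin n) (Q : ℕ → Prop) :
    Loc {ω : Sq n | Q (hp1_rw J i ω)}
      ((({i} : Finset (Fin n)) ×ˢ J : Finset (Fin n × Fin n)) : Set (Fin n × Fin n)) :=
  Loc.count _ Q

/-- no row of `I` has at least `k` occupied sites -/
theorem hp1_norow {n : ℕ} (p : unitInterval) (I : Finset (Fin n)) (k : ℕ) :
    (PM (bern p)).real {ω : Sq n | ∀ i ∈ I, hp1_rw Finset.univ i ω < k} ≤
      Real.exp (-(I.card * ((n.choose k : ℝ) * (p : ℝ) ^ k * (1 - (p : ℝ)) ^ (n - k)))) := by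
  have h := hp1_none p I (fun i => {ω : Sq n | hp1_rw Finset.univ i ω = k})
    (fun i => ((({i} : Finset (Fin n)) ×ˢ Finset.univ : Finset (Fin n × Fin n)) :
      Set (Fin n × Fin n))) (fun i _ => hp1_row_finite _ i)
    (fun i _ => hp1_rw_loc _ i (fun m => m = k))
    (fun i _ j _ hij => hp1_row_disj _ _ hij)
    ((n.choose k : ℝ) * (p : ℝ) ^ k * (1 - (p : ℝ)) ^ (n - k))
    (fun i _ => by rw [hp1_row_count]; simp)
  refine le_trans (measureReal_mono ?_ (measure_ne_top _ _)) h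
  intro ω hω
  simp only [Set.mem_iInter, Set.mem_compl_iff, Set.mem_ofPred_eq]
  intro i hi e
  have := hω i hi
  omega

/-- a row with many occupied sites -/
theorem hp1_bigrow {n : ℕ} (p : unitInterval) (k : ℕ) :
    (PM (bern p)).real {ω : Sq n | ∃ i, k ≤ hp1_rw Finset.univ i ω} ≤
      n * ((n.choose k : ℝ) * (p : ℝ) ^ k) := by
  have hsub : {ω : Sq n | ∃ i, k ≤ hp1_rw Finset.univ i ω} ⊆
      ⋃ i ∈ (Finset.univ : Finset (Fin n)), {ω : Sq n | k ≤ hp1_rw Finset.univ i ω} := by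
    rintro ω ⟨i, hi⟩
    simp only [Set.mem_iUnion]
    exact ⟨i, Finset.mem_univ _, hi⟩
  refine le_trans (measureReal_mono hsub (measure_ne_top _ _)) ?_
  refine le_trans (real_biUnion_le _ _ _) ?_
  have h1 : ∀ i ∈ (Finset.univ : Finset (Fin n)),
      (PM (bern p)).real {ω : Sq n | k ≤ hp1_rw Finset.univ i ω} ≤
      (n.choose k : ℝ) * (p : ℝ) ^ k := by
    intro i _
    have h := PM_tail p ((({i} : Finset (Fin n)) ×ˢ (Finset.univ : Finset (Fin n)))) k
    have hc : ((({i} : Finset (Fin n)) ×ˢ (Finset.univ : Finset (Fin n)))).card = n := by simp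
    rw [hc] at h
    exact h
  refine le_trans (Finset.sum_le_sum h1) ?_
  rw [Finset.sum_const, Finset.card_univ, Fintype.card_fin, nsmul_eq_mul]

/-- few rows with at least `k` occupied sites -/
theorem hp1_fewrows {n : ℕ} (p : unitInterval) (k M : ℕ) (hM : M ≤ n) :
    (PM (bern p)).real {ω : Sq n | (Finset.univ.filter fun i => k ≤ hp1_rw Finset.univ i ω).card
      ≤ M} ≤
      (n : ℝ) ^ M *
      Real.exp (-((n - M : ℕ) * ((n.choose k : ℝ) * (p : ℝ) ^ k * (1 - (p : ℝ)) ^ (n - k)))) := by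
  have hsub : {ω : Sq n | (Finset.univ.filter fun i => k ≤ hp1_rw Finset.univ i ω).card ≤ M} ⊆
      ⋃ T ∈ (Finset.univ : Finset (Fin n)).powersetCard M,
        {ω : Sq n | ∀ i ∈ Tᶜ, hp1_rw Finset.univ i ω < k} := by
    intro ω hω
    simp only [Set.mem_ofPred_eq] at hω
    obtain ⟨T, hT1, hT2⟩ := Finset.exists_superset_card_eq hω (by simpa using hM)
    simp only [Set.mem_iUnion]
    refine ⟨T, Finset.mem_powersetCard.2 ⟨Finset.subset_univ _, hT2⟩, fun i hi => ?_⟩
    by_contra hcon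
    rw [Finset.mem_compl] at hi
    apply hi
    apply hT1
    rw [Finset.mem_filter]
    exact ⟨Finset.mem_univ _, not_lt.1 hcon⟩
  refine le_trans (measureReal_mono hsub (measure_ne_top _ _)) ?_
  refine le_trans (real_biUnion_le _ _ _) ?_
  have h1 : ∀ T ∈ (Finset.univ : Finset (Fin n)).powersetCard M,
      (PM (bern p)).real {ω : Sq n | ∀ i ∈ Tᶜ, hp1_rw Finset.univ i ω < k} ≤
      Real.exp (-((n - M : ℕ) * ((n.choose k : ℝ) * (p : ℝ) ^ k * (1 - (p : ℝ)) ^ (n - k)))) := by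
    intro T hT
    have h := hp1_norow p Tᶜ k
    rw [Finset.card_compl, Fintype.card_fin, (Finset.mem_powersetCard.1 hT).2] at h
    exact h
  refine le_trans (Finset.sum_le_sum h1) ?_
  rw [Finset.sum_const, Finset.card_powersetCard, nsmul_eq_mul, Finset.card_univ, Fintype.card_fin]
  refine mul_le_mul_of_nonneg_right ?_ (Real.exp_pos _).le
  exact_mod_cast Nat.choose_le_pow n M

theorem hp1_swap {n : ℕ} (p : unitInterval) (A : Set (Sq n)) :
    (PM (bern p)).real {ω : Sq n | (fun v => ω v.swap) ∈ A} = (PM (bern p)).real A :=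
  PM_reindex (bern p) (Equiv.prodComm (Fin n) (Fin n)) A

/-- the event used for a row `i'` when all crossings are occupied -/
theorem hp1_G_prob {n l : ℕ} (p : unitInterval) (hn : l + 1 ≤ n) (i' j : Fin n) :
    (PM (bern p)).real {ω : Sq n | hp1_rw (Finset.univ.erase j) i' ω = l ∧ ω (i', j) = false} =
      ((n - 1).choose l : ℝ) * (p : ℝ) ^ l * (1 - (p : ℝ)) ^ (n - l) := by
  have e : {ω : Sq n | hp1_rw (Finset.univ.erase j) i' ω = l ∧ ω (i', j) = false} =
      {ω : Sq n | hp1_rw (Finset.univ.erase j) i' ω = l} ∩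
        {ω : Sq n | ∀ v ∈ ({(i', j)} : Finset (Fin n × Fin n)), ω v = false} := by
    ext ω; simp
  have hloc : Loc {ω : Sq n | ∀ v ∈ ({(i', j)} : Finset (Fin n × Fin n)), ω v = false}
      {(i', j)} := by
    intro c c' h hc v hv
    rw [← h v (by simpa using hv)]
    exact hc v hv
  have hdis : Disjoint ((({i'} : Finset (Fin n)) ×ˢ (Finset.univ.erase j) :
      Finset (Fin n × Fin n)) : Set (Fin n × Fin n)) {(i', j)} := by
    rw [Set.disjoint_singleton_right]
    simp
  rw [e, PM_indep (bern p) (hp1_row_finite _ i') (Set.finite_singleton _)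
    (hp1_rw_loc _ i' (fun m => m = l)) hloc hdis, hp1_row_count, PM_all_false,
    Finset.card_singleton, Finset.card_erase_of_mem (Finset.mem_univ _), Finset.card_univ,
    Fintype.card_fin, mul_assoc, ← pow_add]
  congr 2
  omega

theorem hp1_cross_one {n l : ℕ} (hl : 1 ≤ l) (p : unitInterval) (hn : l + 1 ≤ n) (i j : Fin n)
    (A B : Finset (Fin n)) (hA : A ∈ (Finset.univ.erase j).powersetCard (l - 1))
    (hB : B ∈ (Finset.univ.erase i).powersetCard (l - 1)) :
    (PM (bern p)).real ({ω : Sq n | ∀ v ∈ (({i} : Finset (Fin n)) ×ˢ insert j A) ∪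
        (B ×ˢ ({j} : Finset (Fin n))), ω v = true} ∩
      ⋂ i' ∈ (insert i B)ᶜ,
        {ω : Sq n | hp1_rw (Finset.univ.erase j) i' ω = l ∧ ω (i', j) = false}ᶜ) ≤
    (p : ℝ) ^ (2 * l - 1) * Real.exp (-((n - l : ℕ) *
      (((n - 1).choose l : ℝ) * (p : ℝ) ^ l * (1 - (p : ℝ)) ^ (n - l)))) := by
  obtain ⟨hA1, hA2⟩ := Finset.mem_powersetCard.1 hA
  obtain ⟨hB1, hB2⟩ := Finset.mem_powersetCard.1 hB
  have hjA : j ∉ A := fun h => by simpa using hA1 h
  have hiB : i ∉ B := fun h => by simpa using hB1 h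
  have hGloc : ∀ i' : Fin n, Loc {ω : Sq n | hp1_rw (Finset.univ.erase j) i' ω = l ∧
      ω (i', j) = false} ((({i'} : Finset (Fin n)) ×ˢ Finset.univ : Finset (Fin n × Fin n)) :
      Set (Fin n × Fin n)) := by
    intro i' c c' h hc
    obtain ⟨h1, h2⟩ := hc
    constructor
    · refine ((hp1_rw_loc (Finset.univ.erase j) i' (fun m => m = l)) c c' ?_ h1)
      intro x hx
      refine h x ?_
      simp only [Finset.coe_product, Set.mem_prod] at hx ⊢
      exact ⟨hx.1, by simp⟩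
    · rw [← h (i', j) (by simp)]
      exact h2
  have hloc1 : Loc {ω : Sq n | ∀ v ∈ (({i} : Finset (Fin n)) ×ˢ insert j A) ∪
        (B ×ˢ ({j} : Finset (Fin n))), ω v = true}
      (((({i} : Finset (Fin n)) ×ˢ insert j A) ∪ (B ×ˢ ({j} : Finset (Fin n))) :
        Finset (Fin n × Fin n)) : Set (Fin n × Fin n)) := by
    intro c c' h hc v hv
    rw [← h v (by simpa using hv)]
    exact hc v hv
  have hloc2 : Loc (⋂ i' ∈ (insert i B)ᶜ,
        {ω : Sq n | hp1_rw (Finset.univ.erase j) i' ω = l ∧ ω (i', j) = false}ᶜ)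
      (⋃ i' ∈ (((insert i B)ᶜ : Finset (Fin n)) : Set (Fin n)),
        ((({i'} : Finset (Fin n)) ×ˢ Finset.univ : Finset (Fin n × Fin n)) :
      Set (Fin n × Fin n))) :=
    Loc.biInter (I := (((insert i B)ᶜ : Finset (Fin n)) : Set (Fin n)))
      fun i' _ => (hGloc i').compl
  have hdis : Disjoint (((({i} : Finset (Fin n)) ×ˢ insert j A) ∪ (B ×ˢ ({j} : Finset (Fin n))) :
        Finset (Fin n × Fin n)) : Set (Fin n × Fin n))
      (⋃ i' ∈ (((insert i B)ᶜ : Finset (Fin n)) : Set (Fin n)),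
        ((({i'} : Finset (Fin n)) ×ˢ Finset.univ : Finset (Fin n × Fin n)) :
      Set (Fin n × Fin n))) := by
    rw [Set.disjoint_left]
    rintro ⟨a, b⟩ h1 h2
    simp only [Set.mem_iUnion, Finset.mem_coe, Finset.mem_compl, Finset.mem_insert, not_or,
      Finset.mem_product, Finset.mem_singleton, Finset.mem_union] at h1 h2
    obtain ⟨i', ⟨h3, h4⟩, h5, _⟩ := h2
    rcases h1 with h1 | h1
    · exact h3 (h5.symm.trans h1.1)
    · exact h4 (h5 ▸ h1.1)
  have hcard : ((({i} : Finset (Fin n)) ×ˢ insert j A) ∪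
        (B ×ˢ ({j} : Finset (Fin n)))).card = 2 * l - 1 := by
    rw [Finset.card_union_of_disjoint, Finset.card_product, Finset.card_product,
      Finset.card_insert_of_notMem hjA, hA2, hB2, Finset.card_singleton, Finset.card_singleton]
    · omega
    · rw [Finset.disjoint_left]
      rintro ⟨a, b⟩ h1 h2
      simp only [Finset.mem_product, Finset.mem_singleton] at h1 h2
      exact hiB (h1.1 ▸ h2.1)
  rw [PM_indep (bern p) (Finset.finite_toSet _)
    (Set.Finite.biUnion (Finset.finite_toSet _) fun i' _ => hp1_row_finite _ i')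
    hloc1 hloc2 hdis, PM_all_true, hcard]
  refine mul_le_mul_of_nonneg_left ?_ (pow_nonneg p.2.1 _)
  have h := hp1_none p (insert i B)ᶜ (fun i' => {ω : Sq n | hp1_rw (Finset.univ.erase j) i' ω = l ∧
      ω (i', j) = false}) (fun i' => ((({i'} : Finset (Fin n)) ×ˢ Finset.univ :
      Finset (Fin n × Fin n)) : Set (Fin n × Fin n))) (fun i _ => hp1_row_finite _ i)
    (fun i _ => hGloc i) (fun i _ j _ hij => hp1_row_disj _ _ hij)
    (((n - 1).choose l : ℝ) * (p : ℝ) ^ l * (1 - (p : ℝ)) ^ (n - l))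
    (fun i' _ => (hp1_G_prob p hn i' j).symm.le)
  rw [Finset.card_compl, Fintype.card_fin, Finset.card_insert_of_notMem hiB, hB2] at h
  have e : n - (l - 1 + 1) = n - l := by omega
  rw [e] at h
  exact h

/-- all crossings of good rows and good columns are occupied -/
theorem hp1_cross {n l : ℕ} (hl : 1 ≤ l) (p : unitInterval) (hn : l + 1 ≤ n) :
    (PM (bern p)).real {ω : Sq n | (∃ i, l ≤ hp1_rw Finset.univ i ω) ∧
      (∃ j, l ≤ hp1_rw Finset.univ j (fun v => ω v.swap)) ∧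
      ∀ i j, l ≤ hp1_rw Finset.univ i ω → l ≤ hp1_rw Finset.univ j (fun v => ω v.swap) →
        ω (i, j) = true} ≤
    (n : ℝ) ^ (2 * l) * ((p : ℝ) ^ (2 * l - 1) * Real.exp (-((n - l : ℕ) *
      (((n - 1).choose l : ℝ) * (p : ℝ) ^ l * (1 - (p : ℝ)) ^ (n - l))))) := by
  set F : Fin n → Fin n → Finset (Fin n) → Finset (Fin n) → Set (Sq n) := fun i j A B =>
    ({ω : Sq n | ∀ v ∈ (({i} : Finset (Fin n)) ×ˢ insert j A) ∪
        (B ×ˢ ({j} : Finset (Fin n))), ω v = true} ∩
      ⋂ i' ∈ (insert i B)ᶜ,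
        {ω : Sq n | hp1_rw (Finset.univ.erase j) i' ω = l ∧ ω (i', j) = false}ᶜ) with hF
  have hsub : {ω : Sq n | (∃ i, l ≤ hp1_rw Finset.univ i ω) ∧
      (∃ j, l ≤ hp1_rw Finset.univ j (fun v => ω v.swap)) ∧
      ∀ i j, l ≤ hp1_rw Finset.univ i ω → l ≤ hp1_rw Finset.univ j (fun v => ω v.swap) →
        ω (i, j) = true} ⊆
      ⋃ i ∈ (Finset.univ : Finset (Fin n)), ⋃ j ∈ (Finset.univ : Finset (Fin n)),
      ⋃ A ∈ (Finset.univ.erase j).powersetCard (l - 1),
      ⋃ B ∈ (Finset.univ.erase i).powersetCard (l - 1), F i j A B := by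
    rintro ω ⟨⟨i, hi⟩, ⟨j, hj⟩, hall⟩
    have hij := hall i j hi hj
    have hi2 := hi
    have hj2 := hj
    rw [hp1_rw_eq] at hi2 hj2
    have hA : l - 1 ≤ ((Finset.univ.filter fun j' => ω (i, j') = true).erase j).card := by
      rw [Finset.card_erase_of_mem (by simp [hij])]
      omega
    have hB : l - 1 ≤ ((Finset.univ.filter fun i' => ω (i', j) = true).erase i).card := by
      rw [Finset.card_erase_of_mem (by simp [hij])]
      have : l ≤ (Finset.univ.filter fun i' => ω (i', j) = true).card := hj2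
      omega
    obtain ⟨A, hA1, hA2⟩ := Finset.exists_subset_card_eq hA
    obtain ⟨B, hB1, hB2⟩ := Finset.exists_subset_card_eq hB
    simp only [Set.mem_iUnion]
    refine ⟨i, Finset.mem_univ _, j, Finset.mem_univ _, A, Finset.mem_powersetCard.2 ⟨?_, hA2⟩,
      B, Finset.mem_powersetCard.2 ⟨?_, hB2⟩, ?_⟩
    · intro a ha
      have := hA1 ha
      simp only [Finset.mem_erase, Finset.mem_filter] at this
      simp [this.1]
    · intro a ha
      have := hB1 ha
      simp only [Finset.mem_erase, Finset.mem_filter] at this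
      simp [this.1]
    · rw [hF]
      refine ⟨?_, ?_⟩
      · rintro ⟨a, b⟩ hv
        simp only [Finset.mem_union, Finset.mem_product, Finset.mem_singleton,
          Finset.mem_insert] at hv
        rcases hv with ⟨h1, h2⟩ | ⟨h1, h2⟩
        · rcases h2 with h2 | h2
          · rw [h1, h2]; exact hij
          · have := hA1 h2
            simp only [Finset.mem_erase, Finset.mem_filter] at this
            rw [h1]; exact this.2.2
        · have := hB1 h1
          simp only [Finset.mem_erase, Finset.mem_filter] at this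
          rw [h2]; exact this.2.2
      · simp only [Set.mem_iInter, Set.mem_compl_iff, Set.mem_ofPred_eq]
        rintro i' _ ⟨h1, h2⟩
        have h3 : l ≤ hp1_rw Finset.univ i' ω := by
          rw [← h1]; exact hp1_rw_mono (Finset.subset_univ _) _ _
        rw [hall i' j h3 hj] at h2
        exact absurd h2 (by simp)
  refine le_trans (measureReal_mono hsub (measure_ne_top _ _)) ?_
  set q : ℝ := ((p : ℝ) ^ (2 * l - 1) * Real.exp (-((n - l : ℕ) *
      (((n - 1).choose l : ℝ) * (p : ℝ) ^ l * (1 - (p : ℝ)) ^ (n - l))))) with hq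
  have hq0 : 0 ≤ q := mul_nonneg (pow_nonneg p.2.1 _) (Real.exp_pos _).le
  have hch : ((n - 1).choose (l - 1) : ℝ) ≤ (n : ℝ) ^ (l - 1) := by
    have h1 := Nat.choose_le_pow (n - 1) (l - 1)
    have h2 : (n - 1) ^ (l - 1) ≤ n ^ (l - 1) := Nat.pow_le_pow_left (by omega) _
    exact_mod_cast h1.trans h2
  have hn0 : (0 : ℝ) ≤ (n : ℝ) ^ (l - 1) := by positivity
  calc (PM (bern p)).real (⋃ i ∈ (Finset.univ : Finset (Fin n)),
        ⋃ j ∈ (Finset.univ : Finset (Fin n)),
        ⋃ A ∈ (Finset.univ.erase j).powersetCard (l - 1),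
        ⋃ B ∈ (Finset.univ.erase i).powersetCard (l - 1), F i j A B)
      ≤ ∑ i ∈ (Finset.univ : Finset (Fin n)), ∑ j ∈ (Finset.univ : Finset (Fin n)),
        ∑ A ∈ (Finset.univ.erase j).powersetCard (l - 1),
        ∑ B ∈ (Finset.univ.erase i).powersetCard (l - 1), (PM (bern p)).real (F i j A B) := by
        refine (real_biUnion_le _ _ _).trans (Finset.sum_le_sum fun i _ => ?_)
        refine (real_biUnion_le _ _ _).trans (Finset.sum_le_sum fun j _ => ?_)
        refine (real_biUnion_le _ _ _).trans (Finset.sum_le_sum fun A _ => ?_)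
        exact real_biUnion_le _ _ _
    _ ≤ ∑ _i ∈ (Finset.univ : Finset (Fin n)), ∑ _j ∈ (Finset.univ : Finset (Fin n)),
        (n : ℝ) ^ (l - 1) * ((n : ℝ) ^ (l - 1) * q) := by
        refine Finset.sum_le_sum fun i _ => Finset.sum_le_sum fun j _ => ?_
        calc ∑ A ∈ (Finset.univ.erase j).powersetCard (l - 1),
            ∑ B ∈ (Finset.univ.erase i).powersetCard (l - 1), (PM (bern p)).real (F i j A B)
            ≤ ∑ A ∈ (Finset.univ.erase j).powersetCard (l - 1),
            ∑ B ∈ (Finset.univ.erase i).powersetCard (l - 1), q :=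
              Finset.sum_le_sum fun A hA => Finset.sum_le_sum fun B hB =>
                hp1_cross_one hl p hn i j A B hA hB
          _ = ((n - 1).choose (l - 1) : ℝ) * (((n - 1).choose (l - 1) : ℝ) * q) := by
              rw [Finset.sum_const, Finset.sum_const, Finset.card_powersetCard,
                Finset.card_powersetCard, Finset.card_erase_of_mem (Finset.mem_univ _),
                Finset.card_erase_of_mem (Finset.mem_univ _), Finset.card_univ, Fintype.card_fin,
                nsmul_eq_mul, nsmul_eq_mul]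
          _ ≤ (n : ℝ) ^ (l - 1) * ((n : ℝ) ^ (l - 1) * q) :=
              mul_le_mul hch (mul_le_mul_of_nonneg_right hch hq0)
                (mul_nonneg (Nat.cast_nonneg _) hq0) hn0
    _ = (n : ℝ) ^ (2 * l) * q := by
        rw [Finset.sum_const, Finset.sum_const, Finset.card_univ, Fintype.card_fin, nsmul_eq_mul,
          nsmul_eq_mul]
        have e : 2 * l = 1 + (1 + ((l - 1) + (l - 1))) := by omega
        rw [e, pow_add, pow_add, pow_add, pow_one]
        ring

/-! ### asymptotics -/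

theorem hp1_npc (l n : ℕ) (hn : 1 ≤ n) :
    (n : ℝ) * pc l n = (2 * ((l - 1).factorial : ℝ)) ^ ((1 : ℝ) / l) *
      (Real.log n) ^ ((1 : ℝ) / l) * (n : ℝ) ^ (-((1 : ℝ) / l)) := by
  have hn0 : (0 : ℝ) < n := by exact_mod_cast hn
  unfold pc
  rw [Real.rpow_add hn0, Real.rpow_one, Real.rpow_neg hn0.le]
  have h1 : (n : ℝ) ^ ((1 : ℝ) / l) ≠ 0 := (Real.rpow_pos_of_pos hn0 _).ne'
  field_simp

theorem hp1_npc_pow (l n : ℕ) (hl : 1 ≤ l) (hn : 1 ≤ n) :
    (n : ℝ) * ((n : ℝ) * pc l n) ^ l = 2 * ((l - 1).factorial : ℝ) * Real.log n := by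
  have hn0 : (0 : ℝ) < n := by exact_mod_cast hn
  have hlog : 0 ≤ Real.log n := Real.log_nonneg (by exact_mod_cast hn)
  have hl0 : (l : ℝ) ≠ 0 := by
    have : (0 : ℝ) < l := by exact_mod_cast hl
    exact this.ne'
  have hf : (0 : ℝ) ≤ 2 * ((l - 1).factorial : ℝ) := by positivity
  rw [hp1_npc l n hn, mul_pow, mul_pow, ← Real.rpow_natCast, ← Real.rpow_mul hf,
    ← Real.rpow_natCast (Real.log n ^ ((1 : ℝ) / l)), ← Real.rpow_mul hlog,
    ← Real.rpow_natCast ((n : ℝ) ^ (-((1 : ℝ) / l))), ← Real.rpow_mul hn0.le]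
  have e : (1 : ℝ) / l * l = 1 := by field_simp
  have e2 : -((1 : ℝ) / l) * l = -1 := by field_simp
  rw [e, e2, Real.rpow_one, Real.rpow_one, Real.rpow_neg_one]
  field_simp

theorem hp1_tendsto (l : ℕ) (hl : 1 ≤ l) :
    Tendsto (fun n : ℕ => Real.log n * (2 * ((n : ℝ) * pc l n))) atTop (nhds 0) := by
  have hl0 : (0 : ℝ) < l := by exact_mod_cast hl
  have h1 : Tendsto (fun x : ℝ => (Real.log x) ^ (1 + (1 : ℝ) / l) / x ^ ((1 : ℝ) / l)) atTop
      (nhds 0) :=
    (isLittleO_log_rpow_rpow_atTop (1 + (1 : ℝ) / l) (by positivity)).tendsto_div_nhds_zero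
  have h2 := (h1.comp tendsto_natCast_atTop_atTop).const_mul
    (2 * (2 * ((l - 1).factorial : ℝ)) ^ ((1 : ℝ) / l))
  rw [mul_zero] at h2
  refine h2.congr' ?_
  filter_upwards [eventually_ge_atTop 2] with n hn
  have hn1 : 1 ≤ n := by omega
  have hn0 : (0 : ℝ) < n := by exact_mod_cast hn1
  have hlog : 0 < Real.log n := Real.log_pos (by exact_mod_cast hn)
  simp only [Function.comp]
  rw [hp1_npc l n hn1, Real.rpow_add hlog, Real.rpow_one, Real.rpow_neg hn0.le]
  field_simp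

theorem hp1_range (l : ℕ) (hl : 1 ≤ l) : ∃ c1 c2 : ℝ, 0 < c1 ∧ 0 < c2 ∧ ∀ δ : ℝ, 0 < δ →
    ∀ᶠ n : ℕ in atTop, ∀ p : ℝ, pc l n / 2 ≤ p → p ≤ 2 * pc l n →
      0 < p ∧ c1 * Real.log n ≤ n * (n * p) ^ l ∧ n * (n * p) ^ l ≤ c2 * Real.log n ∧
      Real.log n * (n * p) ≤ δ := by
  refine ⟨2 * ((l - 1).factorial : ℝ) / 2 ^ l, 2 * ((l - 1).factorial : ℝ) * 2 ^ l,
    by positivity, by positivity, ?_⟩
  intro δ hδ
  filter_upwards [eventually_ge_atTop 2, (hp1_tendsto l hl).eventually (gt_mem_nhds hδ)] with n hn h3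
  intro p hp1 hp2
  have hn1 : 1 ≤ n := by omega
  have hn0 : (0 : ℝ) < n := by exact_mod_cast hn1
  have hlog : 0 < Real.log n := Real.log_pos (by exact_mod_cast hn)
  have hpow := hp1_npc_pow l n hl hn1
  have hpc : 0 < pc l n := by
    unfold pc
    have h5 : 0 < Real.log n ^ ((1 : ℝ) / l) := Real.rpow_pos_of_pos hlog _
    have h6 : 0 < (2 * ((l - 1).factorial : ℝ)) ^ ((1 : ℝ) / l) :=
      Real.rpow_pos_of_pos (by positivity) _
    have h7 : 0 < (n : ℝ) ^ (1 + (1 : ℝ) / l) := Real.rpow_pos_of_pos hn0 _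
    positivity
  have hp0 : 0 < p := by linarith
  refine ⟨hp0, ?_, ?_, ?_⟩
  · have h1 : ((n : ℝ) * pc l n / 2) ^ l ≤ (n * p) ^ l := by
      refine pow_le_pow_left₀ (by positivity) ?_ l
      have := mul_le_mul_of_nonneg_left hp1 hn0.le
      linarith
    rw [div_pow] at h1
    calc 2 * ((l - 1).factorial : ℝ) / 2 ^ l * Real.log n
        = (n : ℝ) * (((n : ℝ) * pc l n) ^ l / 2 ^ l) := by
          rw [mul_div_assoc', hpow]; ring
      _ ≤ n * (n * p) ^ l := mul_le_mul_of_nonneg_left h1 hn0.le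
  · have h1 : (n * p) ^ l ≤ (2 * ((n : ℝ) * pc l n)) ^ l := by
      refine pow_le_pow_left₀ (by positivity) ?_ l
      have := mul_le_mul_of_nonneg_left hp2 hn0.le
      linarith
    rw [mul_pow 2] at h1
    calc n * (n * p) ^ l ≤ n * (2 ^ l * ((n : ℝ) * pc l n) ^ l) :=
          mul_le_mul_of_nonneg_left h1 hn0.le
      _ = 2 ^ l * ((n : ℝ) * ((n : ℝ) * pc l n) ^ l) := by ring
      _ = 2 * ((l - 1).factorial : ℝ) * 2 ^ l * Real.log n := by rw [hpow]; ring
  · refine le_trans (mul_le_mul_of_nonneg_left ?_ hlog.le) h3.le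
    have := mul_le_mul_of_nonneg_left hp2 hn0.le
    linarith

/-- lower bound for binomial probabilities -/
theorem hp1_binom_lb (n k M : ℕ) (p : ℝ) (hp0 : 0 ≤ p) (hk : k + 1 ≤ n) (hM : M ≤ n)
    (hp1 : n * p ≤ 1) (hk2 : (k : ℝ) ^ 2 ≤ n) :
    (n * (n * p) ^ k / (k.factorial : ℝ)) * (1 - (M + (k : ℝ) ^ 2) / n - n * p) ≤
      ((n - M : ℕ) : ℝ) * (((n - 1).choose k : ℝ) * p ^ k * (1 - p) ^ (n - k)) := by
  have hn0 : (0 : ℝ) < n := by exact_mod_cast (by omega : 0 < n)
  have hn1 : (1 : ℝ) ≤ n := by exact_mod_cast (by omega : 1 ≤ n)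
  have hp01 : p ≤ 1 := by nlinarith
  have hkf : (0 : ℝ) < (k.factorial : ℝ) := by exact_mod_cast Nat.factorial_pos k
  -- binomial coefficient
  have h1 : (n : ℝ) ^ k * (1 - (k : ℝ) ^ 2 / n) ≤ ((n - 1).choose k : ℝ) * (k.factorial : ℝ) := by
    have h2 : (n - k) ^ k ≤ (n - 1).descFactorial k := by
      have := Nat.pow_sub_le_descFactorial (n - 1) k
      have e : n - 1 + 1 - k = n - k := by omega
      rwa [e] at this
    rw [Nat.descFactorial_eq_factorial_mul_choose] at h2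
    have h3 : ((n - k : ℕ) : ℝ) ^ k ≤ (k.factorial : ℝ) * ((n - 1).choose k : ℝ) := by
      exact_mod_cast h2
    rw [Nat.cast_sub (by omega : k ≤ n)] at h3
    have h4 : (1 : ℝ) + k * (-((k : ℝ) / n)) ≤ (1 + (-((k : ℝ) / n))) ^ k := by
      refine one_add_mul_le_pow ?_ k
      have : (k : ℝ) / n ≤ 1 := by
        rw [div_le_one hn0]
        exact_mod_cast (by omega : k ≤ n)
      linarith
    have h5 : ((n : ℝ) - k) ^ k = (n : ℝ) ^ k * (1 + (-((k : ℝ) / n))) ^ k := by
      rw [← mul_pow]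
      congr 1
      field_simp
      ring
    have h6 : (1 : ℝ) - (k : ℝ) ^ 2 / n = 1 + k * (-((k : ℝ) / n)) := by ring
    rw [h6]
    calc (n : ℝ) ^ k * (1 + k * (-((k : ℝ) / n))) ≤ (n : ℝ) ^ k * (1 + (-((k : ℝ) / n))) ^ k :=
          mul_le_mul_of_nonneg_left h4 (by positivity)
      _ = ((n : ℝ) - k) ^ k := h5.symm
      _ ≤ _ := by rw [mul_comm]; exact h3
  have h2 : 1 - n * p ≤ (1 - p) ^ (n - k) := by
    have h3 : (1 : ℝ) + n * (-p) ≤ (1 + (-p)) ^ n := one_add_mul_le_pow (by linarith) n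
    have h4 : (1 - p) ^ n ≤ (1 - p) ^ (n - k) :=
      pow_le_pow_of_le_one (by linarith) (by linarith) (by omega)
    have e : (1 : ℝ) + (-p) = 1 - p := by ring
    rw [e] at h3
    linarith
  have h3 : ((n - M : ℕ) : ℝ) = n * (1 - M / n) := by
    rw [Nat.cast_sub hM]
    field_simp
  set a : ℝ := (M : ℝ) / n with ha
  set b : ℝ := (k : ℝ) ^ 2 / n with hb
  set c : ℝ := n * p with hc
  have ha0 : 0 ≤ a := by positivity
  have ha1 : a ≤ 1 := by
    rw [ha, div_le_one hn0]; exact_mod_cast hM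
  have hb0 : 0 ≤ b := by positivity
  have hb1 : b ≤ 1 := by rw [hb, div_le_one hn0]; exact hk2
  have hc0 : 0 ≤ c := by positivity
  have hprod : 1 - (a + b) - c ≤ (1 - a) * ((1 - b) * (1 - c)) := by
    have e1 : 0 ≤ a * b := by positivity
    have e2 : 0 ≤ b * c * (1 - a) := mul_nonneg (by positivity) (by linarith)
    have e3 : 0 ≤ a * c := by positivity
    nlinarith
  have hab : (M + (k : ℝ) ^ 2) / n = a + b := by rw [ha, hb]; ring
  rw [hab]
  calc (n * c ^ k / (k.factorial : ℝ)) * (1 - (a + b) - c)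
      ≤ (n * c ^ k / (k.factorial : ℝ)) * ((1 - a) * ((1 - b) * (1 - c))) :=
        mul_le_mul_of_nonneg_left hprod (by positivity)
    _ = (n * (1 - a)) * (((n : ℝ) ^ k * (1 - b)) / (k.factorial : ℝ) * p ^ k * (1 - c)) := by
        rw [hc, mul_pow]; ring
    _ ≤ (n * (1 - a)) * (((n - 1).choose k : ℝ) * p ^ k * (1 - p) ^ (n - k)) := by
        refine mul_le_mul_of_nonneg_left ?_ (mul_nonneg hn0.le (by linarith))
        refine mul_le_mul ?_ h2 (by linarith) (by positivity)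
        refine mul_le_mul_of_nonneg_right ?_ (by positivity)
        rw [div_le_iff₀ hkf]
        exact h1
    _ = _ := by rw [h3]

/-- the deterministic reduction -/
theorem hp1_det {n l : ℕ} (hl : 1 ≤ l) (ω : Sq n) (h : ¬ Span (2 * l) ω) :
    (∀ i ∈ (Finset.univ : Finset (Fin n)), hp1_rw Finset.univ i ω < l) ∨
    (∀ j ∈ (Finset.univ : Finset (Fin n)), hp1_rw Finset.univ j (fun v => ω v.swap) < l) ∨
    ((∃ i, l ≤ hp1_rw Finset.univ i ω) ∧
      (∃ j, l ≤ hp1_rw Finset.univ j (fun v => ω v.swap)) ∧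
      ∀ i j, l ≤ hp1_rw Finset.univ i ω → l ≤ hp1_rw Finset.univ j (fun v => ω v.swap) →
        ω (i, j) = true) ∨
    (∃ i, 4 * l + 1 ≤ hp1_rw Finset.univ i ω) ∨
    (∃ j, 4 * l + 1 ≤ hp1_rw Finset.univ j (fun v => ω v.swap)) ∨
    (Finset.univ.filter fun i => l - 1 ≤ hp1_rw Finset.univ i ω).card ≤ 6 * l + 1 ∨
    (Finset.univ.filter fun j => l - 1 ≤ hp1_rw Finset.univ j (fun v => ω v.swap)).card
      ≤ 6 * l + 1 := by
  by_contra hcon
  simp only [not_or] at hcon
  obtain ⟨h1, h2, h3, h4, h5, h6, h7⟩ := hcon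
  push Not at h1 h2 h4 h5 h6 h7
  obtain ⟨i1, _, hi1⟩ := h1
  obtain ⟨j1, _, hj1⟩ := h2
  have h8 : ∃ i j, l ≤ hp1_rw Finset.univ i ω ∧ l ≤ hp1_rw Finset.univ j (fun v => ω v.swap) ∧
      ω (i, j) ≠ true := by
    by_contra hc
    push Not at hc
    exact h3 ⟨⟨i1, hi1⟩, ⟨j1, hj1⟩, hc⟩
  obtain ⟨i0, j0, hi0, hj0, hne⟩ := h8
  have h0 : ω (i0, j0) = false := by simpa using hne
  apply h
  have key : ∀ (η : Sq n) (a b : Fin n), hp1_rw Finset.univ a η < 4 * l + 1 →
      6 * l + 1 < (Finset.univ.filter fun j => l - 1 ≤ hp1_rw Finset.univ j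
        (fun v => η v.swap)).card →
      2 * l + 1 ≤ {j | j ≠ b ∧ η (a, j) = false ∧ l ≤ {i | η (i, j) = true}.ncard + 1}.ncard := by
    intro η a b ha hb
    have hsub : (((Finset.univ.filter fun j => l - 1 ≤ hp1_rw Finset.univ j
        (fun v => η v.swap)) \ (insert b (Finset.univ.filter fun j => η (a, j) = true)) :
        Finset (Fin n)) : Set (Fin n)) ⊆
        {j | j ≠ b ∧ η (a, j) = false ∧ l ≤ {i | η (i, j) = true}.ncard + 1} := by
      intro j hj
      simp only [Finset.coe_sdiff, Finset.coe_filter, Finset.mem_univ, true_and,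
        Finset.coe_insert, Set.mem_sdiff, Set.mem_insert_iff, Set.mem_ofPred_eq, not_or] at hj
      obtain ⟨hj1, hj2, hj3⟩ := hj
      rw [hp1_rw_univ] at hj1
      refine ⟨hj2, by simpa using hj3, ?_⟩
      have hj4 : l - 1 ≤ {i | η (i, j) = true}.ncard := hj1
      omega
    have hle := Set.ncard_le_ncard hsub (Set.toFinite _)
    rw [Set.ncard_coe_finset] at hle
    refine le_trans ?_ hle
    have h9 := Finset.le_card_sdiff (insert b (Finset.univ.filter fun j => η (a, j) = true))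
      (Finset.univ.filter fun j => l - 1 ≤ hp1_rw Finset.univ j (fun v => η v.swap))
    have h10 : (insert b (Finset.univ.filter fun j => η (a, j) = true)).card ≤
        (Finset.univ.filter fun j => η (a, j) = true).card + 1 := Finset.card_insert_le _ _
    rw [hp1_rw_eq] at ha
    omega
  refine span_even hl h0 ?_ ?_ ?_ ?_
  · rw [← hp1_rw_univ]; exact hi0
  · have : {i | ω (i, j0) = true}.ncard = hp1_rw Finset.univ j0 (fun v => ω v.swap) := by
      rw [hp1_rw_univ]; rfl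
    rw [this]; exact hj0
  · exact key ω i0 j0 (h4 i0) h7
  · exact key (fun v => ω v.swap) j0 i0 (h5 j0) h6

/-- the probability that a square is not spanned with threshold `2l` -/
theorem span_even_prob (l : ℕ) (hl : 1 ≤ l) : ∃ K : ℝ, 0 < K ∧ ∀ᶠ n : ℕ in atTop,
    ∀ p : unitInterval, pc l n / 2 ≤ (p : ℝ) → (p : ℝ) ≤ 2 * pc l n →
    (PM (bern p)).real {ω : Sq n | ¬ Span (2 * l) ω} ≤
      K * qh l n p + (n : ℝ) ^ (-(2 : ℝ) / l) := by
  obtain ⟨c1, c2, hc1, hc2, hrange⟩ := hp1_range l hl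
  set A : ℝ := 6 * l + 4 with hA
  have hfl : (0 : ℝ) < (l.factorial : ℝ) := by exact_mod_cast Nat.factorial_pos l
  have hfl1 : (1 : ℝ) ≤ (l.factorial : ℝ) := by exact_mod_cast Nat.factorial_pos l
  have hfl' : (0 : ℝ) < ((l - 1).factorial : ℝ) := by exact_mod_cast Nat.factorial_pos (l - 1)
  -- the small number
  set δ : ℝ := min (1 / (2 * c2)) (min (1 / 4) (c1 / (2 * A * ((l - 1).factorial : ℝ)))) with hδ
  have hA0 : 0 < A := by positivity
  have hδ0 : 0 < δ := by
    rw [hδ]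
    refine lt_min (by positivity) (lt_min (by norm_num) (by positivity))
  have hδ1 : δ ≤ 1 / (2 * c2) := min_le_left _ _
  have hδ2 : δ ≤ 1 / 4 := (min_le_right _ _).trans (min_le_left _ _)
  have hδ3 : δ ≤ c1 / (2 * A * ((l - 1).factorial : ℝ)) :=
    (min_le_right _ _).trans (min_le_right _ _)
  refine ⟨3 * Real.exp 1, by positivity, ?_⟩
  -- eventual facts about `n`
  have t1 : ∀ᶠ n : ℕ in atTop, Real.log n * (c2 * (l + (l : ℝ) ^ 2)) ≤ n / 2 := by
    have h := (Real.isLittleO_log_id_atTop.tendsto_div_nhds_zero).comp tendsto_natCast_atTop_atTop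
    have h' := (h.mul_const (c2 * (l + (l : ℝ) ^ 2)))
    rw [zero_mul] at h'
    filter_upwards [h'.eventually (gt_mem_nhds (by norm_num : (0 : ℝ) < 1 / 2)),
      eventually_gt_atTop 0] with n hn hn1
    have hn0 : (0 : ℝ) < n := by exact_mod_cast hn1
    simp only [Function.comp, id] at hn
    rw [div_mul_eq_mul_div, div_lt_iff₀ hn0] at hn
    linarith
  have t2 : ∀ᶠ n : ℕ in atTop, 4 * (c2 * Real.log n) ^ 4 ≤ n := by
    have h := (isLittleO_log_rpow_rpow_atTop 4 (zero_lt_one)).tendsto_div_nhds_zero.comp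
      tendsto_natCast_atTop_atTop
    have h' := (h.const_mul (4 * c2 ^ 4))
    rw [mul_zero] at h'
    filter_upwards [h'.eventually (gt_mem_nhds (by norm_num : (0 : ℝ) < 1)),
      eventually_gt_atTop 0] with n hn hn1
    have hn0 : (0 : ℝ) < n := by exact_mod_cast hn1
    simp only [Function.comp, Real.rpow_one] at hn
    have e : (Real.log (n : ℝ)) ^ (4 : ℝ) = Real.log n ^ 4 := by
      rw [← Real.rpow_natCast]; norm_num
    rw [e, mul_div_assoc', div_lt_iff₀ hn0] at hn
    rw [mul_pow]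
    linarith
  have t3 : ∀ᶠ n : ℕ in atTop, 1 ≤ Real.log n :=
    (Real.tendsto_log_atTop.comp tendsto_natCast_atTop_atTop).eventually_ge_atTop 1
  have t4 : ∀ᶠ n : ℕ in atTop, 4 * (6 * (l : ℝ) + 1 + (l : ℝ) ^ 2) ≤ n :=
    tendsto_natCast_atTop_atTop.eventually_ge_atTop _
  filter_upwards [hrange δ hδ0, t1, t2, t3, t4, eventually_ge_atTop (6 * l + 4)]
    with n hr h1 h2 h3 h4 h5
  intro p hp1 hp2
  obtain ⟨hp0, hlo, hup, hsm⟩ := hr p hp1 hp2
  have hn0 : (0 : ℝ) < n := by exact_mod_cast (by omega : 0 < n)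
  have hn1 : (1 : ℝ) ≤ n := by exact_mod_cast (by omega : 1 ≤ n)
  set x : ℝ := n * (p : ℝ) with hx
  have hx0 : 0 < x := mul_pos hn0 hp0
  have hxδ : x ≤ δ := by
    calc x = 1 * x := (one_mul x).symm
      _ ≤ Real.log n * x := mul_le_mul_of_nonneg_right h3 hx0.le
      _ ≤ δ := hsm
  have hx14 : x ≤ 1 / 4 := hxδ.trans hδ2
  have hp1' : (p : ℝ) ≤ 1 := p.2.2
  have hlam : lam l n p = n * x ^ l / (l.factorial : ℝ) := rfl
  have hlam0 : 0 ≤ lam l n p := by rw [hlam]; positivity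
  have hqh : Real.exp (-lam l n p) ≤ qh l n p := by
    unfold qh
    have : (0 : ℝ) ≤ (if l = 1 then lam l n p else 0) := by
      split_ifs
      · exact hlam0
      · exact le_refl _
    calc Real.exp (-lam l n p) = 1 * Real.exp (-lam l n p) := (one_mul _).symm
      _ ≤ _ := mul_le_mul_of_nonneg_right (by linarith) (Real.exp_pos _).le
  have hl1 : (1 : ℝ) ≤ l := by exact_mod_cast hl
  -- the main lower bound
  have hLB : lam l n p - 1 ≤ ((n - l : ℕ) : ℝ) * (((n - 1).choose l : ℝ) * (p : ℝ) ^ l *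
      (1 - (p : ℝ)) ^ (n - l)) := by
    have h := hp1_binom_lb n l l p hp0.le (by omega) (by omega) (by linarith)
      (by linarith [sq_nonneg (l : ℝ)])
    refine le_trans ?_ h
    rw [← hx]
    have e1 : (n * x ^ l / (l.factorial : ℝ)) * ((l + (l : ℝ) ^ 2) / n) ≤ 1 / 2 := by
      have e2 : n * x ^ l / (l.factorial : ℝ) ≤ c2 * Real.log n := by
        rw [div_le_iff₀ hfl]
        have : 0 ≤ c2 * Real.log n := by positivity
        exact hup.trans (le_mul_of_one_le_right this hfl1)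
      calc (n * x ^ l / (l.factorial : ℝ)) * ((l + (l : ℝ) ^ 2) / n)
          ≤ (c2 * Real.log n) * ((l + (l : ℝ) ^ 2) / n) :=
            mul_le_mul_of_nonneg_right e2 (by positivity)
        _ = (Real.log n * (c2 * (l + (l : ℝ) ^ 2))) / n := by ring
        _ ≤ 1 / 2 := by rw [div_le_iff₀ hn0]; linarith
    have e3 : (n * x ^ l / (l.factorial : ℝ)) * x ≤ 1 / 2 := by
      have e2 : n * x ^ l / (l.factorial : ℝ) ≤ c2 * Real.log n := by
        rw [div_le_iff₀ hfl]
        have : 0 ≤ c2 * Real.log n := by positivity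
        exact hup.trans (le_mul_of_one_le_right this hfl1)
      calc (n * x ^ l / (l.factorial : ℝ)) * x ≤ (c2 * Real.log n) * x :=
            mul_le_mul_of_nonneg_right e2 hx0.le
        _ = c2 * (Real.log n * x) := by ring
        _ ≤ c2 * (1 / (2 * c2)) := mul_le_mul_of_nonneg_left (hsm.trans hδ1) hc2.le
        _ = 1 / 2 := by field_simp
    rw [hlam]
    linarith
  -- (a) no good row
  have hch : ((n - 1).choose l : ℝ) ≤ (n.choose l : ℝ) := by
    exact_mod_cast Nat.choose_le_choose l (by omega)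
  have hnl : ((n - l : ℕ) : ℝ) ≤ (n : ℝ) := by exact_mod_cast Nat.sub_le n l
  have ha : (PM (bern p)).real {ω : Sq n | ∀ i ∈ (Finset.univ : Finset (Fin n)),
      hp1_rw Finset.univ i ω < l} ≤ Real.exp 1 * qh l n p := by
    have h := hp1_norow p (Finset.univ : Finset (Fin n)) l
    rw [Finset.card_univ, Fintype.card_fin] at h
    refine h.trans ?_
    have h6 : ((n - l : ℕ) : ℝ) * (((n - 1).choose l : ℝ) * (p : ℝ) ^ l *
      (1 - (p : ℝ)) ^ (n - l)) ≤ n * ((n.choose l : ℝ) * (p : ℝ) ^ l *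
      (1 - (p : ℝ)) ^ (n - l)) := by
      have : (0 : ℝ) ≤ 1 - (p : ℝ) := by linarith
      refine mul_le_mul hnl ?_ (by positivity) (by positivity)
      refine mul_le_mul_of_nonneg_right ?_ (by positivity)
      exact mul_le_mul_of_nonneg_right hch (by positivity)
    calc Real.exp (-(n * ((n.choose l : ℝ) * (p : ℝ) ^ l * (1 - (p : ℝ)) ^ (n - l))))
        ≤ Real.exp (1 - lam l n p) := Real.exp_le_exp.2 (by linarith)
      _ = Real.exp 1 * Real.exp (-lam l n p) := by rw [← Real.exp_add]; ring_nf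
      _ ≤ Real.exp 1 * qh l n p := mul_le_mul_of_nonneg_left hqh (Real.exp_pos _).le
  -- (b) crossings
  have hb : (PM (bern p)).real {ω : Sq n | (∃ i, l ≤ hp1_rw Finset.univ i ω) ∧
      (∃ j, l ≤ hp1_rw Finset.univ j (fun v => ω v.swap)) ∧
      ∀ i j, l ≤ hp1_rw Finset.univ i ω → l ≤ hp1_rw Finset.univ j (fun v => ω v.swap) →
        ω (i, j) = true} ≤ Real.exp 1 * qh l n p := by
    refine (hp1_cross hl p (by omega)).trans ?_
    have e1 : (n : ℝ) ^ (2 * l) * ((p : ℝ) ^ (2 * l - 1) * Real.exp (-((n - l : ℕ) *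
      (((n - 1).choose l : ℝ) * (p : ℝ) ^ l * (1 - (p : ℝ)) ^ (n - l))))) ≤
        (n * x ^ l * x ^ (l - 1)) * (Real.exp 1 * Real.exp (-lam l n p)) := by
      have e2 : (n : ℝ) ^ (2 * l) * (p : ℝ) ^ (2 * l - 1) = n * x ^ l * x ^ (l - 1) := by
        have e3 : 2 * l = (2 * l - 1) + 1 := by omega
        have e4 : (n : ℝ) ^ (2 * l) = (n : ℝ) ^ (2 * l - 1) * n := by
          rw [← pow_succ]; congr 1
        have e5 : 2 * l - 1 = l + (l - 1) := by omega
        rw [e4, mul_assoc, mul_comm (n : ℝ) ((p : ℝ) ^ (2 * l - 1)), ← mul_assoc, ← mul_pow, ← hx,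
          e5, pow_add]
        ring
      rw [← mul_assoc, e2]
      refine mul_le_mul_of_nonneg_left ?_ (by positivity)
      rw [← Real.exp_add]
      exact Real.exp_le_exp.2 (by linarith)
    refine e1.trans ?_
    have e3 : (n * x ^ l * x ^ (l - 1)) * Real.exp (-lam l n p) ≤ qh l n p := by
      by_cases hl' : l = 1
      · subst hl'
        unfold qh
        simp only [if_true]
        refine mul_le_mul_of_nonneg_right ?_ (Real.exp_pos _).le
        rw [hlam]
        simp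
      · refine le_trans ?_ hqh
        have e4 : n * x ^ l * x ^ (l - 1) ≤ 1 := by
          have e5 : x ^ (l - 1) ≤ x := by
            calc x ^ (l - 1) ≤ x ^ 1 :=
                  pow_le_pow_of_le_one hx0.le (by linarith) (by omega)
              _ = x := pow_one x
          calc n * x ^ l * x ^ (l - 1) ≤ (c2 * Real.log n) * x :=
                mul_le_mul hup e5 (by positivity) (by positivity)
            _ = c2 * (Real.log n * x) := by ring
            _ ≤ c2 * (1 / (2 * c2)) := mul_le_mul_of_nonneg_left (hsm.trans hδ1) hc2.le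
            _ ≤ 1 := by
                have : c2 * (1 / (2 * c2)) = 1 / 2 := by field_simp
                rw [this]; norm_num
        calc (n * x ^ l * x ^ (l - 1)) * Real.exp (-lam l n p) ≤ 1 * Real.exp (-lam l n p) :=
              mul_le_mul_of_nonneg_right e4 (Real.exp_pos _).le
          _ = _ := one_mul _
    calc (n * x ^ l * x ^ (l - 1)) * (Real.exp 1 * Real.exp (-lam l n p))
        = Real.exp 1 * ((n * x ^ l * x ^ (l - 1)) * Real.exp (-lam l n p)) := by ring
      _ ≤ Real.exp 1 * qh l n p := mul_le_mul_of_nonneg_left e3 (Real.exp_pos _).le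
  -- (c) a row with many sites
  have hc : (PM (bern p)).real {ω : Sq n | ∃ i, 4 * l + 1 ≤ hp1_rw Finset.univ i ω} ≤
      1 / 4 * ((n : ℝ) ^ 2)⁻¹ := by
    refine (hp1_bigrow p (4 * l + 1)).trans ?_
    have e1 : (n.choose (4 * l + 1) : ℝ) ≤ (n : ℝ) ^ (4 * l + 1) := by
      exact_mod_cast Nat.choose_le_pow n (4 * l + 1)
    calc n * ((n.choose (4 * l + 1) : ℝ) * (p : ℝ) ^ (4 * l + 1))
        ≤ n * ((n : ℝ) ^ (4 * l + 1) * (p : ℝ) ^ (4 * l + 1)) :=
          mul_le_mul_of_nonneg_left (mul_le_mul_of_nonneg_right e1 (by positivity)) hn0.le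
      _ = n * x ^ (4 * l + 1) := by rw [← mul_pow]
      _ = ((n * x ^ l) ^ 4 * x) / n ^ 3 := by
          have e2 : x ^ (4 * l + 1) = (x ^ l) ^ 4 * x := by
            rw [pow_succ, mul_comm 4 l, pow_mul]
          rw [e2, mul_pow]
          field_simp
      _ ≤ ((c2 * Real.log n) ^ 4 * 1) / n ^ 3 := by
          refine div_le_div_of_nonneg_right ?_ (by positivity)
          exact mul_le_mul (pow_le_pow_left₀ (by positivity) hup 4) (by linarith) hx0.le
            (by positivity)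
      _ ≤ 1 / 4 * ((n : ℝ) ^ 2)⁻¹ := by
          rw [mul_one, div_le_iff₀ (by positivity)]
          have : 1 / 4 * ((n : ℝ) ^ 2)⁻¹ * n ^ 3 = n / 4 := by field_simp
          rw [this]
          linarith
  -- (d) few rows with l - 1 sites
  have hd : (PM (bern p)).real {ω : Sq n | (Finset.univ.filter fun i => l - 1 ≤
      hp1_rw Finset.univ i ω).card ≤ 6 * l + 1} ≤ 1 / 4 * ((n : ℝ) ^ 2)⁻¹ := by
    refine (hp1_fewrows p (l - 1) (6 * l + 1) (by omega)).trans ?_
    have hk1 : ((l - 1 : ℕ) : ℝ) ≤ l := by exact_mod_cast Nat.sub_le l 1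
    have hk0 : (0 : ℝ) ≤ ((l - 1 : ℕ) : ℝ) := Nat.cast_nonneg _
    have hk2 : ((l - 1 : ℕ) : ℝ) ^ 2 ≤ (l : ℝ) ^ 2 := pow_le_pow_left₀ hk0 hk1 2
    have h := hp1_binom_lb n (l - 1) (6 * l + 1) p hp0.le (by omega) (by omega) (by linarith)
      (by linarith [sq_nonneg (l : ℝ)])
    rw [← hx] at h
    have hch2 : ((n - 1).choose (l - 1) : ℝ) ≤ (n.choose (l - 1) : ℝ) := by
      exact_mod_cast Nat.choose_le_choose (l - 1) (by omega)
    have e1 : A * Real.log n ≤ ((n - (6 * l + 1) : ℕ) : ℝ) * ((n.choose (l - 1) : ℝ) *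
        (p : ℝ) ^ (l - 1) * (1 - (p : ℝ)) ^ (n - (l - 1))) := by
      have e2 : ((n - (6 * l + 1) : ℕ) : ℝ) * (((n - 1).choose (l - 1) : ℝ) * (p : ℝ) ^ (l - 1) *
        (1 - (p : ℝ)) ^ (n - (l - 1))) ≤ ((n - (6 * l + 1) : ℕ) : ℝ) * ((n.choose (l - 1) : ℝ) *
        (p : ℝ) ^ (l - 1) * (1 - (p : ℝ)) ^ (n - (l - 1))) := by
        have : (0 : ℝ) ≤ 1 - (p : ℝ) := by linarith
        refine mul_le_mul_of_nonneg_left ?_ (Nat.cast_nonneg _)
        refine mul_le_mul_of_nonneg_right ?_ (by positivity)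
        exact mul_le_mul_of_nonneg_right hch2 (by positivity)
      refine le_trans ?_ e2
      refine le_trans ?_ h
      have e3 : (1 : ℝ) / 2 ≤ 1 - (((6 * l + 1 : ℕ) : ℝ) + ((l - 1 : ℕ) : ℝ) ^ 2) / n - x := by
        have e4 : (((6 * l + 1 : ℕ) : ℝ) + ((l - 1 : ℕ) : ℝ) ^ 2) / n ≤ 1 / 4 := by
          rw [div_le_iff₀ hn0]
          push_cast
          linarith
        linarith
      have e5 : 2 * (A * Real.log n) ≤ n * x ^ (l - 1) / ((l - 1).factorial : ℝ) := by
        rw [le_div_iff₀ hfl']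
        -- x * (2 A (l-1)! log n) ≤ c1 log n ≤ n x^l
        have e6 : x * (2 * (A * Real.log n) * ((l - 1).factorial : ℝ)) ≤ n * x ^ l := by
          refine le_trans ?_ hlo
          have e7 : x * (2 * A * ((l - 1).factorial : ℝ)) ≤ c1 := by
            have := hxδ.trans hδ3
            rwa [le_div_iff₀ (by positivity)] at this
          calc x * (2 * (A * Real.log n) * ((l - 1).factorial : ℝ))
              = (x * (2 * A * ((l - 1).factorial : ℝ))) * Real.log n := by ring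
            _ ≤ c1 * Real.log n := mul_le_mul_of_nonneg_right e7 (by linarith)
        have e8 : n * x ^ l = x * (n * x ^ (l - 1)) := by
          have : x ^ l = x ^ (l - 1) * x := by rw [← pow_succ]; congr 1; omega
          rw [this]; ring
        rw [e8] at e6
        exact le_of_mul_le_mul_left e6 hx0
      have e9 : 0 ≤ n * x ^ (l - 1) / ((l - 1).factorial : ℝ) := by positivity
      calc A * Real.log n = (2 * (A * Real.log n)) * (1 / 2) := by ring
        _ ≤ _ := mul_le_mul e5 e3 (by norm_num) e9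
    have e10 : Real.exp (-(((n - (6 * l + 1) : ℕ) : ℝ) * ((n.choose (l - 1) : ℝ) *
        (p : ℝ) ^ (l - 1) * (1 - (p : ℝ)) ^ (n - (l - 1))))) ≤ ((n : ℝ) ^ (6 * l + 4))⁻¹ := by
      calc Real.exp (-(((n - (6 * l + 1) : ℕ) : ℝ) * ((n.choose (l - 1) : ℝ) *
        (p : ℝ) ^ (l - 1) * (1 - (p : ℝ)) ^ (n - (l - 1))))) ≤ Real.exp (-(A * Real.log n)) :=
            Real.exp_le_exp.2 (by linarith)
        _ = ((n : ℝ) ^ (6 * l + 4))⁻¹ := by
            rw [Real.exp_neg]
            congr 1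
            have e11 : A = ((6 * l + 4 : ℕ) : ℝ) := by rw [hA]; push_cast; ring
            rw [e11, mul_comm, Real.exp_mul, Real.exp_log hn0, Real.rpow_natCast]
    refine (mul_le_mul_of_nonneg_left e10 (by positivity)).trans ?_
    have e12 : (n : ℝ) ^ (6 * l + 1) * ((n : ℝ) ^ (6 * l + 4))⁻¹ = ((n : ℝ) ^ 2)⁻¹ * (n : ℝ)⁻¹ := by
      have : (n : ℝ) ^ (6 * l + 4) = (n : ℝ) ^ (6 * l + 1) * (n ^ 2 * n) := by ring
      rw [this]
      field_simp
    rw [e12, mul_comm]
    refine mul_le_mul_of_nonneg_right ?_ (by positivity)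
    rw [inv_le_comm₀ hn0 (by norm_num)]
    have : (4 : ℝ) ≤ n := by exact_mod_cast (by omega : 4 ≤ n)
    norm_num
    omega
  -- the union bound
  have ha' := ha
  rw [← hp1_swap p] at ha'
  have hc' := hc
  rw [← hp1_swap p] at hc'
  have hd' := hd
  rw [← hp1_swap p] at hd'
  have hsub : {ω : Sq n | ¬ Span (2 * l) ω} ⊆
      {ω : Sq n | ∀ i ∈ (Finset.univ : Finset (Fin n)), hp1_rw Finset.univ i ω < l} ∪
      ({ω : Sq n | (fun v => ω v.swap) ∈ {ω : Sq n | ∀ i ∈ (Finset.univ : Finset (Fin n)),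
        hp1_rw Finset.univ i ω < l}} ∪
      ({ω : Sq n | (∃ i, l ≤ hp1_rw Finset.univ i ω) ∧
      (∃ j, l ≤ hp1_rw Finset.univ j (fun v => ω v.swap)) ∧
      ∀ i j, l ≤ hp1_rw Finset.univ i ω → l ≤ hp1_rw Finset.univ j (fun v => ω v.swap) →
        ω (i, j) = true} ∪
      ({ω : Sq n | ∃ i, 4 * l + 1 ≤ hp1_rw Finset.univ i ω} ∪
      ({ω : Sq n | (fun v => ω v.swap) ∈ {ω : Sq n | ∃ i, 4 * l + 1 ≤ hp1_rw Finset.univ i ω}} ∪
      ({ω : Sq n | (Finset.univ.filter fun i => l - 1 ≤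
      hp1_rw Finset.univ i ω).card ≤ 6 * l + 1} ∪
      {ω : Sq n | (fun v => ω v.swap) ∈ {ω : Sq n | (Finset.univ.filter fun i => l - 1 ≤
      hp1_rw Finset.univ i ω).card ≤ 6 * l + 1}}))))) := by
    intro ω hω
    exact hp1_det hl ω hω
  have hunion := (measureReal_mono hsub (measure_ne_top (PM (bern p)) _)).trans
    ((measureReal_union_le _ _).trans (add_le_add_right ((measureReal_union_le _ _).trans
    (add_le_add_right ((measureReal_union_le _ _).trans (add_le_add_right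
    ((measureReal_union_le _ _).trans (add_le_add_right ((measureReal_union_le _ _).trans
    (add_le_add_right (measureReal_union_le _ _) _)) _)) _)) _)) _))
  have hfin : ((n : ℝ) ^ 2)⁻¹ ≤ (n : ℝ) ^ (-(2 : ℝ) / l) := by
    have e1 : ((n : ℝ) ^ 2)⁻¹ = (n : ℝ) ^ (-(2 : ℝ)) := by
      rw [Real.rpow_neg hn0.le]
      norm_num
    rw [e1]
    refine Real.rpow_le_rpow_of_exponent_le hn1 ?_
    rw [le_div_iff₀ (by linarith)]
    linarith
  linarith

end Pool.Agent.BP
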