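import Pool.Agent.Lib_MP_94fe03_pr.HamDet
import Pool.Agent.Lib_MP_94fe03_pr.Bern

set_option autoImplicit false

namespace Pool.Agent.BP

open MeasureTheory ProbabilityTheory Filter

namespace HamProb2

variable {ι : Type} (p : unitInterval)

/-- number of occupied sites in `s` -/
def ct (c : ι → Bool) (s : Finset ι) : ℕ := (s.filter fun i => c i = true).card

theorem ct_congr {c c' : ι → Bool} {s : Finset ι} (h : ∀ i ∈ s, c i = c' i) : ct c s = ct c' s := by
  unfold ct
  congr 1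
  apply Finset.filter_congr
  intro i hi
  rw [h i hi]

theorem loc_ct (s : Finset ι) (P : ℕ → Prop) : Loc {c : ι → Bool | P (ct c s)} (s : Set ι) :=
  Loc.count s P

/-- lower bound for the probability of at least `k` occupied sites -/
theorem tail_lb (s : Finset ι) (k : ℕ) (hk : 2 * k ≤ s.card) (hp : (s.card : ℝ) * p ≤ 1 / 2) :
    ((s.card : ℝ) * p) ^ k / (2 * 2 ^ k * (k.factorial : ℝ)) ≤
      (PM (bern p)).real {c : ι → Bool | k ≤ ct c s} := by
  have hp0 : (0 : ℝ) ≤ p := p.2.1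
  have hp1 : (p : ℝ) ≤ 1 := p.2.2
  have h1 : (PM (bern p)).real {c : ι → Bool | ct c s = k} ≤
      (PM (bern p)).real {c : ι → Bool | k ≤ ct c s} := by
    refine measureReal_mono ?_ (measure_ne_top _ _)
    intro c hc
    exact le_of_eq (Eq.symm hc)
  refine le_trans ?_ h1
  have h2 : (PM (bern p)).real {c : ι → Bool | ct c s = k} =
      (s.card.choose k : ℝ) * (p : ℝ) ^ k * (1 - (p : ℝ)) ^ (s.card - k) := PM_count p s k
  rw [h2]
  have h3 : (1 : ℝ) / 2 ≤ (1 - (p : ℝ)) ^ (s.card - k) := by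
    have := one_add_mul_le_pow (a := -(p : ℝ)) (by linarith) (s.card - k)
    have h4 : ((s.card - k : ℕ) : ℝ) ≤ s.card := by exact_mod_cast Nat.sub_le _ _
    have h5 : ((s.card - k : ℕ) : ℝ) * p ≤ s.card * p := mul_le_mul_of_nonneg_right h4 hp0
    have h6 : (1 + -(p : ℝ)) = 1 - p := by ring
    rw [h6] at this
    linarith
  have h4 : ((s.card : ℝ) / 2) ^ k / (k.factorial : ℝ) ≤ (s.card.choose k : ℝ) := by
    have hf : (0 : ℝ) < k.factorial := by exact_mod_cast Nat.factorial_pos k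
    refine le_trans ?_ (Nat.pow_le_choose k s.card)
    refine div_le_div_of_nonneg_right ?_ hf.le
    refine pow_le_pow_left₀ (by positivity) ?_ k
    have : (s.card : ℝ) ≤ 2 * ((s.card + 1 - k : ℕ) : ℝ) := by
      exact_mod_cast (by omega : s.card ≤ 2 * (s.card + 1 - k))
    linarith
  have hf : (0 : ℝ) < k.factorial := by exact_mod_cast Nat.factorial_pos k
  calc ((s.card : ℝ) * p) ^ k / (2 * 2 ^ k * (k.factorial : ℝ))
      = (((s.card : ℝ) / 2) ^ k / (k.factorial : ℝ)) * (p : ℝ) ^ k * (1 / 2) := by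
        rw [mul_pow, div_pow]; field_simp
    _ ≤ (s.card.choose k : ℝ) * (p : ℝ) ^ k * (1 - (p : ℝ)) ^ (s.card - k) := by
        gcongr

variable {κ : Type} (L : κ → Finset ι)

theorem none_prob (k : ℕ) (r : ℝ) (T : Finset κ)
    (hL : ∀ i ∈ T, ∀ j ∈ T, i ≠ j → Disjoint (L i) (L j))
    (hr : ∀ i ∈ T, r ≤ (PM (bern p)).real {c : ι → Bool | k ≤ ct c (L i)}) :
    (PM (bern p)).real {c : ι → Bool | ∀ i ∈ T, ¬ (k ≤ ct c (L i))} ≤
      Real.exp (-(r * T.card)) := by
  have h1 := PM_prod (bern p) T (fun i => {c : ι → Bool | ¬ (k ≤ ct c (L i))})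
    (fun i => (L i : Set ι)) (fun i _ => (L i).finite_toSet)
    (fun i _ => loc_ct (L i) (fun m => ¬ (k ≤ m)))
    (fun i hi j hj hij => by exact_mod_cast hL i hi j hj hij)
  have e : {c : ι → Bool | ∀ i ∈ T, ¬ (k ≤ ct c (L i))} =
      ⋂ i ∈ T, {c : ι → Bool | ¬ (k ≤ ct c (L i))} := by
    ext c; simp
  rw [e, h1]
  have h2 : ∀ i ∈ T, (PM (bern p)).real {c : ι → Bool | ¬ (k ≤ ct c (L i))} ≤ Real.exp (-r) := by
    intro i hi
    have hm : MeasurableSet {c : ι → Bool | k ≤ ct c (L i)} :=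
      Loc.measurableSet (L i).finite_toSet (loc_ct (L i) (fun m => k ≤ m))
    have h3 : (PM (bern p)).real {c : ι → Bool | k ≤ ct c (L i)}ᶜ =
        1 - (PM (bern p)).real {c : ι → Bool | k ≤ ct c (L i)} :=
      probReal_compl_eq_one_sub hm
    have h4 : {c : ι → Bool | ¬ (k ≤ ct c (L i))} = {c : ι → Bool | k ≤ ct c (L i)}ᶜ := rfl
    rw [h4, h3]
    have := Real.add_one_le_exp (-r)
    have := hr i hi
    linarith
  calc ∏ i ∈ T, (PM (bern p)).real {c : ι → Bool | ¬ (k ≤ ct c (L i))}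
      ≤ ∏ i ∈ T, Real.exp (-r) := Finset.prod_le_prod (fun i _ => measureReal_nonneg) h2
    _ = Real.exp (-(r * T.card)) := by
        rw [Finset.prod_const, ← Real.exp_nat_mul]
        congr 1
        ring

theorem few_prob (k : ℕ) (r : ℝ) (g : ℕ) (M : ℕ) : ∀ T : Finset κ, M * g ≤ T.card →
    (∀ i ∈ T, ∀ j ∈ T, i ≠ j → Disjoint (L i) (L j)) →
    (∀ i ∈ T, r ≤ (PM (bern p)).real {c : ι → Bool | k ≤ ct c (L i)}) →
    (PM (bern p)).real {c : ι → Bool | (T.filter fun i => k ≤ ct c (L i)).card < M} ≤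
      M * Real.exp (-(r * g)) := by
  classical
  induction M with
  | zero =>
    intro T _ _ _
    simp
  | succ M ih =>
    intro T hT hL hr
    have h0 : g ≤ T.card := le_trans (by nlinarith [Nat.zero_le (M * g)]) hT
    obtain ⟨T0, hT0, hc⟩ := Finset.exists_subset_card_eq h0
    have h1 := none_prob p L k r T0 (fun i hi j hj => hL i (hT0 hi) j (hT0 hj))
      (fun i hi => hr i (hT0 hi))
    have hc1 : M * g ≤ (T \ T0).card := by
      rw [Finset.card_sdiff_of_subset hT0, hc]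
      have : (M + 1) * g = M * g + g := by ring
      omega
    have h2 := ih (T \ T0) hc1
      (fun i hi j hj => hL i (Finset.sdiff_subset hi) j (Finset.sdiff_subset hj))
      (fun i hi => hr i (Finset.sdiff_subset hi))
    have h3 : {c : ι → Bool | (T.filter fun i => k ≤ ct c (L i)).card < M + 1} ⊆
        {c : ι → Bool | ((T \ T0).filter fun i => k ≤ ct c (L i)).card < M} ∪
        {c : ι → Bool | ∀ i ∈ T0, ¬ (k ≤ ct c (L i))} := by
      intro c hc
      by_contra hcon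
      rw [Set.mem_union, not_or] at hcon
      obtain ⟨ha, hb⟩ := hcon
      have ha' : M ≤ ((T \ T0).filter fun i => k ≤ ct c (L i)).card := not_lt.1 ha
      have hb' : ∃ i ∈ T0, k ≤ ct c (L i) := by
        by_contra hno
        apply hb
        intro i hi hk
        exact hno ⟨i, hi, hk⟩
      obtain ⟨i, hi, hki⟩ := hb'
      have hins : insert i ((T \ T0).filter fun i => k ≤ ct c (L i)) ⊆
          T.filter fun i => k ≤ ct c (L i) := by
        intro j hj
        rcases Finset.mem_insert.1 hj with rfl | hj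
        · exact Finset.mem_filter.2 ⟨hT0 hi, hki⟩
        · obtain ⟨hj1, hj2⟩ := Finset.mem_filter.1 hj
          exact Finset.mem_filter.2 ⟨Finset.sdiff_subset hj1, hj2⟩
      have hcard := Finset.card_le_card hins
      rw [Finset.card_insert_of_notMem] at hcard
      · have : (T.filter fun i => k ≤ ct c (L i)).card < M + 1 := hc
        omega
      · intro hmem
        exact (Finset.mem_sdiff.1 (Finset.mem_filter.1 hmem).1).2 hi
    calc (PM (bern p)).real {c : ι → Bool | (T.filter fun i => k ≤ ct c (L i)).card < M + 1}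
        ≤ (PM (bern p)).real ({c : ι → Bool | ((T \ T0).filter fun i => k ≤ ct c (L i)).card < M} ∪
          {c : ι → Bool | ∀ i ∈ T0, ¬ (k ≤ ct c (L i))}) := measureReal_mono h3 (measure_ne_top _ _)
      _ ≤ _ := measureReal_union_le _ _
      _ ≤ M * Real.exp (-(r * g)) + Real.exp (-(r * g)) := by
          rw [hc] at h1
          exact add_le_add h2 h1
      _ = ((M + 1 : ℕ) : ℝ) * Real.exp (-(r * g)) := by push_cast; ring

theorem loc_few (k M : ℕ) (T : Finset κ) (t : Finset ι) (h : ∀ i ∈ T, L i ⊆ t) :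
    Loc {c : ι → Bool | M ≤ (T.filter fun i => k ≤ ct c (L i)).card} (t : Set ι) := by
  intro c c' e hc
  have : (T.filter fun i => k ≤ ct c (L i)) = T.filter fun i => k ≤ ct c' (L i) := by
    apply Finset.filter_congr
    intro i hi
    rw [ct_congr (fun x hx => e x (Finset.mem_coe.2 (h i hi hx)))]
  simpa [this] using hc

/-- every line has at most `k` sites -/
theorem many_prob [Fintype κ] (k m : ℕ) (hm : ∀ i, (L i).card ≤ m) :
    (PM (bern p)).real {c : ι → Bool | ∃ i, k ≤ ct c (L i)} ≤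
      (Fintype.card κ : ℝ) * ((m : ℝ) * p) ^ k := by
  classical
  have hp0 : (0 : ℝ) ≤ p := p.2.1
  have e : {c : ι → Bool | ∃ i, k ≤ ct c (L i)} =
      ⋃ i ∈ (Finset.univ : Finset κ), {c : ι → Bool | k ≤ ct c (L i)} := by
    ext c; simp
  rw [e]
  calc (PM (bern p)).real (⋃ i ∈ (Finset.univ : Finset κ), {c : ι → Bool | k ≤ ct c (L i)})
      ≤ ∑ i : κ, (PM (bern p)).real {c : ι → Bool | k ≤ ct c (L i)} := real_biUnion_le _ _ _
    _ ≤ ∑ i : κ, ((m : ℝ) * p) ^ k := by
        refine Finset.sum_le_sum fun i _ => ?_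
        refine (PM_tail p (L i) k).trans ?_
        rw [mul_pow]
        refine mul_le_mul_of_nonneg_right ?_ (by positivity)
        calc (((L i).card.choose k : ℕ) : ℝ) ≤ (((L i).card ^ k : ℕ) : ℝ) := by
              exact_mod_cast Nat.choose_le_pow _ _
          _ ≤ (m : ℝ) ^ k := by
              push_cast
              exact pow_le_pow_left₀ (by positivity) (by exact_mod_cast hm i) k
    _ = (Fintype.card κ : ℝ) * ((m : ℝ) * p) ^ k := by
        rw [Finset.sum_const, nsmul_eq_mul]; rfl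

/-! ### the square -/

/-- row `i` -/
def rowS {n : ℕ} (i : Fin n) : Finset (Fin n × Fin n) := {i} ×ˢ Finset.univ

/-- the part of column `j` in the rows `B` -/
def colS {n : ℕ} (B : Finset (Fin n)) (j : Fin n) : Finset (Fin n × Fin n) := B ×ˢ {j}

theorem rowS_card {n : ℕ} (i : Fin n) : (rowS i).card = n := by simp [rowS]

theorem colS_card {n : ℕ} (B : Finset (Fin n)) (j : Fin n) : (colS B j).card = B.card := by
  simp [colS]

theorem ct_row {n : ℕ} (ω : Sq n) (i : Fin n) : ct ω (rowS i) = {j | ω (i, j) = true}.ncard := by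
  classical
  rw [HamDet.ncard_rw]
  unfold ct HamDet.rw_
  refine Finset.card_bij (fun x _ => x.2) ?_ ?_ ?_
  · rintro ⟨a, b⟩ h
    simp only [rowS, Finset.mem_filter, Finset.mem_product, Finset.mem_singleton] at h
    obtain ⟨⟨rfl, _⟩, h⟩ := h
    simpa using h
  · rintro ⟨a, b⟩ h ⟨a', b'⟩ h' e
    simp only [rowS, Finset.mem_filter, Finset.mem_product, Finset.mem_singleton] at h h'
    obtain ⟨⟨rfl, _⟩, _⟩ := h
    obtain ⟨⟨rfl, _⟩, _⟩ := h'
    simp only at e
    rw [e]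
  · intro b hb
    refine ⟨(i, b), ?_, rfl⟩
    simp only [Finset.mem_filter, Finset.mem_univ, true_and] at hb
    simp [rowS, hb]

theorem ct_col {n : ℕ} (ω : Sq n) (B : Finset (Fin n)) (j : Fin n) :
    ct ω (colS B j) ≤ {i | ω (i, j) = true}.ncard := by
  classical
  rw [HamDet.ncard_cl]
  unfold ct HamDet.cl_
  refine Finset.card_le_card_of_injOn (fun x => x.1) ?_ ?_
  · rintro ⟨a, b⟩ h
    simp only [colS, Finset.coe_filter, Finset.mem_product, Finset.mem_singleton,
      Set.mem_ofPred_eq] at h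
    obtain ⟨⟨_, rfl⟩, h⟩ := h
    simpa using h
  · rintro ⟨a, b⟩ h ⟨a', b'⟩ h' e
    simp only [colS, Finset.coe_filter, Finset.mem_product, Finset.mem_singleton,
      Set.mem_ofPred_eq] at h h'
    obtain ⟨⟨_, rfl⟩, _⟩ := h
    obtain ⟨⟨_, rfl⟩, _⟩ := h'
    simp only at e
    rw [e]

theorem ct_col_univ {n : ℕ} (ω : Sq n) (j : Fin n) :
    ct ω (colS Finset.univ j) = {i | ω (i, j) = true}.ncard := by
  classical
  refine le_antisymm (ct_col ω _ j) ?_
  rw [HamDet.ncard_cl]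
  unfold ct HamDet.cl_
  refine Finset.card_le_card_of_injOn (fun x => (x, j)) ?_ ?_
  · intro a h
    simp only [Finset.coe_filter, Finset.mem_univ, true_and, Set.mem_ofPred_eq] at h
    simp [colS, h]
  · intro a _ a' _ e
    exact congrArg Prod.fst e

/-- the deterministic part -/
theorem det {n l : ℕ} (hl : 1 ≤ l) {ω : Sq n} {A B : Finset (Fin n)} (hAB : Disjoint A B)
    (h1 : ∃ i ∈ A, l + 1 ≤ ct ω (rowS i))
    (h2 : 10 * l + 4 ≤ (B.filter fun i => l ≤ ct ω (rowS i)).card)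
    (h3 : 10 * l + 4 ≤ (Finset.univ.filter fun j => l ≤ ct ω (colS B j)).card)
    (h4 : ∀ i, ct ω (rowS i) ≤ 4 * l) (h5 : ∀ j, ct ω (colS Finset.univ j) ≤ 4 * l) :
    Span (2 * l + 1) ω := by
  classical
  obtain ⟨i0, hi0, hr0⟩ := h1
  set R := B.filter fun i => l ≤ ct ω (rowS i) with hR
  set J := (Finset.univ : Finset (Fin n)).filter fun j => l ≤ ct ω (colS B j) with hJ
  obtain ⟨i1, hi1⟩ : R.Nonempty := Finset.card_pos.1 (by omega)
  have hi1' := Finset.mem_filter.1 hi1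
  have hne : i0 ≠ i1 := by
    rintro rfl
    exact (Finset.disjoint_left.1 hAB hi0) hi1'.1
  have c0 : (HamDet.rw_ ω i0).card ≤ 4 * l := by
    rw [← HamDet.ncard_rw, ← ct_row]; exact h4 i0
  have c1 : (HamDet.rw_ ω i1).card ≤ 4 * l := by
    rw [← HamDet.ncard_rw, ← ct_row]; exact h4 i1
  set J' := (J \ HamDet.rw_ ω i0) \ HamDet.rw_ ω i1 with hJ'
  have cJ' : 2 * l + 3 ≤ J'.card := by
    have e1 : (J \ HamDet.rw_ ω i0).card - (HamDet.rw_ ω i1).card ≤ J'.card :=
      Finset.le_card_sdiff (HamDet.rw_ ω i1) (J \ HamDet.rw_ ω i0)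
    have e2 := Finset.le_card_sdiff (HamDet.rw_ ω i0) J
    omega
  have mJ' : ∀ j ∈ J', ω (i0, j) = false ∧ ω (i1, j) = false ∧
      l ≤ {i | ω (i, j) = true}.ncard := by
    intro j hj
    obtain ⟨hj, hb⟩ := Finset.mem_sdiff.1 hj
    obtain ⟨hj, ha⟩ := Finset.mem_sdiff.1 hj
    refine ⟨?_, ?_, (Finset.mem_filter.1 hj).2.trans (ct_col ω B j)⟩
    · rcases Bool.eq_false_or_eq_true (ω (i0, j)) with h | h
      · exact absurd (HamDet.mem_rw.2 h) ha
      · exact h
    · rcases Bool.eq_false_or_eq_true (ω (i1, j)) with h | h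
      · exact absurd (HamDet.mem_rw.2 h) hb
      · exact h
  obtain ⟨j0, hj0⟩ : J'.Nonempty := Finset.card_pos.1 (by omega)
  obtain ⟨e0, e1, e2⟩ := mJ' j0 hj0
  have cc : (HamDet.cl_ ω j0).card ≤ 4 * l := by
    rw [← HamDet.ncard_cl, ← ct_col_univ]; exact h5 j0
  refine span_odd hl hne e0 e1 ?_ ?_ e2 ?_ ?_
  · rw [← ct_row]; exact hr0
  · rw [← ct_row]; exact hi1'.2
  · have hsub : ((J'.erase j0 : Finset (Fin n)) : Set (Fin n)) ⊆ {j | j ≠ j0 ∧ ω (i0, j) = false ∧
        ω (i1, j) = false ∧ l ≤ {i | ω (i, j) = true}.ncard + 1} := by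
      intro j hj
      have hj := Finset.mem_coe.1 hj
      obtain ⟨q0, q1, q2⟩ := mJ' j (Finset.mem_of_mem_erase hj)
      exact ⟨Finset.ne_of_mem_erase hj, q0, q1, by omega⟩
    have h := Set.ncard_le_ncard hsub (Set.toFinite _)
    rw [Set.ncard_coe_finset, Finset.card_erase_of_mem hj0] at h
    omega
  · have hsub : (((R.erase i1) \ HamDet.cl_ ω j0 : Finset (Fin n)) : Set (Fin n)) ⊆
        {i | i ≠ i0 ∧ i ≠ i1 ∧ ω (i, j0) = false ∧ l ≤ {j | ω (i, j) = true}.ncard + 1} := by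
      intro i hi
      obtain ⟨hi, ha⟩ := Finset.mem_sdiff.1 (Finset.mem_coe.1 hi)
      obtain ⟨hb, hi⟩ := Finset.mem_erase.1 hi
      obtain ⟨hiB, hic⟩ := Finset.mem_filter.1 hi
      refine ⟨?_, hb, ?_, ?_⟩
      · rintro rfl
        exact (Finset.disjoint_left.1 hAB hi0) hiB
      · rcases Bool.eq_false_or_eq_true (ω (i, j0)) with h | h
        · exact absurd (HamDet.mem_cl.2 h) ha
        · exact h
      · rw [← ct_row]
        omega
    have h := Set.ncard_le_ncard hsub (Set.toFinite _)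
    rw [Set.ncard_coe_finset] at h
    have e1 := Finset.le_card_sdiff (HamDet.cl_ ω j0) (R.erase i1)
    rw [Finset.card_erase_of_mem hi1] at e1
    omega

theorem rowS_disj {n : ℕ} {i j : Fin n} (h : i ≠ j) : Disjoint (rowS i) (rowS j) := by
  rw [Finset.disjoint_left]
  rintro ⟨a, b⟩ h1 h2
  simp only [rowS, Finset.mem_product, Finset.mem_singleton] at h1 h2
  exact h (h1.1.symm.trans h2.1)

theorem colS_disj {n : ℕ} (B : Finset (Fin n)) {i j : Fin n} (h : i ≠ j) :
    Disjoint (colS B i) (colS B j) := by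
  rw [Finset.disjoint_left]
  rintro ⟨a, b⟩ h1 h2
  simp only [colS, Finset.mem_product, Finset.mem_singleton] at h1 h2
  exact h (h1.2.symm.trans h2.2)

/-- the probabilistic part -/
theorem prob (l n M g : ℕ) (hl : 1 ≤ l) (hM : M = 10 * l + 4) (A B : Finset (Fin n))
    (hAB : Disjoint A B) (hB : M * g ≤ B.card) (r1 r2 : ℝ)
    (hr1 : ∀ i : Fin n, r1 ≤ (PM (bern p)).real {c : Sq n | l + 1 ≤ ct c (rowS i)})
    (hr2 : ∀ i : Fin n, r2 ≤ (PM (bern p)).real {c : Sq n | l ≤ ct c (rowS i)})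
    (hr2' : ∀ j : Fin n, r2 ≤ (PM (bern p)).real {c : Sq n | l ≤ ct c (colS B j)})
    (hsm : 2 * ((M : ℝ) * Real.exp (-(r2 * g))) ≤ 1 / 2) :
    (1 - Real.exp (-(r1 * A.card))) / 2 - 2 * ((n : ℝ) * ((n : ℝ) * p) ^ (4 * l + 1)) ≤
      (PM (bern p)).real {ω : Sq n | Span (2 * l + 1) ω} := by
  classical
  set P := (PM (bern p) : Measure (Sq n)) with hP
  set E1 : Set (Sq n) := {c | ∃ i ∈ A, l + 1 ≤ ct c (rowS i)} with hE1
  set E2 : Set (Sq n) := {c | M ≤ (B.filter fun i => l ≤ ct c (rowS i)).card} with hE2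
  set E3 : Set (Sq n) := {c | M ≤ (Finset.univ.filter fun j => l ≤ ct c (colS B j)).card} with hE3
  set F1 : Set (Sq n) := {c | ∃ i, 4 * l + 1 ≤ ct c (rowS i)} with hF1
  set F2 : Set (Sq n) := {c | ∃ j, 4 * l + 1 ≤ ct c (colS Finset.univ j)} with hF2
  have l1 : Loc E1 ((A ×ˢ Finset.univ : Finset (Fin n × Fin n)) : Set (Fin n × Fin n)) := by
    intro c c' e hc
    obtain ⟨i, hi, h⟩ := hc
    refine ⟨i, hi, ?_⟩
    rw [← ct_congr (c := c) (c' := c') (fun x hx => e x ?_)]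
    · exact h
    · simp only [rowS, Finset.mem_product, Finset.mem_singleton] at hx
      simp only [Finset.coe_product, Set.mem_prod, Finset.mem_coe]
      exact ⟨hx.1 ▸ hi, Finset.mem_univ _⟩
  have l2 : Loc E2 ((B ×ˢ Finset.univ : Finset (Fin n × Fin n)) : Set (Fin n × Fin n)) := by
    refine loc_few (fun i => rowS i) l M B _ ?_
    intro i hi x hx
    simp only [rowS, Finset.mem_product, Finset.mem_singleton] at hx ⊢
    exact ⟨hx.1 ▸ hi, Finset.mem_univ _⟩
  have l3 : Loc E3 ((B ×ˢ Finset.univ : Finset (Fin n × Fin n)) : Set (Fin n × Fin n)) := by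
    refine loc_few (fun j => colS B j) l M Finset.univ _ ?_
    intro i hi x hx
    simp only [colS, Finset.mem_product, Finset.mem_singleton] at hx ⊢
    exact ⟨hx.1, Finset.mem_univ _⟩
  have l23 : Loc (E2 ∩ E3) ((B ×ˢ Finset.univ : Finset (Fin n × Fin n)) : Set (Fin n × Fin n)) :=
    (l2.inter l3).mono (by simp)
  have hd : Disjoint ((A ×ˢ Finset.univ : Finset (Fin n × Fin n)) : Set (Fin n × Fin n))
      ((B ×ˢ Finset.univ : Finset (Fin n × Fin n)) : Set (Fin n × Fin n)) := by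
    rw [Finset.disjoint_coe, Finset.disjoint_left]
    rintro ⟨a, b⟩ h1 h2
    exact (Finset.disjoint_left.1 hAB (Finset.mem_product.1 h1).1) (Finset.mem_product.1 h2).1
  have hind : P.real (E1 ∩ (E2 ∩ E3)) = P.real E1 * P.real (E2 ∩ E3) :=
    PM_indep (bern p) (Finset.finite_toSet _) (Finset.finite_toSet _) l1 l23 hd
  have p1 : 1 - Real.exp (-(r1 * A.card)) ≤ P.real E1 := by
    have h := none_prob p (fun i : Fin n => rowS i) (l + 1) r1 A
      (fun i _ j _ hij => rowS_disj hij) (fun i _ => hr1 i)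
    have h2 := one_sub_le_real P E1
    have h3 : E1ᶜ = {c : Sq n | ∀ i ∈ A, ¬ (l + 1 ≤ ct c (rowS i))} := by
      ext c
      simp [hE1]
    rw [h3] at h2
    linarith
  have p23 : 1 / 2 ≤ P.real (E2 ∩ E3) := by
    have h2 := few_prob p (fun i : Fin n => rowS i) l r2 g M B hB
      (fun i _ j _ hij => rowS_disj hij) (fun i _ => hr2 i)
    have h3 := few_prob p (fun j : Fin n => colS B j) l r2 g M Finset.univ
      (hB.trans (Finset.card_le_card (Finset.subset_univ _)))
      (fun i _ j _ hij => colS_disj B hij) (fun i _ => hr2' i)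
    have h4 := one_sub_le_real P (E2 ∩ E3)
    have h5 : (E2 ∩ E3)ᶜ ⊆ {c : Sq n | (B.filter fun i => l ≤ ct c (rowS i)).card < M} ∪
        {c : Sq n | (Finset.univ.filter fun j => l ≤ ct c (colS B j)).card < M} := by
      intro c hc
      rw [Set.mem_compl_iff, Set.mem_inter_iff, not_and_or] at hc
      rcases hc with hc | hc
      · left
        change (B.filter fun i => l ≤ ct c (rowS i)).card < M
        by_contra hcon
        exact hc (not_lt.1 hcon)
      · right
        change (Finset.univ.filter fun j => l ≤ ct c (colS B j)).card < M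
        by_contra hcon
        exact hc (not_lt.1 hcon)
    have h6 : P.real (E2 ∩ E3)ᶜ ≤ _ := (measureReal_mono h5 (measure_ne_top _ _)).trans
      (measureReal_union_le _ _)
    linarith
  have p1n : P.real (E1 ∩ (E2 ∩ E3)) ≥ (1 - Real.exp (-(r1 * A.card))) / 2 := by
    rw [hind]
    have h0 : 0 ≤ P.real E1 := measureReal_nonneg
    nlinarith
  have pF1 : P.real F1 ≤ (n : ℝ) * ((n : ℝ) * p) ^ (4 * l + 1) := by
    have h := many_prob p (fun i : Fin n => rowS i) (4 * l + 1) n (fun i => (rowS_card i).le)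
    rw [Fintype.card_fin] at h
    exact h
  have pF2 : P.real F2 ≤ (n : ℝ) * ((n : ℝ) * p) ^ (4 * l + 1) := by
    have h := many_prob p (fun i : Fin n => colS Finset.univ i) (4 * l + 1) n
      (fun i => by rw [colS_card]; simp)
    rw [Fintype.card_fin] at h
    exact h
  have hsub : E1 ∩ (E2 ∩ E3) ⊆ {ω : Sq n | Span (2 * l + 1) ω} ∪ (F1 ∪ F2) := by
    rintro c ⟨h1, h2, h3⟩
    by_cases hF : c ∈ F1 ∪ F2
    · exact Or.inr hF
    · left
      rw [Set.mem_union, not_or] at hF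
      refine det hl hAB h1 (hM ▸ h2) (hM ▸ h3) ?_ ?_
      · intro i
        by_contra hc
        exact hF.1 ⟨i, by omega⟩
      · intro i
        by_contra hc
        exact hF.2 ⟨i, by omega⟩
  have h7 := (measureReal_mono hsub (measure_ne_top P _)).trans (measureReal_union_le _ _)
  have h8 : P.real (F1 ∪ F2) ≤ P.real F1 + P.real F2 := measureReal_union_le _ _
  linarith

/-- the constant of the centre of the window -/
noncomputable def ac (l : ℕ) : ℝ := (2 * ((l - 1).factorial : ℝ)) ^ ((1 : ℝ) / l)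

theorem ac_pos (l : ℕ) : 0 < ac l := by
  unfold ac
  have : (0 : ℝ) < (l - 1).factorial := by exact_mod_cast Nat.factorial_pos _
  positivity

/-- `n` times the centre of the window -/
theorem npc (l n : ℕ) (hn : 2 ≤ n) : (n : ℝ) * pc l n =
    ac l * (Real.log n) ^ ((1 : ℝ) / l) * (n : ℝ) ^ (-(1 : ℝ) / l) := by
  have hn0 : (0 : ℝ) < n := by exact_mod_cast (by omega : 0 < n)
  unfold pc ac
  rw [Real.rpow_add hn0, Real.rpow_one, neg_div, Real.rpow_neg hn0.le]
  have : (n : ℝ) ^ ((1 : ℝ) / l) ≠ 0 := by positivity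
  field_simp

theorem npc_pow (l n : ℕ) (hl : 1 ≤ l) (hn : 2 ≤ n) :
    (n : ℝ) * ((n : ℝ) * pc l n) ^ l = ac l ^ l * Real.log n := by
  have hn0 : (0 : ℝ) < n := by exact_mod_cast (by omega : 0 < n)
  have hlog : 0 < Real.log n := Real.log_pos (by exact_mod_cast (by omega : 1 < n))
  have hl0 : (l : ℝ) ≠ 0 := by exact_mod_cast (by omega : l ≠ 0)
  rw [npc l n hn, mul_pow, mul_pow, ← Real.rpow_natCast ((Real.log n) ^ ((1 : ℝ) / l)) l,
    ← Real.rpow_natCast ((n : ℝ) ^ (-(1 : ℝ) / l)) l, ← Real.rpow_mul hlog.le,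
    ← Real.rpow_mul hn0.le, div_mul_cancel₀ _ hl0, div_mul_cancel₀ _ hl0, Real.rpow_one,
    Real.rpow_neg_one]
  field_simp

theorem npc_pow_succ (l n : ℕ) (hl : 1 ≤ l) (hn : 2 ≤ n) :
    (n : ℝ) * ((n : ℝ) * pc l n) ^ (l + 1) = ac l ^ (l + 1) * ph l n := by
  have hn0 : (0 : ℝ) < n := by exact_mod_cast (by omega : 0 < n)
  have hlog : 0 < Real.log n := Real.log_pos (by exact_mod_cast (by omega : 1 < n))
  rw [pow_succ, ← mul_assoc, npc_pow l n hl hn, npc l n hn]
  unfold ph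
  rw [Real.rpow_add hlog, Real.rpow_one]
  ring

theorem npc_tendsto (l : ℕ) (hl : 1 ≤ l) :
    Tendsto (fun n : ℕ => (n : ℝ) * pc l n) atTop (nhds 0) := by
  have hl0 : (0 : ℝ) < l := by exact_mod_cast (by omega : 0 < l)
  have h1 := (isLittleO_log_rpow_rpow_atTop ((1 : ℝ) / l) (s := (1 : ℝ) / l)
    (by positivity)).tendsto_div_nhds_zero
  have h2 := (h1.comp tendsto_natCast_atTop_atTop).const_mul (ac l)
  rw [mul_zero] at h2
  refine h2.congr' ?_
  filter_upwards [eventually_ge_atTop 2] with n hn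
  have hn0 : (0 : ℝ) < n := by exact_mod_cast (by omega : 0 < n)
  rw [npc l n hn, Function.comp, neg_div, Real.rpow_neg hn0.le]
  ring

theorem ph_tendsto (l : ℕ) (hl : 1 ≤ l) : Tendsto (fun n : ℕ => ph l n) atTop (nhds 0) := by
  have hl0 : (0 : ℝ) < l := by exact_mod_cast (by omega : 0 < l)
  have h1 := (isLittleO_log_rpow_rpow_atTop (1 + (1 : ℝ) / l) (s := (1 : ℝ) / l)
    (by positivity)).tendsto_div_nhds_zero
  have h2 := h1.comp tendsto_natCast_atTop_atTop
  refine h2.congr' ?_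
  filter_upwards [eventually_ge_atTop 2] with n hn
  have hn0 : (0 : ℝ) < n := by exact_mod_cast (by omega : 0 < n)
  rw [Function.comp, ph, neg_div, Real.rpow_neg hn0.le]
  ring

theorem one_sub_exp_ge {y : ℝ} (h0 : 0 ≤ y) (h1 : y ≤ 1) : y / 2 ≤ 1 - Real.exp (-y) := by
  have h2 := Real.add_one_le_exp y
  have h3 : Real.exp (-y) ≤ 1 / (1 + y) := by
    rw [Real.exp_neg, ← one_div]
    exact one_div_le_one_div_of_le (by linarith) (by linarith)
  have h4 : 1 / (1 + y) ≤ 1 - y / 2 := by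
    rw [div_le_iff₀ (by linarith)]
    nlinarith
  linarith

end HamProb2

open HamProb2 in
/-- the probability that a square is spanned with threshold `2l+1` -/
theorem span_odd_prob (l : ℕ) (hl : 1 ≤ l) : ∃ c : ℝ, 0 < c ∧ ∀ᶠ n : ℕ in atTop,
    ∀ p : unitInterval, pc l n / 2 ≤ (p : ℝ) → (p : ℝ) ≤ 2 * pc l n →
    c * ph l n ≤ (PM (bern p)).real {ω : Sq n | Span (2 * l + 1) ω} := by
  classical
  have hf : ∀ k : ℕ, (0 : ℝ) < k.factorial := fun k => by exact_mod_cast Nat.factorial_pos k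
  have ha := ac_pos l
  -- constants
  obtain ⟨c1, hc1⟩ : ∃ c1 : ℝ, c1 = (1 / 2) ^ (l + 1) / (2 * 2 ^ (l + 1) * ((l + 1).factorial : ℝ)) :=
    ⟨_, rfl⟩
  obtain ⟨c2, hc2⟩ : ∃ c2 : ℝ, c2 = (1 / 4) ^ l / (2 * 2 ^ l * (l.factorial : ℝ)) := ⟨_, rfl⟩
  have hc1p : 0 < c1 := by
    rw [hc1]; have := hf (l + 1); positivity
  have hc2p : 0 < c2 := by
    rw [hc2]; have := hf l; positivity
  obtain ⟨M, hM⟩ : ∃ M : ℕ, M = 10 * l + 4 := ⟨_, rfl⟩
  have hMp : (0 : ℝ) < M := by rw [hM]; positivity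
  have hapow : 0 < ac l ^ (l + 1) := by positivity
  refine ⟨c1 * ac l ^ (l + 1) / 24, by positivity, ?_⟩
  -- asymptotic facts
  have t1 := npc_tendsto l hl
  have t2 := ph_tendsto l hl
  have t3 : ∀ᶠ n : ℕ in atTop, (n : ℝ) * pc l n ≤ 1 / 4 :=
    (t1.eventually (ge_mem_nhds (by norm_num : (0 : ℝ) < 1 / 4)))
  have t4 : ∀ᶠ n : ℕ in atTop, c1 / 3 * ac l ^ (l + 1) * ph l n ≤ 1 := by
    have := t2.const_mul (c1 / 3 * ac l ^ (l + 1))
    rw [mul_zero] at this
    exact this.eventually (ge_mem_nhds (by norm_num : (0 : ℝ) < 1))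
  have t5 : ∀ᶠ n : ℕ in atTop, 2 * 2 ^ (4 * l + 1) * ((n : ℝ) * pc l n) ^ (3 * l) ≤ c1 / 24 := by
    have := (t1.pow (3 * l)).const_mul (2 * 2 ^ (4 * l + 1))
    rw [zero_pow (by omega), mul_zero] at this
    exact this.eventually (ge_mem_nhds (by positivity))
  have t6 : ∀ᶠ n : ℕ in atTop,
      2 * ((M : ℝ) * Real.exp (-(c2 / (4 * M) * ac l ^ l * Real.log n))) ≤ 1 / 2 := by
    have h1 : Tendsto (fun n : ℕ => c2 / (4 * M) * ac l ^ l * Real.log n) atTop atTop :=
      (Real.tendsto_log_atTop.comp tendsto_natCast_atTop_atTop).const_mul_atTop (by positivity)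
    have h2 := ((Real.tendsto_exp_neg_atTop_nhds_zero.comp h1).const_mul (M : ℝ)).const_mul 2
    rw [mul_zero, mul_zero] at h2
    exact h2.eventually (ge_mem_nhds (by norm_num : (0 : ℝ) < 1 / 2))
  filter_upwards [t3, t4, t5, t6, eventually_ge_atTop (8 * M)] with n h3 h4 h5 h6 hnM p hp1 hp2
  have hn2 : 2 ≤ n := by omega
  have hn0 : (0 : ℝ) < n := by exact_mod_cast (by omega : 0 < n)
  have hlog : 0 < Real.log n := Real.log_pos (by exact_mod_cast (by omega : 1 < n))
  obtain ⟨x, hx⟩ : ∃ x : ℝ, x = (n : ℝ) * pc l n := ⟨_, rfl⟩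
  have hp0 : (0 : ℝ) ≤ p := p.2.1
  have hpc : 0 ≤ pc l n := by
    unfold pc; positivity
  have hx0 : 0 ≤ x := by rw [hx]; positivity
  have e1 : x / 2 ≤ (n : ℝ) * (p : ℝ) := by
    rw [hx]
    have := mul_le_mul_of_nonneg_left hp1 hn0.le
    linarith
  have e2 : (n : ℝ) * (p : ℝ) ≤ 2 * x := by
    rw [hx]
    have := mul_le_mul_of_nonneg_left hp2 hn0.le
    linarith
  rw [← hx] at h3 h5
  have f1 : (n : ℝ) * x ^ l = ac l ^ l * Real.log n := by rw [hx]; exact npc_pow l n hl hn2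
  have f2 : (n : ℝ) * x ^ (l + 1) = ac l ^ (l + 1) * ph l n := by
    rw [hx]; exact npc_pow_succ l n hl hn2
  have hph : 0 ≤ ph l n := by
    unfold ph; positivity
  -- the two halves
  obtain ⟨A, _, hA⟩ := Finset.exists_subset_card_eq (s := (Finset.univ : Finset (Fin n)))
    (n := n / 2) (by rw [Finset.card_univ, Fintype.card_fin]; exact Nat.div_le_self _ _)
  have hB : (Aᶜ).card = n - n / 2 := by rw [Finset.card_compl, Fintype.card_fin, hA]
  obtain ⟨g, hg⟩ : ∃ g : ℕ, g = n / (2 * M) := ⟨_, rfl⟩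
  have hM0 : 0 < M := by omega
  have hg1 : M * g ≤ (Aᶜ).card := by
    rw [hB, hg]
    have h1 : n / (2 * M) * (2 * M) ≤ n := Nat.div_mul_le_self _ _
    have h2 : n / (2 * M) * (2 * M) = 2 * (M * (n / (2 * M))) := by ring
    omega
  have hg2 : (n : ℝ) / (4 * M) ≤ g := by
    have h1 : n < (g + 1) * (2 * M) := by
      rw [hg, mul_comm]
      exact Nat.lt_mul_div_succ n (by omega)
    have h2 : (n : ℝ) < (g + 1) * (2 * M) := by exact_mod_cast h1
    have h3 : (8 * M : ℝ) ≤ n := by exact_mod_cast hnM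
    rw [div_le_iff₀ (by positivity)]
    nlinarith
  have hr1 : ∀ i : Fin n, c1 * x ^ (l + 1) ≤
      (PM (bern p)).real {c : Sq n | l + 1 ≤ ct c (rowS i)} := by
    intro i
    have h := tail_lb p (rowS i) (l + 1) (by rw [rowS_card]; omega)
      (by rw [rowS_card]; linarith)
    refine le_trans ?_ h
    rw [rowS_card, hc1]
    have h7 : (1 / 2) ^ (l + 1) * x ^ (l + 1) ≤ ((n : ℝ) * p) ^ (l + 1) := by
      rw [← mul_pow]
      exact pow_le_pow_left₀ (by positivity) (by linarith) _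
    have := hf (l + 1)
    rw [div_mul_eq_mul_div]
    exact div_le_div_of_nonneg_right h7 (by positivity)
  have hr2 : ∀ i : Fin n, c2 * x ^ l ≤
      (PM (bern p)).real {c : Sq n | l ≤ ct c (rowS i)} := by
    intro i
    have h := tail_lb p (rowS i) l (by rw [rowS_card]; omega)
      (by rw [rowS_card]; linarith)
    refine le_trans ?_ h
    rw [rowS_card, hc2]
    have h7 : (1 / 4) ^ l * x ^ l ≤ ((n : ℝ) * p) ^ l := by
      rw [← mul_pow]
      exact pow_le_pow_left₀ (by positivity) (by linarith) _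
    have := hf l
    rw [div_mul_eq_mul_div]
    exact div_le_div_of_nonneg_right h7 (by positivity)
  have hBn : (n : ℝ) / 2 ≤ ((Aᶜ).card : ℝ) := by
    rw [hB]
    have : (n : ℝ) ≤ 2 * ((n - n / 2 : ℕ) : ℝ) := by
      exact_mod_cast (by omega : n ≤ 2 * (n - n / 2))
    linarith
  have hBn' : ((Aᶜ).card : ℝ) ≤ n := by
    rw [hB]; exact_mod_cast Nat.sub_le _ _
  have hr2' : ∀ j : Fin n, c2 * x ^ l ≤
      (PM (bern p)).real {c : Sq n | l ≤ ct c (colS Aᶜ j)} := by
    intro j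
    have hle : ((Aᶜ).card : ℝ) * p ≤ n * p := mul_le_mul_of_nonneg_right hBn' hp0
    have hge : (n : ℝ) / 2 * p ≤ ((Aᶜ).card : ℝ) * p := mul_le_mul_of_nonneg_right hBn hp0
    have h := tail_lb p (colS Aᶜ j) l (by rw [colS_card, hB]; omega)
      (by rw [colS_card]; linarith)
    refine le_trans ?_ h
    rw [colS_card, hc2]
    have h7 : (1 / 4) ^ l * x ^ l ≤ (((Aᶜ).card : ℝ) * p) ^ l := by
      rw [← mul_pow]
      exact pow_le_pow_left₀ (by positivity) (by linarith) _
    have := hf l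
    rw [div_mul_eq_mul_div]
    exact div_le_div_of_nonneg_right h7 (by positivity)
  have hsm : 2 * ((M : ℝ) * Real.exp (-(c2 * x ^ l * g))) ≤ 1 / 2 := by
    refine le_trans ?_ h6
    have h7 : c2 / (4 * M) * ac l ^ l * Real.log n ≤ c2 * x ^ l * g := by
      calc c2 / (4 * M) * ac l ^ l * Real.log n = c2 / (4 * M) * (ac l ^ l * Real.log n) := by ring
        _ = c2 * x ^ l * (n / (4 * M)) := by rw [← f1]; ring
        _ ≤ c2 * x ^ l * g := mul_le_mul_of_nonneg_left hg2 (by positivity)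
    have h8 := Real.exp_le_exp.2 (neg_le_neg h7)
    exact mul_le_mul_of_nonneg_left (mul_le_mul_of_nonneg_left h8 hMp.le) (by norm_num)
  have main := prob p l n M g hl hM A Aᶜ disjoint_compl_right hg1 (c1 * x ^ (l + 1)) (c2 * x ^ l)
    hr1 hr2 hr2' hsm
  refine le_trans ?_ main
  -- the final estimate
  have g1 : c1 / 3 * ac l ^ (l + 1) * ph l n ≤ c1 * x ^ (l + 1) * A.card := by
    have h7 : (n : ℝ) / 3 ≤ A.card := by
      rw [hA]
      have : (n : ℝ) ≤ 3 * ((n / 2 : ℕ) : ℝ) := by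
        exact_mod_cast (by omega : n ≤ 3 * (n / 2))
      linarith
    calc c1 / 3 * ac l ^ (l + 1) * ph l n = c1 / 3 * (ac l ^ (l + 1) * ph l n) := by ring
      _ = c1 * x ^ (l + 1) * (n / 3) := by rw [← f2]; ring
      _ ≤ c1 * x ^ (l + 1) * A.card := mul_le_mul_of_nonneg_left h7 (by positivity)
  have g2 : c1 / 3 * ac l ^ (l + 1) * ph l n / 2 ≤ 1 - Real.exp (-(c1 * x ^ (l + 1) * A.card)) := by
    refine (one_sub_exp_ge (by positivity) h4).trans ?_
    have := Real.exp_le_exp.2 (neg_le_neg g1)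
    linarith
  have g3 : 2 * ((n : ℝ) * ((n : ℝ) * p) ^ (4 * l + 1)) ≤ c1 * ac l ^ (l + 1) / 24 * ph l n := by
    calc 2 * ((n : ℝ) * ((n : ℝ) * p) ^ (4 * l + 1))
        ≤ 2 * ((n : ℝ) * (2 * x) ^ (4 * l + 1)) := by gcongr
      _ = (n : ℝ) * x ^ (l + 1) * (2 * 2 ^ (4 * l + 1) * x ^ (3 * l)) := by
          rw [mul_pow, show 4 * l + 1 = (l + 1) + 3 * l by ring, pow_add x]
          ring
      _ ≤ (n : ℝ) * x ^ (l + 1) * (c1 / 24) := mul_le_mul_of_nonneg_left h5 (by positivity)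
      _ = c1 * ac l ^ (l + 1) / 24 * ph l n := by rw [f2]; ring
  have g4 : c1 * ac l ^ (l + 1) / 24 * ph l n + c1 * ac l ^ (l + 1) / 24 * ph l n =
      c1 / 3 * ac l ^ (l + 1) * ph l n / 2 / 2 := by ring
  linarith

end Pool.Agent.BP
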