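import Pool.Agent.Lib_MP_94fe03_pr.Base

set_option autoImplicit false

namespace Pool.Agent.BP

open MeasureTheory ProbabilityTheory

open Classical in
/-- ten offsets with disjoint neighbourhoods -/
theorem innerProb_exists (D k : ℕ) : ∃ G : Finset (Finset Z2), ∀ Δ : Finset Z2, Δ ∈ G ↔
    (Δ ⊆ Finset.Icc (-(D : ℤ)) D ×ˢ Finset.Icc (-(D : ℤ)) D ∧ Δ.card = k) ∧
      ∀ a ∈ Δ, ∀ b ∈ Δ, a ≠ b → 3 ≤ |a.1 - b.1| ∨ 3 ≤ |a.2 - b.2| :=
  ⟨((Finset.Icc (-(D : ℤ)) D ×ˢ Finset.Icc (-(D : ℤ)) D).powersetCard k).filter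
    fun Δ => ∀ a ∈ Δ, ∀ b ∈ Δ, a ≠ b → 3 ≤ |a.1 - b.1| ∨ 3 ≤ |a.2 - b.2|, fun Δ => by
    rw [Finset.mem_filter, Finset.mem_powersetCard]⟩

/-- ten offsets with disjoint neighbourhoods -/
noncomputable def innerProbG : Finset (Finset Z2) := (innerProb_exists 599 10).choose

theorem innerProbG_mem (Δ : Finset Z2) : Δ ∈ innerProbG ↔
    (Δ ⊆ Finset.Icc (-((599 : ℕ) : ℤ)) (599 : ℕ) ×ˢ Finset.Icc (-((599 : ℕ) : ℤ)) (599 : ℕ) ∧
      Δ.card = 10) ∧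
      ∀ a ∈ Δ, ∀ b ∈ Δ, a ≠ b → 3 ≤ |a.1 - b.1| ∨ 3 ≤ |a.2 - b.2| :=
  (innerProb_exists 599 10).choose_spec Δ

theorem innerProb_near_finite (k : ℤ) (x : Z2) : {y | Near k x y}.Finite := by
  refine ((Set.finite_Icc (x.1 - k) (x.1 + k)).prod (Set.finite_Icc (x.2 - k) (x.2 + k))).subset ?_
  rintro ⟨y1, y2⟩ hy
  simp only [Near, abs_le, Set.mem_ofPred_eq] at hy
  simp only [Set.mem_prod, Set.mem_Icc]
  omega

theorem innerProb_cover {S : Type} (a1 : Z2 → Set (Z2 → S)) (R : ℕ) :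
    {σ : Z2 → S | ∃ z : Z2, 81 < {y : Z2 | Near R (0, 0) y ∧ y ∈ at_ a1 σ ∧
      z.1 ≤ y.1 ∧ y.1 < z.1 + 600 ∧ z.2 ≤ y.2 ∧ y.2 < z.2 + 600}.ncard} ⊆
    ⋃ y0 ∈ Finset.Icc (-(R : ℤ)) R ×ˢ Finset.Icc (-(R : ℤ)) R, ⋃ Δ ∈ innerProbG,
      ⋂ y ∈ Δ, a1 (y0 + y) := by
  classical
  rintro σ ⟨z, hz⟩
  generalize hW : (600 : ℤ) = W at hz
  set Y : Set Z2 := {y : Z2 | Near R (0, 0) y ∧ y ∈ at_ a1 σ ∧
      z.1 ≤ y.1 ∧ y.1 < z.1 + W ∧ z.2 ≤ y.2 ∧ y.2 < z.2 + W} with hY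
  have hfin : Y.Finite := (innerProb_near_finite R (0, 0)).subset fun y hy => hy.1
  rw [Set.ncard_eq_toFinset_card Y hfin] at hz
  set cls : Z2 → ℤ × ℤ := fun y => (y.1 % 3, y.2 % 3) with hcls
  have hmaps : ∀ y ∈ hfin.toFinset, cls y ∈ (Finset.Ico (0 : ℤ) 3 ×ˢ Finset.Ico (0 : ℤ) 3) := by
    intro y _
    simp only [hcls, Finset.mem_product, Finset.mem_Ico]
    omega
  obtain ⟨c, _, hc⟩ := Finset.exists_lt_card_fiber_of_mul_lt_card_of_maps_to (n := 9) hmaps (by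
    have h9 : (Finset.Ico (0 : ℤ) 3 ×ˢ Finset.Ico (0 : ℤ) 3).card = 9 := by decide
    rw [h9]
    exact hz)
  obtain ⟨T, hT, hTc⟩ := Finset.exists_subset_card_eq (show 10 ≤ _ from hc)
  have hTmem : ∀ y ∈ T, y ∈ Y ∧ cls y = c := by
    intro y hy
    have := hT hy
    rw [Finset.mem_filter, Set.Finite.mem_toFinset] at this
    exact this
  have hne : T.Nonempty := by
    rw [← Finset.card_pos, hTc]
    norm_num
  obtain ⟨y0, hy0⟩ := hne
  simp only [Set.mem_iUnion, Set.mem_iInter]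
  have hy0' := (hTmem y0 hy0).1
  refine ⟨y0, ?_, T.image (fun y => y - y0), ?_, ?_⟩
  · have := hy0'.1
    simp only [Near, abs_le] at this
    simp only [Finset.mem_product, Finset.mem_Icc]
    omega
  · rw [innerProbG_mem]
    refine ⟨⟨?_, ?_⟩, ?_⟩
    · rw [Finset.subset_iff]
      intro d hd
      rw [Finset.mem_product, Finset.mem_Icc, Finset.mem_Icc]
      have hd' := Finset.mem_image.mp hd
      obtain ⟨y, hy, hyd⟩ := hd'
      obtain ⟨_, _, h1, h2, h3, h4⟩ := (hTmem y hy).1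
      obtain ⟨_, _, h5, h6, h7, h8⟩ := hy0'
      rw [← hyd, Prod.fst_sub, Prod.snd_sub]
      clear hd hyd
      push_cast
      omega
    · rw [Finset.card_image_of_injective _ (sub_left_injective), hTc]
    · intro a ha b hb hab
      obtain ⟨y, hy, rfl⟩ := Finset.mem_image.mp ha
      obtain ⟨y', hy', rfl⟩ := Finset.mem_image.mp hb
      have e1 := (hTmem y hy).2
      have e2 := (hTmem y' hy').2
      have e3 : cls y = cls y' := e1.trans e2.symm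
      simp only [hcls, Prod.mk.injEq] at e3
      by_contra hcon
      rw [not_or, not_le, not_le, abs_lt, abs_lt] at hcon
      simp only [Prod.fst_sub, Prod.snd_sub] at hcon
      apply hab
      have : y = y' := Prod.ext (by omega) (by omega)
      rw [this]
  · intro d hd
    obtain ⟨y, hy, rfl⟩ := Finset.mem_image.mp hd
    rw [add_sub_cancel]
    exact (hTmem y hy).1.2.1

/-- probability that some box contains more than 81 sites of `a1` -/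
theorem inner_prob : ∃ K : ℝ, 0 < K ∧ ∀ {S : Type} [Finite S] [MeasurableSpace S]
    [DiscreteMeasurableSpace S] (ν : Measure S) [IsProbabilityMeasure ν]
    (a0 a1 pol : Z2 → Set (Z2 → S)) (C p q : ℝ), 0 ≤ C → 0 ≤ p → LabHyp ν a0 a1 pol C p q →
    ∀ R : ℕ, (PM ν).real {σ : Z2 → S | ∃ z : Z2, 81 < {y : Z2 | Near R (0, 0) y ∧ y ∈ at_ a1 σ ∧
      z.1 ≤ y.1 ∧ y.1 < z.1 + 600 ∧ z.2 ≤ y.2 ∧ y.2 < z.2 + 600}.ncard} ≤
      K * (R + 1) ^ 2 * (C * p) ^ 10 := by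
  refine ⟨4 * (innerProbG.card : ℝ) + 1, by positivity, ?_⟩
  intro S _ _ _ ν _ a0 a1 pol C p q hC hp hL R
  refine (measureReal_mono (innerProb_cover a1 R) (measure_ne_top (PM ν) _)).trans ?_
  have hone : ∀ y : Z2, (PM ν).real (a1 y) ≤ C * p := by
    intro y
    have := hL.h1 ∅ y
    simpa using this
  have hterm : ∀ y0 : Z2, ∀ Δ ∈ innerProbG, (PM ν).real (⋂ y ∈ Δ, a1 (y0 + y)) ≤ (C * p) ^ 10 := by
    intro y0 Δ hΔ
    rw [innerProbG_mem] at hΔ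
    have h := PM_prod ν Δ (fun y => a1 (y0 + y)) (fun y => {w | Near 1 (y0 + y) w})
      (fun y _ => innerProb_near_finite 1 _) (fun y _ => hL.loc1 _) (by
        intro a ha b hb hab
        rw [Set.disjoint_left]
        intro w hw hw'
        have h3 := hΔ.2 a ha b hb hab
        simp only [Near, abs_le, Set.mem_ofPred_eq, Prod.fst_add, Prod.snd_add] at hw hw'
        rcases h3 with h3 | h3
        · rw [le_abs] at h3
          omega
        · rw [le_abs] at h3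
          omega)
    rw [h]
    calc ∏ y ∈ Δ, (PM ν).real (a1 (y0 + y)) ≤ ∏ _y ∈ Δ, (C * p) :=
          Finset.prod_le_prod (fun y _ => measureReal_nonneg) (fun y _ => hone _)
      _ = (C * p) ^ 10 := by rw [Finset.prod_const, hΔ.1.2]
  have hQ : 0 ≤ (C * p) ^ 10 := by positivity
  refine (real_biUnion_le _ _ _).trans ?_
  have h1 : ∀ y0 ∈ Finset.Icc (-(R : ℤ)) R ×ˢ Finset.Icc (-(R : ℤ)) R,
      (PM ν).real (⋃ Δ ∈ innerProbG, ⋂ y ∈ Δ, a1 (y0 + y)) ≤ innerProbG.card * (C * p) ^ 10 := by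
    intro y0 _
    refine (real_biUnion_le _ _ _).trans ?_
    refine (Finset.sum_le_card_nsmul _ _ _ (hterm y0)).trans ?_
    rw [nsmul_eq_mul]
  refine (Finset.sum_le_card_nsmul _ _ _ h1).trans ?_
  rw [nsmul_eq_mul, Finset.card_product, Int.card_Icc]
  have h2 : ((((R : ℤ) + 1 - -(R : ℤ)).toNat * ((R : ℤ) + 1 - -(R : ℤ)).toNat : ℕ) : ℝ) =
      (2 * R + 1) ^ 2 := by
    have : ((R : ℤ) + 1 - -(R : ℤ)).toNat = 2 * R + 1 := by omega
    rw [this]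
    push_cast
    ring
  rw [h2]
  have h3 : (0 : ℝ) ≤ R := Nat.cast_nonneg R
  have h4 : (2 * (R : ℝ) + 1) ^ 2 ≤ 4 * (R + 1) ^ 2 := by nlinarith
  have h5 : (0 : ℝ) ≤ innerProbG.card * (C * p) ^ 10 := by positivity
  calc (2 * (R : ℝ) + 1) ^ 2 * (innerProbG.card * (C * p) ^ 10)
      ≤ 4 * (R + 1) ^ 2 * (innerProbG.card * (C * p) ^ 10) := mul_le_mul_of_nonneg_right h4 h5
    _ ≤ (4 * (innerProbG.card : ℝ) + 1) * (R + 1) ^ 2 * (C * p) ^ 10 := by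
      have : 0 ≤ ((R : ℝ) + 1) ^ 2 * (C * p) ^ 10 := by positivity
      nlinarith

end Pool.Agent.BP
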