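import Pool.Agent.Lib_MP_94fe03_pr.Base

set_option autoImplicit false

namespace Pool.Agent.BP

open MeasureTheory ProbabilityTheory

/-- the label fields seen in a new frame -/
def inFrame {S : Type} (g : Z2 ≃ Z2) (a : Z2 → Set (Z2 → S)) : Z2 → Set (Z2 → S) :=
  fun x => {σ | (fun y => σ (g.symm y)) ∈ a (g x)}

theorem at_inFrame {S : Type} (g : Z2 ≃ Z2) (a : Z2 → Set (Z2 → S)) (σ : Z2 → S) :
    at_ (inFrame g a) (fun y => σ (g y)) = {z | g z ∈ at_ a σ} := by
  ext z
  simp [at_, inFrame]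

/-- an event of the old field in a new frame -/
theorem frame_prob {S : Type} [MeasurableSpace S] (ν : Measure S) [IsProbabilityMeasure ν]
    (g : Z2 ≃ Z2) (a0 a1 pol : Z2 → Set (Z2 → S)) (Q : Set Z2 → Set Z2 → Set Z2 → Prop) :
    (PM ν).real {σ : Z2 → S | Q {z | g z ∈ at_ a0 σ} {z | g z ∈ at_ a1 σ}
      {z | g z ∈ at_ pol σ}} =
    (PM ν).real {σ : Z2 → S | Q (at_ (inFrame g a0) σ) (at_ (inFrame g a1) σ)
      (at_ (inFrame g pol) σ)} := by
  rw [← PM_reindex ν g {σ : Z2 → S | Q (at_ (inFrame g a0) σ) (at_ (inFrame g a1) σ)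
      (at_ (inFrame g pol) σ)}]
  congr 1
  ext σ
  simp only [Set.mem_ofPred_eq]
  rw [at_inFrame, at_inFrame, at_inFrame]

theorem inFrame_prob {S : Type} [MeasurableSpace S] (ν : Measure S) [IsProbabilityMeasure ν]
    (g : Z2 ≃ Z2) (a : Z2 → Set (Z2 → S)) (x : Z2) :
    (PM ν).real (inFrame g a x) = (PM ν).real (a (g x)) := by
  rw [← PM_reindex ν g.symm (a (g x))]
  rfl

/-- the label hypotheses in a new frame -/
theorem LabHyp.frame {S : Type} [MeasurableSpace S] {ν : Measure S} [IsProbabilityMeasure ν]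
    {a0 a1 pol : Z2 → Set (Z2 → S)} {C p q : ℝ} (h : LabHyp ν a0 a1 pol C p q) (g : Z2 ≃ Z2)
    (hg : ∀ x y, Near 1 (g x) (g y) → Near 1 x y) :
    LabHyp ν (inFrame g a0) (inFrame g a1) (inFrame g pol) C p q := by
  classical
  have hloc : ∀ a : Z2 → Set (Z2 → S), (∀ x, Loc (a x) {y | Near 1 x y}) →
      ∀ x, Loc (inFrame g a x) {y | Near 1 x y} := by
    intro a ha x σ τ e hσ
    refine ha (g x) _ _ (fun y hy => ?_) hσ
    have : Near 1 x (g.symm y) := hg _ _ (by simpa using hy)
    exact e _ this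
  have e : ∀ A : Finset Z2, (⋂ x ∈ A.map g.toEmbedding, pol x) = ⋂ x ∈ A, pol (g x) := by
    intro A
    ext σ
    simp only [Set.mem_iInter, Finset.mem_map_equiv]
    constructor
    · intro h x hx
      exact h (g x) (by rw [g.symm_apply_apply]; exact hx)
    · intro h x hx
      have := h _ hx
      rwa [g.apply_symm_apply] at this
  have key : ∀ (A : Finset Z2) (a : Z2 → Set (Z2 → S)) (y : Z2),
      (PM ν).real ((⋂ x ∈ A, inFrame g pol x) ∩ inFrame g a y) =
      (PM ν).real ((⋂ x ∈ A.map g.toEmbedding, pol x) ∩ a (g y)) := by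
    intro A a y
    rw [← PM_reindex ν g.symm ((⋂ x ∈ A.map g.toEmbedding, pol x) ∩ a (g y)), e]
    congr 1
    ext σ
    simp only [inFrame, Set.mem_inter_iff, Set.mem_iInter, Set.mem_ofPred_eq]
  have key' : ∀ (A : Finset Z2), (PM ν).real (⋂ x ∈ A, inFrame g pol x) =
      (PM ν).real (⋂ x ∈ A.map g.toEmbedding, pol x) := by
    intro A
    rw [← PM_reindex ν g.symm (⋂ x ∈ A.map g.toEmbedding, pol x), e]
    congr 1
    ext σ
    simp only [inFrame, Set.mem_iInter, Set.mem_ofPred_eq]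
  refine ⟨hloc a0 h.loc0, hloc a1 h.loc1, hloc pol h.locp, fun x σ hσ => h.sub _ hσ, ?_, ?_, ?_, ?_⟩
  · intro x
    rw [Set.disjoint_left]
    intro σ h1 h2
    exact Set.disjoint_left.1 (h.disj (g x)) h1 h2
  · intro A y
    rw [key, key']
    exact h.h0 _ _
  · intro A y
    rw [key, key']
    exact h.h1 _ _
  · intro x
    rw [inFrame_prob]
    exact h.hq _

/-- quarter turns as a permutation -/
def rotE : Z2 ≃ Z2 where
  toFun z := rot z
  invFun z := (z.2, -z.1)
  left_inv z := by simp [rot]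
  right_inv z := by simp [rot]

/-- mirror image as a permutation -/
def mirE : Z2 ≃ Z2 where
  toFun z := (-z.1, z.2)
  invFun z := (-z.1, z.2)
  left_inv z := by simp
  right_inv z := by simp

def rotEk (k : ℕ) : Z2 ≃ Z2 where
  toFun z := rot^[k] z
  invFun z := rotE.symm^[k] z
  left_inv z := by
    have h : Function.LeftInverse (rotE.symm : Z2 → Z2) rot := fun z => rotE.left_inv z
    exact h.iterate k z
  right_inv z := by
    have h : Function.RightInverse (rotE.symm : Z2 → Z2) rot := fun z => rotE.right_inv z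
    exact h.iterate k z

theorem near_rot {j : ℤ} (x y : Z2) : Near j (rot x) (rot y) ↔ Near j x y := by
  unfold Near rot
  constructor
  · rintro ⟨h1, h2⟩
    refine ⟨h2, ?_⟩
    rw [show -x.2 - -y.2 = -(x.2 - y.2) by ring, abs_neg] at h1
    exact h1
  · rintro ⟨h1, h2⟩
    refine ⟨?_, h1⟩
    rw [show -x.2 - -y.2 = -(x.2 - y.2) by ring, abs_neg]
    exact h2

theorem near_rotk {j : ℤ} (k : ℕ) (x y : Z2) : Near j (rot^[k] x) (rot^[k] y) ↔ Near j x y := by
  induction k generalizing x y with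
  | zero => rfl
  | succ k ih => rw [Function.iterate_succ_apply, Function.iterate_succ_apply, ih, near_rot]

theorem near_mir {j : ℤ} (x y : Z2) : Near j (mirE x) (mirE y) ↔ Near j x y := by
  unfold Near mirE
  simp only [Equiv.coe_fn_mk]
  rw [show -x.1 - -y.1 = -(x.1 - y.1) by ring, abs_neg]

end Pool.Agent.BP
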