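import Pool.Agent.Lib_MP_94fe03_pr.Inner
import Pool.Agent.Lib_MP_94fe03_pr.Frames

set_option autoImplicit false

namespace Pool.Agent.BP

theorem reg_nb_rot (x y : Z2) : Nb (rot x) (rot y) ↔ Nb x y := by
  unfold Nb rot
  simp only
  rw [show -x.2 - -y.2 = -(x.2 - y.2) by ring, abs_neg, neg_inj]
  tauto

theorem reg_nb_rotk (k : ℕ) (x y : Z2) : Nb (rot^[k] x) (rot^[k] y) ↔ Nb x y := by
  induction k generalizing x y with
  | zero => rfl
  | succ k ih => rw [Function.iterate_succ_apply, Function.iterate_succ_apply, ih, reg_nb_rot]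

theorem reg_nb_near {x y : Z2} (hxy : Nb x y) : |x.1 - y.1| ≤ 1 ∧ |x.2 - y.2| ≤ 1 := by
  rcases hxy with h | h
  · exact ⟨by rw [h.1]; simp, h.2.le⟩
  · exact ⟨h.2.le, by rw [h.1]; simp⟩

theorem reg_surj (k : ℕ) (y : Z2) : ∃ w, rot^[k] w = y :=
  ⟨(rotEk k).symm y, (rotEk k).apply_symm_apply y⟩

/-- the region covered by the four wedges -/
def regR (W : ℕ → Set Z2) : Set Z2 := {x | ∃ k < 4, ∃ z ∈ W k, 0 ≤ z.2 ∧ rot^[k] z = x}

/-- four closed wedges protect the origin -/
theorem region {a0 a1 pol : Set Z2} (hsub : a0 ⊆ a1) {X0 : ℤ} {Rm : ℕ} (hX : 0 ≤ X0)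
    (hW : ∀ k < 4, ∃ W : Set Z2, BW W X0 Rm (rotS k a0) (rotS k a1) (rotS k pol))
    (hin : ∀ z : Z2, {y : Z2 | Near Rm (0, 0) y ∧ y ∈ a1 ∧ z.1 ≤ y.1 ∧ y.1 < z.1 + 600 ∧
      z.2 ≤ y.2 ∧ y.2 < z.2 + 600}.ncard ≤ 81)
    (h : Inf a0 a1 pol (0, 0)) : ∃ y ∈ a0, Near 243 (0, 0) y := by
  classical
  have hW' : ∃ W : ℕ → Set Z2, ∀ k < 4, BW (W k) X0 Rm (rotS k a0) (rotS k a1) (rotS k pol) := by
    choose W hW using hW
    refine ⟨fun k => if h : k < 4 then W k h else ∅, fun k hk => ?_⟩
    simp only [hk, dif_pos]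
    exact hW k hk
  obtain ⟨W, hW⟩ := hW'
  set R := regR W with hR
  -- finiteness
  have hBfin : {y : Z2 | Near Rm (0, 0) y}.Finite := by
    refine ((Set.finite_Icc (-(Rm : ℤ)) Rm).prod (Set.finite_Icc (-(Rm : ℤ)) Rm)).subset ?_
    rintro ⟨a, b⟩ ⟨h1, h2⟩
    simp only [zero_sub, abs_neg] at h1 h2
    rw [abs_le] at h1 h2
    exact ⟨h1, h2⟩
  have hRsub : R ⊆ {y : Z2 | Near Rm (0, 0) y} := by
    rintro x ⟨k, hk, z, hz, hz2, rfl⟩
    have h0 : rot^[k] (0, 0) = ((0, 0) : Z2) := by
      have : rot (0, 0) = (0, 0) := by simp [rot]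
      exact Function.iterate_fixed this k
    have := (near_rotk (j := Rm) k (0, 0) z).2 (by
      obtain ⟨h1, h2⟩ := (hW k hk).b7 z hz hz2
      refine ⟨by simpa using h1, ?_⟩
      simp only [zero_sub, abs_neg]
      rw [abs_of_nonneg hz2]
      exact h2)
    rw [h0] at this
    exact this
  have hRfin : R.Finite := hBfin.subset hRsub
  have hinR : ∀ z : Z2, {y : Z2 | y ∈ R ∧ y ∈ a1 ∧ z.1 ≤ y.1 ∧ y.1 < z.1 + 600 ∧
      z.2 ≤ y.2 ∧ y.2 < z.2 + 600}.ncard ≤ 81 := by
    intro z
    refine le_trans (Set.ncard_le_ncard ?_ (hBfin.subset fun y hy => hy.1)) (hin z)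
    rintro y ⟨h1, h2⟩
    exact ⟨hRsub h1, h2⟩
  have hinner : ∀ x, Gr R a0 a1 x → ∃ y ∈ a0, Near 243 x y := fun x hx =>
    inner hRfin hsub hinR hx
  -- key: neighbours outside the region are outside the wedge
  have key : ∀ k < 4, ∀ z ∈ W k, 0 ≤ z.2 → ∀ w, Nb z w → rot^[k] w ∉ R → w ∉ W k := by
    intro k hk z hz hz2 w hzw hwR hw
    by_cases hw2 : 0 ≤ w.2
    · exact hwR ⟨k, hk, w, hw, hw2, rfl⟩
    · push Not at hw2
      obtain ⟨a, b⟩ := z
      obtain ⟨c, d⟩ := w
      simp only at hz2 hw2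
      have hab : c = a ∧ b = 0 ∧ d = -1 := by
        rcases hzw with ⟨h1, h2⟩ | ⟨h1, h2⟩
        · simp only at h1 h2
          rcases (abs_eq (by norm_num : (0 : ℤ) ≤ 1)).1 h2 with h | h
          · exact ⟨h1.symm, by omega, by omega⟩
          · omega
        · simp only at h1
          omega
      obtain ⟨rfl, rfl, rfl⟩ := hab
      have h5 : |c| ≤ X0 := (hW k hk).b5 _ hz rfl
      rw [abs_le] at h5
      by_cases hc : 0 ≤ c
      · have hmem : ∀ k' < 4, ((1, c) : Z2) ∈ W k' := fun k' hk' =>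
          (hW k' hk').b6 (1, c) (by norm_num) hc (by simp only; linarith)
        apply hwR
        interval_cases k
        · exact ⟨3, by norm_num, (1, c), hmem 3 (by norm_num), hc, by
            simp [rot, Function.iterate_succ_apply]⟩
        · exact ⟨0, by norm_num, (1, c), hmem 0 (by norm_num), hc, by
            simp [rot, Function.iterate_succ_apply]⟩
        · exact ⟨1, by norm_num, (1, c), hmem 1 (by norm_num), hc, by
            simp [rot, Function.iterate_succ_apply]⟩
        · exact ⟨2, by norm_num, (1, c), hmem 2 (by norm_num), hc, by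
            simp [rot, Function.iterate_succ_apply]⟩
      · push Not at hc
        have hmem : ∀ k' < 4, ((-1, -c) : Z2) ∈ W k' := fun k' hk' =>
          (hW k' hk').b6 (-1, -c) (by norm_num) (by simp only; linarith) (by simp only; linarith)
        have hc' : 0 ≤ -c := by linarith
        apply hwR
        interval_cases k
        · exact ⟨1, by norm_num, (-1, -c), hmem 1 (by norm_num), hc', by
            simp [rot, Function.iterate_succ_apply]⟩
        · exact ⟨2, by norm_num, (-1, -c), hmem 2 (by norm_num), hc', by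
            simp [rot, Function.iterate_succ_apply]⟩
        · exact ⟨3, by norm_num, (-1, -c), hmem 3 (by norm_num), hc', by
            simp [rot, Function.iterate_succ_apply]⟩
        · exact ⟨0, by norm_num, (-1, -c), hmem 0 (by norm_num), hc', by
            simp [rot, Function.iterate_succ_apply]⟩
  -- mixed neighbours are impossible
  have mixed : ∀ x ∈ R, ∀ y, Nb x y → y ∉ R → ∀ z, Nb x z → ¬ Gr R a0 a1 z := by
    rintro x ⟨k, hk, u, hu, hu2, rfl⟩ y hxy hyR z hxz hz
    obtain ⟨w, rfl⟩ := reg_surj k y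
    have huw : Nb u w := (reg_nb_rotk k u w).1 hxy
    have hw := key k hk u hu hu2 w huw hyR
    obtain ⟨v, hv, hzv⟩ := hinner z hz
    obtain ⟨v', rfl⟩ := reg_surj k v
    refine (hW k hk).b4 u hu hu2 w huw hw v' ?_ hv
    rw [← near_rotk k]
    obtain ⟨n1, n2⟩ := hzv
    obtain ⟨m1, m2⟩ := reg_nb_near hxz
    rw [abs_le] at n1 n2 m1 m2
    constructor <;> rw [abs_le] <;> constructor <;> linarith
  have main : ∀ x, Inf a0 a1 pol x → x ∈ R → Gr R a0 a1 x := by
    intro x hx
    induction hx with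
    | @zero x h0 => exact fun hxR => Gr.zero hxR h0
    | @one x y h1 hxy _ ih =>
      intro hxR
      by_cases hyR : y ∈ R
      · exact Gr.one hxR h1 hxy (ih hyR)
      · exfalso
        obtain ⟨k, hk, u, hu, hu2, rfl⟩ := hxR
        obtain ⟨w, rfl⟩ := reg_surj k y
        have huw : Nb u w := (reg_nb_rotk k u w).1 hxy
        exact (hW k hk).b1 u hu hu2 w huw (key k hk u hu hu2 w huw hyR) h1
    | @two x y z hp hyz hxy hxz _ _ ih1 ih2 =>
      intro hxR
      by_cases hyR : y ∈ R
      · by_cases hzR : z ∈ R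
        · exact Gr.two hxR hyz hxy hxz (ih1 hyR) (ih2 hzR)
        · exact absurd (ih1 hyR) (mixed x hxR z hxz hzR y hxy)
      · by_cases hzR : z ∈ R
        · exact absurd (ih2 hzR) (mixed x hxR y hxy hyR z hxz)
        · exfalso
          obtain ⟨k, hk, u, hu, hu2, rfl⟩ := hxR
          obtain ⟨w, rfl⟩ := reg_surj k y
          obtain ⟨w', rfl⟩ := reg_surj k z
          have huw : Nb u w := (reg_nb_rotk k u w).1 hxy
          have huw' : Nb u w' := (reg_nb_rotk k u w').1 hxz
          exact hp ((hW k hk).b2 u hu hu2 w w' (fun h => hyz (by rw [h])) huw huw'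
            (key k hk u hu hu2 w huw hyR) (key k hk u hu hu2 w' huw' hzR))
    | @three x y z v hyz hyv hzv hxy hxz hxv _ _ _ ih1 ih2 ih3 =>
      intro hxR
      by_cases hyR : y ∈ R
      · by_cases hzR : z ∈ R
        · exact Gr.two hxR hyz hxy hxz (ih1 hyR) (ih2 hzR)
        · exact absurd (ih1 hyR) (mixed x hxR z hxz hzR y hxy)
      · by_cases hzR : z ∈ R
        · exact absurd (ih2 hzR) (mixed x hxR y hxy hyR z hxz)
        · by_cases hvR : v ∈ R
          · exact absurd (ih3 hvR) (mixed x hxR y hxy hyR v hxv)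
          · exfalso
            obtain ⟨k, hk, u, hu, hu2, rfl⟩ := hxR
            obtain ⟨w, rfl⟩ := reg_surj k y
            obtain ⟨w', rfl⟩ := reg_surj k z
            obtain ⟨w'', rfl⟩ := reg_surj k v
            have huw : Nb u w := (reg_nb_rotk k u w).1 hxy
            have huw' : Nb u w' := (reg_nb_rotk k u w').1 hxz
            have huw'' : Nb u w'' := (reg_nb_rotk k u w'').1 hxv
            rcases (hW k hk).b3 u hu hu2 w w' w'' (fun h => hyz (by rw [h]))
              (fun h => hyv (by rw [h])) (fun h => hzv (by rw [h])) huw huw' huw'' with h | h | h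
            · exact key k hk u hu hu2 w huw hyR h
            · exact key k hk u hu hu2 w' huw' hzR h
            · exact key k hk u hu hu2 w'' huw'' hvR h
  have h0R : ((0, 0) : Z2) ∈ R :=
    ⟨0, by norm_num, (0, 0), (hW 0 (by norm_num)).b6 (0, 0) (by norm_num) le_rfl
      (by simp only; linarith), le_rfl, rfl⟩
  exact hinner _ (main _ h h0R)

end Pool.Agent.BP
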