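import Pool.Agent.Lib_MP_94fe03_pr.Tip
import Pool.Agent.Lib_MP_94fe03_pr.Region
import Pool.Agent.Lib_MP_94fe03_pr.InnerProb

set_option autoImplicit false

namespace Pool.Agent.BP

open MeasureTheory ProbabilityTheory

private theorem lowThm_rot {S : Type} [Finite S] [MeasurableSpace S] [DiscreteMeasurableSpace S]
    (ν : Measure S) [IsProbabilityMeasure ν] (a0 a1 pol : Z2 → Set (Z2 → S)) (X0 Rm : ℤ) (j : ℕ) :
    (PM ν).real {σ : Z2 → S | ¬ ∃ W : Set Z2, BW W X0 Rm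
      (rotS j (at_ a0 σ)) (rotS j (at_ a1 σ)) (rotS j (at_ pol σ))} =
    (PM ν).real {σ : Z2 → S | ¬ ∃ W : Set Z2, BW W X0 Rm
      (at_ (inFrame (rotEk j) a0) σ) (at_ (inFrame (rotEk j) a1) σ)
      (at_ (inFrame (rotEk j) pol) σ)} :=
  frame_prob ν (rotEk j) a0 a1 pol (fun A B D => ¬ ∃ W : Set Z2, BW W X0 Rm A B D)

private theorem lowThm_labRot {S : Type} [MeasurableSpace S]
    {ν : Measure S} [IsProbabilityMeasure ν] {a0 a1 pol : Z2 → Set (Z2 → S)} {C p q : ℝ}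
    (h : LabHyp ν a0 a1 pol C p q) (j : ℕ) :
    LabHyp ν (inFrame (rotEk j) a0) (inFrame (rotEk j) a1) (inFrame (rotEk j) pol) C p q :=
  h.frame (rotEk j) fun x y hxy => (near_rotk j x y).1 hxy

/-- union bound for a site of `a0` near the origin -/
private theorem lowThm_zero {S : Type} [MeasurableSpace S]
    {ν : Measure S} [IsProbabilityMeasure ν] {a0 a1 pol : Z2 → Set (Z2 → S)} {C p q : ℝ}
    (h : LabHyp ν a0 a1 pol C p q) :
    (PM ν).real {σ : Z2 → S | ∃ y ∈ at_ a0 σ, Near 243 (0, 0) y} ≤ 487 ^ 2 * (C * p ^ 2) := by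
  classical
  set I : Finset Z2 := Finset.Icc (-243 : ℤ) 243 ×ˢ Finset.Icc (-243 : ℤ) 243 with hI
  have hsub : {σ : Z2 → S | ∃ y ∈ at_ a0 σ, Near 243 (0, 0) y} ⊆ ⋃ y ∈ I, a0 y := by
    rintro σ ⟨y, hy, h1, h2⟩
    simp only [Set.mem_iUnion]
    refine ⟨y, ?_, hy⟩
    simp only [zero_sub, abs_neg] at h1 h2
    rw [hI, Finset.mem_product, Finset.mem_Icc, Finset.mem_Icc]
    exact ⟨abs_le.1 h1, abs_le.1 h2⟩
  have hcard : I.card = 487 ^ 2 := by
    rw [hI, Finset.card_product, Int.card_Icc]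
    rfl
  calc (PM ν).real {σ : Z2 → S | ∃ y ∈ at_ a0 σ, Near 243 (0, 0) y}
      ≤ (PM ν).real (⋃ y ∈ I, a0 y) := measureReal_mono hsub (measure_ne_top _ _)
    _ ≤ ∑ y ∈ I, (PM ν).real (a0 y) := real_biUnion_le _ _ _
    _ ≤ ∑ y ∈ I, C * p ^ 2 := by
        refine Finset.sum_le_sum fun y _ => ?_
        have := h.h0 ∅ y
        simpa using this
    _ = 487 ^ 2 * (C * p ^ 2) := by
        rw [Finset.sum_const, hcard, nsmul_eq_mul]
        norm_num

/-- many polluted sites: the origin is not infected -/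
theorem low_thm (ε C : ℝ) (hε : 0 < ε) (hC : 0 < C) : ∃ Λ > 0, ∃ p0 > 0, ∀ {S : Type}
    [Finite S] [MeasurableSpace S] [DiscreteMeasurableSpace S] (ν : Measure S)
    [IsProbabilityMeasure ν] (a0 a1 pol : Z2 → Set (Z2 → S)) (p q : ℝ), 0 < p → p ≤ p0 →
    Λ * p ^ 2 ≤ q → LabHyp ν a0 a1 pol C p q →
    (PM ν).real {σ : Z2 → S | Inf (at_ a0 σ) (at_ a1 σ) (at_ pol σ) (0, 0)} ≤ ε := by
  obtain ⟨κ, hκ, Λ, hΛ, p1, hp1, htop⟩ := top_wedge (ε / 8) C (by linarith) hC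
  obtain ⟨K, hK, hinner⟩ := inner_prob
  set D1 : ℝ := K * (6601 * (κ + 1)) ^ 2 * C ^ 10 with hD1
  have hD1p : 0 < D1 := by positivity
  set D2 : ℝ := 487 ^ 2 * C with hD2
  have hD2p : 0 < D2 := by positivity
  refine ⟨Λ, hΛ, min (min p1 1) (min (ε / 4 / D1) (ε / 4 / D2)), by positivity, ?_⟩
  intro S _ _ _ ν _ a0 a1 pol p q hp hp0 hq hL
  have hpp1 : p ≤ p1 := hp0.trans ((min_le_left _ _).trans (min_le_left _ _))
  have hp1' : p ≤ 1 := hp0.trans ((min_le_left _ _).trans (min_le_right _ _))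
  have hpD1 : p ≤ ε / 4 / D1 := hp0.trans ((min_le_right _ _).trans (min_le_left _ _))
  have hpD2 : p ≤ ε / 4 / D2 := hp0.trans ((min_le_right _ _).trans (min_le_right _ _))
  set m : ℕ := ⌈κ / p⌉₊ with hm
  set k : ℕ := ⌈p ^ (-(3 : ℤ))⌉₊ with hk
  set X0 : ℤ := 800 * k * (3 * m) with hX0
  set R : ℕ := 1100 * k * (3 * m) with hR
  have hRc : ((R : ℕ) : ℤ) = 1100 * k * (3 * m) := by rw [hR]; push_cast; ring
  -- the four events
  set Bad : ℕ → Set (Z2 → S) := fun j => {σ : Z2 → S | ¬ ∃ W : Set Z2, BW W X0 (R : ℤ)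
      (rotS j (at_ a0 σ)) (rotS j (at_ a1 σ)) (rotS j (at_ pol σ))} with hBad
  have hBadP : ∀ j, (PM ν).real (Bad j) ≤ ε / 8 := by
    intro j
    rw [hBad]
    simp only
    rw [lowThm_rot, hRc]
    exact htop ν _ _ _ p q hp hpp1 hq (lowThm_labRot hL j) m k hm hk
  set E2 : Set (Z2 → S) := {σ : Z2 → S | ∃ z : Z2, 81 < {y : Z2 | Near R (0, 0) y ∧
      y ∈ at_ a1 σ ∧ z.1 ≤ y.1 ∧ y.1 < z.1 + 600 ∧ z.2 ≤ y.2 ∧ y.2 < z.2 + 600}.ncard} with hE2
  set E3 : Set (Z2 → S) := {σ : Z2 → S | ∃ y ∈ at_ a0 σ, Near 243 (0, 0) y} with hE3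
  have hsub : {σ : Z2 → S | Inf (at_ a0 σ) (at_ a1 σ) (at_ pol σ) (0, 0)} ⊆
      ((⋃ j ∈ Finset.range 4, Bad j) ∪ E2) ∪ E3 := by
    intro σ hσ
    by_contra hcon
    simp only [Set.mem_union, not_or, Set.mem_iUnion, not_exists, Finset.mem_range] at hcon
    obtain ⟨⟨h1, h2⟩, h3⟩ := hcon
    apply h3
    refine region (X0 := X0) (Rm := R) (a1 := at_ a1 σ) (pol := at_ pol σ) ?_ ?_ ?_ ?_ hσ
    · intro x hx
      exact hL.sub x hx
    · rw [hX0]; positivity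
    · intro j hj
      have := h1 j hj
      rw [hBad] at this
      simp only [Set.mem_ofPred_eq, not_not] at this
      exact this
    · intro z
      by_contra hlt
      exact h2 ⟨z, not_le.1 hlt⟩
  have hE3P : (PM ν).real E3 ≤ ε / 4 := by
    refine (lowThm_zero hL).trans ?_
    have h1 : p ^ 2 ≤ p := by nlinarith
    have h2 : D2 * p ≤ ε / 4 := by
      rw [le_div_iff₀ hD2p] at hpD2
      linarith
    calc (487 : ℝ) ^ 2 * (C * p ^ 2) = D2 * p ^ 2 := by rw [hD2]; ring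
      _ ≤ D2 * p := mul_le_mul_of_nonneg_left h1 hD2p.le
      _ ≤ ε / 4 := h2
  have hE2P : (PM ν).real E2 ≤ ε / 4 := by
    refine (hinner ν a0 a1 pol C p q hC.le hp.le hL R).trans ?_
    have hmle : (m : ℝ) ≤ (κ + 1) / p := by
      have h1 : (m : ℝ) < κ / p + 1 := Nat.ceil_lt_add_one (by positivity)
      have h2 : (1 : ℝ) ≤ 1 / p := by rw [le_div_iff₀ hp]; linarith
      have h3 : (κ + 1) / p = κ / p + 1 / p := by ring
      linarith
    have hkle : (k : ℝ) ≤ 2 / p ^ 3 := by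
      have hz : p ^ (-(3 : ℤ)) = 1 / p ^ 3 := by
        rw [zpow_neg, one_div]
        norm_cast
      have h1 : (k : ℝ) < p ^ (-(3 : ℤ)) + 1 := Nat.ceil_lt_add_one (by positivity)
      rw [hz] at h1
      have h2 : (1 : ℝ) ≤ 1 / p ^ 3 := by
        rw [le_div_iff₀ (by positivity)]
        have : p ^ 3 ≤ 1 := pow_le_one₀ hp.le hp1'
        linarith
      have h3 : 2 / p ^ 3 = 1 / p ^ 3 + 1 / p ^ 3 := by ring
      linarith
    have hRle : (R : ℝ) + 1 ≤ 6601 * (κ + 1) / p ^ 4 := by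
      have h1 : (R : ℝ) = 3300 * ((k : ℝ) * m) := by rw [hR]; push_cast; ring
      have h2 : (k : ℝ) * m ≤ (2 / p ^ 3) * ((κ + 1) / p) :=
        mul_le_mul hkle hmle (by positivity) (by positivity)
      have h3 : (2 / p ^ 3) * ((κ + 1) / p) = 2 * ((κ + 1) / p ^ 4) := by
        field_simp
      have h4 : (1 : ℝ) ≤ (κ + 1) / p ^ 4 := by
        rw [le_div_iff₀ (by positivity)]
        have : p ^ 4 ≤ 1 := pow_le_one₀ hp.le hp1'
        linarith
      have h5 : 6601 * (κ + 1) / p ^ 4 = 6601 * ((κ + 1) / p ^ 4) := by ring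
      rw [h1, h5]
      rw [h3] at h2
      linarith
    have h6 : ((R : ℝ) + 1) ^ 2 ≤ (6601 * (κ + 1) / p ^ 4) ^ 2 :=
      pow_le_pow_left₀ (by positivity) hRle 2
    have h7 : p ^ 2 ≤ p := by nlinarith
    have h8 : D1 * p ≤ ε / 4 := by
      rw [le_div_iff₀ hD1p] at hpD1
      linarith
    calc K * ((R : ℝ) + 1) ^ 2 * (C * p) ^ 10
        ≤ K * (6601 * (κ + 1) / p ^ 4) ^ 2 * (C * p) ^ 10 := by
          refine mul_le_mul_of_nonneg_right ?_ (by positivity)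
          exact mul_le_mul_of_nonneg_left h6 hK.le
      _ = D1 * p ^ 2 := by
          rw [hD1]
          field_simp
      _ ≤ D1 * p := mul_le_mul_of_nonneg_left h7 hD1p.le
      _ ≤ ε / 4 := h8
  calc (PM ν).real {σ : Z2 → S | Inf (at_ a0 σ) (at_ a1 σ) (at_ pol σ) (0, 0)}
      ≤ (PM ν).real (((⋃ j ∈ Finset.range 4, Bad j) ∪ E2) ∪ E3) :=
        measureReal_mono hsub (measure_ne_top _ _)
    _ ≤ (PM ν).real ((⋃ j ∈ Finset.range 4, Bad j) ∪ E2) + (PM ν).real E3 :=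
        measureReal_union_le _ _
    _ ≤ ((PM ν).real (⋃ j ∈ Finset.range 4, Bad j) + (PM ν).real E2) + (PM ν).real E3 := by
        gcongr
        exact measureReal_union_le _ _
    _ ≤ (∑ j ∈ Finset.range 4, (PM ν).real (Bad j) + (PM ν).real E2) + (PM ν).real E3 := by
        gcongr
        exact real_biUnion_le _ _ _
    _ ≤ (∑ j ∈ Finset.range 4, ε / 8 + ε / 4) + ε / 4 := by
        gcongr with j _
        exact hBadP j
    _ = ε := by
        rw [Finset.sum_const, Finset.card_range, nsmul_eq_mul]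
        push_cast
        ring

end Pool.Agent.BP
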