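import Pool.Agent.Lib_MP_94fe03_pr.UThm
import Pool.Agent.Lib_MP_94fe03_pr.LowThm
import Pool.Agent.Lib_MP_94fe03_pr.HamProb1
import Pool.Agent.Lib_MP_94fe03_pr.HamProb2
import Pool.Agent.Lib_MP_94fe03_pr.HamPol
import Pool.Agent.Lib_MP_94fe03_pr.Couple

set_option autoImplicit false

namespace Pool.Agent.BP

open MeasureTheory ProbabilityTheory Filter Topology

/-! ### asymptotics -/

theorem br_log_pos : ∀ᶠ n : ℕ in atTop, 0 < Real.log n := by
  filter_upwards [eventually_ge_atTop 2] with n hn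
  exact Real.log_pos (by exact_mod_cast hn)

theorem br_div_tendsto {r s : ℝ} (hs : 0 < s) :
    Tendsto (fun n : ℕ => Real.log n ^ r / (n : ℝ) ^ s) atTop (𝓝 0) :=
  ((isLittleO_log_rpow_rpow_atTop r hs).tendsto_div_nhds_zero).comp tendsto_natCast_atTop_atTop

theorem br_ph_tendsto {l : ℕ} (hl : 1 ≤ l) : Tendsto (fun n : ℕ => ph l n) atTop (𝓝 0) := by
  have hl' : (0 : ℝ) < l := by exact_mod_cast hl
  have h := br_div_tendsto (r := 1 + (1 : ℝ) / l) (s := (1 : ℝ) / l) (by positivity)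
  refine h.congr fun n => ?_
  unfold ph
  rw [neg_div, Real.rpow_neg (Nat.cast_nonneg n)]
  rw [div_eq_mul_inv, mul_comm]

theorem br_ph_pos {l : ℕ} : ∀ᶠ n : ℕ in atTop, 0 < ph l n := by
  filter_upwards [br_log_pos, eventually_gt_atTop 0] with n hn h0
  have h0' : (0 : ℝ) < n := by exact_mod_cast h0
  unfold ph
  positivity

theorem br_pc_tendsto {l : ℕ} (hl : 1 ≤ l) : Tendsto (fun n : ℕ => pc l n) atTop (𝓝 0) := by
  have hl' : (0 : ℝ) < l := by exact_mod_cast hl
  have h := (br_div_tendsto (r := (1 : ℝ) / l) (s := 1 + (1 : ℝ) / l) (by positivity)).const_mul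
    ((2 * ((l - 1).factorial : ℝ)) ^ ((1 : ℝ) / l))
  rw [mul_zero] at h
  refine h.congr fun n => ?_
  unfold pc
  ring

theorem br_pc_pos {l : ℕ} : ∀ᶠ n : ℕ in atTop, 0 < pc l n := by
  filter_upwards [br_log_pos, eventually_gt_atTop 0] with n hn h0
  have h0' : (0 : ℝ) < n := by exact_mod_cast h0
  unfold pc
  positivity

theorem br_pow_le {l : ℕ} (hl : 1 ≤ l) {η : ℝ} (hη : 0 < η) :
    ∀ᶠ n : ℕ in atTop, (n : ℝ) ^ (-(2 : ℝ) / l) ≤ η * ph l n ^ 2 := by
  have hl' : (0 : ℝ) < l := by exact_mod_cast hl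
  have hlog : Tendsto (fun n : ℕ => Real.log n) atTop atTop :=
    Real.tendsto_log_atTop.comp tendsto_natCast_atTop_atTop
  filter_upwards [hlog.eventually_ge_atTop 1, hlog.eventually_ge_atTop (1 / η),
    eventually_gt_atTop 0] with n h1 h2 h0
  have h0' : (0 : ℝ) < n := by exact_mod_cast h0
  have e1 : ((n : ℝ) ^ (-(1 : ℝ) / l)) ^ 2 = (n : ℝ) ^ (-(2 : ℝ) / l) := by
    rw [← Real.rpow_mul_natCast h0'.le]
    congr 1
    push_cast
    ring
  have e2 : Real.log n ≤ Real.log n ^ (1 + (1 : ℝ) / l) := by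
    have h3 := Real.rpow_le_rpow_of_exponent_le h1
      (show (1 : ℝ) ≤ 1 + 1 / l by
        have : (0 : ℝ) ≤ 1 / l := by positivity
        linarith)
    rwa [Real.rpow_one] at h3
  unfold ph
  rw [mul_pow, e1]
  have e3 : 1 ≤ η * (Real.log n ^ (1 + (1 : ℝ) / l)) ^ 2 := by
    have h4 : 1 ≤ η * Real.log n := by
      rw [div_le_iff₀ hη] at h2
      linarith
    have h5 : Real.log n ≤ (Real.log n ^ (1 + (1 : ℝ) / l)) ^ 2 := by
      nlinarith
    nlinarith
  have e4 : 0 ≤ (n : ℝ) ^ (-(2 : ℝ) / l) := by positivity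
  calc (n : ℝ) ^ (-(2 : ℝ) / l) = (n : ℝ) ^ (-(2 : ℝ) / l) * 1 := (mul_one _).symm
    _ ≤ (n : ℝ) ^ (-(2 : ℝ) / l) * (η * (Real.log n ^ (1 + (1 : ℝ) / l)) ^ 2) :=
        mul_le_mul_of_nonneg_left e3 e4
    _ = _ := by ring

/-! ### the law of the label field -/

/-- the law of a label -/
noncomputable def nuL (l : ℕ) {n : ℕ} (p : unitInterval) : Measure Lab :=
  (PM (bern p) : Measure (Sq n)).map (lab l)

theorem measurable_lab (l : ℕ) {n : ℕ} : Measurable (lab l : Sq n → Lab) :=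
  measurable_of_finite _

instance (l n : ℕ) (p : unitInterval) : IsProbabilityMeasure (nuL l (n := n) p) := by
  unfold nuL
  exact Measure.isProbabilityMeasure_map (measurable_lab l).aemeasurable

theorem nuL_apply (l : ℕ) {n : ℕ} (p : unitInterval) (B : Set Lab) :
    (nuL l (n := n) p).real B = (PM (bern p) : Measure (Sq n)).real {ω | lab l ω ∈ B} := by
  unfold nuL
  rw [measureReal_def, measureReal_def, Measure.map_apply (measurable_lab l) MeasurableSet.of_discrete]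
  rfl

theorem PM_nuL (l : ℕ) {n : ℕ} (p : unitInterval) :
    (PM (PM (bern p) : Measure (Sq n)) : Measure (Z2 → Sq n)).map (fun σ x => lab l (σ x)) =
      PM (nuL l (n := n) p) := by
  have h := Measure.infinitePi_map_pi (μ := fun _ : Z2 => (PM (bern p) : Measure (Sq n)))
    (f := fun _ : Z2 => (lab l : Sq n → Lab)) (fun _ => measurable_lab l)
  exact h

/-- below the threshold ratio the final density is close to one -/
theorem up_dens (l : ℕ) (hl : 1 ≤ l) (ε : ℝ) (hε : 0 < ε) : ∃ δ : ℝ, 0 < δ ∧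
    ∀ᶠ n : ℕ in atTop, ∀ p : unitInterval, pc l n / 2 ≤ (p : ℝ) → (p : ℝ) ≤ 2 * pc l n →
    qh l n p ≤ δ * ph l n ^ 2 → 1 - ε ≤ dens l n p := by
  obtain ⟨δ₀, hδ₀, p₀, hp₀, hup⟩ := up_thm ε hε
  obtain ⟨K, hK, heven⟩ := span_even_prob l hl
  obtain ⟨c, hc, hodd⟩ := span_odd_prob l hl
  have hη : 0 < δ₀ * c ^ 2 / 2 := by positivity
  refine ⟨δ₀ * c ^ 2 / (2 * K), by positivity, ?_⟩
  have hsmall : ∀ᶠ n : ℕ in atTop, ph l n < p₀ / c :=
    (br_ph_tendsto hl).eventually_lt_const (by positivity)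
  filter_upwards [heven, hodd, br_pow_le hl hη, hsmall, br_ph_pos (l := l), br_pc_pos (l := l),
    eventually_gt_atTop 0] with n heven hodd hpow hsmall hpos hpc h0 p hp1 hp2 hq
  have hp : 0 < (p : ℝ) := by linarith
  have hP : (nuL l (n := n) p).real {Lab.P} ≤ δ₀ * (c * ph l n) ^ 2 := by
    rw [nuL_apply]
    have h1 : (PM (bern p) : Measure (Sq n)).real {ω | lab l ω ∈ ({Lab.P} : Set Lab)} ≤
        (PM (bern p)).real {ω : Sq n | ¬ Span (2 * l) ω} := by
      refine measureReal_mono ?_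
      intro ω hω hs
      have h2 : lab l ω = Lab.P := hω
      unfold lab at h2
      split_ifs at h2
    have h2 := heven p hp1 hp2
    have h3 : K * qh l n p ≤ K * (δ₀ * c ^ 2 / (2 * K) * ph l n ^ 2) :=
      mul_le_mul_of_nonneg_left hq hK.le
    have h4 : K * (δ₀ * c ^ 2 / (2 * K) * ph l n ^ 2) = δ₀ * c ^ 2 / 2 * ph l n ^ 2 := by
      field_simp
    have h5 : δ₀ * (c * ph l n) ^ 2 = δ₀ * c ^ 2 / 2 * ph l n ^ 2 + δ₀ * c ^ 2 / 2 * ph l n ^ 2 := by
      ring
    linarith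
  have hO : c * ph l n ≤ (nuL l (n := n) p).real {Lab.O, Lab.S} := by
    rw [nuL_apply]
    refine (hodd p hp1 hp2).trans (measureReal_mono ?_)
    intro ω hω
    show lab l ω = Lab.O ∨ lab l ω = Lab.S
    unfold lab
    by_cases h1 : ∀ v, ω v = true
    · rw [if_pos h1]
      exact Or.inr rfl
    · rw [if_neg h1, if_pos (show Span (2 * l + 1) ω from hω)]
      exact Or.inl rfl
  have hS : 0 < (nuL l (n := n) p).real {Lab.S} := by
    rw [nuL_apply]
    have h1 := PM_all_true (ι := Fin n × Fin n) p Finset.univ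
    have h2 : (0 : ℝ) < (p : ℝ) ^ (Finset.univ : Finset (Fin n × Fin n)).card := by positivity
    refine lt_of_lt_of_le ?_ (measureReal_mono (μ := (PM (bern p) : Measure (Sq n)))
      (s₁ := {ω : Sq n | ∀ v ∈ (Finset.univ : Finset (Fin n × Fin n)), ω v = true}) ?_)
    · rw [h1]
      exact h2
    · intro ω hω
      show lab l ω = Lab.S
      unfold lab
      rw [if_pos fun v => hω v (Finset.mem_univ v)]
  have hmain := hup (nuL l (n := n) p) (c * ph l n) (by positivity)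
    (by rw [lt_div_iff₀ hc] at hsmall; linarith) hP hO hS
  -- transfer
  unfold dens
  rw [dif_pos h0, setBernoulli_eq_PM]
  set v0 : V n := ((0, 0), (⟨0, h0⟩, ⟨0, h0⟩)) with hv0
  set A : Set (Z2 → Sq n) := {σ | v0 ∈ bfinal (Gn n) (2 * l + 2) {w : V n | σ w.1 w.2 = true}} with hA
  have e1 : (PM (bern p)).real {c : V n → Bool | {i | c i = true} ∈
      {ω : Set (V n) | v0 ∈ bfinal (Gn n) (2 * l + 2) ω}} =
      (PM (PM (bern p) : Measure (Sq n))).real A := by
    rw [← PM_curry]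
    rfl
  rw [e1]
  have h1 : (PM (PM (bern p) : Measure (Sq n))).real Aᶜ ≤ ε := by
    refine le_trans ?_ hmain
    rw [← PM_nuL]
    have hm : Measurable (fun (σ : Z2 → Sq n) (x : Z2) => lab l (σ x)) :=
      measurable_pi_lambda _ fun x => (measurable_lab l).comp (measurable_pi_apply x)
    have h2 := Measure.le_map_apply (μ := (PM (PM (bern p) : Measure (Sq n)) : Measure (Z2 → Sq n)))
      hm.aemeasurable {σ : Z2 → Lab | ¬ FilL σ (0, 0)}
    have h3 : Aᶜ ⊆ (fun (σ : Z2 → Sq n) (x : Z2) => lab l (σ x)) ⁻¹'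
        {σ : Z2 → Lab | ¬ FilL σ (0, 0)} := by
      intro σ hσ hf
      exact hσ (fil_final σ hf _)
    have hpr : IsProbabilityMeasure ((PM (PM (bern p) : Measure (Sq n)) :
        Measure (Z2 → Sq n)).map (fun σ x => lab l (σ x))) :=
      Measure.isProbabilityMeasure_map hm.aemeasurable
    rw [measureReal_def, measureReal_def]
    exact ENNReal.toReal_mono (measure_ne_top _ _) ((measure_mono h3).trans h2)
  have h2 : 1 ≤ (PM (PM (bern p) : Measure (Sq n))).real A +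
      (PM (PM (bern p) : Measure (Sq n))).real Aᶜ := by
    have h3 := measureReal_union_le (μ := (PM (PM (bern p) : Measure (Sq n)) :
      Measure (Z2 → Sq n))) A Aᶜ
    rw [Set.union_compl_self] at h3
    rwa [probReal_univ] at h3
  linarith

/-- above the threshold ratio the final density is close to zero -/
theorem low_dens (l : ℕ) (hl : 1 ≤ l) (ε : ℝ) (hε : 0 < ε) : ∃ Λ : ℝ, 0 < Λ ∧
    ∀ᶠ n : ℕ in atTop, ∀ p : unitInterval, pc l n / 2 ≤ (p : ℝ) → (p : ℝ) ≤ 2 * pc l n →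
    Λ * ph l n ^ 2 ≤ qh l n p → dens l n p ≤ ε := by
  obtain ⟨C, hC, hA⟩ := evA_prob l hl
  obtain ⟨c, hc, hPp⟩ := evP_prob l hl
  obtain ⟨Λ₀, hΛ₀, p₀, hp₀, hlow⟩ := low_thm (ε / 2) C (by positivity) hC
  refine ⟨Λ₀ / c, by positivity, ?_⟩
  have hsmall : ∀ᶠ n : ℕ in atTop, ph l n < p₀ :=
    (br_ph_tendsto hl).eventually_lt_const hp₀
  have hpcs : ∀ᶠ n : ℕ in atTop, pc l n < ε / 4 :=
    (br_pc_tendsto hl).eventually_lt_const (by positivity)
  filter_upwards [hA, hPp, hsmall, hpcs, br_ph_pos (l := l), eventually_gt_atTop 0] with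
    n hA hPp hsmall hpcs hpos h0 p hp1 hp2 hq
  have hlab := labHyp_ham (l := l) (n := n) p (C := C) (ph := ph l n) (q := c * qh l n p) hC.le
    (fun x => (hA p hp1 hp2 x).1) (fun x => (hA p hp1 hp2 x).2) (fun x => hPp p hp1 hp2 x)
  have hq' : Λ₀ * ph l n ^ 2 ≤ c * qh l n p := by
    have h1 := mul_le_mul_of_nonneg_left hq hc.le
    have h2 : c * (Λ₀ / c * ph l n ^ 2) = Λ₀ * ph l n ^ 2 := by field_simp
    linarith
  have hmain := hlow (PM (bern p) : Measure (Sq n)) _ _ _ (ph l n) (c * qh l n p) hpos hsmall.le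
    hq' hlab
  unfold dens
  rw [dif_pos h0, setBernoulli_eq_PM]
  set v0 : V n := ((0, 0), (⟨0, h0⟩, ⟨0, h0⟩)) with hv0
  have hsub : {c : V n → Bool | {i | c i = true} ∈
      {ω : Set (V n) | v0 ∈ bfinal (Gn n) (2 * l + 2) ω}} ⊆ {c : V n → Bool | c v0 ∈ ({true} : Set Bool)} ∪
      {c : V n → Bool | Inf {y | c ∈ (evA l 0 y : Set (V n → Bool))}
      {y | c ∈ (evA l 1 y : Set (V n → Bool))} {y | c ∈ (evP l y : Set (V n → Bool))} (0, 0)} := by
    intro c hc
    exact final_inf hl c hc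
  have h1 : (PM (bern p)).real {c : V n → Bool | c v0 ∈ ({true} : Set Bool)} = p := by
    rw [PM_coord, bern_true]
  have h2 : (PM (bern p)).real {c : V n → Bool | Inf {y | c ∈ (evA l 0 y : Set (V n → Bool))}
      {y | c ∈ (evA l 1 y : Set (V n → Bool))} {y | c ∈ (evP l y : Set (V n → Bool))} (0, 0)} ≤
      ε / 2 := by
    rw [← couple_curry_ev]
    exact hmain
  have h3 := (measureReal_mono (μ := (PM (bern p) : Measure (V n → Bool))) hsub).trans
    (measureReal_union_le _ _)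
  rw [h1] at h3
  linarith

end Pool.Agent.BP
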