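import Mathlib

set_option autoImplicit false

/-! Shared definitions for MP_94fe03_pr (bootstrap percolation on the product of the square lattice
and a Hamming square, even threshold 2l+2). -/

namespace Pool.Agent.BP

open MeasureTheory ProbabilityTheory

/-! ### the model (statement level) -/

/-- vertices of the product graph -/
abbrev V (n : ℕ) := (ℤ × ℤ) × (Fin n × Fin n)

/-- nearest neighbours in the square lattice -/
def Nb (x y : ℤ × ℤ) : Prop :=
  (x.1 = y.1 ∧ |x.2 - y.2| = 1) ∨ (x.2 = y.2 ∧ |x.1 - y.1| = 1)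

/-- adjacency in the Hamming square: exactly one coordinate differs -/
def HAdj {n : ℕ} (v w : Fin n × Fin n) : Prop := v ≠ w ∧ (v.1 = w.1 ∨ v.2 = w.2)

/-- the product graph -/
def Gn (n : ℕ) : SimpleGraph (V n) where
  Adj a b := (Nb a.1 b.1 ∧ a.2 = b.2) ∨ (a.1 = b.1 ∧ HAdj a.2 b.2)
  symm := ⟨by
    rintro a b (⟨h, h'⟩ | ⟨h, h'⟩)
    · left
      refine ⟨?_, h'.symm⟩
      rcases h with h | h
      · exact Or.inl ⟨h.1.symm, by rw [abs_sub_comm]; exact h.2⟩
      · exact Or.inr ⟨h.1.symm, by rw [abs_sub_comm]; exact h.2⟩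
    · right
      exact ⟨h.symm, h'.1.symm, h'.2.imp Eq.symm Eq.symm⟩⟩
  loopless := ⟨by
    rintro a (⟨h, _⟩ | ⟨_, h⟩)
    · rcases h with h | h <;> simp at h
    · exact h.1 rfl⟩

/-- one step of threshold-`θ` bootstrap percolation on a graph -/
def bstep {W : Type} (G : SimpleGraph W) (θ : ℕ) (A : Set W) : Set W :=
  A ∪ {v | (θ : ℕ∞) ≤ (G.neighborSet v ∩ A).encard}

/-- the final occupied set -/
def bfinal {W : Type} (G : SimpleGraph W) (θ : ℕ) (A : Set W) : Set W :=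
  ⋃ t : ℕ, (bstep G θ)^[t] A

/-- the probability that a fixed vertex is finally occupied, threshold `2l+2` (for `n = 0` there is
no vertex and the value is `0`) -/
noncomputable def dens (l n : ℕ) (p : unitInterval) : ℝ :=
  if h : 0 < n then
    (setBernoulli (Set.univ : Set (V n)) p).real
      {ω | (((0, 0), (⟨0, h⟩, ⟨0, h⟩)) : V n) ∈ bfinal (Gn n) (2 * l + 2) ω}
  else 0

/-- the centre of the window -/
noncomputable def pc (l n : ℕ) : ℝ :=
  (2 * ((l - 1).factorial : ℝ)) ^ ((1 : ℝ) / l) * (Real.log n) ^ ((1 : ℝ) / l) /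
    (n : ℝ) ^ (1 + (1 : ℝ) / l)

/-! ### product measures -/

abbrev Z2 := ℤ × ℤ

/-- sup distance at most `k` -/
def Near (k : ℤ) (x y : Z2) : Prop := |x.1 - y.1| ≤ k ∧ |x.2 - y.2| ≤ k

/-- the event `A` only depends on the coordinates in `s` -/
def Loc {ι S : Type} (A : Set (ι → S)) (s : Set ι) : Prop :=
  ∀ σ τ : ι → S, (∀ x ∈ s, σ x = τ x) → σ ∈ A → τ ∈ A

/-- product measure with all marginals `ν` -/
noncomputable def PM {ι S : Type} [MeasurableSpace S] (ν : Measure S) [IsProbabilityMeasure ν] :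
    Measure (ι → S) := Measure.infinitePi fun _ : ι => ν

/-! ### the two growth rules on the lattice -/

/-- growth from below: `pol` = polluted, `opn` = one full neighbour suffices -/
inductive Fil (pol opn seed : Set Z2) : Z2 → Prop
  | seed {x : Z2} : x ∈ seed → Fil pol opn seed x
  | one {x y : Z2} : x ∈ opn → Nb x y → Fil pol opn seed y → Fil pol opn seed x
  | two {x y z : Z2} : x ∉ pol → y ≠ z → Nb x y → Nb x z →
      Fil pol opn seed y → Fil pol opn seed z → Fil pol opn seed x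

/-- growth from above: a site in `a0` is infected without help, a site in `a1` with one infected
neighbour, a site not in `pol` with two, every site with three -/
inductive Inf (a0 a1 pol : Set Z2) : Z2 → Prop
  | zero {x : Z2} : x ∈ a0 → Inf a0 a1 pol x
  | one {x y : Z2} : x ∈ a1 → Nb x y → Inf a0 a1 pol y → Inf a0 a1 pol x
  | two {x y z : Z2} : x ∉ pol → y ≠ z → Nb x y → Nb x z →
      Inf a0 a1 pol y → Inf a0 a1 pol z → Inf a0 a1 pol x
  | three {x y z w : Z2} : y ≠ z → y ≠ w → z ≠ w → Nb x y → Nb x z → Nb x w →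
      Inf a0 a1 pol y → Inf a0 a1 pol z → Inf a0 a1 pol w → Inf a0 a1 pol x

/-- four labels: polluted, open, seed, neutral -/
inductive Lab
  | P | O | S | N
  deriving DecidableEq, Fintype

instance : MeasurableSpace Lab := ⊤
instance : DiscreteMeasurableSpace Lab := ⟨fun _ => trivial⟩

def isPol (σ : Z2 → Lab) : Set Z2 := {x | σ x = Lab.P}
def isOpn (σ : Z2 → Lab) : Set Z2 := {x | σ x = Lab.O ∨ σ x = Lab.S}
def isSd (σ : Z2 → Lab) : Set Z2 := {x | σ x = Lab.S}

/-- growth for a label field -/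
def FilL (σ : Z2 → Lab) : Z2 → Prop := Fil (isPol σ) (isOpn σ) (isSd σ)

/-! ### Lipschitz percolation -/

/-- sites that can be reached from the lower half plane by steps up (into `D`) and diagonal steps
down -/
inductive Reach (D : Set Z2) : Z2 → Prop
  | base {t h : ℤ} : h < 0 → Reach D (t, h)
  | up {t h : ℤ} : Reach D (t, h) → (t, h + 1) ∈ D → Reach D (t, h + 1)
  | dr {t h : ℤ} : Reach D (t, h) → Reach D (t + 1, h - 1)
  | dl {t h : ℤ} : Reach D (t, h) → Reach D (t - 1, h - 1)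

/-! ### upper direction: growth to the right -/

/-- `LossPath pol opn x0 u0 x u`: when a front whose lower end is at height `u0` moves from column
`x0` to column `x`, its lower end may have been pushed up to height `u` by polluted sites -/
inductive LossPath (pol opn : Set Z2) (x0 u0 : ℤ) : ℤ → ℤ → Prop
  | start : LossPath pol opn x0 u0 x0 u0
  | skip {x u : ℤ} : LossPath pol opn x0 u0 x u → LossPath pol opn x0 u0 (x + 1) u
  | jump {x u : ℤ} (t : ℕ) : LossPath pol opn x0 u0 x u → ((x + 1, u + t) : Z2) ∈ pol →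
      ((∀ y : ℤ, u ≤ y → y < u + t → ((x + 1, y) : Z2) ∉ opn) ∨
        (∀ y : ℤ, u ≤ y → y < u + t → ((x + 2, y) : Z2) ∉ opn)) →
      LossPath pol opn x0 u0 (x + 1) (u + t + 1)

/-- reflection in the horizontal axis -/
def refl (A : Set Z2) : Set Z2 := {z | ((z.1, -z.2) : Z2) ∈ A}

/-! ### lower direction: closed regions -/

/-- growth inside the set `B`, started from `a0`, where two neighbours always suffice -/
inductive Gr (B a0 a1 : Set Z2) : Z2 → Prop
  | zero {x : Z2} : x ∈ B → x ∈ a0 → Gr B a0 a1 x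
  | one {x y : Z2} : x ∈ B → x ∈ a1 → Nb x y → Gr B a0 a1 y → Gr B a0 a1 x
  | two {x y z : Z2} : x ∈ B → y ≠ z → Nb x y → Nb x z → Gr B a0 a1 y → Gr B a0 a1 z →
      Gr B a0 a1 x

/-- hypotheses on the labels for the lower direction -/
structure LabHyp {S : Type} [MeasurableSpace S] (ν : Measure S) [IsProbabilityMeasure ν]
    (a0 a1 pol : Z2 → Set (Z2 → S)) (C ph q : ℝ) : Prop where
  loc0 : ∀ x, Loc (a0 x) {y | Near 1 x y}
  loc1 : ∀ x, Loc (a1 x) {y | Near 1 x y}
  locp : ∀ x, Loc (pol x) {y | Near 1 x y}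
  sub : ∀ x, a0 x ⊆ a1 x
  disj : ∀ x, Disjoint (pol x) (a1 x)
  h0 : ∀ (A : Finset Z2) (y : Z2), (PM ν).real ((⋂ x ∈ A, pol x) ∩ a0 y) ≤
    C * ph ^ 2 * (PM ν).real (⋂ x ∈ A, pol x)
  h1 : ∀ (A : Finset Z2) (y : Z2), (PM ν).real ((⋂ x ∈ A, pol x) ∩ a1 y) ≤
    C * ph * (PM ν).real (⋂ x ∈ A, pol x)
  hq : ∀ x, q ≤ (PM ν).real (pol x)

/-- the sites whose label event occurs -/
def at_ {S : Type} (a : Z2 → Set (Z2 → S)) (σ : Z2 → S) : Set Z2 := {x | σ ∈ a x}

/-- a staircase going down to the right; between consecutive corners there are no sites of `a1`,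
and there are no sites of `a0` close to it -/
structure Stair (L K : ℤ) (N : ℕ) (x y : ℕ → ℤ) (a0 a1 pol : Set Z2) : Prop where
  xm : ∀ t < N, x t < x (t + 1)
  ym : ∀ t < N, y (t + 1) < y t
  xL : ∀ t < N, x (t + 1) - x t ≤ L
  yL : ∀ t < N, y t - y (t + 1) ≤ L
  hor : ∀ t < N, ∀ u, x t < u → u < x (t + 1) → ((u, y (t + 1)) : Z2) ∉ a1
  ver : ∀ t < N, ∀ v, y (t + 1) < v → v < y t → ((x t, v) : Z2) ∉ a1
  cor : ∀ t ≤ N, ((x t, y t) : Z2) ∈ pol
  far : ∀ t ≤ N, ∀ z, Near K (x t, y t) z → z ∉ a0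

/-- the region to the left of and below a staircase -/
def QR (N : ℕ) (x y : ℕ → ℤ) : Set Z2 := {z | ∃ t ≤ N, z.1 ≤ x t ∧ z.2 ≤ y t}

/-- mirror image in the vertical axis -/
def mir (A : Set Z2) : Set Z2 := {z | ((-z.1, z.2) : Z2) ∈ A}

/-- a wedge that is closed against infection from outside in the upper half plane -/
structure BW (W : Set Z2) (X0 Rm : ℤ) (a0 a1 pol : Set Z2) : Prop where
  b1 : ∀ z ∈ W, 0 ≤ z.2 → ∀ w, Nb z w → w ∉ W → z ∉ a1
  b2 : ∀ z ∈ W, 0 ≤ z.2 → ∀ w w', w ≠ w' → Nb z w → Nb z w' → w ∉ W → w' ∉ W → z ∈ pol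
  b3 : ∀ z ∈ W, 0 ≤ z.2 → ∀ w w' w'', w ≠ w' → w ≠ w'' → w' ≠ w'' → Nb z w → Nb z w' → Nb z w'' →
    w ∈ W ∨ w' ∈ W ∨ w'' ∈ W
  b4 : ∀ z ∈ W, 0 ≤ z.2 → ∀ w, Nb z w → w ∉ W → ∀ y, Near 300 z y → y ∉ a0
  b5 : ∀ z ∈ W, z.2 = 0 → |z.1| ≤ X0
  b6 : ∀ z : Z2, |z.1| ≤ 2 → 0 ≤ z.2 → z.2 ≤ X0 + 1 → z ∈ W
  b7 : ∀ z ∈ W, 0 ≤ z.2 → |z.1| ≤ Rm ∧ z.2 ≤ Rm

/-- quarter turn -/
def rot (z : Z2) : Z2 := (-z.2, z.1)

/-- the label sets seen after `k` quarter turns -/
def rotS (k : ℕ) (A : Set Z2) : Set Z2 := {z | rot^[k] z ∈ A}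

/-! ### boxes for the lower direction -/

/-- sites of the sublattice inside box `b` (side `3m`) -/
def subs (m : ℕ) (b : Z2) (u v : ℕ) : Z2 :=
  (b.1 * (3 * m) + 3 * u + 1, b.2 * (3 * m) + 3 * v + 1)

/-- `x` is the chosen polluted site of box `b`: scan rows from the top, each row from the right -/
def IsC (m : ℕ) (pol : Set Z2) (b x : Z2) : Prop :=
  ∃ u < m, ∃ v < m, x = subs m b u v ∧ x ∈ pol ∧
    ∀ u' < m, ∀ v' < m, (v < v' ∨ (v' = v ∧ u < u')) → subs m b u' v' ∉ pol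

/-- box `b` is open -/
def OpenB (m : ℕ) (a0 a1 pol : Set Z2) (b : Z2) : Prop :=
  ∃ x, IsC m pol b x ∧
    (∀ k : ℕ, 1 ≤ k → k ≤ 12 * m → ((x.1 - k, x.2) : Z2) ∉ a1) ∧
    (∀ k : ℕ, 1 ≤ k → k ≤ 15 * m → ((x.1, x.2 - k) : Z2) ∉ a1) ∧
    (∀ y, Near (21 * m) (b.1 * (3 * m), b.2 * (3 * m)) y → y ∉ a0)

/-! ### Hamming squares -/

abbrev Sq (n : ℕ) := Fin n × Fin n → Bool

/-- closure inside a Hamming square with threshold `r` -/
inductive Cl {n : ℕ} (r : ℕ) (ω : Sq n) : Fin n × Fin n → Prop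
  | init {v : Fin n × Fin n} : ω v = true → Cl r ω v
  | add {v : Fin n × Fin n} (s : Finset (Fin n × Fin n)) : (∀ w ∈ s, HAdj v w) → r ≤ s.card →
      (∀ w ∈ s, Cl r ω w) → Cl r ω v

def Span {n : ℕ} (r : ℕ) (ω : Sq n) : Prop := ∀ v, Cl r ω v

open Classical in
/-- label of a square, threshold `2l+2` -/
noncomputable def lab (l : ℕ) {n : ℕ} (ω : Sq n) : Lab :=
  if ∀ v, ω v = true then Lab.S else if Span (2 * l + 1) ω then Lab.O
  else if Span (2 * l) ω then Lab.N else Lab.P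

/-- number of occupied sites in the row and column of `v`, other than `v`, plus the number of
occupied lattice neighbours -/
noncomputable def cnt {n : ℕ} (c : V n → Bool) (x : Z2) (v : Fin n × Fin n) : ℕ :=
  {w | HAdj v w ∧ c (x, w) = true}.ncard + {y | Nb x y ∧ c (y, v) = true}.ncard

/-- labels for the lower direction (events for the vertex field) -/
def evA (l j : ℕ) {n : ℕ} (x : Z2) : Set (V n → Bool) := {c | ∃ v, 2 * l + 2 ≤ cnt c x v + j}
def evP (l : ℕ) {n : ℕ} (x : Z2) : Set (V n → Bool) := {c | ∀ v, cnt c x v + 1 ≤ 2 * l}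

/-- Bernoulli measure on `Bool` -/
noncomputable def bern (p : unitInterval) : Measure Bool :=
  unitInterval.toNNReal p • Measure.dirac true +
    unitInterval.toNNReal (unitInterval.symm p) • Measure.dirac false

/-- expected number of rows with `l` occupied sites -/
noncomputable def lam (l n : ℕ) (p : ℝ) : ℝ := n * (n * p) ^ l / (l.factorial : ℝ)

/-- order of the density of polluted squares -/
noncomputable def qh (l n : ℕ) (p : ℝ) : ℝ :=
  (1 + (if l = 1 then lam l n p else 0)) * Real.exp (-lam l n p)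

/-- order of the density of open squares -/
noncomputable def ph (l n : ℕ) : ℝ :=
  (n : ℝ) ^ (-(1 : ℝ) / l) * (Real.log n) ^ (1 + (1 : ℝ) / l)

end Pool.Agent.BP
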