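import Pool.Agent.Lib_MP_94fe03_pr.Bridge

set_option autoImplicit false

namespace Pool.Agent.BP

open MeasureTheory ProbabilityTheory Filter Topology

/-- the parameter `p_n(b)`, clipped to the unit interval -/
noncomputable def pnb (l : ℕ) (f : ℕ → ℝ) (b : ℝ) (n : ℕ) : unitInterval :=
  Set.projIcc (0 : ℝ) 1 zero_le_one (pc l n + b * f n)

namespace Final

theorem dens_nonneg (l n : ℕ) (p : unitInterval) : 0 ≤ dens l n p := by
  unfold dens
  split_ifs
  · exact measureReal_nonneg
  · exact le_rfl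

theorem dens_le_one (l n : ℕ) (p : unitInterval) : dens l n p ≤ 1 := by
  unfold dens
  split_ifs
  · exact measureReal_le_one
  · exact zero_le_one

theorem pc_pos {l n : ℕ} (hn : 3 ≤ n) : 0 < pc l n := by
  have h1 : (1 : ℝ) < n := by exact_mod_cast (by omega : 1 < n)
  have h2 : 0 < Real.log n := Real.log_pos h1
  have h3 : (0 : ℝ) < ((l - 1).factorial : ℝ) := by exact_mod_cast Nat.factorial_pos _
  unfold pc
  positivity

theorem ph_pos {l n : ℕ} (hn : 3 ≤ n) : 0 < ph l n := by
  have h1 : (1 : ℝ) < n := by exact_mod_cast (by omega : 1 < n)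
  have h2 : 0 < Real.log n := Real.log_pos h1
  unfold ph
  positivity

theorem lam_pc {l n : ℕ} (hl : 1 ≤ l) (hn : 3 ≤ n) (c : ℝ) :
    lam l n (pc l n * c) = 2 / l * Real.log n * c ^ l := by
  have h1 : (1 : ℝ) < n := by exact_mod_cast (by omega : 1 < n)
  have h0 : (0 : ℝ) < n := by linarith
  have h2 : 0 < Real.log n := Real.log_pos h1
  have h3 : (0 : ℝ) < ((l - 1).factorial : ℝ) := by exact_mod_cast Nat.factorial_pos _
  have hl0 : l ≠ 0 := by omega
  have hlr : (0 : ℝ) < l := by exact_mod_cast (by omega : 0 < l)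
  have h4 : pc l n ^ l = 2 * ((l - 1).factorial : ℝ) * Real.log n / ((n : ℝ) ^ (l + 1)) := by
    unfold pc
    rw [div_pow, mul_pow]
    rw [one_div, Real.rpow_inv_natCast_pow (by positivity) hl0,
      Real.rpow_inv_natCast_pow h2.le hl0, ← Real.rpow_natCast ((n : ℝ) ^ (1 + (l : ℝ)⁻¹)) l,
      ← Real.rpow_mul h0.le]
    congr 1
    rw [← Real.rpow_natCast (n : ℝ) (l + 1)]
    congr 1
    push_cast
    field_simp
  have h5 : (l.factorial : ℝ) = l * ((l - 1).factorial : ℝ) := by
    exact_mod_cast (Nat.mul_factorial_pred hl0).symm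
  unfold lam
  rw [mul_pow, mul_pow, h4, h5]
  field_simp
  try ring

theorem log_ph {l n : ℕ} (hn : 3 ≤ n) :
    Real.log (ph l n) = -(1 / l) * Real.log n + (1 + 1 / l) * Real.log (Real.log n) := by
  have h1 : (1 : ℝ) < n := by exact_mod_cast (by omega : 1 < n)
  have h0 : (0 : ℝ) < n := by linarith
  have h2 : 0 < Real.log n := Real.log_pos h1
  unfold ph
  rw [Real.log_mul (by positivity) (by positivity), Real.log_rpow h0, Real.log_rpow h2]
  ring

/-- the logarithm of the ratio -/
noncomputable def RR (l n : ℕ) (p : ℝ) : ℝ := Real.log (qh l n p) - 2 * Real.log (ph l n)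

/-- the correction factor -/
noncomputable def gg (l n : ℕ) (p : ℝ) : ℝ := Real.log (1 + (if l = 1 then lam l n p else 0))

theorem RR_eq {l n : ℕ} (hl : 1 ≤ l) (hn : 3 ≤ n) {c : ℝ} (hc : 0 < c) :
    RR l n (pc l n * c) = gg l n (pc l n * c) - 2 / l * Real.log n * c ^ l +
      2 / l * Real.log n - (2 + 2 / l) * Real.log (Real.log n) := by
  have h1 : (1 : ℝ) < n := by exact_mod_cast (by omega : 1 < n)
  have h2 : 0 < Real.log n := Real.log_pos h1
  have hlr : (0 : ℝ) < l := by exact_mod_cast (by omega : 0 < l)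
  have h3 : 0 < lam l n (pc l n * c) := by
    rw [lam_pc hl hn]
    positivity
  have h4 : 0 < 1 + (if l = 1 then lam l n (pc l n * c) else 0) := by
    split_ifs
    · linarith
    · norm_num
  unfold RR qh gg
  rw [Real.log_mul h4.ne' (Real.exp_pos _).ne', Real.log_exp, log_ph hn, lam_pc hl hn]
  ring

theorem qh_pos {l n : ℕ} (hl : 1 ≤ l) (hn : 3 ≤ n) {c : ℝ} (hc : 0 < c) :
    0 < qh l n (pc l n * c) := by
  have h1 : (1 : ℝ) < n := by exact_mod_cast (by omega : 1 < n)
  have h2 : 0 < Real.log n := Real.log_pos h1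
  have hlr : (0 : ℝ) < l := by exact_mod_cast (by omega : 0 < l)
  have h3 : 0 < lam l n (pc l n * c) := by
    rw [lam_pc hl hn]
    positivity
  have h4 : 0 < 1 + (if l = 1 then lam l n (pc l n * c) else 0) := by
    split_ifs
    · linarith
    · norm_num
  unfold qh
  exact mul_pos h4 (Real.exp_pos _)

theorem qh_le_iff {l n : ℕ} (hl : 1 ≤ l) (hn : 3 ≤ n) {c : ℝ} (hc : 0 < c) {δ : ℝ} (hδ : 0 < δ) :
    qh l n (pc l n * c) ≤ δ * ph l n ^ 2 ↔ RR l n (pc l n * c) ≤ Real.log δ := by
  have h1 := qh_pos hl hn hc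
  have h2 := ph_pos (l := l) hn
  rw [← Real.log_le_log_iff h1 (by positivity), Real.log_mul hδ.ne' (by positivity), Real.log_pow]
  unfold RR
  push_cast
  constructor <;> intro h <;> linarith

theorem le_qh_iff {l n : ℕ} (hl : 1 ≤ l) (hn : 3 ≤ n) {c : ℝ} (hc : 0 < c) {δ : ℝ} (hδ : 0 < δ) :
    δ * ph l n ^ 2 ≤ qh l n (pc l n * c) ↔ Real.log δ ≤ RR l n (pc l n * c) := by
  have h1 := qh_pos hl hn hc
  have h2 := ph_pos (l := l) hn
  rw [← Real.log_le_log_iff (by positivity) h1, Real.log_mul hδ.ne' (by positivity), Real.log_pow]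
  unfold RR
  push_cast
  constructor <;> intro h <;> linarith

/-- bounds for the correction factor -/
theorem gg_le {l n : ℕ} (hl : 1 ≤ l) (hn : 3 ≤ n) {c : ℝ} (hc : 1 / 2 ≤ c) (hc2 : c ≤ 3 / 2) :
    gg l n (pc l n * c) ≤ Real.log 4 + Real.log (Real.log n) := by
  have h1 : (1 : ℝ) < n := by exact_mod_cast (by omega : 1 < n)
  have hL : 1 < Real.log n := by
    rw [Real.lt_log_iff_exp_lt (by linarith)]
    have h3 : Real.exp 1 < 3 := Real.exp_one_lt_three
    have h4 : (3 : ℝ) ≤ n := by exact_mod_cast hn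
    linarith
  unfold gg
  rw [← Real.log_mul (by norm_num) (by linarith)]
  split_ifs with h
  · subst h
    rw [lam_pc le_rfl hn]
    refine Real.log_le_log (by positivity) ?_
    push_cast
    nlinarith
  · rw [add_zero, Real.log_one]
    exact Real.log_nonneg (by linarith)

theorem gg_compare {l n : ℕ} (hn : 3 ≤ n) {c c' : ℝ} (hc : 1 / 2 ≤ c) (hc' : c' ≤ 3 / 2)
    (hc'0 : 0 < c') :
    gg l n (pc l n * c') ≤ Real.log 3 + gg l n (pc l n * c) := by
  have h1 : (1 : ℝ) < n := by exact_mod_cast (by omega : 1 < n)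
  have hL : 0 < Real.log n := Real.log_pos h1
  unfold gg
  split_ifs with h
  · subst h
    rw [lam_pc le_rfl hn, lam_pc le_rfl hn]
    push_cast
    have h5 : (0 : ℝ) < 1 + 2 / 1 * Real.log n * c ^ 1 := by positivity
    rw [← Real.log_mul (by norm_num) h5.ne']
    refine Real.log_le_log (by positivity) ?_
    nlinarith
  · simp
    exact Real.log_nonneg (by norm_num)

theorem tendsto_LL : Tendsto (fun n : ℕ => Real.log (Real.log n)) atTop atTop :=
  Real.tendsto_log_atTop.comp (Real.tendsto_log_atTop.comp tendsto_natCast_atTop_atTop)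

end Final

open Final in
/-- two different parameters cannot both be in the transition -/
theorem dichotomy (l : ℕ) (hl : 1 ≤ l) (f : ℕ → ℝ) (hf : ∀ n, 0 < f n)
    (hp : ∀ b : ℝ, ∀ᶠ n : ℕ in atTop, pc l n + b * f n ∈ Set.Icc (0 : ℝ) 1) (Φ : ℝ → ℝ)
    (hΦ : ∀ b, Tendsto (fun n => dens l n (pnb l f b n)) atTop (𝓝 (Φ b))) :
    (∀ b, Φ b = 1) ∨ ∃ b0 ≤ 0, (∀ b < b0, Φ b = 0) ∧ ∀ b, b0 < b → Φ b = 1 := by
  have hlr : (0 : ℝ) < l := by exact_mod_cast (by omega : 0 < l)
  set x : ℕ → ℝ := fun n => f n / pc l n with hx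
  -- basic facts
  have hbase : ∀ b : ℝ, ∀ᶠ n : ℕ in atTop, 3 ≤ n ∧ 0 < x n ∧ |b * x n| ≤ 1 / 2 ∧
      ((pnb l f b n : ℝ) = pc l n * (1 + b * x n)) := by
    intro b
    filter_upwards [eventually_ge_atTop 3, hp (-(2 * (|b| + 1))), hp b] with n hn h1 h2
    have hpc := pc_pos (l := l) hn
    have hxn : 0 < x n := div_pos (hf n) hpc
    refine ⟨hn, hxn, ?_, ?_⟩
    · rw [abs_mul, abs_of_pos hxn]
      have h3 := h1.1
      have h4 : 2 * (|b| + 1) * x n ≤ 1 := by
        rw [hx]
        simp only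
        rw [mul_div_assoc', div_le_one hpc]
        linarith
      nlinarith [abs_nonneg b]
    · unfold pnb
      rw [Set.coe_projIcc]
      have h3 : max 0 (min 1 (pc l n + b * f n)) = pc l n + b * f n := by
        rw [min_eq_right h2.2, max_eq_right h2.1]
      rw [h3, hx]
      simp only
      field_simp
  have h01 : ∀ b, 0 ≤ Φ b ∧ Φ b ≤ 1 := fun b =>
    ⟨ge_of_tendsto' (hΦ b) (fun n => dens_nonneg _ _ _),
      le_of_tendsto' (hΦ b) (fun n => dens_le_one _ _ _)⟩
  -- nonnegative parameters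
  have hpos : ∀ b, 0 ≤ b → Φ b = 1 := by
    intro b hb
    refine le_antisymm (h01 b).2 ?_
    refine le_of_forall_pos_le_add fun ε hε => ?_
    obtain ⟨δ, hδ, hup⟩ := up_dens l hl ε hε
    have h1 : 1 - ε ≤ Φ b := by
      refine ge_of_tendsto (hΦ b) ?_
      filter_upwards [hup, hbase b, tendsto_LL.eventually_ge_atTop (Real.log 4 - Real.log δ),
        tendsto_LL.eventually_ge_atTop 0] with n h2 h3 h4 h4'
      obtain ⟨hn, hxn, habs, hpe⟩ := h3
      have hpc := pc_pos (l := l) hn
      rw [abs_le] at habs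
      have hL1 : (1 : ℝ) < n := by exact_mod_cast (by omega : 1 < n)
      have hL : 0 < Real.log n := Real.log_pos hL1
      refine h2 _ ?_ ?_ ?_
      · rw [hpe]; nlinarith
      · rw [hpe]; nlinarith
      · rw [hpe, qh_le_iff hl hn (by linarith) hδ, RR_eq hl hn (by linarith)]
        have h5 := gg_le hl hn (c := 1 + b * x n) (by linarith) (by linarith)
        have h6 : 1 ≤ (1 + b * x n) ^ l := one_le_pow₀ (by nlinarith)
        have h7 : 0 ≤ 2 / (l : ℝ) * Real.log n := by positivity
        have h8 : 2 / (l : ℝ) * Real.log n ≤ 2 / (l : ℝ) * Real.log n * (1 + b * x n) ^ l := by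
          nlinarith
        have h9 : (0 : ℝ) ≤ 2 / l := by positivity
        nlinarith
    linarith
  -- the dichotomy for two parameters
  have hdi : ∀ b b', b < b' → Φ b' ≠ 1 → Φ b = 0 := by
    intro b b' hbb hne
    set ε : ℝ := (1 - Φ b') / 2 with hε
    have hεpos : 0 < ε := by
      have := lt_of_le_of_ne (h01 b').2 hne
      rw [hε]; linarith
    obtain ⟨δ, hδ, hup⟩ := up_dens l hl ε hεpos
    have hR' : ∀ᶠ n : ℕ in atTop, Real.log δ ≤ RR l n (pc l n * (1 + b' * x n)) := by
      have h1 : ∀ᶠ n : ℕ in atTop, dens l n (pnb l f b' n) < 1 - ε := by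
        refine (hΦ b').eventually_lt_const ?_
        rw [hε] at hεpos ⊢
        linarith
      filter_upwards [h1, hup, hbase b'] with n h2 h3 h4
      obtain ⟨hn, hxn, habs, hpe⟩ := h4
      have hpc := pc_pos (l := l) hn
      rw [abs_le] at habs
      by_contra hcon
      push Not at hcon
      have h5 := h3 (pnb l f b' n) (by rw [hpe]; nlinarith) (by rw [hpe]; nlinarith)
        (by rw [hpe]; exact (qh_le_iff hl hn (by linarith) hδ).2 hcon.le)
      linarith
    -- L x tends to infinity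
    have hLx : ∀ K : ℝ, ∀ᶠ n : ℕ in atTop, K ≤ -(2 * b') * (Real.log n * x n) := by
      intro K
      filter_upwards [hR', hbase b', tendsto_LL.eventually_ge_atTop (K - Real.log δ + Real.log 4),
        tendsto_LL.eventually_ge_atTop 0] with n h2 h3 h4 h4'
      obtain ⟨hn, hxn, habs, hpe⟩ := h3
      rw [abs_le] at habs
      have hL1 : (1 : ℝ) < n := by exact_mod_cast (by omega : 1 < n)
      have hL : 0 < Real.log n := Real.log_pos hL1
      rw [RR_eq hl hn (by linarith)] at h2
      have h5 := gg_le hl hn (c := 1 + b' * x n) (by linarith) (by linarith)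
      have h6 := one_add_mul_le_pow (a := b' * x n) (by linarith) l
      have h7 : 0 ≤ 2 / (l : ℝ) * Real.log n := by positivity
      have h8 : 2 / (l : ℝ) * Real.log n * (1 + l * (b' * x n)) ≤
          2 / (l : ℝ) * Real.log n * (1 + b' * x n) ^ l := mul_le_mul_of_nonneg_left h6 h7
      have h9 : 2 / (l : ℝ) * Real.log n * (1 + l * (b' * x n)) =
          2 / (l : ℝ) * Real.log n + 2 * b' * (Real.log n * x n) := by
        field_simp
      have h10 : (0 : ℝ) ≤ 2 / l := by positivity
      nlinarith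
    have hb'neg : 0 < -(2 * b') := by
      obtain ⟨n, h1, h2⟩ := ((hLx 1).and (hbase b')).exists
      have hL1 : (1 : ℝ) < n := by exact_mod_cast (by omega : 1 < n)
      have hL : 0 < Real.log n := Real.log_pos hL1
      have h3 : 0 < Real.log n * x n := mul_pos hL h2.2.1
      by_contra hcon
      push Not at hcon
      nlinarith
    have hR : ∀ K : ℝ, ∀ᶠ n : ℕ in atTop, K ≤ RR l n (pc l n * (1 + b * x n)) := by
      intro K
      set C : ℝ := 2 / l * ((b' - b) * (1 / 2) ^ (l - 1)) with hC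
      have hCpos : 0 < C := by
        have : 0 < b' - b := by linarith
        rw [hC]; positivity
      filter_upwards [hR', hbase b', hbase b,
        hLx (-(2 * b') * ((K - Real.log δ + Real.log 3) / C))] with n h2 h3 h3' h4
      obtain ⟨hn, hxn, habs, hpe⟩ := h3
      obtain ⟨_, _, habs', hpe'⟩ := h3'
      rw [abs_le] at habs habs'
      have hL1 : (1 : ℝ) < n := by exact_mod_cast (by omega : 1 < n)
      have hL : 0 < Real.log n := Real.log_pos hL1
      have h5 : (K - Real.log δ + Real.log 3) / C ≤ Real.log n * x n :=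
        le_of_mul_le_mul_left h4 hb'neg
      rw [div_le_iff₀ hCpos] at h5
      rw [RR_eq hl hn (by linarith)] at h2 ⊢
      have h6 := gg_compare (l := l) hn (c := 1 + b * x n) (c' := 1 + b' * x n) (by linarith)
        (by linarith) (by linarith)
      have h7 : (b' - b) * x n * (1 / 2) ^ (l - 1) ≤
          (1 + b' * x n) ^ l - (1 + b * x n) ^ l := by
        obtain ⟨m, rfl⟩ : ∃ m, l = m + 1 := ⟨l - 1, by omega⟩
        rw [Nat.add_sub_cancel]
        have a1 : 1 + b * x n ≤ 1 + b' * x n := by nlinarith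
        have a2 : (1 / 2 : ℝ) ^ m ≤ (1 + b * x n) ^ m :=
          pow_le_pow_left₀ (by norm_num) (by linarith) m
        have a3 : (1 + b * x n) ^ m ≤ (1 + b' * x n) ^ m :=
          pow_le_pow_left₀ (by linarith) a1 m
        have a4 : 0 ≤ (b' - b) * x n := mul_nonneg (by linarith) hxn.le
        rw [pow_succ, pow_succ]
        nlinarith
      have h8 : 0 ≤ 2 / (l : ℝ) * Real.log n := by positivity
      have h9 := mul_le_mul_of_nonneg_left h7 h8
      have h10 : 2 / (l : ℝ) * Real.log n * ((b' - b) * x n * (1 / 2) ^ (l - 1)) =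
          Real.log n * x n * C := by
        rw [hC]; ring
      rw [h10] at h9
      nlinarith
    refine le_antisymm ?_ (h01 b).1
    refine le_of_forall_pos_le_add fun ε' hε' => ?_
    obtain ⟨Λ, hΛ, hlow⟩ := low_dens l hl ε' hε'
    rw [zero_add]
    refine le_of_tendsto (hΦ b) ?_
    filter_upwards [hlow, hbase b, hR (Real.log Λ)] with n h2 h3 h4
    obtain ⟨hn, hxn, habs, hpe⟩ := h3
    have hpc := pc_pos (l := l) hn
    rw [abs_le] at habs
    refine h2 _ (by rw [hpe]; nlinarith) (by rw [hpe]; nlinarith) ?_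
    rw [hpe]
    exact (le_qh_iff hl hn (by linarith) hΛ).2 h4
  -- conclusion
  set S : Set ℝ := {b | Φ b = 1} with hS
  by_cases hbdd : BddBelow S
  · right
    have h0S : (0 : ℝ) ∈ S := hpos 0 le_rfl
    refine ⟨sInf S, csInf_le hbdd h0S, ?_, ?_⟩
    · intro b hb
      obtain ⟨b', h1, h2⟩ := exists_between hb
      exact hdi b b' h1 (fun h => absurd (csInf_le hbdd (show b' ∈ S from h)) (not_le.2 h2))
    · intro b hb
      obtain ⟨s, hs, hsb⟩ := exists_lt_of_csInf_lt ⟨0, h0S⟩ hb
      by_contra hcon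
      have h1 := hdi s b hsb hcon
      have h2 : Φ s = 1 := hs
      rw [h1] at h2
      norm_num at h2
  · left
    intro b
    rw [not_bddBelow_iff] at hbdd
    obtain ⟨s, hs, hsb⟩ := hbdd b
    by_contra hcon
    have h1 := hdi s b hsb hcon
    have h2 : Φ s = 1 := hs
    rw [h1] at h2
    norm_num at h2

end Pool.Agent.BP
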