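import Pool.Agent.Lib_MP_94fe03_pr.Base

set_option autoImplicit false

namespace Pool.Agent.BP

/-- a segment of the next column gets filled -/
theorem growR_fill {pol opn seed : Set Z2} {x a b : ℤ}
    (hl : ∀ y, a ≤ y → y ≤ b → Fil pol opn seed (x, y))
    (hp : ∀ y, a ≤ y → y ≤ b → ((x + 1, y) : Z2) ∉ pol)
    (ho : ∃ y, a ≤ y ∧ y ≤ b ∧ ((x + 1, y) : Z2) ∈ opn) :
    ∀ y, a ≤ y → y ≤ b → Fil pol opn seed (x + 1, y) := by
  obtain ⟨y1, h1, h2, h3⟩ := ho
  have hside : ∀ y : ℤ, Nb (x + 1, y) (x, y) := fun y => Or.inr ⟨rfl, by simp⟩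
  have h0 : Fil pol opn seed (x + 1, y1) := Fil.one h3 (hside y1) (hl y1 h1 h2)
  have up : ∀ n : ℕ, y1 + n ≤ b → Fil pol opn seed (x + 1, y1 + n) := by
    intro n
    induction n with
    | zero => intro _; simpa using h0
    | succ n ih =>
      intro hb
      push_cast at hb ⊢
      have hb' : y1 + n ≤ b := by linarith
      refine Fil.two (y := (x, y1 + (n + 1))) (z := (x + 1, y1 + n)) (hp _ (by linarith) (by linarith)) ?_
        (hside _) (Or.inl ⟨rfl, by simp⟩) (hl _ (by linarith) (by linarith)) (ih hb')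
      intro e
      have := congrArg Prod.fst e
      simp at this
  have dn : ∀ n : ℕ, a ≤ y1 - n → Fil pol opn seed (x + 1, y1 - n) := by
    intro n
    induction n with
    | zero => intro _; simpa using h0
    | succ n ih =>
      intro hb
      push_cast at hb ⊢
      have hb' : a ≤ y1 - n := by linarith
      refine Fil.two (y := (x, y1 - (n + 1))) (z := (x + 1, y1 - n)) (hp _ (by linarith) (by linarith)) ?_
        (hside _) (Or.inl ⟨rfl, by simp⟩) (hl _ (by linarith) (by linarith)) (ih hb')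
      intro e
      have := congrArg Prod.fst e
      simp at this
  intro y hy1 hy2
  rcases le_total y1 y with h | h
  · have := up (y - y1).toNat (by rw [Int.toNat_of_nonneg (by linarith)]; linarith)
    rw [Int.toNat_of_nonneg (by linarith)] at this
    simpa using this
  · have := dn (y1 - y).toNat (by rw [Int.toNat_of_nonneg (by linarith)]; linarith)
    rw [Int.toNat_of_nonneg (by linarith)] at this
    simpa using this

theorem LossPath.ge {pol opn : Set Z2} {x0 u0 x u : ℤ} (h : LossPath pol opn x0 u0 x u) :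
    u0 ≤ u := by
  induction h with
  | start => exact le_refl _
  | skip _ ih => exact ih
  | jump t _ _ _ ih =>
    have : (0 : ℤ) ≤ t := Int.natCast_nonneg t
    linarith

theorem LossPath.ext {pol opn : Set Z2} {x0 u0 x u : ℤ} (h : LossPath pol opn x0 u0 x u) (n : ℕ) :
    LossPath pol opn x0 u0 (x + n) u := by
  induction n with
  | zero => simpa using h
  | succ n ih =>
    push_cast
    rw [← add_assoc]
    exact ih.skip

theorem LossPath.ext' {pol opn : Set Z2} {x0 u0 x u x' : ℤ} (h : LossPath pol opn x0 u0 x u)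
    (hx : x ≤ x') : LossPath pol opn x0 u0 x' u := by
  have := h.ext (x' - x).toNat
  rw [Int.toNat_of_nonneg (by linarith)] at this
  simpa using this

/-- growth to the right from the filled column `x0 + 1` -/
theorem grow_right {pol opn seed : Set Z2} (hop : ∀ z ∈ opn, z ∉ pol) {x0 u0 v0 : ℤ}
    {W T h : ℕ} (hh : 0 < h) (hlen : u0 + 2 * T + 3 * h ≤ v0)
    (hsep : ∀ x y x' y' : ℤ, x0 ≤ x → x ≤ x0 + W + 2 → u0 ≤ y → y ≤ v0 →
      x0 ≤ x' → x' ≤ x0 + W + 2 → u0 ≤ y' → y' ≤ v0 → ((x, y) : Z2) ∈ pol →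
      ((x', y') : Z2) ∈ pol → |x - x'| ≤ 2 → x = x' ∧ y = y')
    (hopn : ∀ x y : ℤ, x0 ≤ x → x ≤ x0 + W + 2 → u0 ≤ y → y + h ≤ v0 + 1 →
      ∃ k : ℕ, k < h ∧ ((x, y + k) : Z2) ∈ opn)
    (hlow : ∀ u, LossPath pol opn x0 u0 (x0 + W) u → u ≤ u0 + T)
    (hup : ∀ u, LossPath (refl pol) (refl opn) x0 (-v0) (x0 + W) u → u ≤ -v0 + T)
    (hstart : ∀ y : ℤ, u0 ≤ y → y ≤ v0 → ((x0 + 1, y) : Z2) ∉ pol →
      Fil pol opn seed (x0 + 1, y)) :
    ∀ x y : ℤ, x0 + 1 ≤ x → x ≤ x0 + W → u0 + T ≤ y → y ≤ v0 - T → ((x, y) : Z2) ∉ pol →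
      Fil pol opn seed (x, y) := by
  have hh' : (1 : ℤ) ≤ h := by exact_mod_cast hh
  have hT0 : (0 : ℤ) ≤ T := Int.natCast_nonneg T
  have hlo : ∀ x u, x ≤ x0 + W → LossPath pol opn x0 u0 x u → u ≤ u0 + T := fun x u hx hp =>
    hlow u (hp.ext' hx)
  have hhi : ∀ x v, x ≤ x0 + W → LossPath (refl pol) (refl opn) x0 (-v0) x (-v) → v0 - T ≤ v := by
    intro x v hx hp
    have := hup _ (hp.ext' hx)
    linarith
  -- the invariant
  let Inv : ℤ → Prop := fun x => ∃ u v, LossPath pol opn x0 u0 x u ∧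
    LossPath (refl pol) (refl opn) x0 (-v0) x (-v) ∧
    (∀ y, u ≤ y → y ≤ v → ((x, y) : Z2) ∉ pol → Fil pol opn seed (x, y)) ∧
    (∀ y0, u ≤ y0 → y0 ≤ v → ((x, y0) : Z2) ∈ pol →
      (∃ y, u ≤ y ∧ y < y0 ∧ ((x + 1, y) : Z2) ∈ opn) ∧
      (∃ y, y0 < y ∧ y ≤ v ∧ ((x + 1, y) : Z2) ∈ opn))
  -- dealing with a polluted site in column `x+1`
  have settle : ∀ x u v y0 : ℤ, x0 ≤ x → x + 1 ≤ x0 + W → LossPath pol opn x0 u0 x u →
      LossPath (refl pol) (refl opn) x0 (-v0) x (-v) → u ≤ y0 → y0 ≤ v →
      ((x + 1, y0) : Z2) ∈ pol →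
      ((∃ y, u ≤ y ∧ y < y0 ∧ ((x + 1, y) : Z2) ∈ opn) →
        ∀ y, u ≤ y → y < y0 → Fil pol opn seed (x + 1, y)) →
      ((∃ y, y0 < y ∧ y ≤ v ∧ ((x + 1, y) : Z2) ∈ opn) →
        ∀ y, y0 < y → y ≤ v → Fil pol opn seed (x + 1, y)) → Inv (x + 1) := by
    intro x u v y0 hx0 hxW hL hU hy hy' hp hfl hfu
    have hu0 : u0 ≤ u := hL.ge
    have hv0 : v ≤ v0 := by have := hU.ge; linarith
    have huniq : ∀ y, u ≤ y → y ≤ v → ((x + 1, y) : Z2) ∈ pol → y = y0 := by
      intro y h1 h2 h3
      exact (hsep (x + 1) y (x + 1) y0 (by linarith) (by linarith) (by linarith) (by linarith)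
        (by linarith) (by linarith) (by linarith) (by linarith) h3 hp (by simp)).2
    have jumpL : ¬ ((∃ y, u ≤ y ∧ y < y0 ∧ ((x + 1, y) : Z2) ∈ opn) ∧
        (∃ y, u ≤ y ∧ y < y0 ∧ ((x + 2, y) : Z2) ∈ opn)) →
        LossPath pol opn x0 u0 (x + 1) (y0 + 1) := by
      intro hn
      have ht : u + ((y0 - u).toNat : ℤ) = y0 := by
        rw [Int.toNat_of_nonneg (by linarith)]; ring
      have := LossPath.jump (y0 - u).toNat hL (by rw [ht]; exact hp) ?_
      · rw [ht] at this; exact this
      · rw [ht]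
        by_contra hcon
        rw [not_or] at hcon
        apply hn
        obtain ⟨c1, c2⟩ := hcon
        push Not at c1 c2
        exact ⟨c1, c2⟩
    have jumpU : ¬ ((∃ y, y0 < y ∧ y ≤ v ∧ ((x + 1, y) : Z2) ∈ opn) ∧
        (∃ y, y0 < y ∧ y ≤ v ∧ ((x + 2, y) : Z2) ∈ opn)) →
        LossPath (refl pol) (refl opn) x0 (-v0) (x + 1) (-(y0 - 1)) := by
      intro hn
      have ht : -v + ((v - y0).toNat : ℤ) = -y0 := by
        rw [Int.toNat_of_nonneg (by linarith)]; ring
      have := LossPath.jump (v - y0).toNat hU (by rw [ht]; simpa [refl] using hp) ?_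
      · rw [ht] at this
        have e : -y0 + 1 = -(y0 - 1) := by ring
        rw [e] at this
        exact this
      · rw [ht]
        by_contra hcon
        rw [not_or] at hcon
        apply hn
        obtain ⟨c1, c2⟩ := hcon
        push Not at c1 c2
        obtain ⟨y1, a1, a2, a3⟩ := c1
        obtain ⟨y2, b1, b2, b3⟩ := c2
        exact ⟨⟨-y1, by linarith, by linarith, a3⟩, ⟨-y2, by linarith, by linarith, b3⟩⟩
    by_cases hA : (∃ y, u ≤ y ∧ y < y0 ∧ ((x + 1, y) : Z2) ∈ opn) ∧
        (∃ y, u ≤ y ∧ y < y0 ∧ ((x + 2, y) : Z2) ∈ opn)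
    · by_cases hB : (∃ y, y0 < y ∧ y ≤ v ∧ ((x + 1, y) : Z2) ∈ opn) ∧
        (∃ y, y0 < y ∧ y ≤ v ∧ ((x + 2, y) : Z2) ∈ opn)
      · refine ⟨u, v, hL.skip, hU.skip, ?_, ?_⟩
        · intro y h1 h2 h3
          rcases lt_trichotomy y y0 with h | h | h
          · exact hfl hA.1 y h1 h
          · subst h; exact absurd hp h3
          · exact hfu hB.1 y h h2
        · intro y h1 h2 h3
          have := huniq y h1 h2 h3
          subst this
          have e : x + 1 + 1 = x + 2 := by ring
          rw [e]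
          exact ⟨hA.2, hB.2⟩
      · refine ⟨u, y0 - 1, hL.skip, jumpU hB, ?_, ?_⟩
        · intro y h1 h2 _
          exact hfl hA.1 y h1 (by linarith)
        · intro y h1 h2 h3
          have := huniq y h1 (by linarith) h3
          linarith
    · by_cases hB : (∃ y, y0 < y ∧ y ≤ v ∧ ((x + 1, y) : Z2) ∈ opn) ∧
        (∃ y, y0 < y ∧ y ≤ v ∧ ((x + 2, y) : Z2) ∈ opn)
      · refine ⟨y0 + 1, v, jumpL hA, hU.skip, ?_, ?_⟩
        · intro y h1 h2 _
          exact hfu hB.1 y (by linarith) h2
        · intro y h1 h2 h3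
          have := huniq y (by linarith) h2 h3
          linarith
      · exfalso
        have h1 := hlo _ _ hxW (jumpL hA)
        have h2 := hhi _ _ hxW (jumpU hB)
        linarith
  -- induction over the columns
  have main : ∀ n : ℕ, x0 + 1 + n ≤ x0 + W → Inv (x0 + 1 + n) := by
    intro n
    induction n with
    | zero =>
      intro hn
      simp only [Nat.cast_zero, add_zero] at hn ⊢
      by_cases hP : ∃ y0, u0 ≤ y0 ∧ y0 ≤ v0 ∧ ((x0 + 1, y0) : Z2) ∈ pol
      · obtain ⟨y0, h1, h2, h3⟩ := hP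
        have huniq : ∀ y, u0 ≤ y → y ≤ v0 → ((x0 + 1, y) : Z2) ∈ pol → y = y0 := by
          intro y a1 a2 a3
          exact (hsep (x0 + 1) y (x0 + 1) y0 (by linarith) (by linarith) (by linarith)
            (by linarith) (by linarith) (by linarith) (by linarith) (by linarith) a3 h3
            (by simp)).2
        refine settle x0 u0 v0 y0 (le_refl _) hn LossPath.start LossPath.start h1 h2 h3 ?_ ?_
        · intro _ y a1 a2
          refine hstart y a1 (by linarith) fun a3 => ?_
          have := huniq y a1 (by linarith) a3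
          linarith
        · intro _ y a1 a2
          refine hstart y (by linarith) a2 fun a3 => ?_
          have := huniq y (by linarith) a2 a3
          linarith
      · push Not at hP
        refine ⟨u0, v0, LossPath.start.skip, LossPath.start.skip, fun y a1 a2 a3 =>
          hstart y a1 a2 a3, fun y a1 a2 a3 => absurd a3 (hP y a1 a2)⟩
    | succ n ih =>
      intro hn
      push_cast at hn ⊢
      obtain ⟨u, v, hL, hU, hf, hq⟩ := ih (by linarith)
      set x : ℤ := x0 + 1 + n with hxdef
      have hn0 : (0 : ℤ) ≤ n := Int.natCast_nonneg n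
      have hxW : x + 1 ≤ x0 + W := by linarith
      have hx0 : x0 + 1 ≤ x := by linarith
      have e1 : x0 + 1 + ((n : ℤ) + 1) = x + 1 := by rw [hxdef]; ring
      rw [e1]
      have hu0 : u0 ≤ u := hL.ge
      have hv0 : v ≤ v0 := by have := hU.ge; linarith
      have hu1 : u ≤ u0 + T := hlo _ _ (by linarith) hL
      have hv1 : v0 - T ≤ v := hhi _ _ (by linarith) hU
      by_cases hP : ∃ y0, u ≤ y0 ∧ y0 ≤ v ∧ ((x, y0) : Z2) ∈ pol
      · -- column x has a polluted site
        obtain ⟨y0, h1, h2, h3⟩ := hP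
        obtain ⟨⟨y1, a1, a2, a3⟩, ⟨y2, b1, b2, b3⟩⟩ := hq y0 h1 h2 h3
        have huniq : ∀ y, u ≤ y → y ≤ v → ((x, y) : Z2) ∈ pol → y = y0 := by
          intro y a1 a2 a3
          exact (hsep x y x y0 (by linarith) (by linarith) (by linarith)
            (by linarith) (by linarith) (by linarith) (by linarith) (by linarith) a3 h3
            (by simp)).2
        have hnp : ∀ y, u ≤ y → y ≤ v → ((x + 1, y) : Z2) ∉ pol := by
          intro y c1 c2 c3
          have := (hsep x y0 (x + 1) y (by linarith) (by linarith) (by linarith) (by linarith)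
            (by linarith) (by linarith) (by linarith) (by linarith) h3 c3 (by simp)).1
          linarith
        have f1 : ∀ y, u ≤ y → y ≤ y0 - 1 → Fil pol opn seed (x + 1, y) := by
          refine growR_fill (fun y c1 c2 => hf y c1 (by linarith) fun c3 => ?_)
            (fun y c1 c2 => hnp y c1 (by linarith)) ⟨y1, a1, by linarith, a3⟩
          have := huniq y c1 (by linarith) c3
          linarith
        have f2 : ∀ y, y0 + 1 ≤ y → y ≤ v → Fil pol opn seed (x + 1, y) := by
          refine growR_fill (fun y c1 c2 => hf y (by linarith) c2 fun c3 => ?_)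
            (fun y c1 c2 => hnp y (by linarith) c2) ⟨y2, by linarith, b2, b3⟩
          have := huniq y (by linarith) c2 c3
          linarith
        refine ⟨u, v, hL.skip, hU.skip, ?_, fun y c1 c2 c3 => absurd c3 (hnp y c1 c2)⟩
        intro y c1 c2 _
        rcases lt_trichotomy y y0 with h | h | h
        · exact f1 y c1 (by linarith)
        · subst h
          refine Fil.two (y := (x + 1, y - 1)) (z := (x + 1, y + 1)) (hnp y c1 c2) ?_
            (Or.inl ⟨rfl, by simp⟩) (Or.inl ⟨rfl, by simp⟩) (f1 _ (by linarith) (by linarith))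
            (f2 _ (by linarith) (by linarith))
          intro e
          have := congrArg Prod.snd e
          simp only at this
          linarith
        · exact f2 y (by linarith) c2
      · push Not at hP
        have hfx : ∀ y, u ≤ y → y ≤ v → Fil pol opn seed (x, y) := fun y a1 a2 =>
          hf y a1 a2 (hP y a1 a2)
        by_cases hQ : ∃ y0, u ≤ y0 ∧ y0 ≤ v ∧ ((x + 1, y0) : Z2) ∈ pol
        · obtain ⟨y0, h1, h2, h3⟩ := hQ
          have huniq : ∀ y, u ≤ y → y ≤ v → ((x + 1, y) : Z2) ∈ pol → y = y0 := by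
            intro y a1 a2 a3
            exact (hsep (x + 1) y (x + 1) y0 (by linarith) (by linarith) (by linarith)
              (by linarith) (by linarith) (by linarith) (by linarith) (by linarith) a3 h3
              (by simp)).2
          refine settle x u v y0 (by linarith) hxW hL hU h1 h2 h3 ?_ ?_
          · rintro ⟨y1, a1, a2, a3⟩
            have := growR_fill (a := u) (b := y0 - 1) (fun y c1 c2 => hfx y c1 (by linarith))
              (fun y c1 c2 c3 => by have := huniq y c1 (by linarith) c3; linarith)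
              ⟨y1, a1, by linarith, a3⟩
            intro y c1 c2
            exact this y c1 (by linarith)
          · rintro ⟨y1, a1, a2, a3⟩
            have := growR_fill (a := y0 + 1) (b := v) (fun y c1 c2 => hfx y (by linarith) c2)
              (fun y c1 c2 c3 => by have := huniq y (by linarith) c2 c3; linarith)
              ⟨y1, by linarith, a2, a3⟩
            intro y c1 c2
            exact this y (by linarith) c2
        · push Not at hQ
          obtain ⟨k, hk, hko⟩ := hopn (x + 1) u (by linarith) (by linarith) hu0 (by linarith)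
          have hk' : (k : ℤ) < h := by exact_mod_cast hk
          have hk0 : (0 : ℤ) ≤ k := Int.natCast_nonneg k
          have := growR_fill hfx hQ ⟨u + k, by linarith, by linarith, hko⟩
          exact ⟨u, v, hL.skip, hU.skip, fun y a1 a2 _ => this y a1 a2,
            fun y a1 a2 a3 => absurd a3 (hQ y a1 a2)⟩
  intro x y hx1 hx2 hy1 hy2 hxy
  have hcast : x0 + 1 + ((x - x0 - 1).toNat : ℤ) = x := by
    rw [Int.toNat_of_nonneg (by linarith)]; ring
  obtain ⟨u, v, hL, hU, hf, _⟩ := main (x - x0 - 1).toNat (by rw [hcast]; exact hx2)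
  rw [hcast] at hL hU hf
  exact hf y (by have := hlo _ _ hx2 hL; linarith) (by have := hhi _ _ hx2 hU; linarith) hxy

end Pool.Agent.BP
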