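import Pool.Agent.Lib_MP_94fe03_pr.Base

set_option autoImplicit false

namespace Pool.Agent.BP

namespace HamDet

theorem step {n r : ℕ} {ω : Sq n} {i j : Fin n} (A B : Finset (Fin n))
    (hA : ∀ j' ∈ A, j' ≠ j ∧ Cl r ω (i, j')) (hB : ∀ i' ∈ B, i' ≠ i ∧ Cl r ω (i', j))
    (h : r ≤ A.card + B.card) : Cl r ω (i, j) := by
  classical
  refine Cl.add (A.image (fun j' => (i, j')) ∪ B.image (fun i' => (i', j))) ?_ ?_ ?_
  · intro w hw
    rcases Finset.mem_union.1 hw with hw | hw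
    · obtain ⟨j', hj', rfl⟩ := Finset.mem_image.1 hw
      refine ⟨?_, Or.inl rfl⟩
      intro h
      exact (hA j' hj').1 (congrArg Prod.snd h).symm
    · obtain ⟨i', hi', rfl⟩ := Finset.mem_image.1 hw
      refine ⟨?_, Or.inr rfl⟩
      intro h
      exact (hB i' hi').1 (congrArg Prod.fst h).symm
  · rw [Finset.card_union_of_disjoint, Finset.card_image_of_injective, Finset.card_image_of_injective]
    · exact h
    · intro a b hab
      exact congrArg Prod.fst hab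
    · intro a b hab
      exact congrArg Prod.snd hab
    · rw [Finset.disjoint_left]
      intro w hw hw'
      obtain ⟨j', hj', rfl⟩ := Finset.mem_image.1 hw
      obtain ⟨i', hi', h2⟩ := Finset.mem_image.1 hw'
      exact (hA j' hj').1 (congrArg Prod.snd h2).symm
  · intro w hw
    rcases Finset.mem_union.1 hw with hw | hw
    · obtain ⟨j', hj', rfl⟩ := Finset.mem_image.1 hw
      exact (hA j' hj').2
    · obtain ⟨i', hi', rfl⟩ := Finset.mem_image.1 hw
      exact (hB i' hi').2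

/-- the occupied columns of a row -/
def rw_ {n : ℕ} (ω : Sq n) (i : Fin n) : Finset (Fin n) := Finset.univ.filter (fun j => ω (i, j) = true)

/-- the occupied rows of a column -/
def cl_ {n : ℕ} (ω : Sq n) (j : Fin n) : Finset (Fin n) := Finset.univ.filter (fun i => ω (i, j) = true)

theorem mem_rw {n : ℕ} {ω : Sq n} {i j : Fin n} : j ∈ rw_ ω i ↔ ω (i, j) = true := by
  simp [rw_]

theorem mem_cl {n : ℕ} {ω : Sq n} {i j : Fin n} : i ∈ cl_ ω j ↔ ω (i, j) = true := by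
  simp [cl_]

theorem not_mem_rw {n : ℕ} {ω : Sq n} {i j : Fin n} (h : ω (i, j) = false) : j ∉ rw_ ω i := by
  simp [rw_, h]

theorem not_mem_cl {n : ℕ} {ω : Sq n} {i j : Fin n} (h : ω (i, j) = false) : i ∉ cl_ ω j := by
  simp [cl_, h]

theorem ncard_rw {n : ℕ} (ω : Sq n) (i : Fin n) : {j | ω (i, j) = true}.ncard = (rw_ ω i).card := by
  rw [← Set.ncard_coe_finset]
  congr 1
  ext j
  simp [rw_]

theorem ncard_cl {n : ℕ} (ω : Sq n) (j : Fin n) : {i | ω (i, j) = true}.ncard = (cl_ ω j).card := by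
  rw [← Set.ncard_coe_finset]
  congr 1
  ext i
  simp [cl_]

theorem rw_Cl {n r : ℕ} {ω : Sq n} {i j : Fin n} (hj : j ∈ rw_ ω i) : Cl r ω (i, j) :=
  Cl.init (mem_rw.1 hj)

theorem cl_Cl {n r : ℕ} {ω : Sq n} {i j : Fin n} (hi : i ∈ cl_ ω j) : Cl r ω (i, j) :=
  Cl.init (mem_cl.1 hi)

theorem ne_of_mem {n : ℕ} {A : Finset (Fin n)} {x y : Fin n} (hx : x ∈ A) (hy : y ∉ A) : x ≠ y :=
  fun h => hy (h ▸ hx)

end HamDet

open HamDet in
/-- spanning a Hamming square with even threshold -/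
theorem span_even {n l : ℕ} (hl : 1 ≤ l) {ω : Sq n} {i0 j0 : Fin n} (h0 : ω (i0, j0) = false)
    (hr : l ≤ {j | ω (i0, j) = true}.ncard) (hc : l ≤ {i | ω (i, j0) = true}.ncard)
    (hJ : 2 * l + 1 ≤ {j | j ≠ j0 ∧ ω (i0, j) = false ∧
      l ≤ {i | ω (i, j) = true}.ncard + 1}.ncard)
    (hI : 2 * l + 1 ≤ {i | i ≠ i0 ∧ ω (i, j0) = false ∧
      l ≤ {j | ω (i, j) = true}.ncard + 1}.ncard) :
    Span (2 * l) ω := by
  classical
  simp only [ncard_rw, ncard_cl] at hr hc hJ hI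
  set J : Finset (Fin n) := Finset.univ.filter (fun j => j ≠ j0 ∧ ω (i0, j) = false ∧
    l ≤ (cl_ ω j).card + 1) with hJdef
  set I : Finset (Fin n) := Finset.univ.filter (fun i => i ≠ i0 ∧ ω (i, j0) = false ∧
    l ≤ (rw_ ω i).card + 1) with hIdef
  have hJc : 2 * l + 1 ≤ J.card := by
    refine hJ.trans (le_of_eq ?_)
    rw [← Set.ncard_coe_finset]
    congr 1
    ext j
    simp [hJdef]
  have hIc : 2 * l + 1 ≤ I.card := by
    refine hI.trans (le_of_eq ?_)
    rw [← Set.ncard_coe_finset]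
    congr 1
    ext j
    simp [hIdef]
  have mJ : ∀ j ∈ J, j ≠ j0 ∧ ω (i0, j) = false ∧ l ≤ (cl_ ω j).card + 1 := fun j hj =>
    (Finset.mem_filter.1 hj).2
  have mI : ∀ i ∈ I, i ≠ i0 ∧ ω (i, j0) = false ∧ l ≤ (rw_ ω i).card + 1 := fun i hi =>
    (Finset.mem_filter.1 hi).2
  have s1 : Cl (2 * l) ω (i0, j0) := by
    refine step (rw_ ω i0) (cl_ ω j0) (fun j' hj' => ⟨ne_of_mem hj' (not_mem_rw h0), rw_Cl hj'⟩)
      (fun i' hi' => ⟨ne_of_mem hi' (not_mem_cl h0), cl_Cl hi'⟩) (by omega)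
  have s2 : ∀ j ∈ J, Cl (2 * l) ω (i0, j) := by
    intro j hj
    obtain ⟨a1, a2, a3⟩ := mJ j hj
    refine step (insert j0 (rw_ ω i0)) (cl_ ω j) ?_
      (fun i' hi' => ⟨ne_of_mem hi' (not_mem_cl a2), cl_Cl hi'⟩) ?_
    · intro j' hj'
      rcases Finset.mem_insert.1 hj' with rfl | hj'
      · exact ⟨a1.symm, s1⟩
      · exact ⟨ne_of_mem hj' (not_mem_rw a2), rw_Cl hj'⟩
    · rw [Finset.card_insert_of_notMem (not_mem_rw h0)]
      omega
  have s3 : ∀ j, Cl (2 * l) ω (i0, j) := by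
    intro j
    refine step (J.erase j) ∅ (fun j' hj' => ⟨Finset.ne_of_mem_erase hj',
      s2 j' (Finset.mem_of_mem_erase hj')⟩) (fun i' hi' => by simp at hi') ?_
    have := Finset.pred_card_le_card_erase (s := J) (a := j)
    simp only [Finset.card_empty]
    omega
  have s4 : ∀ i ∈ I, Cl (2 * l) ω (i, j0) := by
    intro i hi
    obtain ⟨a1, a2, a3⟩ := mI i hi
    refine step (rw_ ω i) (insert i0 (cl_ ω j0))
      (fun j' hj' => ⟨ne_of_mem hj' (not_mem_rw a2), rw_Cl hj'⟩) ?_ ?_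
    · intro i' hi'
      rcases Finset.mem_insert.1 hi' with rfl | hi'
      · exact ⟨a1.symm, s1⟩
      · exact ⟨ne_of_mem hi' (not_mem_cl a2), cl_Cl hi'⟩
    · rw [Finset.card_insert_of_notMem (not_mem_cl h0)]
      omega
  have s5 : ∀ i ∈ I, ∀ j ∈ J, Cl (2 * l) ω (i, j) := by
    intro i hi j hj
    obtain ⟨a1, a2, a3⟩ := mI i hi
    obtain ⟨b1, b2, b3⟩ := mJ j hj
    rcases Bool.eq_false_or_eq_true (ω (i, j)) with hij | hij
    · exact Cl.init hij
    refine step (insert j0 (rw_ ω i)) (insert i0 (cl_ ω j)) ?_ ?_ ?_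
    · intro j' hj'
      rcases Finset.mem_insert.1 hj' with rfl | hj'
      · exact ⟨b1.symm, s4 i hi⟩
      · exact ⟨ne_of_mem hj' (not_mem_rw hij), rw_Cl hj'⟩
    · intro i' hi'
      rcases Finset.mem_insert.1 hi' with rfl | hi'
      · exact ⟨a1.symm, s2 j hj⟩
      · exact ⟨ne_of_mem hi' (not_mem_cl hij), cl_Cl hi'⟩
    · rw [Finset.card_insert_of_notMem (not_mem_rw a2), Finset.card_insert_of_notMem (not_mem_cl b2)]
      omega
  have s6 : ∀ i ∈ I, ∀ j, Cl (2 * l) ω (i, j) := by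
    intro i hi j
    refine step (J.erase j) ∅ (fun j' hj' => ⟨Finset.ne_of_mem_erase hj',
      s5 i hi j' (Finset.mem_of_mem_erase hj')⟩) (fun i' hi' => by simp at hi') ?_
    have := Finset.pred_card_le_card_erase (s := J) (a := j)
    simp only [Finset.card_empty]
    omega
  rintro ⟨i, j⟩
  refine step ∅ (I.erase i) (fun j' hj' => by simp at hj')
    (fun i' hi' => ⟨Finset.ne_of_mem_erase hi', s6 i' (Finset.mem_of_mem_erase hi') j⟩) ?_
  have := Finset.pred_card_le_card_erase (s := I) (a := i)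
  simp only [Finset.card_empty]
  omega

open HamDet in
/-- spanning a Hamming square with odd threshold -/
theorem span_odd {n l : ℕ} (hl : 1 ≤ l) {ω : Sq n} {i0 i1 j0 : Fin n} (hi : i0 ≠ i1)
    (h0 : ω (i0, j0) = false) (h1 : ω (i1, j0) = false)
    (hr : l + 1 ≤ {j | ω (i0, j) = true}.ncard) (hr1 : l ≤ {j | ω (i1, j) = true}.ncard)
    (hc : l ≤ {i | ω (i, j0) = true}.ncard)
    (hJ : 2 * l + 2 ≤ {j | j ≠ j0 ∧ ω (i0, j) = false ∧ ω (i1, j) = false ∧
      l ≤ {i | ω (i, j) = true}.ncard + 1}.ncard)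
    (hI : 2 * l + 1 ≤ {i | i ≠ i0 ∧ i ≠ i1 ∧ ω (i, j0) = false ∧
      l ≤ {j | ω (i, j) = true}.ncard + 1}.ncard) :
    Span (2 * l + 1) ω := by
  classical
  simp only [ncard_rw, ncard_cl] at hr hr1 hc hJ hI
  set J : Finset (Fin n) := Finset.univ.filter (fun j => j ≠ j0 ∧ ω (i0, j) = false ∧
    ω (i1, j) = false ∧ l ≤ (cl_ ω j).card + 1) with hJdef
  set I : Finset (Fin n) := Finset.univ.filter (fun i => i ≠ i0 ∧ i ≠ i1 ∧ ω (i, j0) = false ∧
    l ≤ (rw_ ω i).card + 1) with hIdef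
  have hJc : 2 * l + 2 ≤ J.card := by
    refine hJ.trans (le_of_eq ?_)
    rw [← Set.ncard_coe_finset]
    congr 1
    ext j
    simp [hJdef]
  have hIc : 2 * l + 1 ≤ I.card := by
    refine hI.trans (le_of_eq ?_)
    rw [← Set.ncard_coe_finset]
    congr 1
    ext j
    simp [hIdef]
  have mJ : ∀ j ∈ J, j ≠ j0 ∧ ω (i0, j) = false ∧ ω (i1, j) = false ∧ l ≤ (cl_ ω j).card + 1 :=
    fun j hj => (Finset.mem_filter.1 hj).2
  have mI : ∀ i ∈ I, i ≠ i0 ∧ i ≠ i1 ∧ ω (i, j0) = false ∧ l ≤ (rw_ ω i).card + 1 := fun i hi =>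
    (Finset.mem_filter.1 hi).2
  have s1 : Cl (2 * l + 1) ω (i0, j0) := by
    refine step (rw_ ω i0) (cl_ ω j0) (fun j' hj' => ⟨ne_of_mem hj' (not_mem_rw h0), rw_Cl hj'⟩)
      (fun i' hi' => ⟨ne_of_mem hi' (not_mem_cl h0), cl_Cl hi'⟩) (by omega)
  have s1' : Cl (2 * l + 1) ω (i1, j0) := by
    refine step (rw_ ω i1) (insert i0 (cl_ ω j0))
      (fun j' hj' => ⟨ne_of_mem hj' (not_mem_rw h1), rw_Cl hj'⟩) ?_ ?_
    · intro i' hi'
      rcases Finset.mem_insert.1 hi' with rfl | hi'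
      · exact ⟨hi, s1⟩
      · exact ⟨ne_of_mem hi' (not_mem_cl h1), cl_Cl hi'⟩
    · rw [Finset.card_insert_of_notMem (not_mem_cl h0)]
      omega
  have s2 : ∀ j ∈ J, Cl (2 * l + 1) ω (i0, j) := by
    intro j hj
    obtain ⟨a1, a2, a2', a3⟩ := mJ j hj
    refine step (insert j0 (rw_ ω i0)) (cl_ ω j) ?_
      (fun i' hi' => ⟨ne_of_mem hi' (not_mem_cl a2), cl_Cl hi'⟩) ?_
    · intro j' hj'
      rcases Finset.mem_insert.1 hj' with rfl | hj'
      · exact ⟨a1.symm, s1⟩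
      · exact ⟨ne_of_mem hj' (not_mem_rw a2), rw_Cl hj'⟩
    · rw [Finset.card_insert_of_notMem (not_mem_rw h0)]
      omega
  have s2' : ∀ j ∈ J, Cl (2 * l + 1) ω (i1, j) := by
    intro j hj
    obtain ⟨a1, a2, a2', a3⟩ := mJ j hj
    refine step (insert j0 (rw_ ω i1)) (insert i0 (cl_ ω j)) ?_ ?_ ?_
    · intro j' hj'
      rcases Finset.mem_insert.1 hj' with rfl | hj'
      · exact ⟨a1.symm, s1'⟩
      · exact ⟨ne_of_mem hj' (not_mem_rw a2'), rw_Cl hj'⟩
    · intro i' hi'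
      rcases Finset.mem_insert.1 hi' with rfl | hi'
      · exact ⟨hi, s2 j hj⟩
      · exact ⟨ne_of_mem hi' (not_mem_cl a2'), cl_Cl hi'⟩
    · rw [Finset.card_insert_of_notMem (not_mem_rw h1), Finset.card_insert_of_notMem (not_mem_cl a2)]
      omega
  have s3 : ∀ j, Cl (2 * l + 1) ω (i0, j) := by
    intro j
    refine step (J.erase j) ∅ (fun j' hj' => ⟨Finset.ne_of_mem_erase hj',
      s2 j' (Finset.mem_of_mem_erase hj')⟩) (fun i' hi' => by simp at hi') ?_
    have := Finset.pred_card_le_card_erase (s := J) (a := j)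
    simp only [Finset.card_empty]
    omega
  have s4 : ∀ i ∈ I, Cl (2 * l + 1) ω (i, j0) := by
    intro i hi'
    obtain ⟨a1, a1', a2, a3⟩ := mI i hi'
    refine step (rw_ ω i) (insert i1 (insert i0 (cl_ ω j0)))
      (fun j' hj' => ⟨ne_of_mem hj' (not_mem_rw a2), rw_Cl hj'⟩) ?_ ?_
    · intro i' hi'
      rcases Finset.mem_insert.1 hi' with rfl | hi'
      · exact ⟨a1'.symm, s1'⟩
      rcases Finset.mem_insert.1 hi' with rfl | hi'
      · exact ⟨a1.symm, s1⟩
      · exact ⟨ne_of_mem hi' (not_mem_cl a2), cl_Cl hi'⟩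
    · rw [Finset.card_insert_of_notMem, Finset.card_insert_of_notMem (not_mem_cl h0)]
      · omega
      · rw [Finset.mem_insert]
        rintro (h | h)
        · exact hi h.symm
        · exact not_mem_cl h1 h
  have s5 : ∀ i ∈ I, ∀ j ∈ J, Cl (2 * l + 1) ω (i, j) := by
    intro i hii j hj
    obtain ⟨a1, a1', a2, a3⟩ := mI i hii
    obtain ⟨b1, b2, b2', b3⟩ := mJ j hj
    rcases Bool.eq_false_or_eq_true (ω (i, j)) with hij | hij
    · exact Cl.init hij
    refine step (insert j0 (rw_ ω i)) (insert i1 (insert i0 (cl_ ω j))) ?_ ?_ ?_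
    · intro j' hj'
      rcases Finset.mem_insert.1 hj' with rfl | hj'
      · exact ⟨b1.symm, s4 i hii⟩
      · exact ⟨ne_of_mem hj' (not_mem_rw hij), rw_Cl hj'⟩
    · intro i' hi'
      rcases Finset.mem_insert.1 hi' with rfl | hi'
      · exact ⟨a1'.symm, s2' j hj⟩
      rcases Finset.mem_insert.1 hi' with rfl | hi'
      · exact ⟨a1.symm, s2 j hj⟩
      · exact ⟨ne_of_mem hi' (not_mem_cl hij), cl_Cl hi'⟩
    · rw [Finset.card_insert_of_notMem (not_mem_rw a2), Finset.card_insert_of_notMem,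
        Finset.card_insert_of_notMem (not_mem_cl b2)]
      · omega
      · rw [Finset.mem_insert]
        rintro (h | h)
        · exact hi h.symm
        · exact not_mem_cl b2' h
  have s6 : ∀ i ∈ I, ∀ j, Cl (2 * l + 1) ω (i, j) := by
    intro i hi j
    refine step (J.erase j) ∅ (fun j' hj' => ⟨Finset.ne_of_mem_erase hj',
      s5 i hi j' (Finset.mem_of_mem_erase hj')⟩) (fun i' hi' => by simp at hi') ?_
    have := Finset.pred_card_le_card_erase (s := J) (a := j)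
    simp only [Finset.card_empty]
    omega
  rintro ⟨i, j⟩
  have hi0I : i0 ∉ I := fun h => (mI i0 h).1 rfl
  refine step ∅ ((insert i0 I).erase i) (fun j' hj' => by simp at hj')
    (fun i' hi' => ⟨Finset.ne_of_mem_erase hi', ?_⟩) ?_
  · rcases Finset.mem_insert.1 (Finset.mem_of_mem_erase hi') with rfl | h
    · exact s3 j
    · exact s6 i' h j
  · have h2 := Finset.pred_card_le_card_erase (s := insert i0 I) (a := i)
    rw [Finset.card_insert_of_notMem hi0I] at h2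
    simp only [Finset.card_empty]
    omega

/-- more sites are needed for a larger threshold -/
theorem Cl.mono_thr {n r r' : ℕ} (h : r ≤ r') {ω : Sq n} {v : Fin n × Fin n} (hv : Cl r' ω v) :
    Cl r ω v := by
  induction hv with
  | init h0 => exact Cl.init h0
  | add s h1 h2 h3 ih => exact Cl.add s h1 (h.trans h2) ih

end Pool.Agent.BP
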