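import Pool.Agent.Lib_MP_94fe03_pr.Base

set_option autoImplicit false

namespace Pool.Agent.BP

/-! auxiliary: perimeter of finite sets (prefix `inn`) -/

/-- number of sites whose translate by `e` is again in the set -/
def innG (e : Z2) (C : Finset Z2) : ℤ := ∑ y ∈ C, if y + e ∈ C then 1 else 0

theorem innG_insert (e : Z2) (he : e ≠ 0) {x : Z2} {C : Finset Z2} (hx : x ∉ C) :
    innG e (insert x C) = innG e C + (if x + e ∈ C then 1 else 0) +
      (if x - e ∈ C then 1 else 0) := by
  unfold innG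
  rw [Finset.sum_insert hx]
  have h1 : (x + e ∈ insert x C) ↔ x + e ∈ C := by
    rw [Finset.mem_insert]
    constructor
    · rintro (h | h)
      · exact absurd (by simpa using h) he
      · exact h
    · exact Or.inr
  have h2 : ∀ y ∈ C, (if y + e ∈ insert x C then (1 : ℤ) else 0) =
      (if y + e ∈ C then 1 else 0) + (if y = x - e then 1 else 0) := by
    intro y _
    by_cases hy : y + e ∈ C
    · have : y ≠ x - e := by
        rintro rfl
        exact hx (by simpa using hy)
      simp [hy, this]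
    · by_cases hy' : y = x - e
      · subst hy'
        simp [hx]
      · have : y + e ≠ x := fun h => hy' (by rw [← h]; simp)
        simp [hy, hy', this]
  rw [Finset.sum_congr rfl h2, Finset.sum_add_distrib, Finset.sum_ite_eq']
  simp only [h1]
  ring

/-- perimeter -/
def innP (C : Finset Z2) : ℤ :=
  4 * C.card - (innG (1, 0) C + innG (-1, 0) C + innG (0, 1) C + innG (0, -1) C)

/-- number of neighbours inside -/
def innD (x : Z2) (C : Finset Z2) : ℤ :=
  (if x + (1, 0) ∈ C then 1 else 0) + (if x + (-1, 0) ∈ C then 1 else 0) +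
  (if x + (0, 1) ∈ C then 1 else 0) + (if x + (0, -1) ∈ C then 1 else 0)

theorem innP_insert {x : Z2} {C : Finset Z2} (hx : x ∉ C) :
    innP (insert x C) = innP C + 4 - 2 * innD x C := by
  unfold innP innD
  rw [innG_insert (1, 0) (by decide) hx, innG_insert (-1, 0) (by decide) hx,
    innG_insert (0, 1) (by decide) hx, innG_insert (0, -1) (by decide) hx,
    Finset.card_insert_of_notMem hx]
  have e1 : x - (1, 0) = x + (-1, 0) := by ext <;> simp [sub_eq_add_neg]
  have e2 : x - (-1, 0) = x + (1, 0) := by ext <;> simp [sub_eq_add_neg]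
  have e3 : x - (0, 1) = x + (0, -1) := by ext <;> simp [sub_eq_add_neg]
  have e4 : x - (0, -1) = x + (0, 1) := by ext <;> simp [sub_eq_add_neg]
  rw [e1, e2, e3, e4]
  push_cast
  ring

theorem innD_nonneg (x : Z2) (C : Finset Z2) : 0 ≤ innD x C := by
  unfold innD
  split_ifs <;> norm_num

theorem inn_nb {x y : Z2} (h : Nb x y) : y = x + (1, 0) ∨ y = x + (-1, 0) ∨ y = x + (0, 1) ∨
    y = x + (0, -1) := by
  obtain ⟨a, b⟩ := x
  obtain ⟨c, d⟩ := y
  rcases h with ⟨h1, h2⟩ | ⟨h1, h2⟩
  · simp only at h1 h2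
    rcases (abs_eq (by norm_num : (0 : ℤ) ≤ 1)).1 h2 with h | h
    · right; right; right
      simp only [Prod.mk_add_mk, Prod.mk.injEq]
      omega
    · right; right; left
      simp only [Prod.mk_add_mk, Prod.mk.injEq]
      omega
  · simp only at h1 h2
    rcases (abs_eq (by norm_num : (0 : ℤ) ≤ 1)).1 h2 with h | h
    · right; left
      simp only [Prod.mk_add_mk, Prod.mk.injEq]
      omega
    · left
      simp only [Prod.mk_add_mk, Prod.mk.injEq]
      omega

theorem innD_two {x y z : Z2} {C : Finset Z2} (hyz : y ≠ z) (hy : Nb x y) (hz : Nb x z)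
    (hyC : y ∈ C) (hzC : z ∈ C) : 2 ≤ innD x C := by
  unfold innD
  rcases inn_nb hy with rfl | rfl | rfl | rfl <;> rcases inn_nb hz with rfl | rfl | rfl | rfl <;>
    first
      | exact absurd rfl hyz
      | (simp only [hyC, hzC, if_true]; split_ifs <;> norm_num)

/-- rows or columns against boundary edges -/
theorem inn_card_image (e : Z2) (π h : Z2 → ℤ) (hπ : ∀ x, π (x + e) = π x)
    (hh : ∀ x, h x < h (x + e)) (C : Finset Z2) :
    ((C.image π).card : ℤ) ≤ C.card - innG e C := by
  have h1 : (C.image π).card ≤ (C.filter fun x => x + e ∉ C).card := by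
    have : C.image π ⊆ (C.filter fun x => x + e ∉ C).image π := by
      intro r hr
      obtain ⟨x, hx, rfl⟩ := Finset.mem_image.1 hr
      obtain ⟨y, hy, hmax⟩ := Finset.exists_max_image (C.filter fun y => π y = π x) h
        ⟨x, Finset.mem_filter.2 ⟨hx, rfl⟩⟩
      rw [Finset.mem_filter] at hy
      refine Finset.mem_image.2 ⟨y, Finset.mem_filter.2 ⟨hy.1, fun hc => ?_⟩, hy.2⟩
      have := hmax (y + e) (Finset.mem_filter.2 ⟨hc, by rw [hπ, hy.2]⟩)
      exact absurd (hh y) (not_lt.2 this)
    exact (Finset.card_le_card this).trans Finset.card_image_le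
  have h2 : innG e C = ((C.filter fun x => x + e ∈ C).card : ℤ) := by
    unfold innG
    rw [Finset.card_filter]
    push_cast
    rfl
  have h3 : (C.filter fun x => x + e ∈ C).card + (C.filter fun x => x + e ∉ C).card = C.card :=
    Finset.card_filter_add_card_filter_not _
  rw [h2, ← h3]
  push_cast
  have : ((C.image π).card : ℤ) ≤ ((C.filter fun x => x + e ∉ C).card : ℤ) := by exact_mod_cast h1
  linarith

theorem innP_lower (C : Finset Z2) :
    2 * ((C.image Prod.fst).card + (C.image Prod.snd).card : ℤ) ≤ innP C := by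
  have h1 := inn_card_image (1, 0) Prod.snd Prod.fst (by intro x; simp) (by intro x; simp) C
  have h2 := inn_card_image (-1, 0) Prod.snd (fun x => -x.1) (by intro x; simp) (by intro x; simp) C
  have h3 := inn_card_image (0, 1) Prod.fst Prod.snd (by intro x; simp) (by intro x; simp) C
  have h4 := inn_card_image (0, -1) Prod.fst (fun x => -x.2) (by intro x; simp) (by intro x; simp) C
  unfold innP
  linarith

/-- sets that can be built up -/
inductive innB (B a1 : Set Z2) : Finset Z2 → Prop
  | nil : innB B a1 ∅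
  | cons {x : Z2} {C : Finset Z2} : innB B a1 C → x ∉ C → x ∈ B →
      (x ∈ a1 ∨ ∃ y ∈ C, ∃ z ∈ C, y ≠ z ∧ Nb x y ∧ Nb x z) → innB B a1 (insert x C)

theorem innB.cons' {B a1 : Set Z2} {x : Z2} {C : Finset Z2} (hC : innB B a1 C) (hB : x ∈ B)
    (h : x ∈ a1 ∨ ∃ y ∈ C, ∃ z ∈ C, y ≠ z ∧ Nb x y ∧ Nb x z) : innB B a1 (insert x C) := by
  by_cases hx : x ∈ C
  · rwa [Finset.insert_eq_of_mem hx]
  · exact hC.cons hx hB h

theorem innB.union {B a1 : Set Z2} {C D : Finset Z2} (hC : innB B a1 C) (hD : innB B a1 D) :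
    innB B a1 (C ∪ D) := by
  induction hD with
  | nil => simpa using hC
  | cons _ _ hxB h ih =>
    rw [Finset.union_insert]
    refine ih.cons' hxB ?_
    rcases h with h | ⟨y, hy, z, hz, h⟩
    · exact Or.inl h
    · exact Or.inr ⟨y, Finset.mem_union_right _ hy, z, Finset.mem_union_right _ hz, h⟩

theorem innB.sub {B a1 : Set Z2} {C : Finset Z2} (hC : innB B a1 C) : ∀ x ∈ C, x ∈ B := by
  induction hC with
  | nil => simp
  | cons _ _ hxB _ ih =>
    intro y hy
    rcases Finset.mem_insert.1 hy with rfl | hy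
    · exact hxB
    · exact ih y hy

open Classical in
theorem innB.upper {B a1 : Set Z2} {C : Finset Z2} (hC : innB B a1 C) :
    innP C ≤ 4 * ((C.filter fun x => x ∈ a1).card : ℤ) := by
  induction hC with
  | nil => simp [innP, innG]
  | @cons x C _ hx _ h ih =>
    rw [innP_insert hx, Finset.filter_insert]
    by_cases hxa : x ∈ a1
    · rw [if_pos hxa, Finset.card_insert_of_notMem (fun h => hx (Finset.mem_filter.1 h).1)]
      have := innD_nonneg x C
      push_cast
      linarith
    · rw [if_neg hxa]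
      rcases h with h | ⟨y, hy, z, hz, hyz, h1, h2⟩
      · exact absurd h hxa
      · have := innD_two hyz h1 h2 hy hz
        linarith

/-- interval projections -/
def innI (C : Finset Z2) : Prop :=
  (∀ a ∈ C, ∀ b ∈ C, ∀ k : ℤ, a.1 ≤ k → k ≤ b.1 → ∃ c ∈ C, c.1 = k) ∧
  (∀ a ∈ C, ∀ b ∈ C, ∀ k : ℤ, a.2 ≤ k → k ≤ b.2 → ∃ c ∈ C, c.2 = k)

theorem innI.insert {C : Finset Z2} (h : innI C) {x y : Z2} (hy : y ∈ C) (hxy : Nb x y) :
    innI (insert x C) := by
  have hd : |x.1 - y.1| ≤ 1 ∧ |x.2 - y.2| ≤ 1 := by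
    rcases hxy with h | h
    · exact ⟨by rw [h.1]; simp, h.2.le⟩
    · exact ⟨h.2.le, by rw [h.1]; simp⟩
  obtain ⟨hd1, hd2⟩ := hd
  rw [abs_le] at hd1 hd2
  constructor
  · intro a ha b hb k hak hkb
    rcases Finset.mem_insert.1 ha with rfl | ha'
    · rcases Finset.mem_insert.1 hb with rfl | hb
      · exact ⟨_, Finset.mem_insert_self _ _, le_antisymm hak hkb⟩
      · by_cases hk : k = a.1
        · exact ⟨_, Finset.mem_insert_self _ _, hk.symm⟩
        · obtain ⟨c, hc, hck⟩ := h.1 y hy b hb k (by omega) hkb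
          exact ⟨c, Finset.mem_insert_of_mem hc, hck⟩
    · rcases Finset.mem_insert.1 hb with rfl | hb
      · by_cases hk : k = b.1
        · exact ⟨_, Finset.mem_insert_self _ _, hk.symm⟩
        · obtain ⟨c, hc, hck⟩ := h.1 a ha' y hy k hak (by omega)
          exact ⟨c, Finset.mem_insert_of_mem hc, hck⟩
      · obtain ⟨c, hc, hck⟩ := h.1 a ha' b hb k hak hkb
        exact ⟨c, Finset.mem_insert_of_mem hc, hck⟩
  · intro a ha b hb k hak hkb
    rcases Finset.mem_insert.1 ha with rfl | ha'
    · rcases Finset.mem_insert.1 hb with rfl | hb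
      · exact ⟨_, Finset.mem_insert_self _ _, le_antisymm hak hkb⟩
      · by_cases hk : k = a.2
        · exact ⟨_, Finset.mem_insert_self _ _, hk.symm⟩
        · obtain ⟨c, hc, hck⟩ := h.2 y hy b hb k (by omega) hkb
          exact ⟨c, Finset.mem_insert_of_mem hc, hck⟩
    · rcases Finset.mem_insert.1 hb with rfl | hb
      · by_cases hk : k = b.2
        · exact ⟨_, Finset.mem_insert_self _ _, hk.symm⟩
        · obtain ⟨c, hc, hck⟩ := h.2 a ha' y hy k hak (by omega)
          exact ⟨c, Finset.mem_insert_of_mem hc, hck⟩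
      · obtain ⟨c, hc, hck⟩ := h.2 a ha' b hb k hak hkb
        exact ⟨c, Finset.mem_insert_of_mem hc, hck⟩

theorem innI.union {C D : Finset Z2} (hC : innI C) (hD : innI D) {x : Z2} (hxC : x ∈ C)
    (hxD : x ∈ D) : innI (C ∪ D) := by
  constructor
  · intro a ha b hb k hak hkb
    by_cases hk : k ≤ x.1
    · rcases Finset.mem_union.1 ha with ha | ha
      · obtain ⟨c, hc, hck⟩ := hC.1 a ha x hxC k hak hk
        exact ⟨c, Finset.mem_union_left _ hc, hck⟩
      · obtain ⟨c, hc, hck⟩ := hD.1 a ha x hxD k hak hk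
        exact ⟨c, Finset.mem_union_right _ hc, hck⟩
    · rcases Finset.mem_union.1 hb with hb | hb
      · obtain ⟨c, hc, hck⟩ := hC.1 x hxC b hb k (by omega) hkb
        exact ⟨c, Finset.mem_union_left _ hc, hck⟩
      · obtain ⟨c, hc, hck⟩ := hD.1 x hxD b hb k (by omega) hkb
        exact ⟨c, Finset.mem_union_right _ hc, hck⟩
  · intro a ha b hb k hak hkb
    by_cases hk : k ≤ x.2
    · rcases Finset.mem_union.1 ha with ha | ha
      · obtain ⟨c, hc, hck⟩ := hC.2 a ha x hxC k hak hk
        exact ⟨c, Finset.mem_union_left _ hc, hck⟩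
      · obtain ⟨c, hc, hck⟩ := hD.2 a ha x hxD k hak hk
        exact ⟨c, Finset.mem_union_right _ hc, hck⟩
    · rcases Finset.mem_union.1 hb with hb | hb
      · obtain ⟨c, hc, hck⟩ := hC.2 x hxC b hb k (by omega) hkb
        exact ⟨c, Finset.mem_union_left _ hc, hck⟩
      · obtain ⟨c, hc, hck⟩ := hD.2 x hxD b hb k (by omega) hkb
        exact ⟨c, Finset.mem_union_right _ hc, hck⟩

/-- an interval of integers contained in the projection -/
theorem inn_dist {C : Finset Z2} (π : Z2 → ℤ)
    (h : ∀ a ∈ C, ∀ b ∈ C, ∀ k : ℤ, π a ≤ k → k ≤ π b → ∃ c ∈ C, π c = k)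
    {a b : Z2} (ha : a ∈ C) (hb : b ∈ C) : π b - π a + 1 ≤ ((C.image π).card : ℤ) := by
  have h1 : Finset.Icc (π a) (π b) ⊆ C.image π := by
    intro k hk
    rw [Finset.mem_Icc] at hk
    obtain ⟨c, hc, hck⟩ := h a ha b hb k hk.1 hk.2
    exact Finset.mem_image.2 ⟨c, hc, hck⟩
  have h2 := Finset.card_le_card h1
  rw [Int.card_Icc] at h2
  have h3 : π b + 1 - π a ≤ ((π b + 1 - π a).toNat : ℤ) := Int.self_le_toNat _
  have : ((π b + 1 - π a).toNat : ℤ) ≤ ((C.image π).card : ℤ) := by exact_mod_cast h2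
  linarith

theorem inn_near {C : Finset Z2} (hI : innI C)
    (hc : ((C.image Prod.fst).card + (C.image Prod.snd).card : ℤ) ≤ 243) {x y : Z2} (hx : x ∈ C)
    (hy : y ∈ C) : Near 241 x y := by
  have h1 : (1 : ℤ) ≤ ((C.image Prod.fst).card : ℤ) := by
    have : 0 < (C.image Prod.fst).card := Finset.card_pos.2 ⟨x.1, Finset.mem_image_of_mem _ hx⟩
    exact_mod_cast this
  have h2 : (1 : ℤ) ≤ ((C.image Prod.snd).card : ℤ) := by
    have : 0 < (C.image Prod.snd).card := Finset.card_pos.2 ⟨x.2, Finset.mem_image_of_mem _ hx⟩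
    exact_mod_cast this
  have a1 := inn_dist Prod.fst hI.1 hx hy
  have a2 := inn_dist Prod.fst hI.1 hy hx
  have a3 := inn_dist Prod.snd hI.2 hx hy
  have a4 := inn_dist Prod.snd hI.2 hy hx
  constructor <;> rw [abs_le] <;> constructor <;> linarith

/-- if every box of side 600 contains at most 81 sites of `a1`, then growth stays local -/
theorem inner {B a0 a1 : Set Z2} (hB : B.Finite) (hsub : a0 ⊆ a1)
    (h : ∀ z : Z2, {y : Z2 | y ∈ B ∧ y ∈ a1 ∧ z.1 ≤ y.1 ∧ y.1 < z.1 + 600 ∧ z.2 ≤ y.2 ∧
      y.2 < z.2 + 600}.ncard ≤ 81) {x : Z2} (hx : Gr B a0 a1 x) :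
    ∃ y ∈ a0, Near 243 x y := by
  classical
  have key : ∀ (C : Finset Z2) (x : Z2), innB B a1 C → (∀ y ∈ C, Near 243 x y) →
      ((C.image Prod.fst).card + (C.image Prod.snd).card : ℤ) ≤ 243 := by
    intro C x hC hbox
    have h1 := hC.upper
    have h2 := innP_lower C
    have h3 : (C.filter fun x => x ∈ a1).card ≤ 81 := by
      refine le_trans ?_ (h (x.1 - 243, x.2 - 243))
      rw [← Set.ncard_coe_finset]
      refine Set.ncard_le_ncard ?_ (hB.subset fun y hy => hy.1)
      intro y hy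
      rw [Finset.mem_coe, Finset.mem_filter] at hy
      obtain ⟨b1, b2⟩ := hbox y hy.1
      rw [abs_le] at b1 b2
      refine ⟨hC.sub y hy.1, hy.2, ?_, ?_, ?_, ?_⟩ <;> simp only <;> linarith
    have h4 : ((C.filter fun x => x ∈ a1).card : ℤ) ≤ 81 := by exact_mod_cast h3
    linarith
  have main : ∃ C : Finset Z2, innB B a1 C ∧ x ∈ C ∧ (∃ y ∈ C, y ∈ a0) ∧ innI C ∧
      ((C.image Prod.fst).card + (C.image Prod.snd).card : ℤ) ≤ 243 := by
    induction hx with
    | @zero x hxB hx0 =>
      refine ⟨{x}, ?_, Finset.mem_singleton_self x, ⟨x, Finset.mem_singleton_self x, hx0⟩, ?_, ?_⟩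
      · exact innB.cons innB.nil (by simp) hxB (Or.inl (hsub hx0))
      · constructor
        · intro a ha b hb k h1 h2
          rw [Finset.mem_singleton] at ha hb
          rw [ha] at h1
          rw [hb] at h2
          exact ⟨x, by simp, le_antisymm h1 h2⟩
        · intro a ha b hb k h1 h2
          rw [Finset.mem_singleton] at ha hb
          rw [ha] at h1
          rw [hb] at h2
          exact ⟨x, by simp, le_antisymm h1 h2⟩
      · simp
    | @one x y hxB hx1 hxy _ ih =>
      obtain ⟨C, hC, hyC, ⟨w, hw, hw0⟩, hI, hcard⟩ := ih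
      have hbld := hC.cons' hxB (Or.inl hx1)
      refine ⟨insert x C, hbld, Finset.mem_insert_self _ _,
        ⟨w, Finset.mem_insert_of_mem hw, hw0⟩, hI.insert hyC hxy, key _ x hbld ?_⟩
      intro z hz
      have hd : |x.1 - y.1| ≤ 1 ∧ |x.2 - y.2| ≤ 1 := by
        rcases hxy with h | h
        · exact ⟨by rw [h.1]; simp, h.2.le⟩
        · exact ⟨h.2.le, by rw [h.1]; simp⟩
      rcases Finset.mem_insert.1 hz with rfl | hz
      · constructor <;> simp
      · have hn := inn_near hI hcard hyC hz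
        obtain ⟨n1, n2⟩ := hn
        obtain ⟨d1, d2⟩ := hd
        rw [abs_le] at n1 n2 d1 d2
        constructor <;> rw [abs_le] <;> constructor <;> linarith
    | @two x y z hxB hyz hxy hxz _ _ ih1 ih2 =>
      obtain ⟨C, hC, hyC, ⟨w, hw, hw0⟩, hI, hcard⟩ := ih1
      obtain ⟨D, hD, hzD, _, hID, hcardD⟩ := ih2
      have hbld := (hC.union hD).cons' hxB
        (Or.inr ⟨y, Finset.mem_union_left _ hyC, z, Finset.mem_union_right _ hzD, hyz, hxy, hxz⟩)
      have hIU : innI (insert x (C ∪ D)) := by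
        have := (hI.insert hyC hxy).union (hID.insert hzD hxz) (Finset.mem_insert_self _ _)
          (Finset.mem_insert_self _ _)
        rwa [← Finset.insert_union_distrib] at this
      refine ⟨insert x (C ∪ D), hbld, Finset.mem_insert_self _ _,
        ⟨w, Finset.mem_insert_of_mem (Finset.mem_union_left _ hw), hw0⟩, hIU, key _ x hbld ?_⟩
      intro v hv
      have hd : ∀ {y : Z2}, Nb x y → |x.1 - y.1| ≤ 1 ∧ |x.2 - y.2| ≤ 1 := by
        intro y hxy
        rcases hxy with h | h
        · exact ⟨by rw [h.1]; simp, h.2.le⟩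
        · exact ⟨h.2.le, by rw [h.1]; simp⟩
      rcases Finset.mem_insert.1 hv with rfl | hv
      · constructor <;> simp
      · rcases Finset.mem_union.1 hv with hv | hv
        · obtain ⟨n1, n2⟩ := inn_near hI hcard hyC hv
          obtain ⟨d1, d2⟩ := hd hxy
          rw [abs_le] at n1 n2 d1 d2
          constructor <;> rw [abs_le] <;> constructor <;> linarith
        · obtain ⟨n1, n2⟩ := inn_near hID hcardD hzD hv
          obtain ⟨d1, d2⟩ := hd hxz
          rw [abs_le] at n1 n2 d1 d2
          constructor <;> rw [abs_le] <;> constructor <;> linarith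
  obtain ⟨C, _, hxC, ⟨y, hyC, hy0⟩, hI, hcard⟩ := main
  obtain ⟨n1, n2⟩ := inn_near hI hcard hxC hyC
  exact ⟨y, hy0, n1.trans (by norm_num), n2.trans (by norm_num)⟩

end Pool.Agent.BP
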