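import Pool.Agent.Lib_MP_94fe03_pr.Base

set_option autoImplicit false

namespace Pool.Agent.BP

open MeasureTheory ProbabilityTheory

theorem Lip_bdd {D : Set Z2} {z : Z2} (h : Reach D z) : z.2 < 0 ∨ ∃ d ∈ D, z.2 ≤ d.2 := by
  induction h with
  | base h => exact Or.inl h
  | up h hd ih => exact Or.inr ⟨_, hd, le_refl _⟩
  | dr h ih =>
    rcases ih with ih | ⟨d, hd, ih⟩
    · left; dsimp only at ih ⊢; omega
    · right; refine ⟨d, hd, ?_⟩; dsimp only at ih ⊢; omega
  | dl h ih =>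
    rcases ih with ih | ⟨d, hd, ih⟩
    · left; dsimp only at ih ⊢; omega
    · right; refine ⟨d, hd, ?_⟩; dsimp only at ih ⊢; omega

/-- the lowest Lipschitz path that avoids a finite set `D` -/
theorem lip_exists {D : Set Z2} (hD : D.Finite) : ∃ F : ℤ → ℤ, (∀ t, 0 ≤ F t) ∧
    (∀ t, |F (t + 1) - F t| ≤ 1) ∧ (∀ t, ((t, F t) : Z2) ∉ D) ∧
    (∀ t, F t = 0 ∨ Reach D (t, F t - 1)) := by
  classical
  obtain ⟨M, hM⟩ := (hD.image Prod.snd).bddAbove
  have hb : ∀ t : ℤ, BddAbove {h : ℤ | Reach D (t, h)} := by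
    intro t
    refine ⟨max M 0, ?_⟩
    intro h hh
    have hh' : Reach D (t, h) := hh
    rcases Lip_bdd hh' with h1 | ⟨d, hd, h1⟩
    · exact le_max_of_le_right (le_of_lt h1)
    · exact le_max_of_le_left (le_trans h1 (hM ⟨d, hd, rfl⟩))
  have hne : ∀ t : ℤ, ({h : ℤ | Reach D (t, h)}).Nonempty := fun t =>
    ⟨-1, Reach.base (by norm_num)⟩
  have hmem : ∀ t : ℤ, Reach D (t, sSup {h : ℤ | Reach D (t, h)}) := fun t =>
    Int.csSup_mem (hne t) (hb t)
  have hle : ∀ (t h : ℤ), Reach D (t, h) → h ≤ sSup {h : ℤ | Reach D (t, h)} := fun t h hh =>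
    le_csSup (hb t) hh
  generalize hG : (fun t : ℤ => sSup {h : ℤ | Reach D (t, h)}) = G at *
  have hmem' : ∀ t, Reach D (t, G t) := fun t => by rw [← hG]; exact hmem t
  have hle' : ∀ (t h : ℤ), Reach D (t, h) → h ≤ G t := fun t h hh => by
    rw [← hG]; exact hle t h hh
  refine ⟨fun t => G t + 1, ?_, ?_, ?_, ?_⟩
  · intro t
    have := hle' t (-1) (Reach.base (by norm_num))
    dsimp only; omega
  · intro t
    have h1 := hle' (t + 1) (G t - 1) (Reach.dr (hmem' t))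
    have h2 := hle' t (G (t + 1) - 1) (by
      have := Reach.dl (hmem' (t + 1))
      rwa [show t + 1 - 1 = t by ring] at this)
    dsimp only
    rw [abs_le]; constructor <;> omega
  · intro t hd
    have := hle' t (G t + 1) (Reach.up (hmem' t) hd)
    omega
  · intro t
    right
    have := hmem' t
    dsimp only
    rwa [show G t + 1 - 1 = G t by ring]

theorem Reach.mono {D D' : Set Z2} (h : D ⊆ D') {z : Z2} (hz : Reach D z) : Reach D' z := by
  induction hz with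
  | base h0 => exact Reach.base h0
  | up _ hd ih => exact Reach.up ih (h hd)
  | dr _ ih => exact Reach.dr ih
  | dl _ ih => exact Reach.dl ih

/-- the word `w`, read backwards from `z`, is a derivation of `Reach D z` -/
def Lip_Ok (D : Set Z2) : List (Fin 3) → Z2 → Prop
  | [], z => z.2 < 0
  | 0 :: w, z => z ∈ D ∧ Lip_Ok D w (z.1, z.2 - 1)
  | 1 :: w, z => Lip_Ok D w (z.1 - 1, z.2 + 1)
  | 2 :: w, z => Lip_Ok D w (z.1 + 1, z.2 + 1)

/-- the targets of the steps up -/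
def Lip_tg : List (Fin 3) → Z2 → List Z2
  | [], _ => []
  | 0 :: w, z => z :: Lip_tg w (z.1, z.2 - 1)
  | 1 :: w, z => Lip_tg w (z.1 - 1, z.2 + 1)
  | 2 :: w, z => Lip_tg w (z.1 + 1, z.2 + 1)

theorem Lip_suffix {D : Set Z2} (w : List (Fin 3)) : ∀ (z x : Z2), Lip_Ok D w z →
    x ∈ Lip_tg w z → ∃ w', Lip_Ok D w' x ∧ Lip_tg w' x <:+ Lip_tg w z := by
  induction w with
  | nil => intro z x _ hx; simp [Lip_tg] at hx
  | cons a w ih =>
    intro z x h hx
    fin_cases a
    · simp only [Lip_Ok, Lip_tg, List.mem_cons] at h hx ⊢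
      rcases hx with rfl | hx
      · refine ⟨0 :: w, ?_, ?_⟩
        · simp only [Lip_Ok]; exact h
        · simp only [Lip_tg]; exact List.suffix_rfl
      · obtain ⟨w', h1, h2⟩ := ih _ x h.2 hx
        exact ⟨w', h1, h2.trans (List.suffix_cons _ _)⟩
    · simp only [Lip_Ok, Lip_tg] at h hx ⊢
      exact ih _ x h hx
    · simp only [Lip_Ok, Lip_tg] at h hx ⊢
      exact ih _ x h hx

theorem Lip_word {D : Set Z2} {z : Z2} (h : Reach D z) :
    ∃ w, Lip_Ok D w z ∧ (Lip_tg w z).Nodup := by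
  classical
  induction h with
  | base h => exact ⟨[], h, List.nodup_nil⟩
  | @up t h hr hd ih =>
    obtain ⟨w, h1, h2⟩ := ih
    by_cases hx : ((t, h + 1) : Z2) ∈ Lip_tg w (t, h)
    · obtain ⟨w', h3, h4⟩ := Lip_suffix w _ _ h1 hx
      exact ⟨w', h3, h2.sublist h4.sublist⟩
    · refine ⟨0 :: w, ?_, ?_⟩
      · simp only [Lip_Ok, add_sub_cancel_right]; exact ⟨hd, h1⟩
      · simp only [Lip_tg, add_sub_cancel_right]; exact List.nodup_cons.2 ⟨hx, h2⟩
  | dr _ ih =>
    obtain ⟨w, h1, h2⟩ := ih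
    refine ⟨1 :: w, ?_, ?_⟩
    · simp only [Lip_Ok, add_sub_cancel_right, sub_add_cancel]; exact h1
    · simp only [Lip_tg, add_sub_cancel_right, sub_add_cancel]; exact h2
  | dl _ ih =>
    obtain ⟨w, h1, h2⟩ := ih
    refine ⟨2 :: w, ?_, ?_⟩
    · simp only [Lip_Ok, sub_add_cancel]; exact h1
    · simp only [Lip_tg, sub_add_cancel]; exact h2

theorem Lip_count {D : Set Z2} (w : List (Fin 3)) : ∀ z : Z2, Lip_Ok D w z →
    (w.length : ℤ) + z.2 + 1 ≤ 2 * (Lip_tg w z).length ∧ (Lip_tg w z).length ≤ w.length ∧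
    ∀ x ∈ Lip_tg w z, x ∈ D := by
  induction w with
  | nil =>
    intro z h
    simp only [Lip_Ok] at h
    simp only [Lip_tg, List.length_nil]
    refine ⟨by push_cast; omega, le_refl _, by simp⟩
  | cons a w ih =>
    intro z h
    fin_cases a
    · simp only [Fin.zero_eta, Lip_Ok, Lip_tg, List.length_cons, List.mem_cons] at h ⊢
      obtain ⟨h1, h2, h3⟩ := ih _ h.2
      refine ⟨by push_cast at h1 ⊢; omega, by omega, ?_⟩
      rintro x (rfl | hx)
      · exact h.1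
      · exact h3 x hx
    · simp only [Fin.mk_one, Lip_Ok, Lip_tg, List.length_cons] at h ⊢
      obtain ⟨h1, h2, h3⟩ := ih _ h
      exact ⟨by push_cast at h1 ⊢; omega, by omega, h3⟩
    · simp only [Fin.reduceFinMk, Lip_Ok, Lip_tg, List.length_cons] at h ⊢
      obtain ⟨h1, h2, h3⟩ := ih _ h
      exact ⟨by push_cast at h1 ⊢; omega, by omega, h3⟩

/-- all words of length `N` -/
def Lip_words : ℕ → Finset (List (Fin 3))
  | 0 => {[]}
  | N + 1 => (Finset.univ ×ˢ Lip_words N).image fun p => p.1 :: p.2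

theorem Lip_words_card (N : ℕ) : (Lip_words N).card ≤ 3 ^ N := by
  induction N with
  | zero => simp [Lip_words]
  | succ N ih =>
    unfold Lip_words
    refine Finset.card_image_le.trans ?_
    rw [Finset.card_product, Finset.card_univ, Fintype.card_fin, pow_succ]
    omega

theorem Lip_words_mem (w : List (Fin 3)) : w ∈ Lip_words w.length := by
  induction w with
  | nil => simp [Lip_words]
  | cons a w ih =>
    simp only [List.length_cons, Lip_words, Finset.mem_image, Finset.mem_product,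
      Finset.mem_univ, true_and, Prod.exists]
    exact ⟨a, w, ih, rfl⟩

/-- countable union bound with a geometric majorant -/
theorem Lip_union {Ω : Type} [MeasurableSpace Ω] (P : Measure Ω) [IsProbabilityMeasure P]
    (E : ℕ → Set Ω) (B : ℝ) (hB : 0 ≤ B) (h : ∀ j, P.real (E j) ≤ B * (1 / 2) ^ j) :
    P.real (⋃ j, E j) ≤ 2 * B := by
  have hs : HasSum (fun j : ℕ => B * (1 / 2 : ℝ) ^ j) (B * 2) := hasSum_geometric_two.mul_left B
  have h1 : P (⋃ j, E j) ≤ ENNReal.ofReal (B * 2) := by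
    calc P (⋃ j, E j) ≤ ∑' j, P (E j) := measure_iUnion_le _
      _ ≤ ∑' j, ENNReal.ofReal (B * (1 / 2) ^ j) := by
          refine ENNReal.tsum_le_tsum fun j => ?_
          rw [← ENNReal.ofReal_toReal (measure_ne_top P (E j))]
          exact ENNReal.ofReal_le_ofReal (h j)
      _ = ENNReal.ofReal (∑' j, B * (1 / 2) ^ j) := by
          rw [ENNReal.ofReal_tsum_of_nonneg (fun j => by positivity) hs.summable]
      _ = ENNReal.ofReal (B * 2) := by rw [hs.tsum_eq]
  calc P.real (⋃ j, E j) ≤ (ENNReal.ofReal (B * 2)).toReal :=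
        ENNReal.toReal_mono ENNReal.ofReal_ne_top h1
    _ = B * 2 := ENNReal.toReal_ofReal (by positivity)
    _ = 2 * B := by ring

/-- union bound over paths -/
theorem reach_prob {Ω : Type} [MeasurableSpace Ω] (P : Measure Ω) [IsProbabilityMeasure P]
    (D : Ω → Set Z2) (T : Set Ω) (ρ c : ℝ) (hρ0 : 0 ≤ ρ) (hρ : ρ ≤ 1 / 36) (hc : 0 ≤ c)
    (h : ∀ A : Finset Z2, P.real (T ∩ {ω | (A : Set Z2) ⊆ D ω}) ≤ ρ ^ A.card * c)
    (t : ℤ) (k : ℕ) :
    P.real (T ∩ {ω | Reach (D ω) (t, (k : ℤ))}) ≤ 2 * (3 * ρ) ^ (k + 1) * c := by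
  classical
  obtain ⟨s, hs0, hs⟩ : ∃ s : ℝ, 0 ≤ s ∧ s ^ 2 = ρ := ⟨Real.sqrt ρ, Real.sqrt_nonneg _, Real.sq_sqrt hρ0⟩
  have hs6 : s ≤ 1 / 6 := by nlinarith
  set E : ℕ → Set Ω := fun j => T ∩ {ω | ∃ w : List (Fin 3), w.length = k + 1 + j ∧
    Lip_Ok (D ω) w (t, (k : ℤ)) ∧ (Lip_tg w (t, (k : ℤ))).Nodup} with hE
  have hsub : T ∩ {ω | Reach (D ω) (t, (k : ℤ))} ⊆ ⋃ j, E j := by
    rintro ω ⟨hT, hR⟩
    obtain ⟨w, h1, h2⟩ := Lip_word hR
    obtain ⟨h3, h4, h5⟩ := Lip_count w _ h1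
    have h6 : k + 1 ≤ w.length := by
      dsimp only at h3; omega
    rw [Set.mem_iUnion]
    exact ⟨w.length - (k + 1), hT, w, by omega, h1, h2⟩
  have hEj : ∀ j, P.real (E j) ≤ ((3 * ρ) ^ (k + 1) * c) * (1 / 2) ^ j := by
    intro j
    have hsub2 : E j ⊆ ⋃ w ∈ (Lip_words (k + 1 + j)).filter fun w =>
        k + 1 + j + k + 1 ≤ 2 * (Lip_tg w (t, (k : ℤ))).length ∧ (Lip_tg w (t, (k : ℤ))).Nodup,
        T ∩ {ω | ((Lip_tg w (t, (k : ℤ))).toFinset : Set Z2) ⊆ D ω} := by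
      rintro ω ⟨hT, w, h0, h1, h2⟩
      obtain ⟨h3, h4, h5⟩ := Lip_count w _ h1
      simp only [Set.mem_iUnion, Finset.mem_filter]
      refine ⟨w, ⟨?_, ?_, h2⟩, hT, ?_⟩
      · rw [← h0]; exact Lip_words_mem w
      · dsimp only at h3; omega
      · intro x hx
        exact h5 x (List.mem_toFinset.1 (Finset.mem_coe.1 hx))
    calc P.real (E j) ≤ _ := measureReal_mono hsub2 (measure_ne_top _ _)
      _ ≤ ∑ w ∈ (Lip_words (k + 1 + j)).filter fun w =>
        k + 1 + j + k + 1 ≤ 2 * (Lip_tg w (t, (k : ℤ))).length ∧ (Lip_tg w (t, (k : ℤ))).Nodup,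
        P.real (T ∩ {ω | ((Lip_tg w (t, (k : ℤ))).toFinset : Set Z2) ⊆ D ω}) :=
          real_biUnion_le _ _ _
      _ ≤ ∑ w ∈ (Lip_words (k + 1 + j)).filter fun w =>
        k + 1 + j + k + 1 ≤ 2 * (Lip_tg w (t, (k : ℤ))).length ∧ (Lip_tg w (t, (k : ℤ))).Nodup,
        s ^ (2 * (k + 1) + j) * c := by
          refine Finset.sum_le_sum fun w hw => ?_
          obtain ⟨_, hw1, hw2⟩ := Finset.mem_filter.1 hw
          refine (h _).trans ?_
          rw [List.toFinset_card_of_nodup hw2, ← hs, ← pow_mul]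
          refine mul_le_mul_of_nonneg_right ?_ hc
          exact pow_le_pow_of_le_one hs0 (by linarith) (by omega)
      _ ≤ (3 : ℝ) ^ (k + 1 + j) * (s ^ (2 * (k + 1) + j) * c) := by
          rw [Finset.sum_const, nsmul_eq_mul]
          refine mul_le_mul_of_nonneg_right ?_ (by positivity)
          have := (Finset.card_filter_le (Lip_words (k + 1 + j)) fun w =>
            k + 1 + j + k + 1 ≤ 2 * (Lip_tg w (t, (k : ℤ))).length ∧
              (Lip_tg w (t, (k : ℤ))).Nodup).trans (Lip_words_card _)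
          exact_mod_cast this
      _ = ((3 * ρ) ^ (k + 1) * c) * (3 * s) ^ j := by
          rw [← hs, mul_pow, mul_pow, ← pow_mul, pow_add, pow_add]; ring
      _ ≤ ((3 * ρ) ^ (k + 1) * c) * (1 / 2) ^ j := by
          refine mul_le_mul_of_nonneg_left ?_ (by positivity)
          exact pow_le_pow_left₀ (by positivity) (by linarith) j
  calc P.real (T ∩ {ω | Reach (D ω) (t, (k : ℤ))}) ≤ P.real (⋃ j, E j) :=
        measureReal_mono hsub (measure_ne_top _ _)
    _ ≤ 2 * ((3 * ρ) ^ (k + 1) * c) := Lip_union P E _ (by positivity) hEj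
    _ = 2 * (3 * ρ) ^ (k + 1) * c := by ring

end Pool.Agent.BP
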