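import Pool.Agent.Lib_MP_94fe03_pr.Couple

set_option autoImplicit false

namespace Pool.Agent.BP

open MeasureTheory ProbabilityTheory

namespace Mono

/-- Bernoulli variable from a uniform one -/
noncomputable def thr (p : unitInterval) (u : unitInterval) : Bool := by
  classical exact decide (u ≤ p)

theorem thr_iff (p u : unitInterval) : thr p u = true ↔ u ≤ p := by
  unfold thr
  simp

theorem thr_measurable (p : unitInterval) : Measurable (thr p) := by
  refine measurable_to_bool ?_
  have : thr p ⁻¹' {true} = Set.Iic p := by
    ext u
    simp [thr_iff]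
  rw [this]
  exact measurableSet_Iic

theorem map_thr (p : unitInterval) :
    (volume : Measure unitInterval).map (thr p) = bern p := by
  have h1 : ((volume : Measure unitInterval).map (thr p)) {true} = bern p {true} := by
    rw [Measure.map_apply (thr_measurable p) MeasurableSet.of_discrete]
    have : thr p ⁻¹' {true} = Set.Iic p := by
      ext u
      simp [thr_iff]
    rw [this, unitInterval.volume_Iic]
    have h := bern_true p
    rw [measureReal_def] at h
    rw [← h, ENNReal.ofReal_toReal (measure_ne_top _ _)]
  haveI : IsProbabilityMeasure ((volume : Measure unitInterval).map (thr p)) :=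
    Measure.isProbabilityMeasure_map (thr_measurable p).aemeasurable
  have h2 : ((volume : Measure unitInterval).map (thr p)) {false} = bern p {false} := by
    have e : ({false} : Set Bool) = {true}ᶜ := by
      ext b; cases b <;> simp
    rw [e, prob_compl_eq_one_sub MeasurableSet.of_discrete,
      prob_compl_eq_one_sub MeasurableSet.of_discrete, h1]
  ext s _
  have hs : s = (s ∩ {true}) ∪ (s ∩ {false}) := by
    ext b; cases b <;> simp
  have hd : Disjoint (s ∩ {true}) (s ∩ {false}) := by
    rw [Set.disjoint_left]
    rintro b ⟨_, h⟩ ⟨_, h'⟩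
    simp only [Set.mem_singleton_iff] at h h'
    rw [h] at h'
    exact absurd h' (by decide)
  rw [hs, measure_union hd MeasurableSet.of_discrete, measure_union hd MeasurableSet.of_discrete]
  congr 1
  · by_cases ht : true ∈ s
    · rw [Set.inter_eq_right.2 (by simpa using ht)]; exact h1
    · have : s ∩ {true} = ∅ := by
        ext b; simp only [Set.mem_inter_iff, Set.mem_singleton_iff, Set.mem_empty_iff_false,
          iff_false, not_and]
        rintro hb rfl
        exact ht hb
      rw [this]; simp
  · by_cases ht : false ∈ s
    · rw [Set.inter_eq_right.2 (by simpa using ht)]; exact h2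
    · have : s ∩ {false} = ∅ := by
        ext b; simp only [Set.mem_inter_iff, Set.mem_singleton_iff, Set.mem_empty_iff_false,
          iff_false, not_and]
        rintro hb rfl
        exact ht hb
      rw [this]; simp

/-- increasing measurable events are more likely for larger densities -/
theorem incr_mono {ι : Type} {p q : unitInterval} (hpq : p ≤ q) {E : Set (ι → Bool)}
    (hE : MeasurableSet E)
    (hi : ∀ c c' : ι → Bool, (∀ i, c i = true → c' i = true) → c ∈ E → c' ∈ E) :
    (PM (bern p)).real E ≤ (PM (bern q)).real E := by
  have key : ∀ r : unitInterval, (PM (bern r)).real E =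
      (PM (volume : Measure unitInterval)).real {u : ι → unitInterval | (fun i => thr r (u i)) ∈ E} := by
    intro r
    haveI : IsProbabilityMeasure ((volume : Measure unitInterval).map (thr r)) :=
      Measure.isProbabilityMeasure_map (thr_measurable r).aemeasurable
    have h := Measure.infinitePi_map_pi (μ := fun _ : ι => (volume : Measure unitInterval))
      (f := fun _ : ι => thr r) (fun _ => thr_measurable r)
    have hm : Measurable (fun (u : ι → unitInterval) (i : ι) => thr r (u i)) :=
      measurable_pi_lambda _ fun i => (thr_measurable r).comp (measurable_pi_apply i)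
    have h2 : (PM (ι := ι) (volume : Measure unitInterval)).map
        (fun (u : ι → unitInterval) (i : ι) => thr r (u i)) = PM (bern r) := by
      unfold PM
      simp_rw [map_thr] at h
      exact h
    rw [measureReal_def, measureReal_def, ← h2, Measure.map_apply hm hE]
    rfl
  rw [key p, key q]
  refine measureReal_mono ?_ (measure_ne_top _ _)
  intro u hu
  refine hi _ _ (fun i h => ?_) hu
  rw [thr_iff] at h ⊢
  exact h.trans hpq

theorem nb_finite (x : Z2) : {y : Z2 | Nb x y}.Finite := by
  refine Set.Finite.subset ((Finset.Icc (x.1 - 1) (x.1 + 1)) ×ˢ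
    (Finset.Icc (x.2 - 1) (x.2 + 1))).finite_toSet ?_
  rintro ⟨a, b⟩ h
  simp only [Finset.coe_product, Finset.coe_Icc, Set.mem_prod, Set.mem_Icc]
  rcases h with ⟨h1, h2⟩ | ⟨h1, h2⟩
  · simp only at h1 h2
    have := abs_le.1 h2.le
    exact ⟨⟨by linarith, by linarith⟩, ⟨by linarith, by linarith⟩⟩
  · simp only at h1 h2
    have := abs_le.1 h2.le
    exact ⟨⟨by linarith, by linarith⟩, ⟨by linarith, by linarith⟩⟩

theorem neighbor_finite {n : ℕ} (v : V n) : ((Gn n).neighborSet v).Finite := by
  refine Set.Finite.subset ((((nb_finite v.1).image (fun y => ((y, v.2) : V n)))).union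
    ((Set.finite_univ (α := Fin n × Fin n)).image (fun w => ((v.1, w) : V n)))) ?_
  rintro ⟨y, w⟩ h
  rcases h with ⟨h1, h2⟩ | ⟨h1, h2⟩
  · left
    refine ⟨y, h1, ?_⟩
    simp only at h2
    rw [h2]
  · right
    refine ⟨w, trivial, ?_⟩
    simp only at h1
    rw [h1]

theorem step_measurable {n : ℕ} (θ : ℕ) (t : ℕ) : ∀ v : V n,
    MeasurableSet {c : V n → Bool | v ∈ (bstep (Gn n) θ)^[t] {w | c w = true}} := by
  induction t with
  | zero =>
    intro v
    exact (Loc.coord v {true} : Loc {c : V n → Bool | c v ∈ ({true} : Set Bool)} {v}).measurableSet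
      (Set.finite_singleton v)
  | succ t ih =>
    intro v
    have hfin := neighbor_finite v
    have e : {c : V n → Bool | v ∈ (bstep (Gn n) θ)^[t + 1] {w | c w = true}} =
        {c : V n → Bool | v ∈ (bstep (Gn n) θ)^[t] {w | c w = true}} ∪
        ⋃ s ∈ hfin.toFinset.powersetCard θ, ⋂ w ∈ s,
          {c : V n → Bool | w ∈ (bstep (Gn n) θ)^[t] {w | c w = true}} := by
      ext c
      simp only [Set.mem_ofPred_eq, Set.mem_union, Set.mem_iUnion, Set.mem_iInter, exists_prop]
      rw [Function.iterate_succ_apply']
      constructor
      · rintro (h | h)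
        · exact Or.inl h
        · right
          obtain ⟨s, hs, hc⟩ := Set.exists_subset_encard_eq h
          have hsf : s.Finite := Set.finite_of_encard_eq_coe hc
          refine ⟨hsf.toFinset, ?_, fun w hw => ?_⟩
          · rw [Finset.mem_powersetCard]
            refine ⟨?_, ?_⟩
            · intro w hw
              rw [Set.Finite.mem_toFinset] at hw ⊢
              exact (hs hw).1
            · have := hsf.encard_eq_coe_toFinset_card
              rw [hc] at this
              exact_mod_cast this.symm
          · rw [Set.Finite.mem_toFinset] at hw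
            exact (hs hw).2
      · rintro (h | ⟨s, hs, h⟩)
        · exact Or.inl h
        · right
          obtain ⟨hs1, hs2⟩ := Finset.mem_powersetCard.1 hs
          have hsub : (s : Set (V n)) ⊆ (Gn n).neighborSet v ∩
              (bstep (Gn n) θ)^[t] {w | c w = true} := by
            intro w hw
            exact ⟨by simpa using hs1 hw, h w hw⟩
          have := Set.encard_le_encard hsub
          rw [Set.encard_coe_eq_coe_finsetCard, hs2] at this
          exact this
    rw [e]
    refine (ih v).union (Finset.measurableSet_biUnion _ fun s _ =>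
      Finset.measurableSet_biInter _ fun w _ => ih w)

theorem step_mono {W : Type} (G : SimpleGraph W) (θ : ℕ) {A B : Set W} (h : A ⊆ B) (t : ℕ) :
    (bstep G θ)^[t] A ⊆ (bstep G θ)^[t] B := by
  induction t with
  | zero => exact h
  | succ t ih =>
    rw [Function.iterate_succ_apply', Function.iterate_succ_apply']
    rintro v (hv | hv)
    · exact Or.inl (ih hv)
    · right
      exact hv.trans (Set.encard_le_encard (Set.inter_subset_inter_right _ ih))

end Mono

open Mono

/-- the final density is monotone in the initial density -/
theorem dens_mono (l n : ℕ) {p q : unitInterval} (hpq : p ≤ q) : dens l n p ≤ dens l n q := by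
  unfold dens
  split_ifs with h
  · rw [setBernoulli_eq_PM, setBernoulli_eq_PM]
    refine incr_mono hpq ?_ ?_
    · have e : {c : V n → Bool | {i | c i = true} ∈ {ω : Set (V n) |
          (((0, 0), (⟨0, h⟩, ⟨0, h⟩)) : V n) ∈ bfinal (Gn n) (2 * l + 2) ω}} =
          ⋃ t : ℕ, {c : V n → Bool | (((0, 0), (⟨0, h⟩, ⟨0, h⟩)) : V n) ∈
            (bstep (Gn n) (2 * l + 2))^[t] {w | c w = true}} := by
        ext c
        simp [bfinal]
      rw [e]
      exact MeasurableSet.iUnion fun t => step_measurable _ t _
    · intro c c' hc h1
      simp only [Set.mem_ofPred_eq, bfinal, Set.mem_iUnion] at h1 ⊢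
      obtain ⟨t, ht⟩ := h1
      exact ⟨t, step_mono _ _ (fun w hw => hc w hw) t ht⟩
  · exact le_refl _

end Pool.Agent.BP
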