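import Pool.Agent.Lib_MP_94fe03_pr.Lip

set_option autoImplicit false

namespace Pool.Agent.BP

open MeasureTheory ProbabilityTheory

/-- reachable heights are bounded by the heights of `D` -/
theorem Reach.le_height {D : Set Z2} {M : ℤ} (hD : ∀ z ∈ D, z.2 ≤ M) {z : Z2} (h : Reach D z) :
    z.2 < 0 ∨ z.2 ≤ M := by
  induction h with
  | base h => exact Or.inl h
  | up _ h _ => exact Or.inr (hD _ h)
  | dr _ ih =>
    simp only at ih ⊢
    rcases ih with h | h
    · left; linarith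
    · right; linarith
  | dl _ ih =>
    simp only at ih ⊢
    rcases ih with h | h
    · left; linarith
    · right; linarith

/-- probability that there is no low Lipschitz path that avoids the bad sites -/
theorem path_prob {Ω : Type} [MeasurableSpace Ω] (P : Measure Ω) [IsProbabilityMeasure P]
    (Bd : Z2 → Set Ω) (T : Set Ω) (ρ c : ℝ) (hρ0 : 0 ≤ ρ) (hρ : ρ ≤ 1 / 36) (hc : 0 ≤ c)
    (h : ∀ A : Finset Z2, P.real (T ∩ ⋂ b ∈ A, Bd b) ≤ ρ ^ A.card * c) (N L : ℕ) :
    P.real (T ∩ {ω | ¬ ∃ F : ℤ → ℤ, F 0 = 0 ∧ (∀ t, 0 ≤ F t) ∧ (∀ t, |F (t + 1) - F t| ≤ 1) ∧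
      ∀ t : ℤ, 0 ≤ t → t ≤ N → F t ≤ L ∧ ω ∉ Bd (t, F t)}) ≤
      (12 * ρ + 2 * (N + 1) * (3 * ρ) ^ (L + 1)) * c := by
  classical
  let D : Ω → Set Z2 := fun ω => {z | 0 ≤ z.1 ∧ z.1 ≤ N ∧ 0 ≤ z.2 ∧ z.2 ≤ L ∧ ω ∈ Bd z}
  have hDfin : ∀ ω, (D ω).Finite := by
    intro ω
    refine Set.Finite.subset ((Finset.Icc (0 : ℤ) N) ×ˢ (Finset.Icc (0 : ℤ) L)).finite_toSet ?_
    rintro ⟨a, b⟩ ⟨h1, h2, h3, h4, _⟩
    simp only [Finset.coe_product, Finset.coe_Icc, Set.mem_prod, Set.mem_Icc]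
    exact ⟨⟨h1, h2⟩, ⟨h3, h4⟩⟩
  have hA : ∀ A : Finset Z2, P.real (T ∩ {ω | (A : Set Z2) ⊆ D ω}) ≤ ρ ^ A.card * c := by
    intro A
    refine (measureReal_mono ?_ (measure_ne_top _ _)).trans (h A)
    rintro ω ⟨h1, h2⟩
    refine ⟨h1, ?_⟩
    rw [Set.mem_iInter₂]
    intro b hb
    exact (h2 (Finset.mem_coe.2 hb)).2.2.2.2
  have hR := fun t k => reach_prob P D T ρ c hρ0 hρ hc hA t k
  have hsub : (T ∩ {ω | ¬ ∃ F : ℤ → ℤ, F 0 = 0 ∧ (∀ t, 0 ≤ F t) ∧
      (∀ t, |F (t + 1) - F t| ≤ 1) ∧ ∀ t : ℤ, 0 ≤ t → t ≤ N → F t ≤ L ∧ ω ∉ Bd (t, F t)}) ⊆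
      (⋃ k ∈ Finset.range (L + 1), (T ∩ {ω | Reach (D ω) (0, (k : ℤ))})) ∪
      (⋃ t ∈ Finset.range (N + 1), (T ∩ {ω | Reach (D ω) ((t : ℤ), (L : ℤ))})) := by
    rintro ω ⟨hT, hω⟩
    by_contra hcon
    apply hω
    rw [Set.mem_union, not_or] at hcon
    obtain ⟨c1, c2⟩ := hcon
    simp only [Set.mem_iUnion, Finset.mem_range, exists_prop, not_exists, not_and] at c1 c2
    obtain ⟨F, hF0, hFl, hFD, hFr⟩ := lip_exists (hDfin ω)
    have hM : ∀ z ∈ D ω, z.2 ≤ (L : ℤ) := fun z hz => hz.2.2.2.1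
    have hht : ∀ t, F t ≤ L + 1 := by
      intro t
      rcases hFr t with h1 | h1
      · rw [h1]; have : (0 : ℤ) ≤ L := Int.natCast_nonneg L
        linarith
      · rcases h1.le_height hM with h2 | h2
        · simp only at h2; have : (0 : ℤ) ≤ L := Int.natCast_nonneg L
          linarith
        · simp only at h2; linarith
    have hle : ∀ t : ℤ, 0 ≤ t → t ≤ N → F t ≤ L := by
      intro t ht0 htN
      by_contra hgt
      push Not at hgt
      have he : F t = L + 1 := le_antisymm (hht t) (by linarith)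
      rcases hFr t with h1 | h1
      · rw [h1] at he; have : (0 : ℤ) ≤ L := Int.natCast_nonneg L
        linarith
      · rw [he] at h1
        have h3 : ((L : ℤ) + 1 - 1) = L := by ring
        rw [h3] at h1
        refine c2 t.toNat ?_ ⟨hT, ?_⟩
        · omega
        · simp only [Set.mem_ofPred_eq]
          rw [Int.toNat_of_nonneg ht0]
          exact h1
    refine ⟨F, ?_, hF0, hFl, fun t ht0 htN => ⟨hle t ht0 htN, fun hb => ?_⟩⟩
    · by_contra h0
      have hpos : 1 ≤ F 0 := by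
        have := hF0 0
        omega
      rcases hFr 0 with h1 | h1
      · exact h0 h1
      · have hk : ((F 0 - 1).toNat : ℤ) = F 0 - 1 := Int.toNat_of_nonneg (by linarith)
        refine c1 (F 0 - 1).toNat ?_ ⟨hT, ?_⟩
        · have := hle 0 (le_refl _) (Int.natCast_nonneg N)
          omega
        · simp only [Set.mem_ofPred_eq]
          rw [hk]
          exact h1
    · exact hFD t ⟨ht0, htN, hF0 t, hle t ht0 htN, hb⟩
  have h3 : 3 * ρ ≤ 1 / 12 := by linarith
  have h30 : 0 ≤ 3 * ρ := by linarith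
  have hs1 : P.real (⋃ k ∈ Finset.range (L + 1), (T ∩ {ω | Reach (D ω) (0, (k : ℤ))})) ≤
      12 * ρ * c := by
    refine (real_biUnion_le _ _ _).trans ?_
    calc ∑ k ∈ Finset.range (L + 1), P.real (T ∩ {ω | Reach (D ω) (0, (k : ℤ))})
        ≤ ∑ k ∈ Finset.range (L + 1), 2 * (3 * ρ) ^ (k + 1) * c :=
          Finset.sum_le_sum fun k _ => hR 0 k
      _ = 6 * ρ * c * ∑ k ∈ Finset.range (L + 1), (3 * ρ) ^ k := by
          rw [Finset.mul_sum]
          refine Finset.sum_congr rfl fun k _ => ?_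
          ring
      _ ≤ 6 * ρ * c * 2 := by
          refine mul_le_mul_of_nonneg_left ?_ (by positivity)
          have hgeo : ∀ n : ℕ, ∑ k ∈ Finset.range n, (3 * ρ) ^ k ≤ 2 := by
            intro n
            have h1 : ∑ k ∈ Finset.range n, (3 * ρ) ^ k ≤ ∑ k ∈ Finset.range n, (1 / 2 : ℝ) ^ k :=
              Finset.sum_le_sum fun k _ => pow_le_pow_left₀ h30 (by linarith) k
            have h2 : ∑ k ∈ Finset.range n, (1 / 2 : ℝ) ^ k ≤ 2 := by
              rw [geom_sum_eq (by norm_num)]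
              have : (0 : ℝ) ≤ (1 / 2) ^ n := by positivity
              rw [div_le_iff_of_neg (by norm_num)]
              linarith
            exact h1.trans h2
          exact hgeo _
      _ = 12 * ρ * c := by ring
  have hs2 : P.real (⋃ t ∈ Finset.range (N + 1), (T ∩ {ω | Reach (D ω) ((t : ℤ), (L : ℤ))})) ≤
      2 * (N + 1) * (3 * ρ) ^ (L + 1) * c := by
    refine (real_biUnion_le _ _ _).trans ?_
    calc ∑ t ∈ Finset.range (N + 1), P.real (T ∩ {ω | Reach (D ω) ((t : ℤ), (L : ℤ))})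
        ≤ ∑ t ∈ Finset.range (N + 1), 2 * (3 * ρ) ^ (L + 1) * c :=
          Finset.sum_le_sum fun t _ => hR t L
      _ = 2 * (N + 1) * (3 * ρ) ^ (L + 1) * c := by
          rw [Finset.sum_const, Finset.card_range, nsmul_eq_mul]
          push_cast
          ring
  calc _ ≤ P.real ((⋃ k ∈ Finset.range (L + 1), (T ∩ {ω | Reach (D ω) (0, (k : ℤ))})) ∪
      (⋃ t ∈ Finset.range (N + 1), (T ∩ {ω | Reach (D ω) ((t : ℤ), (L : ℤ))}))) :=
        measureReal_mono hsub (measure_ne_top _ _)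
    _ ≤ 12 * ρ * c + 2 * (N + 1) * (3 * ρ) ^ (L + 1) * c :=
        (measureReal_union_le _ _).trans (add_le_add hs1 hs2)
    _ = _ := by ring

/-- second moment method: one of the independent events occurs without its bad event -/
theorem second_moment {Ω κ : Type} [MeasurableSpace Ω] (P : Measure Ω) [IsProbabilityMeasure P]
    (I : Finset κ) (T B : κ → Set Ω) (hT : ∀ i ∈ I, MeasurableSet (T i))
    (hind : ∀ i ∈ I, ∀ j ∈ I, i ≠ j → P.real (T i ∩ T j) = P.real (T i) * P.real (T j))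
    (η M : ℝ) (hM : 0 < M) (hMs : M ≤ ∑ i ∈ I, P.real (T i)) (hη : 0 ≤ η)
    (hB : ∀ i ∈ I, P.real (T i ∩ B i) ≤ η * P.real (T i)) :
    P.real {ω | ∀ i ∈ I, ω ∈ T i → ω ∈ B i} ≤ 4 / M + 2 * η := by
  classical
  set S : ℝ := ∑ i ∈ I, P.real (T i) with hS
  have hS0 : 0 < S := lt_of_lt_of_le hM hMs
  let J : Ω → ℝ := fun ω => ∑ i ∈ I, (T i).indicator (fun _ => (1 : ℝ)) ω
  let T' : κ → Set Ω := fun i => toMeasurable P (T i ∩ B i)
  let J' : Ω → ℝ := fun ω => ∑ i ∈ I, (T' i).indicator (fun _ => (1 : ℝ)) ω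
  have hT' : ∀ i, MeasurableSet (T' i) := fun i => measurableSet_toMeasurable _ _
  have hT'r : ∀ i, P.real (T' i) = P.real (T i ∩ B i) := fun i => by
    rw [measureReal_def, measureReal_def, measure_toMeasurable]
  have hint : ∀ i ∈ I, Integrable ((T i).indicator (fun _ => (1 : ℝ))) P := fun i hi =>
    (integrable_const (1 : ℝ)).indicator (hT i hi)
  have hint' : ∀ i ∈ I, Integrable ((T' i).indicator (fun _ => (1 : ℝ))) P := fun i hi =>
    (integrable_const (1 : ℝ)).indicator (hT' i)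
  have hJ : ∫ ω, J ω ∂P = S := by
    rw [integral_finsetSum _ hint, hS]
    refine Finset.sum_congr rfl fun i hi => ?_
    rw [integral_indicator_const _ (hT i hi)]
    simp
  have hJ' : ∫ ω, J' ω ∂P ≤ η * S := by
    rw [integral_finsetSum _ hint', hS, Finset.mul_sum]
    refine Finset.sum_le_sum fun i hi => ?_
    rw [integral_indicator_const _ (hT' i), hT'r]
    simpa using hB i hi
  have hmul : ∀ i j : κ, (fun ω => (T i).indicator (fun _ => (1 : ℝ)) ω *
      (T j).indicator (fun _ => (1 : ℝ)) ω) = (T i ∩ T j).indicator (fun _ => (1 : ℝ)) := by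
    intro i j
    ext ω
    by_cases h1 : ω ∈ T i <;> by_cases h2 : ω ∈ T j <;> simp [h1, h2]
  have hint2 : ∀ i ∈ I, ∀ j ∈ I, Integrable (fun ω => (T i).indicator (fun _ => (1 : ℝ)) ω *
      (T j).indicator (fun _ => (1 : ℝ)) ω) P := by
    intro i hi j hj
    rw [hmul]
    exact (integrable_const (1 : ℝ)).indicator ((hT i hi).inter (hT j hj))
  have hJJ : ∀ ω, J ω ^ 2 = ∑ i ∈ I, ∑ j ∈ I, (T i).indicator (fun _ => (1 : ℝ)) ω *
      (T j).indicator (fun _ => (1 : ℝ)) ω := by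
    intro ω
    rw [sq, Finset.sum_mul_sum]
  have hJint : Integrable J P := integrable_finsetSum _ hint
  have hJ2int : Integrable (fun ω => J ω ^ 2) P := by
    simp_rw [hJJ]
    exact integrable_finsetSum _ fun i hi => integrable_finsetSum _ fun j hj => hint2 i hi j hj
  have hJ2 : ∫ ω, J ω ^ 2 ∂P ≤ S + S ^ 2 := by
    simp_rw [hJJ]
    rw [integral_finsetSum _ fun i hi => integrable_finsetSum _ fun j hj => hint2 i hi j hj]
    have h1 : ∀ i ∈ I, ∫ ω, ∑ j ∈ I, (T i).indicator (fun _ => (1 : ℝ)) ω *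
        (T j).indicator (fun _ => (1 : ℝ)) ω ∂P ≤ P.real (T i) + P.real (T i) * S := by
      intro i hi
      rw [integral_finsetSum _ fun j hj => hint2 i hi j hj]
      have h2 : ∀ j ∈ I, ∫ ω, (T i).indicator (fun _ => (1 : ℝ)) ω *
          (T j).indicator (fun _ => (1 : ℝ)) ω ∂P ≤
          (if j = i then P.real (T i) else 0) + P.real (T i) * P.real (T j) := by
        intro j hj
        rw [hmul, integral_indicator_const _ ((hT i hi).inter (hT j hj))]
        by_cases hij : j = i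
        · subst hij
          simp only [Set.inter_self, smul_eq_mul, mul_one, if_true]
          have : 0 ≤ P.real (T j) := measureReal_nonneg
          nlinarith
        · rw [hind i hi j hj (Ne.symm hij)]
          simp [hij]
      refine (Finset.sum_le_sum h2).trans ?_
      rw [Finset.sum_add_distrib, ← Finset.mul_sum, Finset.sum_ite_eq']
      simp [hi, hS]
    refine (Finset.sum_le_sum h1).trans ?_
    rw [Finset.sum_add_distrib, ← Finset.sum_mul, ← hS]
    ring_nf
    exact le_refl _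
  have hvar : ∫ ω, (J ω - S) ^ 2 ∂P ≤ S := by
    have e : ∀ ω, (J ω - S) ^ 2 = J ω ^ 2 - 2 * S * J ω + S ^ 2 := fun ω => by ring
    simp_rw [e]
    have a1 : Integrable (fun ω => J ω ^ 2 - 2 * S * J ω) P := hJ2int.sub (hJint.const_mul _)
    rw [integral_add a1 (integrable_const _),
      integral_sub hJ2int (hJint.const_mul _), integral_const_mul, hJ]
    simp only [integral_const, probReal_univ, smul_eq_mul, one_mul]
    nlinarith
  have hc1 : P.real {ω | S ^ 2 / 4 ≤ (J ω - S) ^ 2} ≤ 4 / S := by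
    have hi : Integrable (fun ω => (J ω - S) ^ 2) P := by
      have e : (fun ω => (J ω - S) ^ 2) = fun ω => J ω ^ 2 - 2 * S * J ω + S ^ 2 := by
        ext ω; ring
      rw [e]
      exact (hJ2int.sub (hJint.const_mul _)).add (integrable_const _)
    have := mul_meas_ge_le_integral_of_nonneg (μ := P) (f := fun ω => (J ω - S) ^ 2)
      (Filter.Eventually.of_forall fun ω => sq_nonneg _) hi (S ^ 2 / 4)
    have h2 : S ^ 2 / 4 * P.real {ω | S ^ 2 / 4 ≤ (J ω - S) ^ 2} ≤ S := this.trans hvar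
    rw [le_div_iff₀ hS0]
    have h3 : S * (S * P.real {ω | S ^ 2 / 4 ≤ (J ω - S) ^ 2}) ≤ S * 4 := by nlinarith
    have := le_of_mul_le_mul_left h3 hS0
    linarith
  have hc2 : P.real {ω | S / 2 ≤ J' ω} ≤ 2 * η := by
    have hi : Integrable J' P := integrable_finsetSum _ hint'
    have hnn : ∀ ω, 0 ≤ J' ω := fun ω => Finset.sum_nonneg fun i _ =>
      Set.indicator_nonneg (fun _ _ => zero_le_one) _
    have := mul_meas_ge_le_integral_of_nonneg (μ := P) (f := J')
      (Filter.Eventually.of_forall fun ω => hnn ω) hi (S / 2)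
    have h2 : S / 2 * P.real {ω | S / 2 ≤ J' ω} ≤ η * S := this.trans hJ'
    have h3 : S * P.real {ω | S / 2 ≤ J' ω} ≤ S * (2 * η) := by nlinarith
    exact le_of_mul_le_mul_left h3 hS0
  have hsub : {ω | ∀ i ∈ I, ω ∈ T i → ω ∈ B i} ⊆
      {ω | S ^ 2 / 4 ≤ (J ω - S) ^ 2} ∪ {ω | S / 2 ≤ J' ω} := by
    intro ω hω
    simp only [Set.mem_ofPred_eq] at hω
    by_cases hJs : J ω ≤ S / 2
    · left
      simp only [Set.mem_ofPred_eq]
      nlinarith
    · right
      push Not at hJs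
      simp only [Set.mem_ofPred_eq]
      refine hJs.le.trans (Finset.sum_le_sum fun i hi => ?_)
      by_cases h1 : ω ∈ T i
      · have h2 : ω ∈ T' i := subset_toMeasurable _ _ ⟨h1, hω i hi h1⟩
        simp [h1, h2]
      · simp only [h1, not_false_eq_true, Set.indicator_of_notMem]
        exact Set.indicator_nonneg (fun _ _ => zero_le_one) _
  calc P.real {ω | ∀ i ∈ I, ω ∈ T i → ω ∈ B i}
      ≤ P.real ({ω | S ^ 2 / 4 ≤ (J ω - S) ^ 2} ∪ {ω | S / 2 ≤ J' ω}) :=
        measureReal_mono hsub (measure_ne_top _ _)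
    _ ≤ 4 / S + 2 * η := (measureReal_union_le _ _).trans (add_le_add hc1 hc2)
    _ ≤ 4 / M + 2 * η := by
        gcongr

end Pool.Agent.BP
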