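import Pool.Agent.Lib_MP_94fe03_pr.Base

set_option autoImplicit false

namespace Pool.Agent.BP

open MeasureTheory ProbabilityTheory

/-- a large subset in one residue class -/
theorem range_class (m : ℕ) (hm : 0 < m) (A : Finset Z2) : ∃ A' ⊆ A,
    A.card ≤ m ^ 2 * A'.card ∧ ∀ b ∈ A', ∀ b' ∈ A', (m : ℤ) ∣ b.1 - b'.1 ∧ (m : ℤ) ∣ b.2 - b'.2 := by
  classical
  set f : Z2 → ℤ × ℤ := fun b => (b.1 % m, b.2 % m) with hf
  set t : Finset (ℤ × ℤ) := Finset.Ico 0 (m : ℤ) ×ˢ Finset.Ico 0 (m : ℤ) with ht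
  have hm' : (0 : ℤ) < m := by exact_mod_cast hm
  have hmap : ∀ b ∈ A, f b ∈ t := by
    intro b _
    simp only [ht, hf, Finset.mem_product, Finset.mem_Ico]
    exact ⟨⟨Int.emod_nonneg _ hm'.ne', Int.emod_lt_of_pos _ hm'⟩,
      ⟨Int.emod_nonneg _ hm'.ne', Int.emod_lt_of_pos _ hm'⟩⟩
  have htc : t.card = m ^ 2 := by
    rw [ht, Finset.card_product, Int.card_Ico]
    simp [sq]
  have htn : t.Nonempty := by
    rw [← Finset.card_pos, htc]
    positivity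
  have hsum : A.card = ∑ c ∈ t, (A.filter fun b => f b = c).card :=
    Finset.card_eq_sum_card_fiberwise hmap
  have hle : ∑ _c ∈ t, A.card ≤ ∑ c ∈ t, m ^ 2 * (A.filter fun b => f b = c).card := by
    rw [Finset.sum_const, smul_eq_mul, htc, ← Finset.mul_sum, ← hsum]
  obtain ⟨c, _, hc⟩ := Finset.exists_le_of_sum_le htn hle
  refine ⟨A.filter fun b => f b = c, Finset.filter_subset _ _, hc, ?_⟩
  intro b hb b' hb'
  rw [Finset.mem_filter] at hb hb'
  have h := hb.2.trans hb'.2.symm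
  simp only [hf, Prod.mk.injEq] at h
  exact ⟨Int.ModEq.dvd (n := (m : ℤ)) h.1.symm, Int.ModEq.dvd (n := (m : ℤ)) h.2.symm⟩

/-- finite range events: many simultaneous occurrences are exponentially unlikely -/
theorem range_bound {S : Type} [Finite S] [MeasurableSpace S] [DiscreteMeasurableSpace S]
    (ν : Measure S) [IsProbabilityMeasure ν] (B : Z2 → Set (Z2 → S)) (supp : Z2 → Set Z2)
    (m : ℕ) (hm : 0 < m) (hfin : ∀ b, (supp b).Finite) (hloc : ∀ b, Loc (B b) (supp b))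
    (hdis : ∀ b b' : Z2, b ≠ b' → (m : ℤ) ∣ b.1 - b'.1 → (m : ℤ) ∣ b.2 - b'.2 →
      Disjoint (supp b) (supp b'))
    (T : Set (Z2 → S)) (sT : Set Z2) (hsT : sT.Finite) (hT : Loc T sT)
    (hTd : ∀ b b' : Z2, b ≠ b' → (m : ℤ) ∣ b.1 - b'.1 → (m : ℤ) ∣ b.2 - b'.2 →
      Disjoint (supp b) sT ∨ Disjoint (supp b') sT)
    (ρ : ℝ) (hρ0 : 0 ≤ ρ) (hρ1 : ρ ≤ 1)
    (hB : ∀ b, (PM ν).real (T ∩ B b) ≤ ρ ^ (m ^ 2) * (PM ν).real T)
    (hB' : ∀ b, (PM ν).real (B b) ≤ ρ ^ (m ^ 2)) (A : Finset Z2) :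
    (PM ν).real (T ∩ ⋂ b ∈ A, B b) ≤ ρ ^ A.card * (PM ν).real T := by
  classical
  rcases A.eq_empty_or_nonempty with rfl | hA
  · simp
  obtain ⟨A', hA', hcard, hcls⟩ := range_class m hm A
  have hA'n : A'.Nonempty := by
    rw [← Finset.card_pos]
    have := Finset.card_pos.2 hA
    by_contra h0
    have h0' : A'.card = 0 := by omega
    rw [h0'] at hcard
    omega
  have hb0 : ∃ b0 ∈ A', ∀ b ∈ A'.erase b0, Disjoint (supp b) sT := by
    by_cases h : ∃ b0 ∈ A', ¬ Disjoint (supp b0) sT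
    · obtain ⟨b0, hb0, hnd⟩ := h
      refine ⟨b0, hb0, fun b hb => ?_⟩
      rw [Finset.mem_erase] at hb
      rcases hTd b b0 hb.1 (hcls b hb.2 b0 hb0).1 (hcls b hb.2 b0 hb0).2 with h | h
      · exact h
      · exact absurd h hnd
    · push Not at h
      obtain ⟨b0, hb0⟩ := hA'n
      exact ⟨b0, hb0, fun b hb => h b (Finset.mem_of_mem_erase hb)⟩
  obtain ⟨b0, hb0, hdis0⟩ := hb0
  have hsub : T ∩ ⋂ b ∈ A, B b ⊆ (T ∩ B b0) ∩ ⋂ b ∈ A'.erase b0, B b := by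
    rintro σ ⟨h1, h2⟩
    rw [Set.mem_iInter₂] at h2
    refine ⟨⟨h1, h2 b0 (hA' hb0)⟩, ?_⟩
    rw [Set.mem_iInter₂]
    exact fun b hb => h2 b (hA' (Finset.mem_of_mem_erase hb))
  have hind : (PM ν).real ((T ∩ B b0) ∩ ⋂ b ∈ A'.erase b0, B b) =
      (PM ν).real (T ∩ B b0) * (PM ν).real (⋂ b ∈ A'.erase b0, B b) := by
    refine PM_indep ν (t := ⋃ b ∈ (A'.erase b0 : Finset Z2), supp b) (hsT.union (hfin b0)) ?_
      (hT.inter (hloc b0)) ?_ ?_
    · exact Set.Finite.biUnion (Finset.finite_toSet _) fun b _ => hfin b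
    · exact Loc.iInter fun b => Loc.iInter fun _ => hloc b
    · rw [Set.disjoint_iUnion₂_right]
      intro b hb
      rw [Set.disjoint_union_left]
      refine ⟨(hdis0 b hb).symm, ?_⟩
      have hb' := Finset.mem_erase.1 hb
      exact hdis b0 b (fun h => hb'.1 h.symm) (hcls b0 hb0 b hb'.2).1 (hcls b0 hb0 b hb'.2).2
  have hprod : (PM ν).real (⋂ b ∈ A'.erase b0, B b) ≤ (ρ ^ (m ^ 2)) ^ (A'.card - 1) := by
    rw [PM_prod ν (A'.erase b0) B supp (fun b _ => hfin b) (fun b _ => hloc b) (fun b hb b' hb' hne =>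
      hdis b b' hne (hcls b (Finset.mem_of_mem_erase hb) b' (Finset.mem_of_mem_erase hb')).1
        (hcls b (Finset.mem_of_mem_erase hb) b' (Finset.mem_of_mem_erase hb')).2)]
    calc ∏ b ∈ A'.erase b0, (PM ν).real (B b) ≤ ∏ b ∈ A'.erase b0, ρ ^ (m ^ 2) :=
          Finset.prod_le_prod (fun _ _ => measureReal_nonneg) fun b _ => hB' b
      _ = (ρ ^ (m ^ 2)) ^ (A'.card - 1) := by
          rw [Finset.prod_const, Finset.card_erase_of_mem hb0]
  have hTn : 0 ≤ (PM ν).real T := measureReal_nonneg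
  calc (PM ν).real (T ∩ ⋂ b ∈ A, B b)
      ≤ (PM ν).real ((T ∩ B b0) ∩ ⋂ b ∈ A'.erase b0, B b) :=
        measureReal_mono hsub (measure_ne_top _ _)
    _ = (PM ν).real (T ∩ B b0) * (PM ν).real (⋂ b ∈ A'.erase b0, B b) := hind
    _ ≤ (ρ ^ (m ^ 2) * (PM ν).real T) * (ρ ^ (m ^ 2)) ^ (A'.card - 1) :=
        mul_le_mul (hB b0) hprod measureReal_nonneg (by positivity)
    _ = (ρ ^ (m ^ 2)) ^ (A'.card - 1 + 1) * (PM ν).real T := by
        rw [pow_succ]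
        ring
    _ = ρ ^ (m ^ 2 * A'.card) * (PM ν).real T := by
        rw [← pow_mul]
        congr 3
        have := Finset.card_pos.2 hA'n
        omega
    _ ≤ ρ ^ A.card * (PM ν).real T :=
        mul_le_mul_of_nonneg_right (pow_le_pow_of_le_one hρ0 hρ1 hcard) hTn

end Pool.Agent.BP
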