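import Pool.Agent.Lib_MP_94fe03_pr.Base

set_option autoImplicit false

namespace Pool.Agent.BP

theorem stairBox_lip {F : ℤ → ℤ} (hF0 : F 0 = 0) (hL : ∀ t, |F (t + 1) - F t| ≤ 1) (t : ℕ) :
    F t ≤ t := by
  induction t with
  | zero => simp [hF0]
  | succ t ih =>
    have := (abs_le.mp (hL t)).2
    push_cast
    linarith

/-- a Lipschitz path of open boxes gives a staircase; `(X, Y)` is the right end of a tip in box
`b0` -/
theorem stair_of_open {m : ℕ} (hm : 100 ≤ m) {a0 a1 pol : Set Z2} {b0 : Z2} {X Y : ℤ}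
    (hX : b0.1 * (3 * m) ≤ X ∧ X < (b0.1 + 1) * (3 * m))
    (hY : b0.2 * (3 * m) ≤ Y ∧ Y < (b0.2 + 1) * (3 * m)) (hp : ((X, Y) : Z2) ∈ pol)
    (hver : ∀ k : ℕ, 1 ≤ k → k ≤ 15 * m → ((X, Y - k) : Z2) ∉ a1)
    (hfar : ∀ z, Near (21 * m) (b0.1 * (3 * m), b0.2 * (3 * m)) z → z ∉ a0)
    {N : ℕ} {F : ℤ → ℤ} (hF0 : F 0 = 0) (hF : ∀ t, 0 ≤ F t) (hL : ∀ t, |F (t + 1) - F t| ≤ 1)
    (hopen : ∀ t : ℤ, 1 ≤ t → t ≤ N →
      OpenB m a0 a1 pol (b0.1 + 2 * t + F t, b0.2 - 3 * t - F t)) :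
    ∃ x y : ℕ → ℤ, Stair (15 * m) (18 * m) N x y a0 a1 pol ∧ x 0 = X ∧ y 0 = Y ∧
      ∀ t : ℕ, t ≤ N → (b0.1 + 2 * t + F t) * (3 * m) ≤ x t ∧
        x t < (b0.1 + 2 * t + F t + 1) * (3 * m) ∧ (b0.2 - 3 * t - F t) * (3 * m) ≤ y t ∧
        y t < (b0.2 - 3 * t - F t + 1) * (3 * m) := by
  -- the sites
  have hsite : ∀ t : ℕ, ∃ s : Z2, (t = 0 → s = (X, Y)) ∧ (t ≤ N →
      ((b0.1 + 2 * t + F t) * (3 * m) ≤ s.1 ∧
        s.1 < (b0.1 + 2 * t + F t + 1) * (3 * m) ∧ (b0.2 - 3 * t - F t) * (3 * m) ≤ s.2 ∧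
        s.2 < (b0.2 - 3 * t - F t + 1) * (3 * m)) ∧ s ∈ pol ∧
      (1 ≤ t → ∀ k : ℕ, 1 ≤ k → k ≤ 12 * m → ((s.1 - k, s.2) : Z2) ∉ a1) ∧
      (∀ k : ℕ, 1 ≤ k → k ≤ 15 * m → ((s.1, s.2 - k) : Z2) ∉ a1) ∧
      (∀ z, Near (21 * m) ((b0.1 + 2 * t + F t) * (3 * m), (b0.2 - 3 * t - F t) * (3 * m)) z →
        z ∉ a0)) := by
    intro t
    rcases Nat.eq_zero_or_pos t with rfl | ht
    · refine ⟨(X, Y), fun _ => rfl, fun _ => ⟨?_, hp, fun h => absurd h (by norm_num), hver, ?_⟩⟩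
      · simp only [Nat.cast_zero, mul_zero, add_zero, sub_zero, hF0]
        exact ⟨hX.1, hX.2, hY.1, hY.2⟩
      · simp only [Nat.cast_zero, mul_zero, add_zero, sub_zero, hF0]
        exact hfar
    · by_cases htN : t ≤ N
      · obtain ⟨s, ⟨u, hu, v, hv, rfl, hP, _⟩, h1, h2, h3⟩ :=
          hopen t (by exact_mod_cast ht) (by exact_mod_cast htN)
        refine ⟨_, fun h => absurd h (by omega), fun _ => ⟨?_, hP, fun _ => h1, h2, h3⟩⟩
        simp only [subs]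
        rw [add_mul (b0.1 + 2 * (t : ℤ) + F t) 1, add_mul (b0.2 - 3 * (t : ℤ) - F t) 1, one_mul]
        refine ⟨?_, ?_, ?_, ?_⟩ <;> omega
      · exact ⟨(X, Y), fun _ => rfl, fun h => absurd h htN⟩
  choose s hs0 hs using hsite
  have hm0 : (0 : ℤ) < 3 * m := by
    have : (100 : ℤ) ≤ m := by exact_mod_cast hm
    linarith
  -- consecutive sites
  have hstep : ∀ t < N, (s t).1 < (s (t + 1)).1 ∧ (s (t + 1)).2 < (s t).2 ∧
      (s (t + 1)).1 - (s t).1 < 12 * m ∧ (s t).2 - (s (t + 1)).2 < 15 * m := by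
    intro t ht
    obtain ⟨⟨h1, h2, h3, h4⟩, _⟩ := hs t ht.le
    obtain ⟨⟨h5, h6, h7, h8⟩, _⟩ := hs (t + 1) ht
    obtain ⟨hl1, hl2⟩ := abs_le.mp (hL t)
    push_cast at h5 h6 h7 h8
    set M : ℤ := 3 * m with hM
    have e1 : (12 : ℤ) * m = 4 * M := by rw [hM]; ring
    have e2 : (15 : ℤ) * m = 5 * M := by rw [hM]; ring
    rw [e1, e2]
    have g1 : (b0.1 + 2 * (t : ℤ) + F t + 1) * M ≤ (b0.1 + 2 * ((t : ℤ) + 1) + F (t + 1)) * M :=
      mul_le_mul_of_nonneg_right (by linarith) hm0.le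
    have g2 : (b0.2 - 3 * ((t : ℤ) + 1) - F (t + 1) + 1) * M ≤ (b0.2 - 3 * (t : ℤ) - F t) * M :=
      mul_le_mul_of_nonneg_right (by linarith) hm0.le
    have g3 : (b0.1 + 2 * ((t : ℤ) + 1) + F (t + 1) + 1) * M ≤
        (b0.1 + 2 * (t : ℤ) + F t + 4) * M :=
      mul_le_mul_of_nonneg_right (by linarith) hm0.le
    have g4 : (b0.2 - 3 * (t : ℤ) - F t + 1 - 5) * M ≤
        (b0.2 - 3 * ((t : ℤ) + 1) - F (t + 1)) * M :=
      mul_le_mul_of_nonneg_right (by linarith) hm0.le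
    refine ⟨by linarith, by linarith, ?_, ?_⟩
    · have : (b0.1 + 2 * (t : ℤ) + F t + 4) * M = (b0.1 + 2 * (t : ℤ) + F t) * M + 4 * M := by ring
      linarith
    · have : (b0.2 - 3 * (t : ℤ) - F t + 1 - 5) * M =
          (b0.2 - 3 * (t : ℤ) - F t + 1) * M - 5 * M := by ring
      linarith
  refine ⟨fun t => (s t).1, fun t => (s t).2, ?_, ?_, ?_, fun t ht => (hs t ht).1⟩
  · refine ⟨fun t ht => (hstep t ht).1, fun t ht => (hstep t ht).2.1,
      fun t ht => ?_, fun t ht => (hstep t ht).2.2.2.le, ?_, ?_, ?_, ?_⟩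
    · have := (hstep t ht).2.2.1
      have h0 : (0 : ℤ) ≤ m := Int.natCast_nonneg m
      linarith
    · intro t ht u hu1 hu2
      obtain ⟨_, _, h, _, _⟩ := hs (t + 1) ht
      have h' := h (by omega) ((s (t + 1)).1 - u).toNat
      have hb := (hstep t ht).2.2.1
      have hc : (((s (t + 1)).1 - u).toNat : ℤ) = (s (t + 1)).1 - u :=
        Int.toNat_of_nonneg (by linarith)
      have h'' := h' (by omega) (by omega)
      rw [hc, sub_sub_cancel] at h''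
      exact h''
    · intro t ht v hv1 hv2
      obtain ⟨_, _, _, h, _⟩ := hs t ht.le
      have h' := h ((s t).2 - v).toNat
      have hb := (hstep t ht).2.2.2
      have hc : (((s t).2 - v).toNat : ℤ) = (s t).2 - v :=
        Int.toNat_of_nonneg (by linarith)
      have h'' := h' (by omega) (by omega)
      rw [hc, sub_sub_cancel] at h''
      exact h''
    · intro t ht
      exact (hs t ht).2.1
    · intro t ht z hz
      obtain ⟨⟨h1, h2, h3, h4⟩, _, _, _, h⟩ := hs t ht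
      refine h z ?_
      rw [add_mul _ 1, one_mul] at h2 h4
      simp only [Near, abs_le] at hz ⊢
      refine ⟨⟨?_, ?_⟩, ⟨?_, ?_⟩⟩ <;> linarith [hz.1.1, hz.1.2, hz.2.1, hz.2.2]
  · simp only [hs0 0 rfl]
  · simp only [hs0 0 rfl]

/-- numerical bounds for the staircase: tip box at horizontal distance at most `10k` and height
between `1000k` and `1010k` -/
theorem stair_bounds {m k N : ℕ} (hm : 0 < m) (hk : 1 ≤ k) (hN : N = 1000 * k) {b0 : Z2}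
    (h1 : |b0.1| ≤ 10 * k) (h2 : 1000 * k ≤ b0.2) (h3 : b0.2 ≤ 1010 * k) {F : ℤ → ℤ}
    (hF0 : F 0 = 0) (hF : ∀ t, 0 ≤ F t) (hL : ∀ t, |F (t + 1) - F t| ≤ 1) {x y : ℕ → ℤ}
    (hxy : ∀ t : ℕ, t ≤ N → (b0.1 + 2 * t + F t) * (3 * m) ≤ x t ∧
        x t < (b0.1 + 2 * t + F t + 1) * (3 * m) ∧ (b0.2 - 3 * t - F t) * (3 * m) ≤ y t ∧
        y t < (b0.2 - 3 * t - F t + 1) * (3 * m)) :
    y N < 0 ∧ (∀ t ≤ N, 0 ≤ y t → x t ≤ 800 * k * (3 * m)) ∧
      (∃ t ≤ N, 2 ≤ x t ∧ 800 * k * (3 * m) + 1 ≤ y t) ∧ y 0 ≤ 1100 * k * (3 * m) := by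
  have hk' : (1 : ℤ) ≤ k := by exact_mod_cast hk
  have hm' : (1 : ℤ) ≤ m := by exact_mod_cast hm
  obtain ⟨h1a, h1b⟩ := abs_le.mp h1
  set M : ℤ := 3 * m with hM
  have hM3 : 3 ≤ M := by rw [hM]; linarith
  have hM0 : 0 ≤ M := by linarith
  have hlip := stairBox_lip hF0 hL
  refine ⟨?_, ?_, ?_, ?_⟩
  · have h := (hxy N le_rfl).2.2.2
    have hNk : (N : ℤ) = 1000 * k := by rw [hN]; push_cast; ring
    have hle : b0.2 - 3 * (N : ℤ) - F N + 1 ≤ 0 := by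
      have := hF N
      rw [hNk] at this ⊢
      linarith
    have := mul_nonpos_of_nonpos_of_nonneg hle hM0
    linarith
  · intro t ht h0
    obtain ⟨_, hx, _, hy⟩ := hxy t ht
    have hpos : 0 < b0.2 - 3 * (t : ℤ) - F t + 1 := by
      by_contra hcon
      have := mul_nonpos_of_nonpos_of_nonneg (not_lt.mp hcon) hM0
      linarith
    have hl := hlip t
    have hle : b0.1 + 2 * (t : ℤ) + F t + 1 ≤ 800 * k := by linarith
    have := mul_le_mul_of_nonneg_right hle hM0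
    linarith
  · refine ⟨5 * k + 1, by omega, ?_, ?_⟩
    · have h := (hxy (5 * k + 1) (by omega)).1
      have h0 := hF ((5 * k + 1 : ℕ) : ℤ)
      have hle : (2 : ℤ) ≤ b0.1 + 2 * ((5 * k + 1 : ℕ) : ℤ) + F ((5 * k + 1 : ℕ) : ℤ) := by
        push_cast at h0 ⊢
        linarith
      have := mul_le_mul_of_nonneg_right hle hM0
      linarith
    · have h := (hxy (5 * k + 1) (by omega)).2.2.1
      have h0 := hlip (5 * k + 1)
      have hle : (800 * k + 1 : ℤ) ≤ b0.2 - 3 * ((5 * k + 1 : ℕ) : ℤ) - F ((5 * k + 1 : ℕ) : ℤ) := by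
        push_cast at h0 ⊢
        linarith
      have := mul_le_mul_of_nonneg_right hle hM0
      linarith
  · have h := (hxy 0 (Nat.zero_le _)).2.2.2
    simp only [Nat.cast_zero, mul_zero, sub_zero, hF0] at h
    have hle : b0.2 + 1 ≤ 1100 * k := by linarith
    have := mul_le_mul_of_nonneg_right hle hM0
    linarith

end Pool.Agent.BP
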