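import Pool.Agent.Lib_MP_94fe03_pr.Base

set_option autoImplicit false

namespace Pool.Agent.BP

theorem wedgeDet_mono {N : ℕ} {x : ℕ → ℤ} (h : ∀ t < N, x t < x (t + 1)) {i : ℕ} :
    ∀ j, i ≤ j → j ≤ N → x i ≤ x j := by
  intro j
  induction j with
  | zero => intro hij _; rw [Nat.le_zero.mp hij]
  | succ j ih =>
    intro hij hj
    rcases Nat.lt_or_ge i (j + 1) with h1 | h1
    · exact le_trans (ih (by omega) (by omega)) (h j (by omega)).le
    · have : i = j + 1 := by omega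
      rw [this]

theorem wedgeDet_smono {N : ℕ} {x : ℕ → ℤ} (h : ∀ t < N, x t < x (t + 1)) {i j : ℕ}
    (hij : i < j) (hj : j ≤ N) : x i < x j :=
  lt_of_lt_of_le (h i (by omega)) (wedgeDet_mono h j hij hj)

theorem wedgeDet_anti {N : ℕ} {y : ℕ → ℤ} (h : ∀ t < N, y (t + 1) < y t) {i : ℕ} :
    ∀ j, i ≤ j → j ≤ N → y j ≤ y i := by
  intro j hij hj
  have := wedgeDet_mono (x := fun t => -y t) (N := N) (fun t ht => by
    have := h t ht
    show -y t < -y (t + 1)
    omega) j hij hj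
  omega

theorem wedgeDet_santi {N : ℕ} {y : ℕ → ℤ} (h : ∀ t < N, y (t + 1) < y t) {i j : ℕ}
    (hij : i < j) (hj : j ≤ N) : y j < y i :=
  lt_of_le_of_lt (wedgeDet_anti h j hij hj) (h i (by omega))

/-- the right neighbour is outside -/
theorem wedgeDet_right {N : ℕ} {x y : ℕ → ℤ} (hx : ∀ t < N, x t < x (t + 1))
    (_ : ∀ t < N, y (t + 1) < y t) (h1 : y N < 0) {a b : ℤ} (hz : ((a, b) : Z2) ∈ QR N x y)
    (h0 : 0 ≤ b) (hr : ((a + 1, b) : Z2) ∉ QR N x y) :
    ∃ t < N, a = x t ∧ y (t + 1) < b ∧ b ≤ y t := by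
  obtain ⟨t0, ht0, hz1, hz2⟩ := hz
  simp only at hz1 hz2
  set t := Nat.findGreatest (fun t => b ≤ y t) N with ht
  have h2 : b ≤ y t := Nat.findGreatest_spec (P := fun t => b ≤ y t) ht0 hz2
  have h3 : t ≤ N := Nat.findGreatest_le N
  have h4 : t0 ≤ t := Nat.le_findGreatest ht0 hz2
  have h5 : t < N := by
    rcases lt_or_eq_of_le h3 with h | h
    · exact h
    · rw [h] at h2
      omega
  have h6 : ¬ b ≤ y (t + 1) :=
    Nat.findGreatest_is_greatest (P := fun t => b ≤ y t) (n := N) (k := t + 1) (by omega) (by omega)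
  have h7 : x t0 ≤ x t := wedgeDet_mono hx t h4 h3
  have h8 : ¬ (a + 1 ≤ x t) := fun h => hr ⟨t, h3, h, h2⟩
  exact ⟨t, h5, by omega, by omega, h2⟩

/-- the upper neighbour is outside -/
theorem wedgeDet_up {N : ℕ} {x y : ℕ → ℤ}
    (hy : ∀ t < N, y (t + 1) < y t) (h1 : y N < 0) {a b : ℤ} (hz : ((a, b) : Z2) ∈ QR N x y)
    (h0 : 0 ≤ b) (hr : ((a, b + 1) : Z2) ∉ QR N x y) :
    ∃ t < N, b = y t ∧ a ≤ x t ∧ (t = 0 ∨ ∃ s, t = s + 1 ∧ x s < a) := by
  obtain ⟨t0, ht0, hz1, hz2⟩ := hz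
  simp only at hz1 hz2
  have hex : ∃ t, a ≤ x t := ⟨t0, hz1⟩
  classical
  set t := Nat.find hex with ht
  have h2 : a ≤ x t := Nat.find_spec hex
  have h3 : t ≤ t0 := Nat.find_min' hex hz1
  have h4 : y t0 ≤ y t := wedgeDet_anti hy t0 h3 ht0
  have h5 : ¬ (b + 1 ≤ y t) := fun h => hr ⟨t, by omega, h2, h⟩
  have h6 : t < N := by
    rcases lt_or_eq_of_le (le_trans h3 ht0) with h | h
    · exact h
    · rw [h] at h4 h5
      omega
  refine ⟨t, h6, by omega, h2, ?_⟩
  rcases Nat.eq_zero_or_pos t with h | h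
  · exact Or.inl h
  · right
    refine ⟨t - 1, by omega, ?_⟩
    have := Nat.find_min hex (m := t - 1) (by omega)
    omega

/-- everything about one staircase: `z` in the wedge with a neighbour outside the quarter region of
the staircase -/
theorem wedgeDet_side {a0 a1 pol : Set Z2} (hd : ∀ z ∈ pol, z ∉ a1) {L K : ℤ} (hL : 6 ≤ L)
    (hK : L + 300 ≤ K) {N N' : ℕ} {x y x' y' : ℕ → ℤ} (hs : Stair L K N x y a0 a1 pol)
    (hy' : ∀ t < N', y' (t + 1) < y' t) (hc' : ((-x' 0, y' 0) : Z2) ∈ pol) (hy : y 0 = y' 0)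
    (hx : -x' 0 + 6 = x 0) (htip : ∀ u, -x' 0 < u → u < x 0 → ((u, y 0) : Z2) ∉ a1)
    (h1 : y N < 0) {a b : ℤ} (hz : ((a, b) : Z2) ∈ QR N x y)
    (hz' : ((-a, b) : Z2) ∈ QR N' x' y') (h0 : 0 ≤ b)
    (hr : ((a + 1, b) : Z2) ∉ QR N x y ∨ ((a, b + 1) : Z2) ∉ QR N x y) :
    ((a, b) : Z2) ∉ a1 ∧ ∀ w : Z2, Near 300 (a, b) w → w ∉ a0 := by
  rcases hr with hr | hr
  · obtain ⟨t, ht, e1, e2, e3⟩ := wedgeDet_right hs.xm hs.ym h1 hz h0 hr
    constructor
    · rcases lt_or_eq_of_le e3 with h | h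
      · rw [e1]; exact hs.ver t ht b e2 h
      · rw [e1, h]; exact hd _ (hs.cor t ht.le)
    · intro w hw
      refine hs.far t ht.le w ?_
      have := hs.yL t ht
      obtain ⟨w1, w2⟩ := hw
      simp only at w1 w2
      rw [abs_le] at w1 w2
      constructor
      · simp only
        rw [abs_le]
        constructor <;> omega
      · simp only
        rw [abs_le]
        constructor <;> omega
  · obtain ⟨t, ht, e1, e2, e3⟩ := wedgeDet_up hs.ym h1 hz h0 hr
    rcases e3 with e3 | ⟨s, e3, e4⟩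
    · -- the tip
      subst e3
      obtain ⟨s', hs', g1, g2⟩ := hz'
      simp only at g1 g2
      have hs0 : s' = 0 := by
        by_contra hne
        have := wedgeDet_santi hy' (i := 0) (j := s') (by omega) hs'
        omega
      rw [hs0] at g1
      constructor
      · rcases lt_or_eq_of_le e2 with h | h
        · rcases lt_or_eq_of_le (show -x' 0 ≤ a by omega) with h' | h'
          · rw [e1]; exact htip a h' h
          · rw [← h', e1, hy]; exact hd _ hc'
        · rw [h, e1]; exact hd _ (hs.cor 0 (by omega))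
      · intro w hw
        refine hs.far 0 (by omega) w ?_
        obtain ⟨w1, w2⟩ := hw
        simp only at w1 w2
        rw [abs_le] at w1 w2
        constructor
        · simp only
          rw [abs_le]
          constructor <;> omega
        · simp only
          rw [abs_le]
          constructor <;> omega
    · subst e3
      constructor
      · rcases lt_or_eq_of_le e2 with h | h
        · rw [e1]; exact hs.hor s (by omega) a e4 h
        · rw [h, e1]; exact hd _ (hs.cor (s + 1) ht.le)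
      · intro w hw
        refine hs.far (s + 1) ht.le w ?_
        have := hs.xL s (by omega)
        obtain ⟨w1, w2⟩ := hw
        simp only at w1 w2
        rw [abs_le] at w1 w2
        constructor
        · simp only
          rw [abs_le]
          constructor <;> omega
        · simp only
          rw [abs_le]
          constructor <;> omega

/-- right and upper neighbour outside: corner -/
theorem wedgeDet_corner {N N' : ℕ} {x y x' y' : ℕ → ℤ} {pol : Set Z2}
    (hxm : ∀ t < N, x t < x (t + 1)) (hym : ∀ t < N, y (t + 1) < y t)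
    (hc : ∀ t ≤ N, ((x t, y t) : Z2) ∈ pol)
    (hxm' : ∀ t < N', x' t < x' (t + 1)) (hym' : ∀ t < N', y' (t + 1) < y' t)
    (hy : y 0 = y' 0) (hx : -x' 0 + 6 = x 0)
    (h1 : y N < 0) (h2 : y' N' < 0) {a b : ℤ} (hz : ((a, b) : Z2) ∈ QR N x y)
    (hz' : ((-a, b) : Z2) ∈ QR N' x' y') (h0 : 0 ≤ b)
    (hr : ((a + 1, b) : Z2) ∉ QR N x y)
    (hu : ((a, b + 1) : Z2) ∉ QR N x y ∨ ((-a, b + 1) : Z2) ∉ QR N' x' y') :
    ((a, b) : Z2) ∈ pol := by
  obtain ⟨t, ht, e1, e2, e3⟩ := wedgeDet_right hxm hym h1 hz h0 hr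
  have hx0 : x 0 ≤ x t := wedgeDet_mono hxm t (Nat.zero_le t) ht.le
  rcases hu with hu | hu
  · obtain ⟨t', ht', f1, f2, f3⟩ := wedgeDet_up hym h1 hz h0 hu
    have htt : t' = t := by
      rcases lt_trichotomy t' t with h | h | h
      · have := wedgeDet_santi hym h ht.le
        omega
      · exact h
      · have := wedgeDet_anti hym (i := t + 1) t' h ht'.le
        omega
    rw [e1, f1, htt]
    exact hc t ht.le
  · obtain ⟨s, hs, f1, f2, f3⟩ := wedgeDet_up hym' h2 hz' h0 hu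
    have hs0 : s = 0 := by
      rcases f3 with h | ⟨r, h, h'⟩
      · exact h
      · have := wedgeDet_mono hxm' r (Nat.zero_le r) (by omega)
        omega
    rw [hs0] at f1
    have ht0 : t = 0 := by
      by_contra hne
      have := wedgeDet_santi hym (i := 0) (j := t) (by omega) ht.le
      omega
    rw [ht0] at e1 e3
    have : b = y 0 := by omega
    rw [e1, this]
    exact hc 0 (Nat.zero_le _)

/-- the neighbours of a site -/
theorem wedgeDet_nb {z w : Z2} (h : Nb z w) :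
    w = (z.1 + 1, z.2) ∨ w = (z.1 - 1, z.2) ∨ w = (z.1, z.2 + 1) ∨ w = (z.1, z.2 - 1) := by
  obtain ⟨w1, w2⟩ := w
  rcases h with ⟨h1, h2⟩ | ⟨h1, h2⟩
  · simp only at h1 h2
    rcases abs_eq (by norm_num : (0 : ℤ) ≤ 1) |>.mp h2 with h | h
    · right; right; right
      ext
      · exact h1.symm
      · show w2 = z.2 - 1
        omega
    · right; right; left
      ext
      · exact h1.symm
      · show w2 = z.2 + 1
        omega
  · simp only at h1 h2
    rcases abs_eq (by norm_num : (0 : ℤ) ≤ 1) |>.mp h2 with h | h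
    · right; left
      ext
      · show w1 = z.1 - 1
        omega
      · exact h1.symm
    · left
      ext
      · show w1 = z.1 + 1
        omega
      · exact h1.symm

/-- two staircases that start at the two ends of a tip bound a closed wedge -/
theorem wedge_closed {a0 a1 pol : Set Z2} (hd : ∀ z ∈ pol, z ∉ a1) {L K : ℤ} (hL : 6 ≤ L)
    (hK : L + 300 ≤ K)
    {N N' : ℕ} {x y x' y' : ℕ → ℤ} (hs : Stair L K N x y a0 a1 pol)
    (hs' : Stair L K N' x' y' (mir a0) (mir a1) (mir pol)) (hy : y 0 = y' 0)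
    (hx : -x' 0 + 6 = x 0) (htip : ∀ u, -x' 0 < u → u < x 0 → ((u, y 0) : Z2) ∉ a1)
    (h1 : y N < 0) (h2 : y' N' < 0) {X0 Rm : ℤ}
    (h5 : ∀ t ≤ N, 0 ≤ y t → x t ≤ X0) (h5' : ∀ t ≤ N', 0 ≤ y' t → x' t ≤ X0)
    (h6 : ∃ t ≤ N, 2 ≤ x t ∧ X0 + 1 ≤ y t) (h6' : ∃ t ≤ N', 2 ≤ x' t ∧ X0 + 1 ≤ y' t)
    (h7 : X0 ≤ Rm) (h7' : y 0 ≤ Rm) :
    BW ({z : Z2 | z ∈ QR N x y ∧ ((-z.1, z.2) : Z2) ∈ QR N' x' y'}) X0 Rm a0 a1 pol := by
  -- the mirrored data
  have hd' : ∀ z ∈ mir pol, z ∉ mir a1 := fun z hz hz' => hd _ hz hz'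
  have hmm : ∀ (A : Set Z2) (a b : ℤ), ((-a, b) : Z2) ∈ mir A ↔ ((a, b) : Z2) ∈ A := by
    intro A a b
    simp only [mir, Set.mem_ofPred_eq, neg_neg]
  have hmm2 : ∀ (A : Set Z2) (a b : ℤ), ((a, b) : Z2) ∈ mir A ↔ ((-a, b) : Z2) ∈ A := by
    intro A a b
    simp only [mir, Set.mem_ofPred_eq]
  have hc' : ((-x' 0, y' 0) : Z2) ∈ pol := (hmm2 pol _ _).mp (hs'.cor 0 (Nat.zero_le _))
  have hc : ((-x 0, y 0) : Z2) ∈ mir pol := (hmm pol _ _).mpr (hs.cor 0 (Nat.zero_le _))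
  have htip' : ∀ u, -x 0 < u → u < x' 0 → ((u, y' 0) : Z2) ∉ mir a1 := by
    intro u hu1 hu2
    rw [hmm2, ← hy]
    exact htip (-u) (by omega) (by omega)
  have hxx : -x 0 + 6 = x' 0 := by omega
  -- membership facts
  have left_ok : ∀ a b : ℤ, ((a, b) : Z2) ∈ QR N x y → ((a - 1, b) : Z2) ∈ QR N x y := by
    rintro a b ⟨t, ht, g1, g2⟩
    exact ⟨t, ht, by simp only at g1 ⊢; omega, g2⟩
  have left_ok' : ∀ a b : ℤ, ((a, b) : Z2) ∈ QR N' x' y' → ((a - 1, b) : Z2) ∈ QR N' x' y' := by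
    rintro a b ⟨t, ht, g1, g2⟩
    exact ⟨t, ht, by simp only at g1 ⊢; omega, g2⟩
  have down_ok : ∀ a b : ℤ, ((a, b) : Z2) ∈ QR N x y → ((a, b - 1) : Z2) ∈ QR N x y := by
    rintro a b ⟨t, ht, g1, g2⟩
    exact ⟨t, ht, g1, by simp only at g2 ⊢; omega⟩
  have down_ok' : ∀ a b : ℤ, ((a, b) : Z2) ∈ QR N' x' y' → ((a, b - 1) : Z2) ∈ QR N' x' y' := by
    rintro a b ⟨t, ht, g1, g2⟩
    exact ⟨t, ht, g1, by simp only at g2 ⊢; omega⟩
  set W : Set Z2 := {z : Z2 | z ∈ QR N x y ∧ ((-z.1, z.2) : Z2) ∈ QR N' x' y'} with hW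
  have memW : ∀ a b : ℤ, ((a, b) : Z2) ∈ W ↔
      ((a, b) : Z2) ∈ QR N x y ∧ ((-a, b) : Z2) ∈ QR N' x' y' := fun a b => Iff.rfl
  have right_iff : ∀ a b : ℤ, ((a, b) : Z2) ∈ W → ((a + 1, b) : Z2) ∉ W →
      ((a + 1, b) : Z2) ∉ QR N x y := by
    intro a b hz hn h
    refine hn ⟨h, ?_⟩
    have := left_ok' (-a) b hz.2
    have e : -a - 1 = -(a + 1) := by ring
    rw [e] at this
    exact this
  have left_iff : ∀ a b : ℤ, ((a, b) : Z2) ∈ W → ((a - 1, b) : Z2) ∉ W →
      ((-a + 1, b) : Z2) ∉ QR N' x' y' := by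
    intro a b hz hn h
    refine hn ⟨left_ok a b hz.1, ?_⟩
    have e : -(a - 1) = -a + 1 := by ring
    show ((-(a - 1), b) : Z2) ∈ QR N' x' y'
    rw [e]
    exact h
  have up_iff : ∀ a b : ℤ, ((a, b) : Z2) ∈ W → ((a, b + 1) : Z2) ∉ W →
      ((a, b + 1) : Z2) ∉ QR N x y ∨ ((-a, b + 1) : Z2) ∉ QR N' x' y' := by
    intro a b _ hn
    by_contra hc
    push Not at hc
    exact hn hc
  have down_W : ∀ a b : ℤ, ((a, b) : Z2) ∈ W → ((a, b - 1) : Z2) ∈ W :=
    fun a b hz => ⟨down_ok a b hz.1, down_ok' (-a) b hz.2⟩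
  have not_both : ∀ a b : ℤ, ((a, b) : Z2) ∈ W → 0 ≤ b → ((a + 1, b) : Z2) ∉ W →
      ((a - 1, b) : Z2) ∉ W → False := by
    intro a b hz h0 hr hl
    obtain ⟨t, ht, e1, _, _⟩ := wedgeDet_right hs.xm hs.ym h1 hz.1 h0 (right_iff a b hz hr)
    obtain ⟨s, hs1, e2, _, _⟩ := wedgeDet_right hs'.xm hs'.ym h2 hz.2 h0 (left_iff a b hz hl)
    have g1 := wedgeDet_mono hs.xm t (Nat.zero_le t) ht.le
    have g2 := wedgeDet_mono hs'.xm s (Nat.zero_le s) hs1.le
    omega
  -- the one neighbour statements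
  have one : ∀ z ∈ W, 0 ≤ z.2 → ∀ w, Nb z w → w ∉ W →
      z ∉ a1 ∧ ∀ v, Near 300 z v → v ∉ a0 := by
    rintro ⟨a, b⟩ hz h0 w hw hn
    simp only at h0
    have side1 : ((a + 1, b) : Z2) ∉ QR N x y ∨ ((a, b + 1) : Z2) ∉ QR N x y →
        ((a, b) : Z2) ∉ a1 ∧ ∀ v, Near 300 ((a, b) : Z2) v → v ∉ a0 := fun h =>
      wedgeDet_side hd hL hK hs hs'.ym hc' hy hx htip h1 hz.1 hz.2 h0 h
    have side2 : ((-a + 1, b) : Z2) ∉ QR N' x' y' ∨ ((-a, b + 1) : Z2) ∉ QR N' x' y' →
        ((a, b) : Z2) ∉ a1 ∧ ∀ v, Near 300 ((a, b) : Z2) v → v ∉ a0 := by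
      intro h
      have hzz : ((- -a, b) : Z2) ∈ QR N x y := by rw [neg_neg]; exact hz.1
      obtain ⟨g1, g2⟩ := wedgeDet_side hd' hL hK hs' hs.ym hc hy.symm hxx htip' h2
        (a := -a) (b := b) hz.2 hzz h0 h
      refine ⟨fun hh => g1 ((hmm a1 a b).mpr hh), fun v hv hva => ?_⟩
      refine g2 (-v.1, v.2) ?_ ((hmm a0 v.1 v.2).mpr hva)
      obtain ⟨v1, v2⟩ := hv
      simp only at v1 v2
      refine ⟨?_, v2⟩
      show |(-a) - (-v.1)| ≤ 300
      rw [show (-a) - (-v.1) = -(a - v.1) by ring, abs_neg]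
      exact v1
    rcases wedgeDet_nb hw with e | e | e | e
    · rw [e] at hn
      exact side1 (Or.inl (right_iff a b hz hn))
    · rw [e] at hn
      exact side2 (Or.inl (left_iff a b hz hn))
    · rw [e] at hn
      rcases up_iff a b hz hn with h | h
      · exact side1 (Or.inr h)
      · exact side2 (Or.inr h)
    · rw [e] at hn
      exact absurd (down_W a b hz) hn
  refine ⟨fun z hz h0 w hw hn => (one z hz h0 w hw hn).1, ?_, ?_,
    fun z hz h0 w hw hn v hv => (one z hz h0 w hw hn).2 v hv, ?_, ?_, ?_⟩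
  · -- b2
    rintro ⟨a, b⟩ hz h0 w w' hne hw hw' hn hn'
    simp only at h0
    have cR : ((a + 1, b) : Z2) ∉ W → ((a, b + 1) : Z2) ∉ W → ((a, b) : Z2) ∈ pol := by
      intro g1 g2
      exact wedgeDet_corner hs.xm hs.ym hs.cor hs'.xm hs'.ym hy hx h1 h2 hz.1 hz.2 h0
        (right_iff a b hz g1) (up_iff a b hz g2)
    have cL : ((a - 1, b) : Z2) ∉ W → ((a, b + 1) : Z2) ∉ W → ((a, b) : Z2) ∈ pol := by
      intro g1 g2
      have hzz : ((- -a, b) : Z2) ∈ QR N x y := by rw [neg_neg]; exact hz.1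
      have g3 : ((-a, b + 1) : Z2) ∉ QR N' x' y' ∨ ((- -a, b + 1) : Z2) ∉ QR N x y := by
        rw [neg_neg]
        exact (up_iff a b hz g2).symm
      have := wedgeDet_corner hs'.xm hs'.ym hs'.cor hs.xm hs.ym hy.symm hxx h2 h1 (a := -a)
        (b := b) hz.2 hzz h0 (left_iff a b hz g1) g3
      exact (hmm pol a b).mp this
    rcases wedgeDet_nb hw with e | e | e | e <;> rcases wedgeDet_nb hw' with e' | e' | e' | e'
    · exact absurd (e.trans e'.symm) hne
    · rw [e] at hn; rw [e'] at hn'; exact (not_both a b hz h0 hn hn').elim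
    · rw [e] at hn; rw [e'] at hn'; exact cR hn hn'
    · rw [e'] at hn'; exact absurd (down_W a b hz) hn'
    · rw [e] at hn; rw [e'] at hn'; exact (not_both a b hz h0 hn' hn).elim
    · exact absurd (e.trans e'.symm) hne
    · rw [e] at hn; rw [e'] at hn'; exact cL hn hn'
    · rw [e'] at hn'; exact absurd (down_W a b hz) hn'
    · rw [e] at hn; rw [e'] at hn'; exact cR hn' hn
    · rw [e] at hn; rw [e'] at hn'; exact cL hn' hn
    · exact absurd (e.trans e'.symm) hne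
    · rw [e'] at hn'; exact absurd (down_W a b hz) hn'
    · rw [e] at hn; exact absurd (down_W a b hz) hn
    · rw [e] at hn; exact absurd (down_W a b hz) hn
    · rw [e] at hn; exact absurd (down_W a b hz) hn
    · rw [e] at hn; exact absurd (down_W a b hz) hn
  · -- b3
    rintro ⟨a, b⟩ hz h0 w w' w'' n1 n2 n3 hw hw' hw''
    simp only at h0
    by_contra hcon
    push Not at hcon
    obtain ⟨m1, m2, m3⟩ := hcon
    have nd : ∀ v : Z2, v ∉ W → v ≠ ((a, b - 1) : Z2) := by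
      intro v hv e
      rw [e] at hv
      exact hv (down_W a b hz)
    have hR : ∀ v : Z2, v ∉ W → v = ((a + 1, b) : Z2) → ((a + 1, b) : Z2) ∉ W :=
      fun v hv e => e ▸ hv
    have hLf : ∀ v : Z2, v ∉ W → v = ((a - 1, b) : Z2) → ((a - 1, b) : Z2) ∉ W :=
      fun v hv e => e ▸ hv
    rcases wedgeDet_nb hw with e | e | e | e
    · -- w right
      rcases wedgeDet_nb hw' with e' | e' | e' | e'
      · exact n1 (e.trans e'.symm)
      · exact not_both a b hz h0 (hR w m1 e) (hLf w' m2 e')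
      · rcases wedgeDet_nb hw'' with e'' | e'' | e'' | e''
        · exact n2 (e.trans e''.symm)
        · exact not_both a b hz h0 (hR w m1 e) (hLf w'' m3 e'')
        · exact n3 (e'.trans e''.symm)
        · exact nd w'' m3 e''
      · exact nd w' m2 e'
    · -- w left
      rcases wedgeDet_nb hw' with e' | e' | e' | e'
      · exact not_both a b hz h0 (hR w' m2 e') (hLf w m1 e)
      · exact n1 (e.trans e'.symm)
      · rcases wedgeDet_nb hw'' with e'' | e'' | e'' | e''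
        · exact not_both a b hz h0 (hR w'' m3 e'') (hLf w m1 e)
        · exact n2 (e.trans e''.symm)
        · exact n3 (e'.trans e''.symm)
        · exact nd w'' m3 e''
      · exact nd w' m2 e'
    · -- w up
      rcases wedgeDet_nb hw' with e' | e' | e' | e'
      · rcases wedgeDet_nb hw'' with e'' | e'' | e'' | e''
        · exact n3 (e'.trans e''.symm)
        · exact not_both a b hz h0 (hR w' m2 e') (hLf w'' m3 e'')
        · exact n2 (e.trans e''.symm)
        · exact nd w'' m3 e''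
      · rcases wedgeDet_nb hw'' with e'' | e'' | e'' | e''
        · exact not_both a b hz h0 (hR w'' m3 e'') (hLf w' m2 e')
        · exact n3 (e'.trans e''.symm)
        · exact n2 (e.trans e''.symm)
        · exact nd w'' m3 e''
      · exact n1 (e.trans e'.symm)
      · exact nd w' m2 e'
    · exact nd w m1 e
  · -- b5
    rintro ⟨a, b⟩ hz hb
    simp only at hb
    subst hb
    obtain ⟨⟨t, ht, g1, g2⟩, ⟨s, hs1, g3, g4⟩⟩ := hz
    simp only at g1 g2 g3 g4
    have := h5 t ht g2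
    have := h5' s hs1 g4
    show |a| ≤ X0
    rw [abs_le]
    constructor <;> omega
  · -- b6
    rintro ⟨a, b⟩ ha hb0 hb1
    simp only at ha hb0 hb1
    rw [abs_le] at ha
    obtain ⟨t, ht, g1, g2⟩ := h6
    obtain ⟨s, hs1, g3, g4⟩ := h6'
    exact ⟨⟨t, ht, by simp only; omega, by simp only; omega⟩,
      ⟨s, hs1, by simp only; omega, by simp only; omega⟩⟩
  · -- b7
    rintro ⟨a, b⟩ hz hb
    simp only at hb
    obtain ⟨⟨t, ht, g1, g2⟩, ⟨s, hs1, g3, g4⟩⟩ := hz
    simp only at g1 g2 g3 g4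
    have q1 := h5 t ht (by omega)
    have q2 := h5' s hs1 (by omega)
    have q3 := wedgeDet_anti hs.ym t (Nat.zero_le t) ht
    show |a| ≤ Rm ∧ b ≤ Rm
    rw [abs_le]
    refine ⟨⟨?_, ?_⟩, ?_⟩ <;> omega

end Pool.Agent.BP
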