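import Pool.Agent.Lib_MP_94fe03_pr.PathProb
import Pool.Agent.Lib_MP_94fe03_pr.Range
import Pool.Agent.Lib_MP_94fe03_pr.WedgeDet
import Pool.Agent.Lib_MP_94fe03_pr.StairBox
import Pool.Agent.Lib_MP_94fe03_pr.BoxProb
import Pool.Agent.Lib_MP_94fe03_pr.Frames

set_option autoImplicit false

namespace Pool.Agent.BP

open MeasureTheory ProbabilityTheory

namespace Tip

theorem near_finite (k : ℤ) (x : Z2) : {y : Z2 | Near k x y}.Finite := by
  refine Set.Finite.subset ((Finset.Icc (x.1 - k) (x.1 + k)) ×ˢ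
    (Finset.Icc (x.2 - k) (x.2 + k))).finite_toSet ?_
  rintro ⟨a, b⟩ ⟨h1, h2⟩
  simp only [abs_le] at h1 h2
  simp only [Finset.coe_product, Finset.coe_Icc, Set.mem_prod, Set.mem_Icc]
  exact ⟨⟨by linarith, by linarith⟩, ⟨by linarith, by linarith⟩⟩

theorem inter_biUnion_le {Ω κ : Type} [MeasurableSpace Ω] (P : Measure Ω)
    [IsProbabilityMeasure P] (I : Finset κ) (T : Set Ω) (E : κ → Set Ω) (c : ℝ)
    (h : ∀ i ∈ I, P.real (T ∩ E i) ≤ c) : P.real (T ∩ ⋃ i ∈ I, E i) ≤ I.card * c := by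
  have e : (T ∩ ⋃ i ∈ I, E i) = ⋃ i ∈ I, (T ∩ E i) := by
    rw [Set.inter_iUnion₂]
  rw [e]
  calc P.real (⋃ i ∈ I, (T ∩ E i)) ≤ ∑ i ∈ I, P.real (T ∩ E i) := real_biUnion_le _ _ _
    _ ≤ ∑ i ∈ I, c := Finset.sum_le_sum h
    _ = I.card * c := by rw [Finset.sum_const, nsmul_eq_mul]

/-- the path fails -/
def PF {S : Type} (m N : ℕ) (a0 a1 pol : Z2 → Set (Z2 → S)) (b0 : Z2) : Set (Z2 → S) :=
  {σ | ¬ ∃ F : ℤ → ℤ, F 0 = 0 ∧ (∀ t, 0 ≤ F t) ∧ (∀ t, |F (t + 1) - F t| ≤ 1) ∧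
    ∀ t : ℤ, 1 ≤ t → t ≤ N → σ ∉ closedB m a0 a1 pol (b0.1 + 2 * t + F t, b0.2 - 3 * t - F t)}

theorem tip_path {S : Type} [Finite S] [MeasurableSpace S] [DiscreteMeasurableSpace S]
    {ν : Measure S} [IsProbabilityMeasure ν] {a0 a1 pol : Z2 → Set (Z2 → S)} {C p q : ℝ}
    (hC : 0 ≤ C) (hp : 0 ≤ p) (hq0 : 0 ≤ q) (hL : LabHyp ν a0 a1 pol C p q) {m : ℕ}
    (hm : 0 < m) (N : ℕ) {ρ : ℝ} (hρ0 : 0 ≤ ρ) (hρ : ρ ≤ 1 / 36)
    (hcl : (1 - q) ^ (m ^ 2) + 27 * m * (C * p) + (43 * m) ^ 2 * (C * p ^ 2) ≤ ρ ^ (100 ^ 2))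
    (b0 : Z2) (A : Finset Z2)
    (hA : ∀ x ∈ A, x.2 = b0.2 * (3 * m) + 1 ∧ |x.1 - b0.1 * (3 * m)| ≤ 3 * m) :
    (PM ν).real ((⋂ x ∈ A, pol x) ∩ PF m N a0 a1 pol b0) ≤
      18 * ρ * (PM ν).real (⋂ x ∈ A, pol x) := by
  classical
  have hm' : (1 : ℤ) ≤ m := by exact_mod_cast hm
  let f : Z2 → Z2 := fun z => (b0.1 + 2 * z.1 + z.2, b0.2 - 3 * z.1 - z.2)
  let Bd : Z2 → Set (Z2 → S) := fun z => if 1 ≤ z.1 ∧ 0 ≤ z.2 then closedB m a0 a1 pol (f z) else ∅
  let supp : Z2 → Set Z2 := fun z => {y | Near (22 * m) ((f z).1 * (3 * m), (f z).2 * (3 * m)) y}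
  set T : Set (Z2 → S) := ⋂ x ∈ A, pol x with hT
  have hclp : ∀ (A' : Finset Z2) (z : Z2), (∀ x ∈ A', x.2 = b0.2 * (3 * m) + 1) →
      (PM ν).real ((⋂ x ∈ A', pol x) ∩ Bd z) ≤ ρ ^ (100 ^ 2) * (PM ν).real (⋂ x ∈ A', pol x) := by
    intro A' z hA'
    by_cases hz : 1 ≤ z.1 ∧ 0 ≤ z.2
    · simp only [Bd, hz, and_self, if_true]
      refine (closedB_prob hC hp hq0 hL hm (f z) A' ?_).trans ?_
      · intro x hx y hy hbox
        obtain ⟨_, _, _, h4⟩ := hbox
        have h5 := hA' x hx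
        have h6 := hy.2
        rw [abs_le] at h6
        simp only [f] at h4
        nlinarith
      · exact mul_le_mul_of_nonneg_right hcl measureReal_nonneg
    · simp only [Bd, hz, if_false, Set.inter_empty, measureReal_empty]
      exact mul_nonneg (pow_nonneg hρ0 _) measureReal_nonneg
  have hdist : ∀ z z' : Z2, z ≠ z' → ((100 : ℕ) : ℤ) ∣ z.1 - z'.1 → ((100 : ℕ) : ℤ) ∣ z.2 - z'.2 →
      100 ≤ |(f z).1 - (f z').1| ∨ 100 ≤ |(f z).2 - (f z').2| := by
    intro z z' hne h1 h2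
    obtain ⟨c, hc⟩ := h1
    obtain ⟨d, hd⟩ := h2
    push_cast at hc hd
    have e1 : (f z).1 - (f z').1 = 100 * (2 * c + d) := by simp only [f]; linarith
    have e2 : (f z).2 - (f z').2 = -(100 * (3 * c + d)) := by simp only [f]; linarith
    by_cases h3 : 2 * c + d = 0
    · right
      rw [e2, abs_neg, abs_mul]
      have h4 : 3 * c + d ≠ 0 := by
        intro h4
        apply hne
        have hc0 : c = 0 := by linarith
        have hd0 : d = 0 := by linarith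
        ext
        · rw [hc0] at hc; linarith
        · rw [hd0] at hd; linarith
      have := Int.one_le_abs h4
      have h100 : |(100 : ℤ)| = 100 := rfl
      rw [h100]
      linarith
    · left
      rw [e1, abs_mul]
      have := Int.one_le_abs h3
      have h100 : |(100 : ℤ)| = 100 := rfl
      rw [h100]
      linarith
  have hfar : ∀ z z' : Z2, z ≠ z' → ((100 : ℕ) : ℤ) ∣ z.1 - z'.1 → ((100 : ℕ) : ℤ) ∣ z.2 - z'.2 →
      ∀ y y' : Z2, y ∈ supp z → y' ∈ supp z' → 256 * (m : ℤ) ≤ |y.1 - y'.1| ∨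
        256 * (m : ℤ) ≤ |y.2 - y'.2| := by
    intro z z' hne h1 h2 y y' hy hy'
    obtain ⟨a1, a2⟩ := hy
    obtain ⟨a3, a4⟩ := hy'
    simp only [abs_le] at a1 a2 a3 a4
    rcases hdist z z' hne h1 h2 with h | h
    · left
      rw [le_abs] at h ⊢
      rcases h with h | h
      · left; nlinarith
      · right; nlinarith
    · right
      rw [le_abs] at h ⊢
      rcases h with h | h
      · left; nlinarith
      · right; nlinarith
  have hTloc : Loc T (⋃ x ∈ (A : Set Z2), {y | Near 1 x y}) :=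
    Loc.biInter (I := (A : Set Z2)) fun x _ => hL.locp x
  have hTfin : (⋃ x ∈ (A : Set Z2), {y : Z2 | Near 1 x y}).Finite :=
    Set.Finite.biUnion A.finite_toSet fun x _ => near_finite 1 x
  have hrange : ∀ A' : Finset Z2, (PM ν).real (T ∩ ⋂ z ∈ A', Bd z) ≤
      ρ ^ A'.card * (PM ν).real T := by
    intro A'
    refine range_bound ν Bd supp 100 (by norm_num) (fun z => near_finite _ _) ?_ ?_ T _ hTfin
      hTloc ?_ ρ hρ0 (by linarith) ?_ ?_ A'
    · intro z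
      by_cases hz : 1 ≤ z.1 ∧ 0 ≤ z.2
      · simp only [Bd, hz, and_self, if_true]
        exact closedB_loc hL hm (f z)
      · simp only [Bd, hz, if_false]
        exact fun _ _ _ h => h
    · intro z z' hne h1 h2
      rw [Set.disjoint_left]
      intro y hy hy'
      rcases hfar z z' hne h1 h2 y y hy hy' with h | h
      · simp only [sub_self, abs_zero] at h; linarith
      · simp only [sub_self, abs_zero] at h; linarith
    · intro z z' hne h1 h2
      by_contra hcon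
      rw [not_or, Set.not_disjoint_iff, Set.not_disjoint_iff] at hcon
      obtain ⟨⟨y, hy, hyT⟩, ⟨y', hy', hyT'⟩⟩ := hcon
      simp only [Set.mem_iUnion, exists_prop] at hyT hyT'
      obtain ⟨x, hx, hxy⟩ := hyT
      obtain ⟨x', hx', hxy'⟩ := hyT'
      obtain ⟨b1, b2⟩ := hA x (Finset.mem_coe.1 hx)
      obtain ⟨b3, b4⟩ := hA x' (Finset.mem_coe.1 hx')
      obtain ⟨c1, c2⟩ := hxy
      obtain ⟨c3, c4⟩ := hxy'
      rw [abs_le] at b2 b4 c1 c2 c3 c4
      rcases hfar z z' hne h1 h2 y y' hy hy' with h | h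
      · rw [le_abs] at h
        rcases h with h | h <;> linarith
      · rw [le_abs] at h
        rcases h with h | h <;> linarith
    · intro z
      exact hclp A z fun x hx => (hA x hx).1
    · intro z
      have := hclp ∅ z (by simp)
      simpa using this
  have hpp := path_prob (PM ν) Bd T ρ ((PM ν).real T) hρ0 hρ measureReal_nonneg hrange N N
  have hsub : (T ∩ PF m N a0 a1 pol b0) ⊆ T ∩ {ω | ¬ ∃ F : ℤ → ℤ, F 0 = 0 ∧ (∀ t, 0 ≤ F t) ∧
      (∀ t, |F (t + 1) - F t| ≤ 1) ∧ ∀ t : ℤ, 0 ≤ t → t ≤ N → F t ≤ N ∧ ω ∉ Bd (t, F t)} := by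
    rintro σ ⟨hσT, hσ⟩
    refine ⟨hσT, ?_⟩
    rintro ⟨F, h0, h1, h2, h3⟩
    apply hσ
    refine ⟨F, h0, h1, h2, fun t ht htN => ?_⟩
    have := (h3 t (by linarith) htN).2
    simp only [Bd, ht, h1 t, and_self, if_true, f] at this
    exact this
  refine (measureReal_mono hsub (measure_ne_top _ _)).trans (hpp.trans ?_)
  refine mul_le_mul_of_nonneg_right ?_ measureReal_nonneg
  have h30 : 0 ≤ 3 * ρ := by linarith
  have key : ((N : ℝ) + 1) * (3 * ρ) ^ N ≤ 1 := by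
    have h1 : (N : ℝ) + 1 ≤ 2 ^ N := by
      have := Nat.lt_two_pow_self (n := N)
      exact_mod_cast this
    calc ((N : ℝ) + 1) * (3 * ρ) ^ N ≤ 2 ^ N * (3 * ρ) ^ N := by gcongr
      _ = (2 * (3 * ρ)) ^ N := by rw [← mul_pow]
      _ ≤ 1 := pow_le_one₀ (by positivity) (by linarith)
  rw [pow_succ]
  nlinarith

/-- the deterministic part -/
theorem tip_det {m k N : ℕ} (hm : 100 ≤ m) (hk : 1 ≤ k) (hN : N = 1000 * k) {a0 a1 pol : Set Z2}
    (hd : ∀ z ∈ pol, z ∉ a1) {b : Z2} (hb1 : |b.1| ≤ 10 * k - 1) (hb2 : 1000 * k ≤ b.2)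
    (hb3 : b.2 ≤ 1010 * k)
    (hza : ((b.1 * (3 * m) + 1, b.2 * (3 * m) + 1) : Z2) ∈ pol)
    (hzb : ((b.1 * (3 * m) + 7, b.2 * (3 * m) + 1) : Z2) ∈ pol)
    (htip : ∀ u, b.1 * (3 * m) + 1 < u → u < b.1 * (3 * m) + 7 →
      ((u, b.2 * (3 * m) + 1) : Z2) ∉ a1)
    (hvr : ∀ j : ℕ, 1 ≤ j → j ≤ 15 * m →
      ((b.1 * (3 * m) + 7, b.2 * (3 * m) + 1 - j) : Z2) ∉ a1)
    (hvl : ∀ j : ℕ, 1 ≤ j → j ≤ 15 * m →
      ((b.1 * (3 * m) + 1, b.2 * (3 * m) + 1 - j) : Z2) ∉ a1)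
    (hf : ∀ z, Near (24 * m) (b.1 * (3 * m), b.2 * (3 * m)) z → z ∉ a0)
    {F F' : ℤ → ℤ} (hF0 : F 0 = 0) (hF : ∀ t, 0 ≤ F t) (hFL : ∀ t, |F (t + 1) - F t| ≤ 1)
    (hopen : ∀ t : ℤ, 1 ≤ t → t ≤ N → OpenB m a0 a1 pol (b.1 + 2 * t + F t, b.2 - 3 * t - F t))
    (hF0' : F' 0 = 0) (hF' : ∀ t, 0 ≤ F' t) (hFL' : ∀ t, |F' (t + 1) - F' t| ≤ 1)
    (hopen' : ∀ t : ℤ, 1 ≤ t → t ≤ N → OpenB m (mir a0) (mir a1) (mir pol)
      (-b.1 - 1 + 2 * t + F' t, b.2 - 3 * t - F' t)) :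
    ∃ W : Set Z2, BW W (800 * k * (3 * m)) (1100 * k * (3 * m)) a0 a1 pol := by
  have hm' : (100 : ℤ) ≤ m := by exact_mod_cast hm
  have hk' : (1 : ℤ) ≤ k := by exact_mod_cast hk
  obtain ⟨x, y, hs, hx0, hy0, hxy⟩ := stair_of_open (b0 := b) (X := b.1 * (3 * m) + 7)
    (Y := b.2 * (3 * m) + 1) hm ⟨by linarith, by linarith⟩ ⟨by linarith, by linarith⟩ hzb hvr
    (fun z hz => hf z (by
      obtain ⟨h1, h2⟩ := hz
      exact ⟨h1.trans (by linarith), h2.trans (by linarith)⟩)) hF0 hF hFL hopen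
  obtain ⟨x', y', hs', hx0', hy0', hxy'⟩ := stair_of_open (b0 := ((-b.1 - 1, b.2) : Z2))
    (X := -(b.1 * (3 * m) + 1)) (Y := b.2 * (3 * m) + 1) (a0 := mir a0) (a1 := mir a1)
    (pol := mir pol) hm ⟨by simp only; linarith, by simp only; linarith⟩
    ⟨by simp only; linarith, by simp only; linarith⟩
    (by simpa [mir] using hza) (fun j h1 h2 => by simpa [mir] using hvl j h1 h2)
    (fun z hz => by
      obtain ⟨h1, h2⟩ := hz
      refine hf _ ⟨?_, ?_⟩
      · simp only at h1 ⊢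
        rw [abs_le] at h1 ⊢
        constructor <;> linarith
      · exact h2.trans (by linarith))
    hF0' hF' hFL' hopen'
  have hB := stair_bounds (by linarith : 0 < m) hk hN (b0 := b) (by linarith) hb2 hb3 hF0 hF hFL hxy
  have hB' := stair_bounds (by linarith : 0 < m) hk hN (b0 := ((-b.1 - 1, b.2) : Z2))
    (by simp only; rw [abs_le] at hb1 ⊢; constructor <;> linarith) hb2 hb3 hF0' hF' hFL' hxy'
  obtain ⟨c1, c2, c3, c4⟩ := hB
  obtain ⟨d1, d2, d3, d4⟩ := hB'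
  refine ⟨_, wedge_closed hd (L := 15 * m) (K := 18 * m) (by linarith) (by linarith) hs hs' ?_ ?_
    ?_ c1 d1 c2 d2 c3 d3 ?_ c4⟩
  · rw [hy0, hy0']
  · rw [hx0, hx0']; ring
  · intro u h1 h2
    rw [hx0'] at h1
    rw [hx0] at h2
    rw [hy0]
    exact htip u (by linarith) h2
  · have : (0 : ℤ) ≤ k * (3 * m) := by positivity
    nlinarith

end Tip

open Tip

set_option maxHeartbeats 1000000 in
/-- with high probability there is a closed wedge above the origin -/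
theorem top_wedge (ε C : ℝ) (hε : 0 < ε) (hC : 0 < C) : ∃ κ > 0, ∃ Λ > 0, ∃ p0 > 0,
    ∀ {S : Type} [Finite S] [MeasurableSpace S] [DiscreteMeasurableSpace S] (ν : Measure S)
    [IsProbabilityMeasure ν] (a0 a1 pol : Z2 → Set (Z2 → S)) (p q : ℝ), 0 < p → p ≤ p0 →
    Λ * p ^ 2 ≤ q → LabHyp ν a0 a1 pol C p q →
    ∀ m k : ℕ, m = ⌈κ / p⌉₊ → k = ⌈p ^ (-(3 : ℤ))⌉₊ →
    (PM ν).real {σ : Z2 → S | ¬ ∃ W : Set Z2, BW W (800 * k * (3 * m)) (1100 * k * (3 * m))
      (at_ a0 σ) (at_ a1 σ) (at_ pol σ)} ≤ ε := by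
  classical
  set ρ : ℝ := min (1 / 36) (ε / 576) with hρ
  have hρpos : 0 < ρ := lt_min (by norm_num) (by positivity)
  have hρ36 : ρ ≤ 1 / 36 := min_le_left _ _
  have hρε : ρ ≤ ε / 576 := min_le_right _ _
  set ζ : ℝ := ρ ^ (100 ^ 2) with hζ
  have hζpos : 0 < ζ := pow_pos hρpos _
  set κ : ℝ := min 1 (min (ζ / (30000 * C)) (ε / (160000 * C))) with hκ
  have hκpos : 0 < κ := lt_min one_pos (lt_min (by positivity) (by positivity))
  have hκ1 : κ ≤ 1 := min_le_left _ _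
  have hκζ : κ * C ≤ ζ / 30000 := by
    have : κ ≤ ζ / (30000 * C) := (min_le_right _ _).trans (min_le_left _ _)
    rw [le_div_iff₀ (by positivity)] at this ⊢
    linarith
  have hκε : κ * C ≤ ε / 160000 := by
    have : κ ≤ ε / (160000 * C) := (min_le_right _ _).trans (min_le_right _ _)
    rw [le_div_iff₀ (by positivity)] at this ⊢
    linarith
  set Λ : ℝ := max 1 (Real.log (4 / ζ) / κ ^ 2) with hΛ
  have hΛ1 : 1 ≤ Λ := le_max_left _ _
  refine ⟨κ, hκpos, Λ, by linarith, min (κ / 100) (ε / 8), lt_min (by positivity) (by positivity),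
    ?_⟩
  intro S _ _ _ ν _ a0 a1 pol p q hp hp0 hq hL m k hmdef hkdef
  have hpκ : p ≤ κ / 100 := hp0.trans (min_le_left _ _)
  have hpε : p ≤ ε / 8 := hp0.trans (min_le_right _ _)
  have hp1 : p ≤ 1 := by linarith
  have hq0 : 0 < q := lt_of_lt_of_le (by positivity) hq
  have hq1 : q ≤ 1 := (hL.hq (0, 0)).trans measureReal_le_one
  have hmlow : κ / p ≤ m := by rw [hmdef]; exact Nat.le_ceil _
  have hmup : (m : ℝ) ≤ κ / p + 1 := by
    rw [hmdef]; exact (Nat.ceil_lt_add_one (by positivity)).le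
  have hmp : (m : ℝ) * p ≤ 2 * κ := by
    have : (m : ℝ) * p ≤ (κ / p + 1) * p := by gcongr
    have e : (κ / p + 1) * p = κ + p := by field_simp
    rw [e] at this
    linarith
  have hm100 : 100 ≤ m := by
    have h1 : (100 : ℝ) ≤ κ / p := by
      rw [le_div_iff₀ hp]; linarith
    exact_mod_cast h1.trans hmlow
  have hm : 0 < m := by linarith
  have hklow : p ^ (-(3 : ℤ)) ≤ k := by rw [hkdef]; exact Nat.le_ceil _
  have hp3 : p ^ (-(3 : ℤ)) = 1 / p ^ 3 := by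
    rw [zpow_neg]; simp only [one_div]; norm_cast
  have hk1r : (1 : ℝ) ≤ k := by
    refine le_trans ?_ hklow
    rw [hp3, le_div_iff₀ (by positivity)]
    simp only [one_mul]
    exact pow_le_one₀ hp.le hp1
  have hk : 1 ≤ k := by exact_mod_cast hk1r
  have hm' : (100 : ℤ) ≤ m := by exact_mod_cast hm100
  have hk' : (1 : ℤ) ≤ k := by exact_mod_cast hk
  -- closed boxes are rare
  have hcl : (1 - q) ^ (m ^ 2) + 27 * m * (C * p) + (43 * m) ^ 2 * (C * p ^ 2) ≤ ρ ^ (100 ^ 2) := by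
    have h1 : (1 - q) ^ (m ^ 2) ≤ ζ / 4 := by
      have hle : 1 - q ≤ Real.exp (-q) := by
        have := Real.add_one_le_exp (-q)
        linarith
      calc (1 - q) ^ (m ^ 2) ≤ Real.exp (-q) ^ (m ^ 2) :=
            pow_le_pow_left₀ (by linarith) hle _
        _ = Real.exp (-(q * (m : ℝ) ^ 2)) := by
            rw [← Real.exp_nat_mul]; congr 1; push_cast; ring
        _ ≤ Real.exp (-(Real.log (4 / ζ))) := by
            apply Real.exp_le_exp.2
            have h2 : Real.log (4 / ζ) ≤ Λ * κ ^ 2 := by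
              have : Real.log (4 / ζ) / κ ^ 2 ≤ Λ := le_max_right _ _
              rwa [div_le_iff₀ (by positivity)] at this
            have h3 : Λ * κ ^ 2 ≤ q * (m : ℝ) ^ 2 := by
              calc Λ * κ ^ 2 = (Λ * p ^ 2) * (κ / p) ^ 2 := by field_simp
                _ ≤ q * (m : ℝ) ^ 2 := by gcongr
            linarith
        _ = ζ / 4 := by
            rw [Real.exp_neg, Real.exp_log (by positivity)]
            rw [inv_div]
    have h2 : 27 * m * (C * p) ≤ ζ / 4 := by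
      calc 27 * m * (C * p) = 27 * C * (m * p) := by ring
        _ ≤ 27 * C * (2 * κ) := by gcongr
        _ = 54 * (κ * C) := by ring
        _ ≤ ζ / 4 := by linarith
    have h3 : (43 * (m : ℝ)) ^ 2 * (C * p ^ 2) ≤ ζ / 4 := by
      calc (43 * (m : ℝ)) ^ 2 * (C * p ^ 2) = 1849 * C * (m * p) ^ 2 := by ring
        _ ≤ 1849 * C * (2 * κ) ^ 2 := by gcongr
        _ = 7396 * (κ * C) * κ := by ring
        _ ≤ 7396 * (κ * C) * 1 := by gcongr
        _ ≤ ζ / 4 := by linarith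
    linarith
  set N : ℕ := 1000 * k with hN
  -- tip boxes and their events
  let I : Finset Z2 := (Finset.Icc (-(10 * (k : ℤ) - 1)) (10 * k - 1)) ×ˢ
    (Finset.Icc (1000 * (k : ℤ)) (1010 * k))
  let za : Z2 → Z2 := fun b => (b.1 * (3 * m) + 1, b.2 * (3 * m) + 1)
  let zb : Z2 → Z2 := fun b => (b.1 * (3 * m) + 7, b.2 * (3 * m) + 1)
  let T : Z2 → Set (Z2 → S) := fun b => pol (za b) ∩ pol (zb b)
  have hTA : ∀ b, T b = ⋂ x ∈ ({za b, zb b} : Finset Z2), pol x := by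
    intro b; simp [T]
  let Z1 : Z2 → Set (Z2 → S) := fun b =>
    ⋃ j ∈ Finset.Icc (b.1 * (3 * m) + 2) (b.1 * (3 * m) + 6), a1 (j, b.2 * (3 * m) + 1)
  let Z2' : Z2 → Set (Z2 → S) := fun b =>
    ⋃ j ∈ Finset.Icc 1 (15 * m), a1 (b.1 * (3 * m) + 7, b.2 * (3 * m) + 1 - (j : ℕ))
  let Z3 : Z2 → Set (Z2 → S) := fun b =>
    ⋃ j ∈ Finset.Icc 1 (15 * m), a1 (b.1 * (3 * m) + 1, b.2 * (3 * m) + 1 - (j : ℕ))
  let Z4 : Z2 → Set (Z2 → S) := fun b =>
    ⋃ z ∈ ((Finset.Icc (b.1 * (3 * m) - 24 * m) (b.1 * (3 * m) + 24 * m)) ×ˢ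
      (Finset.Icc (b.2 * (3 * m) - 24 * m) (b.2 * (3 * m) + 24 * m)) : Finset Z2), a0 z
  let PR : Z2 → Set (Z2 → S) := fun b => PF m N a0 a1 pol b
  let PL : Z2 → Set (Z2 → S) := fun b =>
    {σ | (fun y => σ (mirE y)) ∈ PF m N (inFrame mirE a0) (inFrame mirE a1) (inFrame mirE pol)
      (-b.1 - 1, b.2)}
  let B : Z2 → Set (Z2 → S) := fun b => Z1 b ∪ (Z2' b ∪ (Z3 b ∪ (Z4 b ∪ (PR b ∪ PL b))))
  -- probability of T
  have hTp : ∀ b, q ^ 2 ≤ (PM ν).real (T b) := by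
    intro b
    have h1 := PM_indep ν (near_finite 1 (za b)) (near_finite 1 (zb b)) (hL.locp (za b))
      (hL.locp (zb b)) (by
        rw [Set.disjoint_left]
        intro y hy hy'
        have h2 := hy.1
        have h3 := hy'.1
        simp only [za, zb, abs_le] at h2 h3
        linarith)
    rw [show T b = pol (za b) ∩ pol (zb b) from rfl, h1, sq]
    exact mul_le_mul (hL.hq _) (hL.hq _) hq0.le measureReal_nonneg
  have hTloc : ∀ b, Loc (T b) {y : Z2 | b.1 * (3 * m) ≤ y.1 ∧ y.1 < (b.1 + 1) * (3 * m) ∧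
      b.2 * (3 * m) ≤ y.2 ∧ y.2 < (b.2 + 1) * (3 * m)} := by
    intro b
    refine Loc.mono (Loc.inter (hL.locp (za b)) (hL.locp (zb b))) ?_
    rintro y (hy | hy)
    · obtain ⟨h1, h2⟩ := hy
      simp only [za, abs_le] at h1 h2
      refine ⟨by linarith, by linarith, by linarith, by linarith⟩
    · obtain ⟨h1, h2⟩ := hy
      simp only [zb, abs_le] at h1 h2
      refine ⟨by linarith, by linarith, by linarith, by linarith⟩
  have hboxfin : ∀ b : Z2, {y : Z2 | b.1 * (3 * m) ≤ y.1 ∧ y.1 < (b.1 + 1) * (3 * m) ∧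
      b.2 * (3 * m) ≤ y.2 ∧ y.2 < (b.2 + 1) * (3 * m)}.Finite := by
    intro b
    refine (near_finite (3 * m) (b.1 * (3 * m), b.2 * (3 * m))).subset ?_
    rintro y ⟨h1, h2, h3, h4⟩
    constructor
    · simp only [abs_le]
      constructor <;> linarith
    · simp only [abs_le]
      constructor <;> linarith
  -- probability of T and bad
  have hTB : ∀ b ∈ I, (PM ν).real (T b ∩ B b) ≤ (3 * ε / 16) * (PM ν).real (T b) := by
    intro b _
    have hT0 : 0 ≤ (PM ν).real (T b) := measureReal_nonneg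
    have ha1 : ∀ z, (PM ν).real (T b ∩ a1 z) ≤ C * p * (PM ν).real (T b) := by
      intro z
      rw [hTA b]
      exact hL.h1 _ z
    have ha0 : ∀ z, (PM ν).real (T b ∩ a0 z) ≤ C * p ^ 2 * (PM ν).real (T b) := by
      intro z
      rw [hTA b]
      exact hL.h0 _ z
    have e1 : (PM ν).real (T b ∩ Z1 b) ≤ 5 * (C * p * (PM ν).real (T b)) := by
      refine (inter_biUnion_le (PM ν) _ (T b) _ _ fun j _ => ha1 _).trans ?_
      rw [Int.card_Icc]
      have : (b.1 * (3 * (m : ℤ)) + 6 + 1 - (b.1 * (3 * m) + 2)).toNat = 5 := by omega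
      rw [this]
      norm_num
    have e2 : (PM ν).real (T b ∩ Z2' b) ≤ (15 * m) * (C * p * (PM ν).real (T b)) := by
      refine (inter_biUnion_le (PM ν) _ (T b) _ _ fun j _ => ha1 _).trans ?_
      rw [Nat.card_Icc]
      push_cast
      simp
    have e3 : (PM ν).real (T b ∩ Z3 b) ≤ (15 * m) * (C * p * (PM ν).real (T b)) := by
      refine (inter_biUnion_le (PM ν) _ (T b) _ _ fun j _ => ha1 _).trans ?_
      rw [Nat.card_Icc]
      push_cast
      simp
    have e4 : (PM ν).real (T b ∩ Z4 b) ≤ (49 * m) ^ 2 * (C * p ^ 2 * (PM ν).real (T b)) := by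
      refine (inter_biUnion_le (PM ν) _ (T b) _ _ fun z _ => ha0 _).trans ?_
      refine mul_le_mul_of_nonneg_right ?_ (by positivity)
      rw [Finset.card_product, Int.card_Icc, Int.card_Icc]
      have h5 : (b.1 * (3 * (m : ℤ)) + 24 * m + 1 - (b.1 * (3 * m) - 24 * m)).toNat = 48 * m + 1 := by
        omega
      have h6 : (b.2 * (3 * (m : ℤ)) + 24 * m + 1 - (b.2 * (3 * m) - 24 * m)).toNat = 48 * m + 1 := by
        omega
      rw [h5, h6]
      push_cast
      have : (1 : ℝ) ≤ m := by exact_mod_cast hm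
      nlinarith
    have e5 : (PM ν).real (T b ∩ PR b) ≤ 18 * ρ * (PM ν).real (T b) := by
      rw [hTA b]
      refine tip_path hC.le hp.le hq0.le hL hm N hρpos.le hρ36 hcl b {za b, zb b} ?_
      intro x hx
      simp only [Finset.mem_insert, Finset.mem_singleton] at hx
      rcases hx with rfl | rfl
      · refine ⟨rfl, ?_⟩
        simp only [za, abs_le]
        constructor <;> linarith
      · refine ⟨rfl, ?_⟩
        simp only [zb, abs_le]
        constructor <;> linarith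
    have e6 : (PM ν).real (T b ∩ PL b) ≤ 18 * ρ * (PM ν).real (T b) := by
      have hLf := hL.frame mirE (fun x y h => (near_mir x y).1 h)
      have hmm : ∀ z : Z2, mirE (mirE z) = z := fun z => by simp [mirE]
      let A' : Finset Z2 := {mirE (za b), mirE (zb b)}
      have hkey := tip_path hC.le hp.le hq0.le hLf hm N hρpos.le hρ36 hcl (-b.1 - 1, b.2) A' ?_
      · have r1 : (PM ν).real (T b ∩ PL b) = (PM ν).real ((⋂ x ∈ A', inFrame mirE pol x) ∩
            PF m N (inFrame mirE a0) (inFrame mirE a1) (inFrame mirE pol) (-b.1 - 1, b.2)) := by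
          rw [← PM_reindex ν mirE ((⋂ x ∈ A', inFrame mirE pol x) ∩
            PF m N (inFrame mirE a0) (inFrame mirE a1) (inFrame mirE pol) (-b.1 - 1, b.2))]
          congr 1
          ext σ
          simp only [T, PL, A', Set.mem_inter_iff, Set.mem_ofPred_eq, Finset.mem_insert,
            Finset.mem_singleton, Set.iInter_iInter_eq_or_left, Set.iInter_iInter_eq_left,
            inFrame, Equiv.apply_symm_apply, hmm]
        have r2 : (PM ν).real (T b) = (PM ν).real (⋂ x ∈ A', inFrame mirE pol x) := by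
          rw [← PM_reindex ν mirE (⋂ x ∈ A', inFrame mirE pol x)]
          congr 1
          ext σ
          simp only [T, A', Set.mem_inter_iff, Set.mem_ofPred_eq, Finset.mem_insert,
            Finset.mem_singleton, Set.iInter_iInter_eq_or_left, Set.iInter_iInter_eq_left,
            inFrame, Equiv.apply_symm_apply, hmm]
        rw [r1, r2]
        exact hkey
      · intro x hx
        simp only [A', Finset.mem_insert, Finset.mem_singleton] at hx
        rcases hx with rfl | rfl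
        · refine ⟨rfl, ?_⟩
          simp only [za, mirE, Equiv.coe_fn_mk, abs_le]
          constructor <;> linarith
        · refine ⟨rfl, ?_⟩
          simp only [zb, mirE, Equiv.coe_fn_mk, abs_le]
          constructor <;> linarith
    have hdist : T b ∩ B b = (T b ∩ Z1 b) ∪ ((T b ∩ Z2' b) ∪ ((T b ∩ Z3 b) ∪ ((T b ∩ Z4 b) ∪
        ((T b ∩ PR b) ∪ (T b ∩ PL b))))) := by
      simp only [B, Set.inter_union_distrib_left]
    rw [hdist]
    have u5 := measureReal_union_le (μ := PM ν) (T b ∩ PR b) (T b ∩ PL b)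
    have u4 := measureReal_union_le (μ := PM ν) (T b ∩ Z4 b) ((T b ∩ PR b) ∪ (T b ∩ PL b))
    have u3 := measureReal_union_le (μ := PM ν) (T b ∩ Z3 b) ((T b ∩ Z4 b) ∪
      ((T b ∩ PR b) ∪ (T b ∩ PL b)))
    have u2 := measureReal_union_le (μ := PM ν) (T b ∩ Z2' b) ((T b ∩ Z3 b) ∪ ((T b ∩ Z4 b) ∪
      ((T b ∩ PR b) ∪ (T b ∩ PL b))))
    have u1 := measureReal_union_le (μ := PM ν) (T b ∩ Z1 b) ((T b ∩ Z2' b) ∪ ((T b ∩ Z3 b) ∪
      ((T b ∩ Z4 b) ∪ ((T b ∩ PR b) ∪ (T b ∩ PL b)))))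
    have s1 : 5 * (C * p) + 30 * (m * p) * C ≤ ε / 16 := by
      have h1 : 5 * (C * p) ≤ 5 * (κ * C) := by nlinarith
      have h2 : 30 * (m * p) * C ≤ 30 * (2 * κ) * C := by gcongr
      nlinarith
    have s2 : (49 * (m : ℝ)) ^ 2 * (C * p ^ 2) ≤ ε / 16 := by
      calc (49 * (m : ℝ)) ^ 2 * (C * p ^ 2) = 2401 * C * (m * p) ^ 2 := by ring
        _ ≤ 2401 * C * (2 * κ) ^ 2 := by gcongr
        _ = 9604 * (κ * C) * κ := by ring
        _ ≤ 9604 * (κ * C) * 1 := by gcongr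
        _ ≤ ε / 16 := by linarith
    have s3 : 36 * ρ ≤ ε / 16 := by linarith
    have tot : 5 * (C * p * (PM ν).real (T b)) + ((15 * m) * (C * p * (PM ν).real (T b)) +
        ((15 * m) * (C * p * (PM ν).real (T b)) + ((49 * (m : ℝ)) ^ 2 *
        (C * p ^ 2 * (PM ν).real (T b)) + (18 * ρ * (PM ν).real (T b) +
        18 * ρ * (PM ν).real (T b))))) =
        ((5 * (C * p) + 30 * (m * p) * C) + (49 * (m : ℝ)) ^ 2 * (C * p ^ 2) + 36 * ρ) *
          (PM ν).real (T b) := by ring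
    have fin : ((5 * (C * p) + 30 * (m * p) * C) + (49 * (m : ℝ)) ^ 2 * (C * p ^ 2) + 36 * ρ) *
          (PM ν).real (T b) ≤ (3 * ε / 16) * (PM ν).real (T b) :=
      mul_le_mul_of_nonneg_right (by linarith) hT0
    linarith
  -- second moment
  have hIcard : (k : ℝ) ^ 2 ≤ I.card := by
    have h1 : I.card = (20 * k - 1) * (10 * k + 1) := by
      simp only [I]
      rw [Finset.card_product, Int.card_Icc, Int.card_Icc]
      congr 1
      · omega
      · omega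
    have h2 : k * k ≤ I.card := by
      rw [h1]
      exact Nat.mul_le_mul (by omega) (by omega)
    calc (k : ℝ) ^ 2 = ((k * k : ℕ) : ℝ) := by push_cast; ring
      _ ≤ I.card := by exact_mod_cast h2
  have hM : 0 < (k : ℝ) ^ 2 * q ^ 2 := by positivity
  have hMs : (k : ℝ) ^ 2 * q ^ 2 ≤ ∑ b ∈ I, (PM ν).real (T b) := by
    calc (k : ℝ) ^ 2 * q ^ 2 ≤ I.card * q ^ 2 := by gcongr
      _ = ∑ b ∈ I, q ^ 2 := by rw [Finset.sum_const, nsmul_eq_mul]
      _ ≤ ∑ b ∈ I, (PM ν).real (T b) := Finset.sum_le_sum fun b _ => hTp b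
  have hsm := second_moment (PM ν) I T B
    (fun b _ => (hTloc b).measurableSet (hboxfin b))
    (fun b _ b' _ hne => PM_indep ν (hboxfin b) (hboxfin b') (hTloc b) (hTloc b') (by
      rw [Set.disjoint_left]
      rintro y ⟨h1, h2, h3, h4⟩ ⟨h5, h6, h7, h8⟩
      apply hne
      have hm3 : (0 : ℤ) < 3 * m := by linarith
      ext
      · have a1 : b.1 < b'.1 + 1 := lt_of_mul_lt_mul_right (lt_of_le_of_lt h1 h6) hm3.le
        have a2 : b'.1 < b.1 + 1 := lt_of_mul_lt_mul_right (lt_of_le_of_lt h5 h2) hm3.le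
        omega
      · have a1 : b.2 < b'.2 + 1 := lt_of_mul_lt_mul_right (lt_of_le_of_lt h3 h8) hm3.le
        have a2 : b'.2 < b.2 + 1 := lt_of_mul_lt_mul_right (lt_of_le_of_lt h7 h4) hm3.le
        omega))
    (3 * ε / 16) ((k : ℝ) ^ 2 * q ^ 2) hM hMs (by positivity) hTB
  have hMbig : 4 / ((k : ℝ) ^ 2 * q ^ 2) ≤ ε / 2 := by
    have h1 : 1 / p ^ 3 ≤ (k : ℝ) := by rw [← hp3]; exact hklow
    have h2 : p ^ 2 ≤ q := le_trans (by nlinarith [sq_nonneg p]) hq
    have h3 : 1 / p ^ 2 ≤ (k : ℝ) ^ 2 * q ^ 2 := by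
      calc 1 / p ^ 2 = (1 / p ^ 3) ^ 2 * (p ^ 2) ^ 2 := by field_simp
        _ ≤ (k : ℝ) ^ 2 * q ^ 2 := by gcongr
    have h4 : 8 / ε ≤ 1 / p ^ 2 := by
      rw [div_le_div_iff₀ hε (by positivity)]
      nlinarith
    rw [div_le_iff₀ hM]
    have h5 : 8 / ε ≤ (k : ℝ) ^ 2 * q ^ 2 := h4.trans h3
    rw [div_le_iff₀ hε] at h5
    linarith
  refine le_trans ?_ (hsm.trans (by linarith))
  refine measureReal_mono ?_ (measure_ne_top _ _)
  intro σ hσ b hb hT
  by_contra hB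
  apply hσ
  simp only [B, Set.mem_union, not_or] at hB
  obtain ⟨n1, n2, n3, n4, n5, n6⟩ := hB
  simp only [I, Finset.mem_product, Finset.mem_Icc] at hb
  obtain ⟨⟨i1, i2⟩, ⟨i3, i4⟩⟩ := hb
  simp only [PR, PF, Set.mem_ofPred_eq, not_not] at n5
  obtain ⟨F, hF0, hF1, hF2, hF3⟩ := n5
  simp only [PL, PF, Set.mem_ofPred_eq, not_not] at n6
  obtain ⟨F', hF0', hF1', hF2', hF3'⟩ := n6
  have hmir : ∀ a : Z2 → Set (Z2 → S), at_ (inFrame mirE a) (fun y => σ (mirE y)) =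
      mir (at_ a σ) := by
    intro a
    rw [at_inFrame]
    rfl
  refine tip_det hm100 hk hN ?_ (b := b) (by rw [abs_le]; exact ⟨i1, i2⟩) i3 i4 hT.1 hT.2 ?_ ?_ ?_
    ?_ hF0 hF1 hF2 ?_ hF0' hF1' hF2' ?_
  · intro z hz hz'
    exact Set.disjoint_left.1 (hL.disj z) hz hz'
  · intro u h1 h2 h3
    apply n1
    simp only [Z1, Set.mem_iUnion]
    exact ⟨u, Finset.mem_Icc.2 ⟨by linarith, by linarith⟩, h3⟩
  · intro j h1 h2 h3
    apply n2
    simp only [Z2', Set.mem_iUnion]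
    exact ⟨j, Finset.mem_Icc.2 ⟨h1, h2⟩, h3⟩
  · intro j h1 h2 h3
    apply n3
    simp only [Z3, Set.mem_iUnion]
    exact ⟨j, Finset.mem_Icc.2 ⟨h1, h2⟩, h3⟩
  · intro z hz h3
    apply n4
    simp only [Z4, Set.mem_iUnion]
    obtain ⟨h1, h2⟩ := hz
    simp only [abs_le] at h1 h2
    refine ⟨z, ?_, h3⟩
    simp only [Finset.mem_product, Finset.mem_Icc]
    exact ⟨⟨by linarith, by linarith⟩, ⟨by linarith, by linarith⟩⟩
  · intro t ht htN
    have := hF3 t ht htN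
    simpa [closedB] using this
  · intro t ht htN
    have := hF3' t ht htN
    simp only [closedB, Set.mem_ofPred_eq, not_not, hmir] at this
    exact this

end Pool.Agent.BP
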