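import Pool.Agent.Lib_MP_94fe03_pr.PathProb
import Pool.Agent.Lib_MP_94fe03_pr.Range
import Pool.Agent.Lib_MP_94fe03_pr.Block

set_option autoImplicit false

namespace Pool.Agent.BP

open MeasureTheory ProbabilityTheory Filter Topology

namespace UThm

theorem near_finite (k : ℤ) (x : Z2) : {y : Z2 | Near k x y}.Finite := by
  refine Set.Finite.subset ((Finset.Icc (x.1 - k) (x.1 + k)) ×ˢ
    (Finset.Icc (x.2 - k) (x.2 + k))).finite_toSet ?_
  rintro ⟨a, b⟩ ⟨h1, h2⟩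
  simp only [abs_le] at h1 h2
  simp only [Finset.coe_product, Finset.coe_Icc, Set.mem_prod, Set.mem_Icc]
  exact ⟨⟨by linarith, by linarith⟩, ⟨by linarith, by linarith⟩⟩

/-- seeds on a finite set and a decreasing event are negatively correlated -/
theorem neg_corr (ν : Measure Lab) [IsProbabilityMeasure ν] {R : Finset Z2}
    {B : Set (Z2 → Lab)} {s : Set Z2} (hs : s.Finite) (hB : Loc B s)
    (hmono : ∀ σ σ' : Z2 → Lab, (∀ y, σ' y = σ y ∨ σ' y = Lab.S) → σ' ∈ B → σ ∈ B) :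
    (PM ν).real ({σ : Z2 → Lab | ∀ y ∈ R, σ y = Lab.S} ∩ B) ≤
      (PM ν).real B * (PM ν).real {σ : Z2 → Lab | ∀ y ∈ R, σ y = Lab.S} := by
  classical
  let patch : (Z2 → Lab) → (Z2 → Lab) := fun σ y => if y ∈ R then Lab.S else σ y
  let B' : Set (Z2 → Lab) := {σ | patch σ ∈ B}
  have hT : Loc {σ : Z2 → Lab | ∀ y ∈ R, σ y = Lab.S} (R : Set Z2) := by
    intro σ τ e hσ y hy
    rw [← e y (Finset.mem_coe.2 hy)]
    exact hσ y hy
  have hB' : Loc B' (s \ (R : Set Z2)) := by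
    intro σ τ e hσ
    refine hB _ _ (fun y hy => ?_) hσ
    by_cases hR : y ∈ R
    · simp [patch, hR]
    · simp only [patch, hR, if_false]
      exact e y ⟨hy, fun h => hR (Finset.mem_coe.1 h)⟩
  have h1 : ({σ : Z2 → Lab | ∀ y ∈ R, σ y = Lab.S} ∩ B) ⊆
      {σ : Z2 → Lab | ∀ y ∈ R, σ y = Lab.S} ∩ B' := by
    rintro σ ⟨hσ, hσB⟩
    refine ⟨hσ, ?_⟩
    have : patch σ = σ := by
      ext y
      by_cases hR : y ∈ R
      · simp only [patch, hR, if_true]
        exact (hσ y hR).symm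
      · simp [patch, hR]
    change patch σ ∈ B
    rw [this]
    exact hσB
  have h2 : B' ⊆ B := by
    intro σ hσ
    refine hmono σ (patch σ) (fun y => ?_) hσ
    by_cases hR : y ∈ R
    · right; simp [patch, hR]
    · left; simp [patch, hR]
  calc (PM ν).real ({σ : Z2 → Lab | ∀ y ∈ R, σ y = Lab.S} ∩ B)
      ≤ (PM ν).real ({σ : Z2 → Lab | ∀ y ∈ R, σ y = Lab.S} ∩ B') :=
        measureReal_mono h1 (measure_ne_top _ _)
    _ = (PM ν).real {σ : Z2 → Lab | ∀ y ∈ R, σ y = Lab.S} * (PM ν).real B' :=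
        PM_indep ν R.finite_toSet (hs.subset Set.sdiff_subset) hT hB' Set.disjoint_sdiff_right
    _ ≤ (PM ν).real {σ : Z2 → Lab | ∀ y ∈ R, σ y = Lab.S} * (PM ν).real B :=
        mul_le_mul_of_nonneg_left (measureReal_mono h2 (measure_ne_top _ _)) measureReal_nonneg
    _ = _ := mul_comm _ _

theorem seed_prob (ν : Measure Lab) [IsProbabilityMeasure ν] (R : Finset Z2) :
    (PM ν).real {σ : Z2 → Lab | ∀ y ∈ R, σ y = Lab.S} = ν.real {Lab.S} ^ R.card := by
  have h := PM_prod ν R (fun y => {σ : Z2 → Lab | σ y ∈ ({Lab.S} : Set Lab)}) (fun y => {y})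
    (fun y _ => Set.finite_singleton y) (fun y _ => Loc.coord y _)
    (fun i _ j _ hij => by simpa using hij)
  have e : {σ : Z2 → Lab | ∀ y ∈ R, σ y = Lab.S} =
      ⋂ y ∈ R, {σ : Z2 → Lab | σ y ∈ ({Lab.S} : Set Lab)} := by
    ext σ; simp
  rw [e, h, Finset.prod_congr rfl (fun y _ => PM_coord ν y _), Finset.prod_const]

/-- the core as a finite set -/
noncomputable def coreF (m : ℕ) (b : Z2) : Finset Z2 :=
  (Finset.Ico (b.1 * (16 * m) + 2 * m) (b.1 * (16 * m) + 14 * m)) ×ˢ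
    (Finset.Ico (b.2 * (16 * m) + 2 * m) (b.2 * (16 * m) + 14 * m))

theorem mem_coreF {m : ℕ} {b y : Z2} : y ∈ coreF m b ↔ y ∈ core m b := by
  simp only [coreF, core, Finset.mem_product, Finset.mem_Ico, Set.mem_ofPred_eq]
  tauto

theorem card_coreF (m : ℕ) (b : Z2) : (coreF m b).card = (12 * m) * (12 * m) := by
  unfold coreF
  rw [Finset.card_product, Int.card_Ico, Int.card_Ico]
  congr 1
  · omega
  · omega

/-- some block within distance one is not good -/
def BadB (G : Z2 → Set (Z2 → Lab)) (b : Z2) : Set (Z2 → Lab) := {σ | ∃ b', Near 1 b b' ∧ σ ∉ G b'}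

theorem badB_loc {m : ℕ} {G : Z2 → Set (Z2 → Lab)}
    (hG : ∀ b, Loc (G b) {y | Near (48 * m) (b.1 * (16 * m), b.2 * (16 * m)) y}) (b : Z2) :
    Loc (BadB G b) {y | Near (64 * m) (b.1 * (16 * m), b.2 * (16 * m)) y} := by
  rintro σ τ e ⟨b', hb, hσ⟩
  refine ⟨b', hb, fun hτ => hσ ((hG b') τ σ (fun y hy => ?_) hτ)⟩
  refine (e y ?_).symm
  obtain ⟨h1, h2⟩ := hb
  obtain ⟨h3, h4⟩ := hy
  simp only [Set.mem_ofPred_eq, Near] at *
  rw [abs_le] at *
  have hm : (0 : ℤ) ≤ m := Int.natCast_nonneg m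
  constructor
  · constructor <;> nlinarith
  · rw [abs_le] at *
    constructor <;> nlinarith

theorem badB_prob {G : Z2 → Set (Z2 → Lab)} (ν : Measure Lab) [IsProbabilityMeasure ν] {ρ : ℝ}
    (h : ∀ b, (PM ν).real (G b)ᶜ ≤ ρ) (b : Z2) : (PM ν).real (BadB G b) ≤ 9 * ρ := by
  classical
  let F : Finset Z2 := (Finset.Icc (b.1 - 1) (b.1 + 1)) ×ˢ (Finset.Icc (b.2 - 1) (b.2 + 1))
  have hF : F.card = 9 := by
    simp only [F]
    rw [Finset.card_product, Int.card_Icc, Int.card_Icc]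
    have h1 : (b.1 + 1 + 1 - (b.1 - 1)).toNat = 3 := by omega
    have h2 : (b.2 + 1 + 1 - (b.2 - 1)).toNat = 3 := by omega
    rw [h1, h2]
  have hsub : BadB G b ⊆ ⋃ b' ∈ F, (G b')ᶜ := by
    rintro σ ⟨b', hb, hσ⟩
    simp only [Set.mem_iUnion]
    refine ⟨b', ?_, hσ⟩
    obtain ⟨h1, h2⟩ := hb
    rw [abs_le] at h1 h2
    simp only [F, Finset.mem_product, Finset.mem_Icc]
    exact ⟨⟨by linarith, by linarith⟩, ⟨by linarith, by linarith⟩⟩
  calc (PM ν).real (BadB G b) ≤ (PM ν).real (⋃ b' ∈ F, (G b')ᶜ) :=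
        measureReal_mono hsub (measure_ne_top _ _)
    _ ≤ ∑ b' ∈ F, (PM ν).real (G b')ᶜ := real_biUnion_le _ _ _
    _ ≤ ∑ b' ∈ F, ρ := Finset.sum_le_sum fun b' _ => h b'
    _ = 9 * ρ := by rw [Finset.sum_const, hF, nsmul_eq_mul]; norm_num

/-- bound for many bad blocks -/
theorem badB_many {m : ℕ} (hm : 0 < m) {G : Z2 → Set (Z2 → Lab)} (ν : Measure Lab)
    [IsProbabilityMeasure ν]
    (hG : ∀ b, Loc (G b) {y | Near (48 * m) (b.1 * (16 * m), b.2 * (16 * m)) y})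
    {ρ1 : ℝ} (h0 : 0 ≤ ρ1) (h1 : ρ1 ≤ 1) (h : ∀ b, (PM ν).real (G b)ᶜ ≤ ρ1 ^ 625 / 9)
    (f : Z2 → Z2) (hf : Function.Injective f) (A : Finset Z2) :
    (PM ν).real (Set.univ ∩ ⋂ b ∈ A, BadB G (f b)) ≤ ρ1 ^ A.card * 1 := by
  classical
  have hb : ∀ b, (PM ν).real (BadB G b) ≤ ρ1 ^ (25 ^ 2) := by
    intro b
    have := badB_prob ν h b
    norm_num
    linarith
  have hr := range_bound ν (BadB G)
    (fun b => {y | Near (64 * m) (b.1 * (16 * m), b.2 * (16 * m)) y}) 25 (by norm_num)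
    (fun b => near_finite _ _) (fun b => badB_loc hG b) ?_ Set.univ ∅ Set.finite_empty
    (Loc.univ _) (fun b b' _ _ _ => Or.inl (Set.disjoint_empty _)) ρ1 h0 h1 ?_ hb (A.image f)
  · rw [Finset.card_image_of_injective A hf] at hr
    have e : (⋂ b ∈ A.image f, BadB G b) = ⋂ b ∈ A, BadB G (f b) := by
      ext σ
      simp only [Set.mem_iInter, Finset.mem_image]
      constructor
      · intro h b hb
        exact h (f b) ⟨b, hb, rfl⟩
      · rintro h _ ⟨b, hb, rfl⟩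
        exact h b hb
    rw [e] at hr
    simpa using hr
  · intro b b' hne hd1 hd2
    rw [Set.disjoint_left]
    intro y hy hy'
    obtain ⟨a1, a2⟩ := hy
    obtain ⟨a3, a4⟩ := hy'
    simp only [abs_le] at a1 a2 a3 a4
    have hm' : (1 : ℤ) ≤ m := by exact_mod_cast hm
    apply hne
    obtain ⟨c, hc⟩ := hd1
    obtain ⟨d, hd⟩ := hd2
    push_cast at hc hd
    have hc0 : c = 0 := by
      by_contra hc0
      rcases lt_or_gt_of_ne hc0 with h | h
      · have : c ≤ -1 := by omega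
        nlinarith
      · have : 1 ≤ c := by omega
        nlinarith
    have hd0 : d = 0 := by
      by_contra hd0
      rcases lt_or_gt_of_ne hd0 with h | h
      · have : d ≤ -1 := by omega
        nlinarith
      · have : 1 ≤ d := by omega
        nlinarith
    ext
    · rw [hc0] at hc; linarith
    · rw [hd0] at hd; linarith
  · intro b
    rw [Set.univ_inter]
    simpa using hb b

theorem full_near {m : ℕ} {G : Z2 → Set (Z2 → Lab)}
    (hprop : ∀ σ b b', Nb b b' → σ ∈ G b → Full m σ b → Full m σ b') {σ : Z2 → Lab} {b b' : Z2}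
    (hb : σ ∉ BadB G b) (hn : Near 1 b b') (hf : Full m σ b) : Full m σ b' := by
  have hg : ∀ c, Near 1 b c → σ ∈ G c := by
    intro c hc
    by_contra hcon
    exact hb ⟨c, hc, hcon⟩
  obtain ⟨h1, h2⟩ := hn
  have hmid : Full m σ (b'.1, b.2) ∧ Near 1 b (b'.1, b.2) := by
    refine ⟨?_, h1, by simp⟩
    by_cases he : b.1 = b'.1
    · rw [← he]; exact hf
    · refine hprop σ b (b'.1, b.2) (Or.inr ⟨rfl, ?_⟩) (hg b (by constructor <;> simp)) hf
      simp only
      have : b.1 - b'.1 ≠ 0 := by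
        intro h; apply he; linarith
      have := abs_pos.2 this
      omega
  by_cases he : b.2 = b'.2
  · have : (b'.1, b.2) = b' := by rw [he]
    rw [← this]; exact hmid.1
  · refine hprop σ (b'.1, b.2) b' (Or.inl ⟨rfl, ?_⟩) (hg _ hmid.2) hmid.1
    simp only
    have : b.2 - b'.2 ≠ 0 := by
      intro h; apply he; linarith
    have := abs_pos.2 this
    omega

/-- a vertical path that starts at a full block meets the horizontal path -/
theorem cross {m : ℕ} {G : Z2 → Set (Z2 → Lab)}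
    (hprop : ∀ σ b b', Nb b b' → σ ∈ G b → Full m σ b → Full m σ b') {σ : Z2 → Lab} {L : ℕ}
    (hL : 1 ≤ L) {F K : ℤ → ℤ} (hF0 : F 0 = 0) (hFn : ∀ t, 0 ≤ F t)
    (hFl : ∀ t, |F (t + 1) - F t| ≤ 1)
    (hF : ∀ t : ℤ, 0 ≤ t → t ≤ (6 * L : ℕ) → F t ≤ L ∧ σ ∉ BadB G (t, F t))
    (hK0 : K 0 = 0) (hKn : ∀ t, 0 ≤ K t) (hKl : ∀ t, |K (t + 1) - K t| ≤ 1) {i : ℕ}
    (hi : i ≤ 5 * L)
    (hK : ∀ s : ℤ, 0 ≤ s → s ≤ (2 * L : ℕ) → K s ≤ L ∧
      σ ∉ BadB G ((i : ℤ) + K s, 2 * L - s))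
    (hfull : Full m σ ((i : ℤ), 2 * (L : ℤ))) : Full m σ (0, 0) := by
  classical
  push_cast at hF hK
  have hL' : (1 : ℤ) ≤ L := by exact_mod_cast hL
  have hi' : (i : ℤ) ≤ 5 * L := by exact_mod_cast hi
  have hi0 : (0 : ℤ) ≤ i := Int.natCast_nonneg i
  -- vertical propagation
  have hver : ∀ s : ℕ, (s : ℤ) ≤ 2 * L → Full m σ ((i : ℤ) + K s, 2 * (L : ℤ) - s) := by
    intro s
    induction s with
    | zero => intro _; simpa [hK0] using hfull
    | succ s ih =>
      intro hs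
      push_cast at hs ⊢
      have h1 := ih (by linarith)
      have h2 := (hK s (Int.natCast_nonneg s) (by linarith)).2
      refine full_near hprop h2 ?_ h1
      have := hKl s
      constructor
      · simp only
        rw [show (i : ℤ) + K s - (i + K (s + 1)) = -(K (s + 1) - K s) by ring, abs_neg]
        exact this
      · simp only
        rw [show (2 * (L : ℤ) - s) - (2 * L - (s + 1)) = 1 by ring]
        simp
  -- horizontal propagation
  have hhor : ∀ t : ℕ, (t : ℤ) ≤ 6 * L → Full m σ ((t : ℤ), F t) → Full m σ (0, 0) := by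
    intro t
    induction t with
    | zero => intro _ h; simpa [hF0] using h
    | succ t ih =>
      intro ht hf
      push_cast at ht hf
      refine ih (by linarith) ?_
      have h2 := (hF (t + 1) (by positivity) ht).2
      refine full_near hprop h2 ?_ hf
      have := hFl t
      exact ⟨by simp, this⟩
  -- crossing
  let φ : ℕ → ℤ := fun s => 2 * L - s - F (i + K s)
  have hex : ∃ s : ℕ, φ s ≤ 0 := by
    refine ⟨2 * L, ?_⟩
    simp only [φ]
    push_cast
    have := hFn (i + K (2 * L))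
    linarith
  obtain ⟨s, hs, hmin⟩ : ∃ s, φ s ≤ 0 ∧ ∀ s' < s, 0 < φ s' :=
    ⟨Nat.find hex, Nat.find_spec hex, fun s' hs' => by
      have := Nat.find_min hex hs'
      omega⟩
  have hs2 : s ≤ 2 * L := by
    by_contra hcon
    push Not at hcon
    have := hmin (2 * L) hcon
    simp only [φ] at this
    push_cast at this
    have := hFn (i + K (2 * L))
    linarith
  have hs2' : (s : ℤ) ≤ 2 * L := by exact_mod_cast hs2
  have hs0 : s ≠ 0 := by
    rintro rfl
    simp only [φ, Nat.cast_zero, hK0, add_zero, sub_zero] at hs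
    have := (hF i hi0 (by linarith)).1
    linarith
  obtain ⟨r, rfl⟩ : ∃ r, s = r + 1 := ⟨s - 1, by omega⟩
  have hr := hmin r (by omega)
  simp only [φ] at hs hr
  push_cast at hs hr hs2'
  have hKr := hKl r
  have hr0 : (0 : ℤ) ≤ r := Int.natCast_nonneg r
  have hstep : |F (i + K (r + 1)) - F (i + K r)| ≤ 1 := by
    rw [abs_le] at hKr
    have hc : K (r + 1) = K r + 1 ∨ K (r + 1) = K r ∨ K (r + 1) = K r - 1 := by omega
    rcases hc with h | h | h
    · rw [h, ← add_assoc]; exact hFl _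
    · rw [h]; simp
    · have := hFl (i + (K r - 1))
      rw [h]
      rw [show (i : ℤ) + (K r - 1) + 1 = i + K r by ring] at this
      rw [abs_sub_comm]; exact this
  rw [abs_le] at hstep
  have hv := hver (r + 1) (by push_cast; exact hs2')
  push_cast at hv
  have hb := hK (r + 1) (by linarith) hs2'
  have hKn' := hKn (r + 1)
  refine hhor (i + K (r + 1)).toNat ?_ ?_
  · rw [Int.toNat_of_nonneg (by linarith)]
    linarith [hb.1]
  · rw [Int.toNat_of_nonneg (by linarith)]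
    refine full_near hprop hb.2 ?_ hv
    refine ⟨by simp, ?_⟩
    simp only
    rw [abs_le]
    constructor <;> linarith

theorem fil_comp {σ : Z2 → Lab} {g : Z2 → Z2} (hg : ∀ x y, Nb x y → Nb (g x) (g y))
    (hgi : Function.Injective g) {z : Z2} (h : FilL (fun y => σ (g y)) z) : FilL σ (g z) := by
  induction h with
  | seed h => exact Fil.seed h
  | one h hn _ ih => exact Fil.one h (hg _ _ hn) ih
  | two h hne h1 h2 _ _ ih1 ih2 =>
    exact Fil.two h (fun e => hne (hgi e)) (hg _ _ h1) (hg _ _ h2) ih1 ih2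

end UThm

open UThm

/-- few polluted sites: the origin gets filled -/
theorem up_thm (ε : ℝ) (hε : 0 < ε) : ∃ δ > 0, ∃ p0 > 0, ∀ (ν : Measure Lab)
    [IsProbabilityMeasure ν] (p : ℝ), 0 < p → p ≤ p0 → ν.real {Lab.P} ≤ δ * p ^ 2 →
    p ≤ ν.real {Lab.O, Lab.S} → 0 < ν.real {Lab.S} →
    (PM ν).real {σ : Z2 → Lab | ¬ FilL σ (0, 0)} ≤ ε := by
  classical
  set ρ1 : ℝ := min (1 / 36) (ε / 144) with hρ1
  have hρpos : 0 < ρ1 := lt_min (by norm_num) (by positivity)
  have hρ36 : ρ1 ≤ 1 / 36 := min_le_left _ _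
  have hρε : ρ1 ≤ ε / 144 := min_le_right _ _
  obtain ⟨δ, hδ, p0, hp0, hpkg⟩ := block_pkg (ρ1 ^ 625 / 9) (by positivity)
  refine ⟨min δ (ε / 4), lt_min hδ (by positivity), min p0 1, lt_min hp0 one_pos, ?_⟩
  intro ν _ p hp hpp hP ho hS
  have hp1 : p ≤ 1 := hpp.trans (min_le_right _ _)
  obtain ⟨m, G, hm, hGloc, hGp, hGmono, hprop⟩ := hpkg ν p hp (hpp.trans (min_le_left _ _))
    (hP.trans (mul_le_mul_of_nonneg_right (min_le_left _ _) (by positivity))) ho
  set s : ℝ := ν.real {Lab.S} ^ ((12 * m) * (12 * m)) with hs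
  have hs0 : 0 < s := by positivity
  have h3 : |3 * ρ1| < 1 := by
    rw [abs_of_nonneg (by positivity)]; linarith
  -- choice of L
  have hlim : Tendsto (fun L : ℕ => 2 * (6 * (L : ℝ) + 1) * (3 * ρ1) ^ (L + 1)) atTop (𝓝 0) := by
    have h1 := tendsto_pow_const_mul_const_pow_of_abs_lt_one 1 h3
    have h2 := tendsto_pow_const_mul_const_pow_of_abs_lt_one 0 h3
    have h4 := (h1.const_mul (12 * (3 * ρ1))).add (h2.const_mul (2 * (3 * ρ1)))
    simp only [mul_zero, add_zero] at h4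
    refine h4.congr fun L => ?_
    simp only [pow_one, pow_zero, one_mul]
    ring
  have hlim2 : Tendsto (fun L : ℕ => 4 / ((5 * (L : ℝ) + 1) * s)) atTop (𝓝 0) := by
    refine Tendsto.div_atTop tendsto_const_nhds ?_
    refine Tendsto.atTop_mul_const hs0 ?_
    refine tendsto_atTop_add_const_right _ _ ?_
    exact tendsto_natCast_atTop_atTop.const_mul_atTop (by norm_num)
  obtain ⟨L, hL1, hL2, hL3⟩ : ∃ L : ℕ, 1 ≤ L ∧
      2 * (6 * (L : ℝ) + 1) * (3 * ρ1) ^ (L + 1) ≤ ε / 16 ∧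
      4 / ((5 * (L : ℝ) + 1) * s) ≤ ε / 16 := by
    have e1 := hlim.eventually (ge_mem_nhds (show (0 : ℝ) < ε / 16 by positivity))
    have e2 := hlim2.eventually (ge_mem_nhds (show (0 : ℝ) < ε / 16 by positivity))
    obtain ⟨L, h1, h2, h3⟩ := ((eventually_ge_atTop 1).and (e1.and e2)).exists
    exact ⟨L, h1, h2, h3⟩
  -- horizontal path
  set Hf : Set (Z2 → Lab) := {σ | ¬ ∃ F : ℤ → ℤ, F 0 = 0 ∧ (∀ t, 0 ≤ F t) ∧
      (∀ t, |F (t + 1) - F t| ≤ 1) ∧
      ∀ t : ℤ, 0 ≤ t → t ≤ (6 * L : ℕ) → F t ≤ L ∧ σ ∉ BadB G (t, F t)} with hHf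
  have hH : (PM ν).real Hf ≤ 12 * ρ1 + ε / 16 := by
    have := path_prob (PM ν) (BadB G) Set.univ ρ1 1 hρpos.le hρ36 zero_le_one
      (fun A => badB_many hm ν hGloc hρpos.le (by linarith) hGp id Function.injective_id A)
      (6 * L) L
    rw [Set.univ_inter, mul_one] at this
    refine this.trans ?_
    push_cast
    linarith
  -- vertical paths
  let Bv : ℕ → Set (Z2 → Lab) := fun i => {σ | ¬ ∃ F : ℤ → ℤ, F 0 = 0 ∧ (∀ t, 0 ≤ F t) ∧
      (∀ t, |F (t + 1) - F t| ≤ 1) ∧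
      ∀ t : ℤ, 0 ≤ t → t ≤ (2 * L : ℕ) → F t ≤ L ∧ σ ∉ BadB G ((i : ℤ) + F t, 2 * L - t)}
  have hBv : ∀ i, (PM ν).real (Bv i) ≤ 12 * ρ1 + ε / 16 := by
    intro i
    have hinj : Function.Injective (fun z : Z2 => (((i : ℤ) + z.2, 2 * (L : ℤ) - z.1) : Z2)) := by
      rintro ⟨a, b⟩ ⟨c, d⟩ h
      simp only [Prod.mk.injEq] at h
      ext
      · simp only; linarith [h.2]
      · simp only; linarith [h.1]
    have := path_prob (PM ν) (fun z : Z2 => BadB G ((i : ℤ) + z.2, 2 * (L : ℤ) - z.1))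
      Set.univ ρ1 1 hρpos.le hρ36 zero_le_one
      (fun A => badB_many hm ν hGloc hρpos.le (by linarith) hGp _ hinj A) (2 * L) L
    rw [Set.univ_inter, mul_one] at this
    have h5 : 2 * (2 * (L : ℝ) + 1) * (3 * ρ1) ^ (L + 1) ≤
        2 * (6 * (L : ℝ) + 1) * (3 * ρ1) ^ (L + 1) := by
      have : (0 : ℝ) ≤ L := Nat.cast_nonneg L
      gcongr
      linarith
    refine this.trans ?_
    push_cast
    linarith
  have hBvloc : ∀ i, Loc (Bv i) (⋃ z ∈ ((Finset.Icc (0 : ℤ) (2 * L)) ×ˢ (Finset.Icc (0 : ℤ) L) :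
      Finset Z2), {y : Z2 | Near (64 * m) (((i : ℤ) + z.2) * (16 * m),
        (2 * (L : ℤ) - z.1) * (16 * m)) y}) := by
    intro i σ τ e hσ hτ
    apply hσ
    obtain ⟨F, hF0, hF1, hF2, hF3⟩ := hτ
    refine ⟨F, hF0, hF1, hF2, fun t ht0 htN => ⟨(hF3 t ht0 htN).1, fun hb => ?_⟩⟩
    refine (hF3 t ht0 htN).2 ((badB_loc hGloc _) σ τ (fun y hy => e y ?_) hb)
    simp only [Set.mem_iUnion]
    push_cast at htN
    exact ⟨(t, F t), by
      simp only [Finset.mem_product, Finset.mem_Icc]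
      exact ⟨⟨ht0, htN⟩, ⟨hF1 t, (hF3 t ht0 (by push_cast; exact htN)).1⟩⟩, hy⟩
  have hBvfin : ∀ i : ℕ, (⋃ z ∈ ((Finset.Icc (0 : ℤ) (2 * L)) ×ˢ (Finset.Icc (0 : ℤ) L) :
      Finset Z2), {y : Z2 | Near (64 * m) (((i : ℤ) + z.2) * (16 * m),
        (2 * (L : ℤ) - z.1) * (16 * m)) y}).Finite := fun i =>
    Set.Finite.biUnion (Finset.finite_toSet _) fun z _ => near_finite _ _
  have hBvmono : ∀ i, ∀ σ σ' : Z2 → Lab, (∀ y, σ' y = σ y ∨ σ' y = Lab.S) → σ' ∈ Bv i →
      σ ∈ Bv i := by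
    intro i σ σ' hy hσ' hσ
    apply hσ'
    obtain ⟨F, hF0, hF1, hF2, hF3⟩ := hσ
    refine ⟨F, hF0, hF1, hF2, fun t ht0 htN => ⟨(hF3 t ht0 htN).1, ?_⟩⟩
    rintro ⟨b', hb', hb''⟩
    refine (hF3 t ht0 htN).2 ⟨b', hb', fun hg => hb'' (hGmono b' σ σ' hy hg)⟩
  let T : ℕ → Set (Z2 → Lab) := fun i => {σ | ∀ y ∈ coreF m ((i : ℤ), 2 * (L : ℤ)), σ y = Lab.S}
  have hTp : ∀ i, (PM ν).real (T i) = s := by
    intro i
    have := seed_prob ν (coreF m ((i : ℤ), 2 * (L : ℤ)))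
    rw [card_coreF] at this
    exact this
  have hTloc : ∀ i, Loc (T i) (coreF m ((i : ℤ), 2 * (L : ℤ)) : Set Z2) := by
    intro i σ τ e hσ y hy
    rw [← e y (Finset.mem_coe.2 hy)]
    exact hσ y hy
  have hsm := second_moment (PM ν) (Finset.range (5 * L + 1)) T Bv
    (fun i _ => (hTloc i).measurableSet (Finset.finite_toSet _))
    (fun i _ j _ hij => PM_indep ν (Finset.finite_toSet _) (Finset.finite_toSet _) (hTloc i)
      (hTloc j) (by
        rw [Set.disjoint_left]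
        intro y hy hy'
        rw [Finset.mem_coe, mem_coreF] at hy hy'
        obtain ⟨a1, a2, _⟩ := hy
        obtain ⟨b1, b2, _⟩ := hy'
        simp only at a1 a2 b1 b2
        have hm' : (1 : ℤ) ≤ m := by exact_mod_cast hm
        rcases lt_or_gt_of_ne hij with h | h
        · have : (i : ℤ) + 1 ≤ j := by exact_mod_cast h
          nlinarith
        · have : (j : ℤ) + 1 ≤ i := by exact_mod_cast h
          nlinarith))
    (12 * ρ1 + ε / 16) ((5 * (L : ℝ) + 1) * s) (by positivity)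
    (by
      rw [Finset.sum_congr rfl fun i _ => hTp i, Finset.sum_const, Finset.card_range,
        nsmul_eq_mul]
      push_cast
      exact le_refl _)
    (by positivity)
    (fun i _ => by
      refine (neg_corr ν (hBvfin i) (hBvloc i) (hBvmono i)).trans ?_
      exact mul_le_mul_of_nonneg_right (hBv i) measureReal_nonneg)
  -- the site y0
  set y0 : Z2 := (2 * (m : ℤ), 2 * (m : ℤ)) with hy0
  have hm' : (1 : ℤ) ≤ m := by exact_mod_cast hm
  have hcov : {σ : Z2 → Lab | ¬ FilL σ y0} ⊆ (Hf ∪ {σ | ∀ i ∈ Finset.range (5 * L + 1),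
      σ ∈ T i → σ ∈ Bv i}) ∪ {σ : Z2 → Lab | σ y0 ∈ ({Lab.P} : Set Lab)} := by
    intro σ hσ
    by_contra hcon
    rw [Set.mem_union, Set.mem_union, not_or, not_or] at hcon
    obtain ⟨⟨c1, c2⟩, c3⟩ := hcon
    rw [hHf, Set.mem_ofPred_eq, not_not] at c1
    obtain ⟨F, hF0, hF1, hF2, hF3⟩ := c1
    simp only [Set.mem_ofPred_eq, not_forall] at c2
    obtain ⟨i, hi, hTi, hBi⟩ := c2
    simp only [Bv, Set.mem_ofPred_eq, not_not] at hBi
    obtain ⟨K, hK0, hK1, hK2, hK3⟩ := hBi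
    have hfull : Full m σ ((i : ℤ), 2 * (L : ℤ)) := by
      intro y hy _
      exact Fil.seed (hTi y (mem_coreF.2 hy))
    have h00 := cross hprop hL1 hF0 hF1 hF2 hF3 hK0 hK1 hK2
      (by have := Finset.mem_range.1 hi; omega) hK3 hfull
    apply hσ
    refine h00 y0 ?_ (fun h => c3 (by simp [h]))
    refine ⟨?_, ?_, ?_, ?_⟩ <;> simp only [hy0] <;> linarith
  have hmain : (PM ν).real {σ : Z2 → Lab | ¬ FilL σ y0} ≤ ε := by
    have h1 := measureReal_mono (μ := PM ν) hcov (measure_ne_top _ _)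
    have h2 : (PM ν).real {σ : Z2 → Lab | σ y0 ∈ ({Lab.P} : Set Lab)} ≤ ε / 4 := by
      rw [PM_coord]
      refine hP.trans ?_
      calc min δ (ε / 4) * p ^ 2 ≤ ε / 4 * 1 := by
            refine mul_le_mul (min_le_right _ _) ?_ (by positivity) (by positivity)
            exact pow_le_one₀ hp.le hp1
        _ = ε / 4 := mul_one _
    have h4 := measureReal_union_le (μ := PM ν) (Hf ∪ {σ | ∀ i ∈ Finset.range (5 * L + 1),
      σ ∈ T i → σ ∈ Bv i}) {σ : Z2 → Lab | σ y0 ∈ ({Lab.P} : Set Lab)}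
    have h5 := measureReal_union_le (μ := PM ν) Hf {σ | ∀ i ∈ Finset.range (5 * L + 1),
      σ ∈ T i → σ ∈ Bv i}
    linarith
  -- translation
  have htr := PM_reindex ν (Equiv.addRight y0) {σ : Z2 → Lab | ¬ FilL σ (0, 0)}
  rw [← htr]
  refine (measureReal_mono ?_ (measure_ne_top _ _)).trans hmain
  intro σ hσ hfil
  apply hσ
  have hg : ∀ x y : Z2, Nb x y → Nb ((Equiv.addRight y0).symm x) ((Equiv.addRight y0).symm y) := by
    intro x y h
    rcases h with ⟨h1, h2⟩ | ⟨h1, h2⟩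
    · left
      refine ⟨?_, ?_⟩
      · simp [h1]
      · simpa using h2
    · right
      refine ⟨?_, ?_⟩
      · simp [h1]
      · simpa using h2
  have h6 := fil_comp (σ := fun x => σ ((Equiv.addRight y0) x)) hg (Equiv.addRight y0).symm.injective
    (z := y0) (by simpa using hfil)
  have h7 : (Equiv.addRight y0).symm y0 = ((0, 0) : Z2) := by ext <;> simp
  rw [h7] at h6
  exact h6

end Pool.Agent.BP
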